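import Pool.Agent.Lib.MP_cc3443_ag.Invar

open Filter Set WithZero Module Finsupp

noncomputable section

namespace Pool.Agent.Lib.MP_cc3443_ag

variable {K : Type} [Field K] [Algebra ℂ K] {N N' : ℕ}

section FF
variable [IsFF K]

/-- The line bundle spanned by a vector, twisted by a divisor. -/
def line (s : Fin N → K) (D : Place K →₀ ℤ) : Lat K N := (Lat.free fun _ : Unit => s).twist D

lemma mem_line {s : Fin N → K} {D : Place K →₀ ℤ} {x : Place K} {w : Fin N → K} :
    w ∈ (line s D).S x ↔ ∃ z : K, x.val z ≤ exp (D x) ∧ w = z • s := by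
  have h := zpow_ne_zero (D x) x.unif_ne_zero
  rw [line, Lat.mem_twist, Lat.free_S, mem_span_O]
  constructor
  · rintro ⟨c, hc, e⟩
    refine ⟨(x.unif ^ D x)⁻¹ * c (), ?_, ?_⟩
    · rw [← x.zpow_mul_mem_iff, mul_inv_cancel_left₀ h]; exact hc ()
    · rw [mul_smul, eq_inv_smul_iff₀ h, e]; simp
  · rintro ⟨z, hz, rfl⟩
    exact ⟨fun _ => x.unif ^ D x * z, fun _ => x.zpow_mul_mem_iff.2 hz, by simp [smul_smul]⟩

@[simp] lemma gen_line (s : Fin N → K) (D : Place K →₀ ℤ) : (line s D).gen = K ∙ s := by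
  simp [line]

lemma twist_line (s : Fin N → K) (D D' : Place K →₀ ℤ) :
    (line s D).twist D' = line s (D + D') := Lat.twist_twist _ _ _

lemma smul_mem_line {s : Fin N → K} (hs : s ≠ 0) {D : Place K →₀ ℤ} {x : Place K} {z : K} :
    z • s ∈ (line s D).S x ↔ x.val z ≤ exp (D x) := by
  rw [mem_line]
  refine ⟨?_, fun h => ⟨z, h, rfl⟩⟩
  rintro ⟨z', h, e⟩
  rwa [smul_left_injective K hs e]

lemma line_le_iff {s : Fin N → K} {D : Place K →₀ ℤ} {F : Lat K N} :
    line s D ≤ F ↔ ∀ x : Place K, x.unif ^ (-D x) • s ∈ F.S x := by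
  refine ⟨fun h x => h x (mem_line.2 ⟨_, by rw [x.val_unif_zpow, neg_neg], rfl⟩),
    fun h x w hw => ?_⟩
  obtain ⟨z, hz, rfl⟩ := mem_line.1 hw
  have := Lat.smul_mem (x.zpow_mul_mem_iff.2 hz) (h x)
  rwa [smul_smul, mul_right_comm, ← zpow_add₀ x.unif_ne_zero, add_neg_cancel, zpow_zero,
    one_mul] at this

lemma line_le_line {s : Fin N → K} (hs : s ≠ 0) {D D' : Place K →₀ ℤ} :
    line s D ≤ line s D' ↔ D ≤ D' := by
  simp only [line_le_iff, smul_mem_line hs, Place.val_unif_zpow, neg_neg, exp_le_exp]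
  rfl

lemma line_inj {s : Fin N → K} (hs : s ≠ 0) {D D' : Place K →₀ ℤ} (h : line s D = line s D') :
    D = D' := le_antisymm ((line_le_line hs).1 h.le) ((line_le_line hs).1 h.ge)

lemma exists_line {L : Lat K N} {s : Fin N → K} (hs : s ≠ 0) (h : L.gen = K ∙ s) :
    ∃ D, L = line s D := by
  have h1 : ∀ x : Place K, ∃ d : ℤ, ∀ z : K, z • s ∈ L.S x ↔ x.val z ≤ exp d := by
    intro x
    obtain ⟨M, hM⟩ := Lat.exists_pow_smul_mem (L := L) x
      (h ▸ Submodule.mem_span_singleton_self s)
    obtain ⟨T, M', -, hb⟩ := Lat.exists_bound (L := L) (L' := line s 0) (by simp [h])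
    obtain ⟨d, hd, hd'⟩ := Int.exists_greatest_of_bdd (P := fun d => x.unif ^ (-d) • s ∈ L.S x)
      ⟨M', fun d hd => by
        have := hb x (x.unif ^ (M' : ℤ)) _ hd
          (by rw [x.val_unif_zpow, ← exp_zero, exp_le_exp]; omega)
          fun _ => (x.val_unif_zpow _).le
        rw [smul_smul, smul_mem_line hs, ← zpow_add₀ x.unif_ne_zero, x.val_unif_zpow,
          exp_le_exp] at this
        simp only [Finsupp.coe_zero, Pi.zero_apply] at this
        omega⟩
      ⟨-M, hM _ (by rw [neg_neg, x.val_unif_zpow])⟩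
    refine ⟨d, fun z => ⟨fun hz => ?_, fun hz => ?_⟩⟩
    · by_cases h0 : z = 0
      · simp [h0]
      rw [x.val_eq h0, exp_le_exp]
      refine hd' _ ?_
      rw [neg_neg]
      exact (Lat.smul_mem_iff_of_ord h0 (zpow_ne_zero _ x.unif_ne_zero)
        (by simp [x.ord_zpow])).1 hz
    · have := Lat.smul_mem (x.zpow_mul_mem_iff.2 hz) hd
      rwa [smul_smul, mul_right_comm, ← zpow_add₀ x.unif_ne_zero, add_neg_cancel, zpow_zero,
        one_mul] at this
  choose d hd using h1
  have h2 : (Function.support d).Finite := by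
    refine Set.Finite.subset (L.std_S.and (line s 0).std_S) fun x hx hx' => hx ?_
    have h3 : ∀ z : K, x.val z ≤ exp (d x) ↔ x.val z ≤ exp 0 := fun z => by
      rw [← hd, hx'.1, h, ← gen_line s 0, ← hx'.2, smul_mem_line hs]; rfl
    have h4 := (h3 (x.unif ^ (-d x))).1 (by rw [x.val_unif_zpow, neg_neg])
    have h5 := (h3 1).2 (by simp)
    rw [x.val_unif_zpow, exp_le_exp] at h4
    rw [map_one, ← exp_zero, exp_le_exp] at h5
    omega
  refine ⟨Finsupp.ofSupportFinite d h2, Lat.ext' fun x => ?_⟩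
  ext w
  rw [mem_line, Finsupp.ofSupportFinite_coe]
  constructor
  · intro hw
    obtain ⟨z, rfl⟩ := Submodule.mem_span_singleton.1 (h ▸ Lat.mem_gen hw)
    exact ⟨z, (hd x z).1 hw, rfl⟩
  · rintro ⟨z, hz, rfl⟩
    exact (hd x z).2 hz

/-- Principal divisors. -/
def divF (z : K) : Place K →₀ ℤ := Finsupp.ofSupportFinite (fun x => x.ord z) (Place.finite_ord z)

@[simp] lemma divF_apply (z : K) (x : Place K) : divF z x = x.ord z := rfl

lemma line_smul (s : Fin N → K) {z : K} (hz : z ≠ 0) (D : Place K →₀ ℤ) :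
    line (z • s) D = line s (D - divF z) := by
  refine Lat.ext' fun x => ?_
  ext w
  simp only [mem_line, Finsupp.sub_apply, divF_apply]
  constructor
  · rintro ⟨c, hc, rfl⟩
    refine ⟨c * z, ?_, smul_smul _ _ _⟩
    rw [map_mul, x.val_eq hz, sub_eq_add_neg, exp_add]
    exact mul_le_mul_left hc _
  · rintro ⟨c, hc, rfl⟩
    refine ⟨c * z⁻¹, ?_, by rw [smul_smul, inv_mul_cancel_right₀ hz]⟩
    rw [map_mul, x.val_eq (inv_ne_zero hz), x.ord_inv, neg_neg]
    refine (mul_le_mul_left hc _).trans ?_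
    rw [← exp_add]; simp

lemma mapL_line (s : Fin N → K) (D : Place K →₀ ℤ) (p : (Fin N → K) →ₗ[K] (Fin N' → K)) :
    (line s D).mapL p = line (p s) D := by
  refine Lat.ext' fun x => ?_
  ext w
  simp only [Lat.mem_mapL, mem_line]
  constructor
  · rintro ⟨_, ⟨z, hz, rfl⟩, rfl⟩
    exact ⟨z, hz, map_smul _ _ _⟩
  · rintro ⟨z, hz, rfl⟩
    exact ⟨_, ⟨z, hz, rfl⟩, map_smul _ _ _⟩

lemma degree_nonneg {α : Type*} {D : α →₀ ℤ} (h : 0 ≤ D) : 0 ≤ degree D :=
  Finset.sum_nonneg fun x _ => h x

lemma le_degree_of_nonneg {α : Type*} {D : α →₀ ℤ} (h : 0 ≤ D) (x : α) : D x ≤ degree D := by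
  by_cases hx : x ∈ D.support
  · exact Finset.single_le_sum (f := D) (fun x _ => h x) hx
  · rw [Finsupp.notMem_support_iff.1 hx]; exact degree_nonneg h

end FF

variable [Algebra (RatFunc ℂ) K] [IsScalarTower ℂ (RatFunc ℂ) K]
  [FiniteDimensional (RatFunc ℂ) K]

lemma rk_line {s : Fin N → K} (hs : s ≠ 0) (D : Place K →₀ ℤ) : rk (line s D) = 1 := by
  rw [rk, gen_line, finrank_span_singleton hs]

lemma exists_line_of_rk {L : Lat K N} (h : rk L = 1) : ∃ s D, s ≠ 0 ∧ L = line s D := by
  obtain ⟨s, hs, h0⟩ := Submodule.exists_mem_ne_zero_of_ne_bot (p := L.gen) (by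
    intro h'
    rw [rk, h', finrank_bot] at h
    exact zero_ne_one h)
  obtain ⟨D, hD⟩ := exists_line (L := L) h0 (Submodule.eq_of_le_of_finrank_eq
    ((Submodule.span_singleton_le_iff_mem _ _).2 hs) (by rw [finrank_span_singleton h0]; exact h.symm)).symm
  exact ⟨s, D, h0, hD⟩

lemma line_le_iff_sec {s : Fin N → K} {D : Place K →₀ ℤ} {F : Lat K N} :
    line s D ≤ F ↔ s ∈ sec (F.twist (-D)) 0 := by
  simp only [line_le_iff, mem_sec, tw_zero, one_smul, Lat.mem_twist, Finsupp.neg_apply]

lemma one_ne_zero' : (1 : Fin 1 → K) ≠ 0 := one_ne_zero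

lemma hdim_line {s : Fin N → K} (hs : s ≠ 0) (D : Place K →₀ ℤ) (n : ℤ) :
    hdim (line s D) n = hdim (line (1 : Fin 1 → K) D) n := by
  let p : (Fin 1 → K) →ₗ[K] (Fin N → K) := (LinearMap.proj 0).smulRight s
  have h1 : p 1 = s := by simp [p]
  rw [← h1, ← mapL_line, hdim_mapL]
  rw [eq_bot_iff]
  rintro w ⟨-, hw⟩
  have h2 : w 0 • s = 0 := hw
  rw [smul_eq_zero, or_iff_left hs] at h2
  exact funext fun i => by rw [Subsingleton.elim i 0]; exact h2

lemma chiL_line_one {s : Fin N → K} (hs : s ≠ 0) (D : Place K →₀ ℤ) :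
    chiL (line s D) = chiL (line (1 : Fin 1 → K) D) :=
  chiL_eq_of ((eventually_hdim _).mono fun n hn => (hdim_line hs D n).trans hn)

lemma chiL_line_step {s : Fin N → K} (hs : s ≠ 0) (D : Place K →₀ ℤ) (x : Place K) :
    chiL (line s (D + single x 1)) = chiL (line s D) + 1 := by
  classical
  have hle : line s D ≤ line s (D + single x 1) :=
    (line_le_line hs).2 (le_add_of_nonneg_right (single_nonneg.2 zero_le_one))
  have hr : rk (line s D) = rk (line s (D + single x 1)) := by rw [rk_line hs, rk_line hs]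
  refine le_antisymm ?_ (lt_of_le_of_ne (chiL_mono hle hr) fun h => ?_)
  · obtain ⟨n, h1, h2⟩ := ((eventually_hdim (line s D)).and
      (eventually_hdim (line s (D + single x 1)))).exists
    suffices hdim (line s (D + single x 1)) n ≤ hdim (line s D) n + 1 by
      rw [h1, h2, hr] at this; linarith
    have key : ∀ D' : Place K →₀ ℤ, ∀ z : K, z • s ∈ sec (line s D') n ↔
        ∀ y, y.val (tw y n * z) ≤ exp (D' y) := fun D' z => by
      simp only [mem_sec, smul_smul, smul_mem_line hs]
    by_cases h : sec (line s (D + single x 1)) n ≤ sec (line s D) n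
    · exact (Int.ofNat_le.2 (Submodule.finrank_mono h)).trans (Int.le_add_one le_rfl)
    obtain ⟨w₁, hw₁, hw₁'⟩ := SetLike.not_le_iff_exists.1 h
    have h3 : sec (line s (D + single x 1)) n ≤ sec (line s D) n ⊔ ℂ ∙ w₁ := by
      intro w hw
      obtain ⟨z, rfl⟩ := Submodule.mem_span_singleton.1 (gen_line s _ ▸ sec_le_gen hw)
      obtain ⟨z₁, rfl⟩ := Submodule.mem_span_singleton.1 (gen_line s _ ▸ sec_le_gen hw₁)
      have hne : ∀ {z : K}, z • s ∈ sec (line s (D + single x 1)) n → ∀ y, y ≠ x →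
          y.val (tw y n * z) ≤ exp (D y) := fun hz y hy => by
        simpa [single_apply, hy.symm] using (key _ _).1 hz y
      have h4 : x.val (tw x n * z₁) = exp (D x + 1) := by
        refine le_antisymm (by simpa using (key _ _).1 hw₁ x) (not_lt.1 fun hlt => hw₁' ?_)
        refine (key _ _).2 fun y => ?_
        by_cases hy : y = x
        · subst hy; simpa using y.val_lt_exp_iff.1 hlt
        · exact hne hw₁ y hy
      have h5 : z₁ ≠ 0 := by
        rintro rfl
        rw [mul_zero, map_zero] at h4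
        exact exp_ne_zero h4.symm
      have h6 : z / z₁ ∈ x.O := by
        rw [x.mem_iff, ← mul_div_mul_left _ _ (tw_ne_zero x n), map_div₀, h4,
          div_le_one₀ exp_pos]
        simpa using (key _ _).1 hw x
      obtain ⟨c, hc⟩ := x.exists_res h6
      have h7 : z • s = (z - c • z₁) • s + c • z₁ • s := by
        rw [sub_smul, smul_assoc, sub_add_cancel]
      rw [h7]
      refine Submodule.add_mem_sup ((key _ _).2 fun y => ?_)
        (Submodule.smul_mem _ _ (Submodule.mem_span_singleton_self _))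
      by_cases hy : y = x
      · subst hy
        have h8 : tw y n * (z - c • z₁) = (tw y n * z₁) * (z / z₁ - algebraMap ℂ K c) := by
          rw [Algebra.smul_def]; field_simp
        rw [h8, map_mul, h4]
        refine (mul_le_mul_right (y.val_lt_one_iff.1 hc) _).trans ?_
        rw [← exp_add]; simp
      · refine hne ?_ y hy
        rw [sub_smul, smul_assoc]
        exact sub_mem hw (Submodule.smul_mem _ _ hw₁)
    have h4 := (Submodule.finrank_mono h3).trans
      (Submodule.finrank_add_le_finrank_add_finrank _ _)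
    rw [finrank_span_singleton (by rintro rfl; exact hw₁' (zero_mem _))] at h4
    unfold hdim
    exact_mod_cast h4
  · have := DFunLike.congr_fun (line_inj hs (eq_of_chiL hle hr h)) x
    simp at this

variable (K) in
/-- The structure sheaf. -/
def OO : Lat K 1 := line 1 0

variable (K) in
/-- Euler characteristic of the structure sheaf. -/
def chiO : ℤ := chiL (OO K)

lemma chiL_line {s : Fin N → K} (hs : s ≠ 0) (D : Place K →₀ ℤ) :
    chiL (line s D) = chiO K + degree D := by
  have h1 : ∀ (E : Place K →₀ ℤ) (D : Place K →₀ ℤ),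
      chiL (line s (D + E)) = chiL (line s D) + degree E := by
    intro E
    induction E using Finsupp.induction_linear with
    | zero => simp
    | add f g hf hg => intro D; rw [← add_assoc, hg, hf, map_add, add_assoc]
    | single x b =>
      induction b using Int.induction_on with
      | zero => simp
      | succ i ih =>
        intro D
        rw [single_add, ← add_assoc, chiL_line_step hs, ih]
        simp [add_assoc]
      | pred i ih =>
        intro D
        have := chiL_line_step hs (D + single x (-(i : ℤ) - 1)) x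
        rw [add_assoc, ← single_add, sub_add_cancel, ih] at this
        simp only [degree_single] at this ⊢
        omega
  rw [← zero_add D, h1, chiL_line_one hs, zero_add]
  rfl

/-- The product formula. -/
lemma degree_divF (z : K) : degree (divF z) = 0 := by
  by_cases hz : z = 0
  · have : divF z = 0 := by ext x; simp [hz]
    simp [this]
  have h1 := chiL_line (smul_ne_zero hz (one_ne_zero' (K := K))) 0
  rw [line_smul _ hz, chiL_line one_ne_zero'] at h1
  simpa using h1

lemma exists_const {z : K} (h : ∀ x : Place K, z ∈ x.O) : ∃ c : ℂ, z = algebraMap ℂ K c := by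
  obtain ⟨x⟩ : Nonempty (Place K) := inferInstance
  obtain ⟨c, hc⟩ := x.exists_res (h x)
  refine ⟨c, sub_eq_zero.1 (by_contra fun h0 => ?_)⟩
  have h1 : 0 ≤ divF (z - algebraMap ℂ K c) := fun y =>
    (y.mem_iff_ord h0).1 (sub_mem (h y) (y.const c))
  have h2 := le_degree_of_nonneg h1 x
  rw [degree_divF, divF_apply] at h2
  rw [x.val_lt_one_iff, x.val_le_iff h0] at hc
  omega

lemma hO_eq (n : ℤ) : hO K n = hdim (OO K) n := by
  have h1 : Submodule.span ℂ {z : K | ∀ x : Place K, tw x n * z ∈ x.O} =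
      (sec (OO K) n).map (LinearEquiv.funUnique (Fin 1) ℂ K : (Fin 1 → K) →ₗ[ℂ] K) := by
    have h2 : ∀ w : Fin 1 → K, w ∈ sec (OO K) n ↔ ∀ x : Place K, tw x n * w 0 ∈ x.O := by
      intro w
      have : w = w 0 • (1 : Fin 1 → K) := funext fun i => by simp [Subsingleton.elim i 0]
      conv_lhs => rw [this]
      simp only [mem_sec, OO, smul_smul, smul_mem_line one_ne_zero', Place.mem_iff]
      rfl
    refine le_antisymm (Submodule.span_le.2 fun z hz => ⟨fun _ => z, (h2 _).2 hz, rfl⟩) ?_
    rintro _ ⟨w, hw, rfl⟩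
    exact Submodule.subset_span ((h2 w).1 hw)
  rw [hO, h1, LinearEquiv.finrank_map_eq, hdim]

lemma eventually_hO : ∀ᶠ n : ℤ in atTop, hO K n = chiO K + n * dlt K :=
  (eventually_hdim (OO K)).mono fun n hn => by
    rw [hO_eq, hn, OO, rk_line one_ne_zero']; simp [chiO, OO]

lemma HasGenus.chiO_eq {g : ℕ} (h : HasGenus K g) : chiO K = 1 - g :=
  (affine_unique (B := dlt K) (B' := dlt K) ((h.and eventually_hO).mono fun n hn => by
    rw [← hn.2, hn.1, dlt]; ring)).1

lemma hasClass_iff {E F : Lat K N} {ν : ℕ × ℤ} : HasClass E F ν ↔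
    F ≤ E ∧ rk E = rk F + ν.1 ∧ chiL E = chiL F + ν.2 + ν.1 * chiO K := by
  rw [HasClass, Lat.le_iff_st]
  refine and_congr_right fun _ => ⟨fun h => ?_, fun h => ?_⟩
  · have := affine_unique (A := chiL E) (B := dlt K * rk E) (A' := chiL F + ν.2 + ν.1 * chiO K)
      (B' := dlt K * (rk F + ν.1 : ℕ))
      ((h.and ((eventually_hdim E).and ((eventually_hdim F).and eventually_hO))).mono
        fun n hn => by rw [← hn.2.1, hn.1, hn.2.2.1, hn.2.2.2]; push_cast; ring)
    refine ⟨?_, this.1⟩
    exact_mod_cast mul_left_cancel₀ (Int.natCast_ne_zero.2 (dlt_pos (K := K)).ne') this.2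
  · refine ((eventually_hdim E).and ((eventually_hdim F).and (eventually_hO (K := K)))).mono
      fun n hn => ?_
    rw [hn.1, hn.2.1, hn.2.2, h.1, h.2]; push_cast; ring

end Pool.Agent.Lib.MP_cc3443_ag
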