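import Mathlib

open Filter Module

noncomputable section

namespace Pool.Agent.Lib.MP_cc3443_ag

/-- Euler integral on the affine line of a function that is constant off a finite set. -/
def chi1 (f : ℂ → ℂ) : ℂ :=
  (Classical.epsilon fun c => ∀ᶠ a in cofinite, f a = c) +
    ∑ᶠ a, (f a - Classical.epsilon fun c => ∀ᶠ a in cofinite, f a = c)

/-- Euler integral of a constructible function on affine `n`-space, fibre by fibre. -/
def chiN : (n : ℕ) → ((Fin n → ℂ) → ℂ) → ℂ
  | 0, F => F ![]
  | n + 1, F => chi1 fun a => chiN n fun c => F (Fin.cons a c)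

/-- Euler integral on a finite-dimensional complex vector space. -/
def chiV (W : Type) [AddCommGroup W] [Module ℂ W] (F : W → ℂ) : ℂ :=
  chiN (finrank ℂ W) fun c =>
    F (Classical.epsilon (fun e : (Fin (finrank ℂ W) → ℂ) →ₗ[ℂ] W => Function.Bijective e) c)

open Classical in
/-- Euler integral over the Grassmannian of subspaces of `W`, pulled back to the projectors
(an affine-space bundle over the Grassmannian). -/
def chiGr (W : Type) [AddCommGroup W] [Module ℂ W] (F : Submodule ℂ W → ℂ) : ℂ :=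
  chiV (W →ₗ[ℂ] W) fun P => if P ∘ₗ P = P then F (LinearMap.range P) else 0

/-- Euler integral over the Grassmannian of subspaces of `H ≤ V`. -/
def chiSub {V : Type} [AddCommGroup V] [Module ℂ V] (H : Submodule ℂ V) (F : Submodule ℂ V → ℂ) :
    ℂ :=
  chiGr H fun S => F (S.map H.subtype)

open Classical in
/-- Indicator of a proposition. -/
def ind (P : Prop) : ℂ := if P then 1 else 0

variable (K : Type) [Field K] [Algebra ℂ K]

/-- Closed points of the smooth projective curve with function field `K`. -/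
structure Place where
  O : ValuationSubring K
  ne_top : O ≠ ⊤
  const : ∀ c : ℂ, algebraMap ℂ K c ∈ O

/-- Vector bundles inside the constant sheaf `K^N`, given by their stalks. -/
structure Lat (N : ℕ) where
  gen : Submodule K (Fin N → K)
  st : Place K → Set (Fin N → K)
  fg : ∀ x, ∃ s : Finset (Fin N → K), st x = Submodule.span x.O (s : Set (Fin N → K))
  span_st : ∀ x, Submodule.span K (st x) = gen
  std : ∀ᶠ x in cofinite, st x = {w | w ∈ gen ∧ ∀ i, w i ∈ x.O}

variable {K} [Algebra (RatFunc ℂ) K]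

open Classical in
/-- Local generator of the inverse of the twist by `n` times the polar divisor of `X`. -/
def tw (x : Place K) (n : ℤ) : K :=
  if algebraMap (RatFunc ℂ) K RatFunc.X ∈ x.O then 1 else algebraMap (RatFunc ℂ) K RatFunc.X ^ (-n)

/-- Global sections of the `n`-th twist. -/
def sec {N : ℕ} (L : Lat K N) (n : ℤ) : Submodule ℂ (Fin N → K) :=
  Submodule.span ℂ {w | ∀ x, tw x n • w ∈ L.st x}

/-- Hilbert function. -/
def hdim {N : ℕ} (L : Lat K N) (n : ℤ) : ℤ := finrank ℂ (sec L n)

variable (K) in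
/-- Hilbert function of the structure sheaf. -/
def hO (n : ℤ) : ℤ :=
  finrank ℂ (Submodule.span ℂ {z : K | ∀ x : Place K, tw x n * z ∈ x.O})

variable (K) in
/-- The curve has genus `g`. -/
def HasGenus (g : ℕ) : Prop :=
  ∀ᶠ n : ℤ in atTop, hO K n = n * finrank (RatFunc ℂ) K + 1 - g

/-- The coherent sheaf `E / F` has rank `ν.1` and degree `ν.2`. -/
def HasClass {N : ℕ} (E F : Lat K N) (ν : ℕ × ℤ) : Prop :=
  (∀ x, F.st x ⊆ E.st x) ∧ ∀ᶠ n : ℤ in atTop, hdim E n = hdim F n + ν.2 + ν.1 * hO K n

variable (K) in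
/-- Functions on coherent sheaves `E / F`. -/
abbrev Fn : Type := (N : ℕ) → Lat K N → Lat K N → ℂ

/-- Euler characteristic Hall product. -/
def hall (f g : Fn K) : Fn K := fun N E F =>
  limUnder atTop fun n : ℤ => chiSub (sec E n) fun S =>
    ∑ᶠ G : Lat K N, ind (sec G n = S) * (f N E G * g N G F)

/-- Constant function on torsion sheaves of degree `d`. -/
def torsFn (d : ℕ) : Fn K := fun _ E F => ind (HasClass E F (0, d))

/-- Constant function on line bundles of degree `l`. -/
def lineFn (l : ℤ) : Fn K := fun _ E F =>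
  ind (HasClass E F (1, l) ∧ ∀ x, E.st x ∩ F.gen ⊆ F.st x)

/-- Graded pieces of the spherical Hall algebra. -/
inductive Sph : ℕ × ℤ → Fn K → Prop
  | tors (d : ℕ) : Sph (0, d) (torsFn d)
  | line (l : ℤ) : Sph (1, l) (lineFn l)
  | zero (ν) : Sph ν 0
  | add {ν f g} : Sph ν f → Sph ν g → Sph ν (f + g)
  | smul {ν f} (c : ℂ) : Sph ν f → Sph ν (c • f)
  | mul {μ ν f g} : Sph μ f → Sph ν g → Sph (μ + ν) (hall f g)

open Pointwise in
/-- Primitive for the coproduct `Δ f (M, M') = f (M ⊕ M')`. -/
def Prim (f : Fn K) : Prop :=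
  ∀ (N : ℕ) (E F G₁ G₂ : Lat K N), (∀ x, G₁.st x ∩ G₂.st x = F.st x ∧ G₁.st x + G₂.st x = E.st x) →
    f N E F = f N G₁ F * torsFn 0 N G₂ F + torsFn 0 N G₁ F * f N G₂ F

variable (K) in
/-- Graded pieces of the spherical Hall Lie algebra. -/
def sphLie (ν : ℕ × ℤ) : Submodule ℂ (Fn K) :=
  Submodule.span ℂ {f | Sph ν f ∧ Prim f}

end Pool.Agent.Lib.MP_cc3443_ag
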