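import Pool.Agent.Lib.MP_cc3443_ag.Lin
import Pool.Agent.Lib.MP_cc3443_ag.Defs

open Filter Set

noncomputable section

namespace Pool.Agent.Lib.MP_cc3443_ag

/-- Constant off a finite set. -/
def CofConst (f : ℂ → ℂ) : Prop := ∃ c, ∀ᶠ a in cofinite, f a = c

lemma chi1_eq {f : ℂ → ℂ} {c : ℂ} (hc : ∀ᶠ a in cofinite, f a = c) :
    chi1 f = c + ∑ᶠ a, (f a - c) := by
  have h := Classical.epsilon_spec (p := fun c => ∀ᶠ a in cofinite, f a = c) ⟨c, hc⟩
  obtain ⟨a, h1, h2⟩ := (h.and hc).exists
  unfold chi1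
  rw [← h1, h2]

lemma chi1_eq_sum {f : ℂ → ℂ} {c : ℂ} (s : Finset ℂ) (h : ∀ a ∉ s, f a = c) :
    chi1 f = c + ∑ a ∈ s, (f a - c) := by
  have hc : ∀ᶠ a in cofinite, f a = c :=
    s.finite_toSet.subset fun a ha => by by_contra h'; exact ha (h a h')
  rw [chi1_eq hc, finsum_eq_sum_of_support_subset]
  intro a ha
  by_contra h'
  exact ha (by simp [h a h'])

lemma CofConst.exists_finset {f : ℂ → ℂ} (h : CofConst f) :
    ∃ (c : ℂ) (s : Finset ℂ), ∀ a ∉ s, f a = c := by
  obtain ⟨c, hc⟩ := h
  refine ⟨c, (show Set.Finite {a | ¬ f a = c} from hc).toFinset, fun a ha => ?_⟩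
  simpa using ha

@[simp] lemma chi1_const (c : ℂ) : chi1 (fun _ => c) = c := by
  rw [chi1_eq_sum (c := c) ∅ fun _ _ => rfl]; simp

lemma CofConst.const (c : ℂ) : CofConst fun _ => c := ⟨c, Eventually.of_forall fun _ => rfl⟩

lemma CofConst.add {f g : ℂ → ℂ} (hf : CofConst f) (hg : CofConst g) :
    CofConst fun a => f a + g a := by
  obtain ⟨c, hc⟩ := hf
  obtain ⟨d, hd⟩ := hg
  exact ⟨c + d, (hc.and hd).mono fun a h => by simp only [h.1, h.2]⟩

lemma CofConst.const_mul {f : ℂ → ℂ} (hf : CofConst f) (v : ℂ) : CofConst fun a => v * f a := by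
  obtain ⟨c, hc⟩ := hf
  exact ⟨v * c, hc.mono fun a h => by simp only [h]⟩

lemma chi1_add {f g : ℂ → ℂ} (hf : CofConst f) (hg : CofConst g) :
    chi1 (fun a => f a + g a) = chi1 f + chi1 g := by
  classical
  obtain ⟨c, s, hs⟩ := hf.exists_finset
  obtain ⟨d, t, ht⟩ := hg.exists_finset
  rw [chi1_eq_sum (c := c) (s ∪ t) fun a ha => hs a fun h => ha (Finset.mem_union_left _ h),
    chi1_eq_sum (c := d) (s ∪ t) fun a ha => ht a fun h => ha (Finset.mem_union_right _ h),
    chi1_eq_sum (c := c + d) (s ∪ t) fun a ha => by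
      rw [hs a fun h => ha (Finset.mem_union_left _ h),
        ht a fun h => ha (Finset.mem_union_right _ h)]]
  simp only [Finset.sum_sub_distrib, Finset.sum_add_distrib]
  ring

lemma chi1_const_mul {f : ℂ → ℂ} (hf : CofConst f) (v : ℂ) :
    chi1 (fun a => v * f a) = v * chi1 f := by
  obtain ⟨c, s, hs⟩ := hf.exists_finset
  rw [chi1_eq_sum s hs, chi1_eq_sum (c := v * c) s fun a ha => by rw [hs a ha], mul_add,
    Finset.mul_sum]
  simp only [mul_sub]

lemma chi1_finsupp {f : ℂ → ℂ} (s : Finset ℂ) (h : ∀ a ∉ s, f a = 0) :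
    chi1 f = ∑ a ∈ s, f a := by
  rw [chi1_eq_sum s h]; simp

lemma Del.finite_or_cofinite {P : ℂ → Prop} (h : Del P) : {a | P a}.Finite ∨ {a | ¬ P a}.Finite := by
  have := (h.isCons ()).finite_or_cofinite fun _ => Polynomial.X
  simp only [Polynomial.eval_X, Set.mem_ofPred_eq] at this
  rcases this with h | h
  · left; exact h.subset fun a ha => ⟨trivial, ha⟩
  · right; exact h.subset fun a ha h' => ha h'.2

lemma DFun.cofConst {f : ℂ → ℂ} (h : DFun f) : CofConst f := by
  by_contra hc
  have h1 : ∀ v, {a | f a = v}.Finite := fun v =>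
    (h.del (· = v)).finite_or_cofinite.resolve_right fun h' => hc ⟨v, h'⟩
  have h2 : (⋃ v ∈ Set.range f, {a | f a = v}).Countable :=
    h.1.biUnion fun v _ => (h1 v).countable
  refine not_countable_complex (h2.mono fun a _ => ?_)
  simp

variable {Y : Type} [Coded Y]

lemma Del.injective_fin (k : ℕ) : Del fun a : Fin k → ℂ => Function.Injective a := by
  refine (Del.forall_finite fun i => Del.forall_finite fun j =>
    (Del.eq (f := fun a : Fin k → ℂ => a i) (g := fun a => a j) (by fun_prop) (by fun_prop)).imp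
      (Del.const (i = j))).congr fun a => Iff.rfl

lemma DFun.chi1 {F : Y × ℂ → ℂ} (h : DFun F) : DFun fun y => chi1 fun a => F (y, a) := by
  classical
  have := h.1.to_subtype
  have key : ∀ (k : ℕ) (v : Set.range F) (w : Fin k → Set.range F),
      Sig fun y => ∃ a : Fin k → ℂ, Function.Injective a ∧
        (∀ b, (∀ i, b ≠ a i) → F (y, b) = v) ∧ ∀ i, F (y, a i) = w i := by
    intro k v w
    refine Sig.exists' (Del.sig (Del.and ?_ (Del.and ?_ ?_)))
    · exact (Del.injective_fin k).comp (by fun_prop)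
    · refine Del.forall' (Del.imp (Del.forall_finite fun i => Del.ne (by fun_prop) (by fun_prop)) ?_)
      exact (h.del (· = (v : ℂ))).comp (f := fun p : (Y × (Fin k → ℂ)) × ℂ => (p.1.1, p.2))
        (by fun_prop)
    · refine Del.forall_finite fun i => ?_
      exact (h.del (· = (w i : ℂ))).comp (f := fun p : Y × (Fin k → ℂ) => (p.1, p.2 i))
        (by fun_prop)
  refine DFun.of_cover (δ := Σ k : ℕ, Set.range F × (Fin k → Set.range F))
    (fun d y => ∃ a : Fin d.1 → ℂ, Function.Injective a ∧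
        (∀ b, (∀ i, b ≠ a i) → F (y, b) = d.2.1) ∧ ∀ i, F (y, a i) = d.2.2 i)
    (fun d _ => (d.2.1 : ℂ) + ∑ i, ((d.2.2 i : ℂ) - d.2.1)) (fun d => key _ _ _)
    (fun d => DFun.const _) (fun y => ?_) ?_
  · obtain ⟨c, s, hs⟩ := (h.comp (f := fun a : ℂ => (y, a)) (by fun_prop)).cofConst.exists_finset
    obtain ⟨b, hb⟩ := Infinite.exists_notMem_finset s
    let e := s.equivFin.symm
    refine ⟨⟨s.card, ⟨c, (y, b), hs b hb⟩, fun i => ⟨F (y, e i), _, rfl⟩⟩, fun i => e i,
      Subtype.val_injective.comp e.injective, fun b hb => hs b fun hbs => ?_, fun i => rfl⟩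
    exact hb (e.symm ⟨b, hbs⟩) (by simp)
  · rintro ⟨k, v, w⟩ y ⟨a, ha, h1, h2⟩
    rw [chi1_eq_sum (c := v) (Finset.univ.image a) fun b hb => h1 b fun i hi => hb (by simp [hi]),
      Finset.sum_image fun i _ j _ hij => ha hij]
    simp only [h2]

lemma dmap_cons (n : ℕ) {X : Type} [Coded X] {f : X → Y} {g : X → Fin n → Y} (hf : DMap f)
    (hg : DMap g) : DMap fun x => (Fin.cons (f x) (g x) : Fin (n + 1) → Y) := by
  refine DMap.pi fun t => ?_
  refine Fin.cases ?_ (fun t => ?_) t
  · simpa only [Fin.cons_zero] using hf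
  · simp only [Fin.cons_succ]; fun_prop

lemma DFun.chiN (n : ℕ) {Y : Type} [Coded Y] {F : Y × (Fin n → ℂ) → ℂ} (h : DFun F) :
    DFun fun y => chiN n fun c => F (y, c) := by
  induction n generalizing Y with
  | zero => exact h.comp (f := fun y => (y, ![])) (by fun_prop)
  | succ n ih =>
    have h1 : DFun fun p : (Y × ℂ) × (Fin n → ℂ) => F (p.1.1, Fin.cons p.1.2 p.2) :=
      h.comp (DMap.prodMk (by fun_prop) (dmap_cons n (by fun_prop) (by fun_prop)))
    exact (ih h1).chi1

lemma DFun.slice_cons {n : ℕ} {F : (Fin (n + 1) → ℂ) → ℂ} (h : DFun F) :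
    DFun fun p : ℂ × (Fin n → ℂ) => F (Fin.cons p.1 p.2) :=
  h.comp (dmap_cons n (by fun_prop) (by fun_prop))

@[simp] lemma chiN_const (n : ℕ) (v : ℂ) : chiN n (fun _ => v) = v := by
  induction n with
  | zero => rfl
  | succ n ih => simp [chiN, ih]

lemma chiN_add (n : ℕ) {F G : (Fin n → ℂ) → ℂ} (hF : DFun F) (hG : DFun G) :
    chiN n (fun c => F c + G c) = chiN n F + chiN n G := by
  induction n with
  | zero => rfl
  | succ n ih =>
    simp only [chiN]
    rw [← chi1_add (hF.slice_cons.chiN n).cofConst (hG.slice_cons.chiN n).cofConst]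
    congr 1
    funext a
    exact ih (hF.slice_cons.comp (f := fun c => (a, c)) (by fun_prop))
      (hG.slice_cons.comp (f := fun c => (a, c)) (by fun_prop))

lemma chiN_const_mul (n : ℕ) {F : (Fin n → ℂ) → ℂ} (hF : DFun F) (v : ℂ) :
    chiN n (fun c => v * F c) = v * chiN n F := by
  induction n with
  | zero => rfl
  | succ n ih =>
    simp only [chiN]
    rw [← chi1_const_mul (hF.slice_cons.chiN n).cofConst]
    congr 1
    funext a
    exact ih (hF.slice_cons.comp (f := fun c => (a, c)) (by fun_prop))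

@[simp] lemma ind_true {P : Prop} (h : P) : ind P = 1 := by simp [ind, h]

@[simp] lemma ind_false {P : Prop} (h : ¬ P) : ind P = 0 := by simp [ind, h]

lemma ind_congr {P Q : Prop} (h : P ↔ Q) : ind P = ind Q := by rw [propext h]

lemma ind_and (P Q : Prop) : ind (P ∧ Q) = ind P * ind Q := by
  by_cases hP : P <;> by_cases hQ : Q <;> simp [hP, hQ]

lemma Del.ind {P : Y → Prop} (h : Del P) : DFun fun y => ind (P y) :=
  (DFun.of_del h).map Pool.Agent.Lib.MP_cc3443_ag.ind

/-- A nonempty affine subspace has Euler characteristic one. -/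
lemma chiN_affine (n : ℕ) (c₀ : Fin n → ℂ) (S : Submodule ℂ (Fin n → ℂ)) :
    chiN n (fun c => ind (c - c₀ ∈ S)) = 1 := by
  induction n with
  | zero => exact ind_true (by rw [Subsingleton.elim (_ - _) 0]; exact S.zero_mem)
  | succ n ih =>
    simp only [chiN]
    let ε : (Fin n → ℂ) →ₗ[ℂ] (Fin (n + 1) → ℂ) :=
      LinearMap.pi fun i => Fin.cases 0 (fun j => LinearMap.proj j) i
    have hε : ∀ c, ε c = Fin.cons 0 c := by
      intro c; ext i
      refine Fin.cases ?_ (fun j => ?_) i <;> simp [ε]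
    have key : ∀ (a : ℂ) (s : Fin (n + 1) → ℂ), s ∈ S → s 0 = a - c₀ 0 →
        chiN n (fun c => ind (Fin.cons a c - c₀ ∈ S)) = 1 := by
      intro a s hs h0
      rw [← ih (Fin.tail c₀ + Fin.tail s) (S.comap ε)]
      congr 1
      funext c
      refine ind_congr ?_
      rw [Submodule.mem_comap, hε, ← S.sub_mem_iff_left hs]
      have : (Fin.cons a c : Fin (n + 1) → ℂ) - c₀ - s =
          Fin.cons 0 (c - (Fin.tail c₀ + Fin.tail s)) := by
        ext i
        refine Fin.cases ?_ (fun j => ?_) i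
        · simp [h0]
        · simp [Fin.tail]; ring
      rw [this]
    by_cases h : ∃ s ∈ S, s 0 ≠ 0
    · obtain ⟨s, hs, h0⟩ := h
      have : (fun a => chiN n fun c => ind (Fin.cons a c - c₀ ∈ S)) = fun _ => 1 := by
        funext a
        refine key a (((a - c₀ 0) / s 0) • s) (S.smul_mem _ hs) ?_
        simp; field_simp
      rw [this, chi1_const]
    · push Not at h
      rw [chi1_finsupp {c₀ 0}, Finset.sum_singleton, key _ 0 S.zero_mem (by simp)]
      intro a ha
      have : (fun c => ind (Fin.cons a c - c₀ ∈ S)) = fun _ : Fin n → ℂ => 0 := by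
        funext c
        refine ind_false fun hc => ha ?_
        have := h _ hc
        simpa [sub_eq_zero] using this
      rw [this, chiN_const]

lemma chiN_point (n : ℕ) (c₀ : Fin n → ℂ) : chiN n (fun c => ind (c = c₀)) = 1 := by
  simpa [sub_eq_zero] using chiN_affine n c₀ ⊥

/-- Vectors whose first nonzero coordinate is one. -/
def Normalized : (n : ℕ) → (Fin n → ℂ) → Prop
  | 0, _ => False
  | n + 1, c => c 0 = 1 ∨ (c 0 = 0 ∧ Normalized n (Fin.tail c))

lemma del_normalized (n : ℕ) : Del (Normalized n) := by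
  induction n with
  | zero => exact Del.const False
  | succ n ih =>
    refine (Del.eq (by fun_prop) (DMap.const _)).or ((Del.eq (by fun_prop) (DMap.const _)).and ?_)
    exact ih.comp (DMap.pi fun t => by simp only [Fin.tail]; fun_prop)

lemma chiN_normalized (n : ℕ) : chiN n (fun c => ind (Normalized n c)) = n := by
  classical
  induction n with
  | zero => exact (ind_false id).trans Nat.cast_zero.symm
  | succ n ih =>
    simp only [chiN, Normalized, Fin.cons_zero, Fin.tail_cons]
    rw [chi1_finsupp {0, 1}, Finset.sum_pair zero_ne_one]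
    · simp [ih]
    · intro a ha
      simp only [Finset.mem_insert, Finset.mem_singleton, not_or] at ha
      simp [ha.1, ha.2]

lemma Normalized.ne_zero {n : ℕ} {c : Fin n → ℂ} (h : Normalized n c) : c ≠ 0 := by
  induction n with
  | zero => exact h.elim
  | succ n ih =>
    rintro rfl
    rcases h with h | ⟨-, h⟩
    · simp at h
    · exact ih h rfl

lemma exists_normalized {n : ℕ} {c : Fin n → ℂ} (h : c ≠ 0) :
    ∃ a : ℂ, a ≠ 0 ∧ Normalized n (a • c) := by
  induction n with
  | zero => exact absurd (Subsingleton.elim _ _) h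
  | succ n ih =>
    by_cases h0 : c 0 = 0
    · have : Fin.tail c ≠ 0 := by
        intro h'
        apply h
        rw [← Fin.cons_self_tail c, h0, h']
        ext i; refine Fin.cases ?_ (fun j => ?_) i <;> simp
      obtain ⟨a, ha, h1⟩ := ih this
      exact ⟨a, ha, Or.inr ⟨by simp [h0], h1⟩⟩
    · exact ⟨(c 0)⁻¹, inv_ne_zero h0, Or.inl (by simp [h0])⟩

lemma Normalized.eq_one {n : ℕ} {c : Fin n → ℂ} {a : ℂ} (h : Normalized n c)
    (h' : Normalized n (a • c)) : a = 1 := by
  induction n with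
  | zero => exact h.elim
  | succ n ih =>
    rcases h with h | ⟨h0, h⟩
    · rcases h' with h' | ⟨h0', h'⟩
      · simpa [h] using h'
      · have : a = 0 := by simpa [h] using h0'
        subst this
        exact absurd (by ext; simp [Fin.tail]) h'.ne_zero
    · rcases h' with h' | ⟨-, h'⟩
      · simp [h0] at h'
      · exact ih h h'

end Pool.Agent.Lib.MP_cc3443_ag
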