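import Pool.Agent.Lib.MP_cc3443_ag.Lower

open Filter Set WithZero Module Polynomial

noncomputable section

namespace Pool.Agent.Lib.MP_cc3443_ag

variable {K : Type} [Field K] [Algebra ℂ K] [Algebra (RatFunc ℂ) K]
  [IsScalarTower ℂ (RatFunc ℂ) K] [FiniteDimensional (RatFunc ℂ) K]

lemma vI_le_of_mem {r : RatFunc ℂ} {x : Place K} (hx : x ∈ Ui K)
    (h : algebraMap (RatFunc ℂ) K r ∈ x.O) : vI r ≤ 1 := by
  by_contra! h1
  have h0 : vI r ≠ 0 := (zero_lt_one.trans h1).ne'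
  have h2 : vI (RatFunc.X * r⁻¹) ≤ 1 := by
    rw [map_mul, map_inv₀, vI_X, mul_inv_le_iff₀ (zero_lt_one.trans h1), one_mul]
    rw [← exp_log h0, ← exp_zero, exp_lt_exp] at h1
    rw [← exp_log h0, exp_le_exp]
    omega
  have h3 := x.O.mul_mem _ _ (Ri_mem h2 hx) h
  rw [← map_mul, inv_mul_cancel_right₀ (by simpa using h0)] at h3
  exact hx h3

lemma mem_A0_of_mem {r : RatFunc ℂ} (h : ∀ x ∈ U0 K, algebraMap (RatFunc ℂ) K r ∈ x.O) :
    r ∈ A0 := by
  obtain ⟨p, hp, h1⟩ := exists_poly_approx r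
  obtain ⟨c, hc⟩ := exists_const (z := algebraMap (RatFunc ℂ) K (r - p)) fun x => by
    rcases U0_or_Ui x with hx | hx
    · rw [map_sub]; exact sub_mem (h x hx) (A0_mem hp hx)
    · exact Ri_mem h1.le hx
  rw [IsScalarTower.algebraMap_apply ℂ (RatFunc ℂ) K, (algebraMap (RatFunc ℂ) K).injective.eq_iff,
    sub_eq_iff_eq_add] at hc
  rw [hc]
  exact add_mem (A0.algebraMap_mem c) hp

lemma mem_A0_of_sq {r : RatFunc ℂ} {p : ℂ[X]} (hp : Squarefree p)
    (h : r ^ 2 * algebraMap ℂ[X] (RatFunc ℂ) p ∈ A0) : r ∈ A0 := by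
  obtain ⟨q, hq⟩ := mem_A0.1 h
  have h0 := RatFunc.algebraMap_ne_zero r.denom_ne_zero
  have h1 : q * (r.denom * r.denom) = r.num * r.num * p := by
    apply RatFunc.algebraMap_injective
    simp only [map_mul, hq]
    conv_lhs => enter [1, 1]; rw [← r.num_div_denom]
    field_simp
  have h2 := r.isCoprime_num_denom.symm
  have h3 : IsUnit r.denom := hp _ ((h2.mul_right h2).mul_left (h2.mul_right h2)
    |>.dvd_of_dvd_mul_left (h1 ▸ dvd_mul_left _ _))
  rw [← r.num_div_denom, r.monic_denom.isUnit_iff.1 h3, map_one, div_one]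
  exact ⟨_, rfl⟩

omit [Algebra (RatFunc ℂ) K] [IsScalarTower ℂ (RatFunc ℂ) K] [FiniteDimensional (RatFunc ℂ) K] in
lemma Place.sq_mem_iff [IsFF K] (x : Place K) {z : K} : z ^ 2 ∈ x.O ↔ z ∈ x.O := by
  rw [x.mem_iff, x.mem_iff, map_pow, pow_le_one_iff two_ne_zero]

lemma hasGenus_hyper {g : ℕ} {p : ℂ[X]} (hp : Squarefree p) (hd : p.natDegree = 2 * g + 1) {y : K}
    (hy : y ^ 2 = algebraMap (RatFunc ℂ) K (algebraMap ℂ[X] (RatFunc ℂ) p))
    (hs : ∀ z : K, ∃ a b : RatFunc ℂ, algebraMap _ K a + algebraMap _ K b * y = z)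
    (σ : K ≃ₐ[RatFunc ℂ] K) (hσ : σ y = -y) : HasGenus K g := by
  have h0 : ∀ f : Fin 2 → RatFunc ℂ, ∑ i, f i • ![(1 : Fin 1 → K), y • 1] i =
      (algebraMap _ K (f 0) + algebraMap _ K (f 1) * y) • (1 : Fin 1 → K) := fun f => by
    simp [add_smul, mul_smul]
  have hp0 : p ≠ 0 := hp.ne_zero
  have hy0 : y ≠ 0 := by
    rintro rfl
    rw [zero_pow two_ne_zero, eq_comm, map_eq_zero] at hy
    exact RatFunc.algebraMap_ne_zero hp0 hy
  have h2 : (2 : K) ≠ 0 := by
    rw [← map_ofNat (algebraMap ℂ K) 2, Ne, map_eq_zero]; exact two_ne_zero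
  have h3 : ∀ a b : RatFunc ℂ, σ (algebraMap _ K a + algebraMap _ K b * y) =
      algebraMap _ K a - algebraMap _ K b * y := fun a b => by
    simp [hσ, sub_eq_add_neg]
  have h4 : ∀ (P : Prop → Prop) (a b : RatFunc ℂ),
      (∀ x : Place K, P (uu K ∈ x.O) → algebraMap _ K a + algebraMap _ K b * y ∈ x.O) ↔
      ∀ x : Place K, P (uu K ∈ x.O) → algebraMap _ K a ∈ x.O ∧ algebraMap _ K
        (b ^ 2 * algebraMap ℂ[X] (RatFunc ℂ) p) ∈ x.O := fun P a b => by
    simp only [map_mul, map_pow, ← hy, ← mul_pow, Place.sq_mem_iff]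
    refine ⟨fun h x hx => ?_, fun h x hx => add_mem (h x hx).1 (h x hx).2⟩
    let x' : Place K := ⟨x.O.comap σ.toRingEquiv.toRingHom, fun h1 => x.ne_top (eq_top_iff.2
      fun z _ => by simpa using (h1.ge (ValuationSubring.mem_top (σ.symm z)) : σ _ ∈ x.O)),
      fun c => by
        change σ _ ∈ x.O
        rw [IsScalarTower.algebraMap_apply ℂ (RatFunc ℂ) K, σ.commutes,
          ← IsScalarTower.algebraMap_apply]
        exact x.const c⟩
    have h5 : (uu K ∈ x'.O) = (uu K ∈ x.O) := by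
      change (σ (algebraMap _ _ _) ∈ x.O) = _
      rw [σ.commutes]; rfl
    have h6 : σ _ ∈ x.O := h x' (h5 ▸ hx)
    rw [h3] at h6
    have h7 := x.smul_mem 2⁻¹ (add_mem (h x hx) h6)
    have h8 : algebraMap (RatFunc ℂ) K a ∈ x.O := by
      convert h7 using 1
      rw [Algebra.smul_def, map_inv₀, map_ofNat]
      field_simp
      ring
    exact ⟨h8, by simpa using sub_mem (h x hx) h8⟩
  have h5 : ∀ (U : Set (Place K)) (z : K), z • (1 : Fin 1 → K) ∈ (OO K).Γ U ↔ ∀ x ∈ U, z ∈ x.O :=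
    fun U z => by simp [Lat.mem_Γ, OO, mem_line_one, Place.mem_iff]
  have h6 : ∀ b : RatFunc ℂ, vI (b ^ 2 * algebraMap ℂ[X] (RatFunc ℂ) p) ≤ 1 ↔
      vI b ≤ exp (-(g + 1 : ℤ)) := fun b => by
    by_cases hb : vI b = 0
    · simp [hb]
    rw [map_mul, map_pow, vI_poly hp0, ← exp_log hb, sq, ← exp_add, ← exp_add, ← exp_zero,
      exp_le_exp, exp_le_exp, hd]
    omega
  have hB : IsBG (OO K) ![(1 : Fin 1 → K), y • 1] ![0, -(g + 1 : ℤ)] :=
    { li := Fintype.linearIndependent_iff.2 fun f hf => by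
        rw [h0, smul_eq_zero, or_iff_left one_ne_zero] at hf
        have h7 := h3 (f 0) (f 1)
        rw [hf, map_zero] at h7
        have h8 : algebraMap (RatFunc ℂ) K (f 0) = 0 :=
          mul_left_cancel₀ h2 (by linear_combination hf - h7)
        rw [h8, zero_add, mul_eq_zero, or_iff_left hy0] at hf
        intro i
        fin_cases i
        · simpa using h8
        · simpa using hf
      span := fun w => by
        obtain ⟨a, b, h⟩ := hs (w 0)
        refine iff_of_true (by simp [OO, span_one_top]) ⟨![a, b], ?_⟩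
        rw [h0, eq_smul_one w, ← h]
        simp
      fin := fun f => by
        rw [h0, h5, Fin.forall_fin_two]
        refine (h4 id _ _).trans ⟨fun h => ⟨mem_A0_of_mem fun x hx => (h x hx).1,
          mem_A0_of_sq hp (mem_A0_of_mem fun x hx => (h x hx).2)⟩, fun h x hx =>
          ⟨A0_mem h.1 hx, A0_mem (mul_mem (pow_mem h.2 2) ⟨p, rfl⟩) hx⟩⟩
      inf := fun f => by
        rw [h0, h5, Fin.forall_fin_two]
        obtain ⟨x, hx⟩ := (good_Ui (K := K)).ne
        refine (h4 Not _ _).trans ⟨fun h => ⟨vI_le_of_mem hx (h x hx).1,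
          (h6 _).1 (vI_le_of_mem hx (h x hx).2)⟩, fun h x hx =>
          ⟨Ri_mem h.1 hx, Ri_mem ((h6 _).2 h.2) hx⟩⟩ }
  have h7 : chiO K = 1 - g := by
    rw [chiO, hB.chiL_eq]; simp; ring
  exact eventually_hO.mono fun n hn => by rw [hn, h7, dlt]; ring

theorem exists_hasGenus (g : ℕ) : ∃ (K : Type) (_ : Field K) (_ : Algebra ℂ K)
    (_ : Algebra (RatFunc ℂ) K) (_ : IsScalarTower ℂ (RatFunc ℂ) K)
    (_ : FiniteDimensional (RatFunc ℂ) K), HasGenus K g := by
  let p : ℂ[X] := X ^ (2 * g + 1) - C 1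
  have hp : Squarefree p :=
    (separable_X_pow_sub_C 1 (Nat.cast_ne_zero.2 (by omega)) one_ne_zero).squarefree
  have hd : p.natDegree = 2 * g + 1 := natDegree_X_pow_sub_C
  let r := algebraMap ℂ[X] (RatFunc ℂ) p
  haveI : Fact (∀ b : RatFunc ℂ, b ^ 2 ≠ r + 0 * b) := ⟨fun b h => by
    have h1 := congrArg vI h
    rw [zero_mul, add_zero, map_pow, vI_poly hp.ne_zero, hd] at h1
    have hb : vI b ≠ 0 := fun h0 => by simpa [h0] using h1.symm
    rw [← exp_log hb, sq, ← exp_add, exp_inj] at h1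
    omega⟩
  refine ⟨QuadraticAlgebra (RatFunc ℂ) r 0, inferInstance, inferInstance, inferInstance,
    inferInstance, inferInstance, hasGenus_hyper hp hd (y := QuadraticAlgebra.omega) ?_
      (fun z => ⟨z.re, z.im, ?_⟩) (AlgEquiv.ofRingEquiv (f := starRingAut) fun a => ?_) ?_⟩
  · ext <;> simp [sq, r]
  · ext <;> simp
  · ext <;> simp
  · ext <;> simp

end Pool.Agent.Lib.MP_cc3443_ag
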