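import Pool.Agent.Lib.MP_cc3443_ag.Place

open Filter Set WithZero IsDedekindDomain

noncomputable section

namespace Pool.Agent.Lib.MP_cc3443_ag

variable {K : Type} [Field K] [Algebra ℂ K]

/-- Sets of places that behave like the closed points of an affine or semilocal chart. -/
structure Good (U : Set (Place K)) : Prop where
  ne : U.Nonempty
  den : ∀ x ∈ U, ∀ z ∈ x.O, ∃ s ∈ chartRing U, s ≠ 0 ∧ s⁻¹ ∈ x.O ∧ s * z ∈ chartRing U
  mem : ∀ x : Place K, (∀ z ∈ chartRing U, z ∈ x.O) → x ∈ U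

lemma exists_place_of_ideal (A : Subalgebra ℂ K) (J : Ideal A) (hJ : J ≠ ⊤) {s : A} (hs : s ∈ J)
    (hs0 : s ≠ 0) : ∃ x : Place K, (∀ z ∈ A, z ∈ x.O) ∧ ∀ a ∈ J, (a : K) ∈ x.O.nonunits := by
  obtain ⟨O, h1, h2⟩ := Ideal.image_subset_nonunits_valuationSubring (A := A.toSubring) J hJ
  refine ⟨⟨O, ?_, fun c => h1 (A.algebraMap_mem c)⟩, fun z hz => h1 hz,
    fun a ha => h2 ⟨a, ha, rfl⟩⟩
  rintro rfl
  have h3 : (s : K) ∈ (⊤ : ValuationSubring K).nonunits := h2 ⟨s, hs, rfl⟩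
  rw [← inv_inv (s : K), ValuationSubring.inv_mem_nonunits_iff] at h3
  rcases h3 with h | h
  · exact hs0 (Subtype.ext (inv_eq_zero.1 h))
  · exact h trivial

variable [IsFF K]

lemma Place.mem_nonunits_iff (x : Place K) {z : K} : z ∈ x.O.nonunits ↔ x.val z < 1 := by
  rw [← inv_inv z, ValuationSubring.inv_mem_nonunits_iff, inv_inv]
  by_cases hz : z = 0
  · simp [hz]
  · simp [hz, x.inv_mem_iff hz]

lemma exists_place_over {v : K} (hv : Transcendental ℂ v) (a : ℂ) :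
    ∃ x : Place K, x.val (v - algebraMap ℂ K a) < 1 := by
  let e := Polynomial.algEquivOfTranscendental ℂ v hv
  have h1 : Ideal.span {e (Polynomial.X - Polynomial.C a)} ≠ ⊤ := by
    rw [Ne, Ideal.span_singleton_eq_top, MulEquiv.isUnit_map]
    exact Polynomial.not_isUnit_X_sub_C a
  obtain ⟨x, -, hx⟩ := exists_place_of_ideal _ _ h1 (Ideal.mem_span_singleton_self _)
    ((map_ne_zero_iff e e.injective).2 (Polynomial.X_sub_C_ne_zero a))
  refine ⟨x, ?_⟩
  have := x.mem_nonunits_iff.1 (hx _ (Ideal.mem_span_singleton_self _))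
  simpa [e] using this

lemma Place.mem_of_val_sub_lt (x : Place K) {v : K} {a : ℂ}
    (h : x.val (v - algebraMap ℂ K a) < 1) : v ∈ x.O := by
  have := x.O.add_mem _ _ (x.mem_iff.2 h.le) (x.const a)
  simpa using this

instance : Nonempty (Place K) := by
  obtain ⟨u, hu⟩ := IsFF.ex (K := K)
  obtain ⟨x, -⟩ := exists_place_over hu 0
  exact ⟨x⟩

lemma good_fin {v : K} (hv : Transcendental ℂ v) : Good {x : Place K | v ∈ x.O} where
  ne := by
    obtain ⟨x, hx⟩ := exists_place_over hv 0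
    exact ⟨x, x.mem_of_val_sub_lt hx⟩
  den := fun x hx _ hz => exists_denom hv x hx hz
  mem := fun _ hx => hx v fun _ hy => hy

lemma Place.one_lt_val_sub (x : Place K) {v : K} (hv : v ∉ x.O) (a : ℂ) :
    1 < x.val (v - algebraMap ℂ K a) := by
  by_contra h
  have := x.O.add_mem _ _ (x.mem_iff.2 (not_lt.1 h)) (x.const a)
  exact hv (by simpa using this)

lemma transc_sub_ne {v : K} (hv : Transcendental ℂ v) (a : ℂ) : v - algebraMap ℂ K a ≠ 0 := by
  intro h
  exact hv (sub_eq_zero.1 h ▸ isAlgebraic_algebraMap a)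

lemma Place.not_mem_of_inv_sub_mem (x : Place K) {v : K} (hv : Transcendental ℂ v)
    (h : ∀ a : ℂ, (v - algebraMap ℂ K a)⁻¹ ∈ x.O) : v ∉ x.O := by
  intro hx
  obtain ⟨a, ha⟩ := x.exists_res hx
  exact absurd ((x.inv_mem_iff (transc_sub_ne hv a)).1 (h a)) (not_le.2 ha)

lemma good_inf {v : K} (hv : Transcendental ℂ v) : Good {x : Place K | v ∉ x.O} where
  ne := by
    obtain ⟨x, hx⟩ := exists_place_over (transc_inv hv) 0
    refine ⟨x, fun h => ?_⟩
    rw [map_zero, sub_zero] at hx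
    rw [← inv_inv v, x.inv_mem_iff (inv_ne_zero (transc_ne_zero hv))] at h
    exact absurd hx (not_lt.2 h)
  den := fun x hx z hz => by
    obtain ⟨s, h1, h2, h3, h4⟩ := exists_denom (transc_inv hv) x
      ((x.O.mem_or_inv_mem v).resolve_left hx) hz
    exact ⟨s, fun y hy => h1 y ((y.O.mem_or_inv_mem v).resolve_left hy), h2, h3,
      fun y hy => h4 y ((y.O.mem_or_inv_mem v).resolve_left hy)⟩
  mem := fun x hx => x.not_mem_of_inv_sub_mem hv fun a => hx _ fun y hy =>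
    (y.inv_mem_iff (transc_sub_ne hv a)).2 (y.one_lt_val_sub hy a).le

namespace Good
variable {U : Set (Place K)} (hU : Good U)
include hU

lemma sep {x y : Place K} (hx : x ∈ U) (hy : y ∈ U) (hxy : y ≠ x) :
    ∃ s ∈ chartRing U, x.val s = 1 ∧ y.val s < 1 := by
  obtain ⟨z, hzx, hzy⟩ : ∃ z ∈ x.O, z ∉ y.O := by
    by_contra h
    push Not at h
    exact hxy (Place.eq_of_le h).symm
  obtain ⟨s, h1, h2, h3, h4⟩ := hU.den x hx z hzx
  refine ⟨s, h1, le_antisymm (x.mem_iff.1 (h1 x hx)) ((x.inv_mem_iff h2).1 h3), ?_⟩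
  by_contra h
  have h5 := y.O.mul_mem _ _ ((y.inv_mem_iff h2).2 (not_lt.1 h)) (h4 y hy)
  rw [← mul_assoc, inv_mul_cancel₀ h2, one_mul] at h5
  exact hzy h5

omit hU in
lemma val_prod_le {α : Type*} (S : Finset α) (s : α → K) (y : Place K) (hs : ∀ a ∈ S, s a ∈ y.O)
    {a : α} (ha : a ∈ S) : y.val (∏ b ∈ S, s b) ≤ y.val (s a) := by
  classical
  rw [← Finset.mul_prod_erase _ _ ha, map_mul]
  refine mul_le_of_le_one_right' (y.mem_iff.1 ?_)
  exact prod_mem fun b hb => hs b (Finset.mem_of_mem_erase hb)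

omit hU in
lemma val_pow_le {y : Place K} {s : K} (h : y.val s < 1) (M : ℕ) :
    y.val (s ^ M) ≤ exp (-(M : ℤ)) := by
  rw [map_pow]
  refine (pow_le_pow_left' (y.val_lt_one_iff.1 h) M).trans ?_
  rw [← exp_nsmul]; simp

/-- Approximation inside a chart. -/
lemma approx {x : Place K} (hx : x ∈ U) {S : Set (Place K)} (hS : S.Finite) (M : ℕ) :
    ∃ s ∈ chartRing U, x.val (s - 1) ≤ exp (-(M : ℤ)) ∧
      ∀ y ∈ S, y ∈ U → y ≠ x → y.val s ≤ exp (-(M : ℤ)) := by
  classical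
  have h1 : ∀ y : Place K, ∃ s ∈ chartRing U, x.val s = 1 ∧ (y ∈ U → y ≠ x → y.val s < 1) := by
    intro y
    by_cases h : y ∈ U ∧ y ≠ x
    · obtain ⟨s, h1, h2, h3⟩ := hU.sep hx h.1 h.2
      exact ⟨s, h1, h2, fun _ _ => h3⟩
    · exact ⟨1, one_mem _, by simp, fun h1 h2 => absurd ⟨h1, h2⟩ h⟩
  choose s hs1 hs2 hs3 using h1
  let s₀ := ∏ y ∈ hS.toFinset, s y ^ M
  have h0 : s₀ ∈ chartRing U := prod_mem fun y _ => pow_mem (hs1 y) M
  have h0x : x.val s₀ = 1 := by simp [s₀, map_prod, hs2]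
  obtain ⟨c, hc⟩ := x.exists_res (h0 x hx)
  have hc0 : c ≠ 0 := by
    rintro rfl
    simp [h0x] at hc
  let s₁ := c⁻¹ • s₀
  have h1 : s₁ ∈ chartRing U := Subalgebra.smul_mem _ h0 _
  have h1x : x.val (1 - s₁) < 1 := by
    have : 1 - s₁ = (-c⁻¹) • (s₀ - algebraMap ℂ K c) := by
      simp only [s₁, Algebra.smul_def, map_neg, map_inv₀]
      have : algebraMap ℂ K c ≠ 0 := by simpa using hc0
      field_simp
      ring
    rw [this]
    exact (x.val_smul_le _ _).trans_lt hc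
  refine ⟨1 - (1 - s₁) ^ M, sub_mem (one_mem _) (pow_mem (sub_mem (one_mem _) h1) _), ?_, ?_⟩
  · rw [sub_sub_cancel_left, Valuation.map_neg]
    exact val_pow_le h1x M
  · intro y hyS hy hyx
    rw [← mul_neg_geom_sum, sub_sub_cancel, map_mul]
    have h2 : y.val (∑ i ∈ Finset.range M, (1 - s₁) ^ i) ≤ 1 :=
      y.mem_iff.1 ((sum_mem fun i _ => pow_mem (sub_mem (one_mem _) h1) i :
        _ ∈ chartRing U) y hy)
    refine (mul_le_of_le_one_right' h2).trans ((y.val_smul_le _ _).trans ?_)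
    refine (val_prod_le _ _ y (fun b _ => pow_mem (hs1 b y hy) M) (hS.mem_toFinset.2 hyS)).trans ?_
    exact val_pow_le (hs3 y hy hyx) M

lemma exists_small {S : Set (Place K)} (hS : S.Finite) (M : ℕ) :
    ∃ r ∈ chartRing U, r ≠ 0 ∧ ∀ y ∈ S, y ∈ U → y.val r ≤ exp (-(M : ℤ)) := by
  classical
  have h1 : ∀ y : Place K, ∃ s ∈ chartRing U, s ≠ 0 ∧ (y ∈ U → y.val s < 1) := by
    intro y
    by_cases h : y ∈ U
    · have ht : y.val y.unif < 1 := by rw [y.val_lt_one_iff, y.val_unif]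
      obtain ⟨s, h1, h2, -, h4⟩ := hU.den y h y.unif (y.mem_iff.2 ht.le)
      refine ⟨s * y.unif, h4, mul_ne_zero h2 y.unif_ne_zero, fun _ => ?_⟩
      rw [map_mul]
      exact (mul_le_of_le_one_left' (y.mem_iff.1 (h1 y h))).trans_lt ht
    · exact ⟨1, one_mem _, one_ne_zero, fun h1 => absurd h1 h⟩
  choose s hs1 hs2 hs3 using h1
  refine ⟨∏ y ∈ hS.toFinset, s y ^ M, prod_mem fun y _ => pow_mem (hs1 y) M,
    Finset.prod_ne_zero_iff.2 fun y _ => pow_ne_zero _ (hs2 y), fun y hyS hy => ?_⟩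
  refine (val_prod_le _ _ y (fun b _ => pow_mem (hs1 b y hy) M) (hS.mem_toFinset.2 hyS)).trans ?_
  exact val_pow_le (hs3 y hy) M

variable {V : Type} [AddCommGroup V] [Module K V]

omit [IsFF K] in
lemma den_span (Λ : Submodule (chartRing U) V) {x : Place K} (hx : x ∈ U) {w : V}
    (hw : w ∈ Submodule.span x.O (Λ : Set V)) :
    ∃ s ∈ chartRing U, s ≠ 0 ∧ s⁻¹ ∈ x.O ∧ s • w ∈ Λ := by
  induction hw using Submodule.span_induction with
  | mem w hw => exact ⟨1, one_mem _, one_ne_zero, by simp, by simpa using hw⟩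
  | zero => exact ⟨1, one_mem _, one_ne_zero, by simp, by simp⟩
  | add a b _ _ ha hb =>
    obtain ⟨s, h1, h2, h3, h4⟩ := ha
    obtain ⟨t, h5, h6, h7, h8⟩ := hb
    refine ⟨s * t, mul_mem h1 h5, mul_ne_zero h2 h6, by
      rw [mul_inv]; exact x.O.mul_mem _ _ h3 h7, ?_⟩
    rw [smul_add]
    refine Λ.add_mem ?_ ?_
    · rw [mul_comm, mul_smul]; exact Λ.smul_mem ⟨t, h5⟩ h4
    · rw [mul_smul]; exact Λ.smul_mem ⟨s, h1⟩ h8
  | smul c a _ ha =>
    obtain ⟨s, h1, h2, h3, h4⟩ := ha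
    obtain ⟨t, h5, h6, h7, h8⟩ := hU.den x hx c c.2
    refine ⟨s * t, mul_mem h1 h5, mul_ne_zero h2 h6, by
      rw [mul_inv]; exact x.O.mul_mem _ _ h3 h7, ?_⟩
    have : (s * t) • c • a = (t * c) • s • a := by
      change (s * t) • (c : K) • a = _
      rw [smul_smul, smul_smul]; congr 1; ring
    rw [this]
    exact Λ.smul_mem ⟨_, h8⟩ h4

/-- Local-global principle for modules over a chart ring. -/
lemma mem_of_local (Λ : Submodule (chartRing U) V) {w : V}
    (hw : ∀ x ∈ U, w ∈ Submodule.span x.O (Λ : Set V)) : w ∈ Λ := by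
  let J : Ideal (chartRing U) := Λ.comap (LinearMap.toSpanSingleton (chartRing U) V w)
  by_contra hne
  have hJ : J ≠ ⊤ := by
    intro h
    have : (1 : chartRing U) ∈ J := h ▸ Submodule.mem_top
    exact hne (by simpa [J] using this)
  obtain ⟨x₀, hx₀⟩ := hU.ne
  obtain ⟨s₀, h1, h2, -, h4⟩ := hU.den_span Λ hx₀ (hw x₀ hx₀)
  obtain ⟨x, hx, hxJ⟩ := exists_place_of_ideal _ J hJ (s := ⟨s₀, h1⟩) h4
    (fun h => h2 (congrArg Subtype.val h))
  have hxU := hU.mem x hx
  obtain ⟨s, h5, h6, h7, h8⟩ := hU.den_span Λ hxU (hw x hxU)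
  have := x.mem_nonunits_iff.1 (hxJ ⟨s, h5⟩ h8)
  exact absurd ((x.inv_mem_iff h6).1 h7) (not_le.2 this)

end Good

omit [Algebra ℂ K] [IsFF K] in
lemma exists_gens_general (R F : Type) [CommRing R] [IsDedekindDomain R] [Field F] [Algebra R F]
    [IsFractionRing R F] [Algebra F K] [FiniteDimensional F K] [CharZero F] [Algebra R K]
    [IsScalarTower R F K] : ∃ Λ : Submodule R K, Λ.FG ∧ ∀ z : K,
      (∀ O : ValuationSubring K, O ≠ ⊤ → (∀ r, algebraMap R K r ∈ O) → z ∈ O) → z ∈ Λ := by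
  haveI := integralClosure.isDedekindDomain R F K
  haveI := integralClosure.isFractionRing_of_finite_extension (A := R) F K
  haveI := IsIntegralClosure.finite R F K (integralClosure R K)
  refine ⟨(integralClosure R K).toSubmodule, Module.Finite.iff_fg.1 this, fun z hz => ?_⟩
  obtain ⟨b, rfl⟩ := HeightOneSpectrum.mem_integers_of_valuation_le_one
    (R := integralClosure R K) K z fun w => by
    refine hz (w.valuation K).valuationSubring ?_
      fun r => w.valuation_le_one (K := K) (algebraMap _ _ r)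
    simp only [ne_eq, Valuation.valuationSubring_eq_top_iff, not_not]
    infer_instance
  exact b.2

instance (x : Place K) : IsDiscreteValuationRing x.O := by
  haveI : x.val.IsNontrivial := ⟨x.unif, by simp [x.val_unif], by simp [x.val_unif]⟩
  have := Valuation.valuationSubring_isDiscreteValuationRing x.val
  have e : x.val.valuationSubring = x.O := x.exists_val.choose_spec.2
  exact e ▸ this

end Pool.Agent.Lib.MP_cc3443_ag
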