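import Pool.Agent.Lib.MP_cc3443_ag.Key

open Filter Set

noncomputable section

namespace Pool.Agent.Lib.MP_cc3443_ag

lemma chi1_chiN_swap (n : ℕ) {F : ℂ × (Fin n → ℂ) → ℂ} (h : DFun F) :
    chi1 (fun a => chiN n fun c => F (a, c)) = chiN n fun c => chi1 fun a => F (a, c) := by
  induction n with
  | zero => rfl
  | succ n ih =>
    simp only [chiN]
    have h1 : DFun fun p : (ℂ × ℂ) × (Fin n → ℂ) => F (p.1.1, Fin.cons p.1.2 p.2) :=
      h.comp (DMap.prodMk (by fun_prop) (dmap_cons n (by fun_prop) (by fun_prop)))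
    rw [keyFubini (h1.chiN n)]
    congr 1
    funext b
    exact ih (h1.comp (f := fun p : ℂ × (Fin n → ℂ) => ((p.1, b), p.2)) (by fun_prop))

lemma chiN_swap (m n : ℕ) {F : (Fin m → ℂ) × (Fin n → ℂ) → ℂ} (h : DFun F) :
    chiN m (fun a => chiN n fun c => F (a, c)) = chiN n fun c => chiN m fun a => F (a, c) := by
  induction m with
  | zero => rfl
  | succ m ih =>
    simp only [chiN]
    have h1 : DFun fun p : (ℂ × (Fin n → ℂ)) × (Fin m → ℂ) => F (Fin.cons p.1.1 p.2, p.1.2) :=
      h.comp (DMap.prodMk (dmap_cons m (by fun_prop) (by fun_prop)) (by fun_prop))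
    rw [← chi1_chiN_swap n (h1.chiN m)]
    congr 1
    funext a
    exact ih (h1.comp (f := fun p : (Fin m → ℂ) × (Fin n → ℂ) => ((a, p.2), p.1)) (by fun_prop))

/-- A constructible parametrisation whose fibres have Euler characteristic one. -/
structure Chart (Y : Type) [Coded Y] where
  n : ℕ
  S : (Fin n → ℂ) → Prop
  hS : Del S
  dec : (Fin n → ℂ) → Y
  hdec : DMap dec
  fib : ∀ c, S c → chiN n (fun c' => ind (S c' ∧ dec c' = dec c)) = 1

variable {Y Z : Type} [Coded Y] [Coded Z]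

namespace Chart

/-- The parametrised set. -/
def R (C : Chart Y) (y : Y) : Prop := ∃ c, C.S c ∧ C.dec c = y

/-- Euler integral over the parametrised set. -/
def int (C : Chart Y) (F : Y → ℂ) : ℂ := chiN C.n fun c => ind (C.S c) * F (C.dec c)

variable (C : Chart Y)

lemma int_congr {F G : Y → ℂ} (h : ∀ y, C.R y → F y = G y) : C.int F = C.int G := by
  unfold int
  congr 1
  funext c
  by_cases hc : C.S c
  · rw [h _ ⟨c, hc, rfl⟩]
  · simp [hc]

@[simp] lemma int_zero : C.int (fun _ => 0) = 0 := by simp [int]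

lemma int_eq_zero {F : Y → ℂ} (h : ∀ y, C.R y → F y = 0) : C.int F = 0 := by
  rw [C.int_congr h, int_zero]

lemma dfun {F : Y → ℂ} (h : DFun F) : DFun fun c => ind (C.S c) * F (C.dec c) :=
  C.hS.ind.mul (h.comp C.hdec)

lemma int_add {F G : Y → ℂ} (hF : DFun F) (hG : DFun G) :
    C.int (fun y => F y + G y) = C.int F + C.int G := by
  unfold int
  rw [← chiN_add _ (C.dfun hF) (C.dfun hG)]
  simp only [mul_add]

lemma int_const_mul {F : Y → ℂ} (hF : DFun F) (v : ℂ) :
    C.int (fun y => v * F y) = v * C.int F := by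
  unfold int
  rw [← chiN_const_mul _ (C.dfun hF)]
  simp only [mul_left_comm]

lemma int_mul_const {F : Y → ℂ} (hF : DFun F) (v : ℂ) :
    C.int (fun y => F y * v) = C.int F * v := by
  simpa only [mul_comm] using C.int_const_mul hF v

lemma int_sum {ι : Type*} (s : Finset ι) {F : ι → Y → ℂ} (h : ∀ i ∈ s, DFun (F i)) :
    C.int (fun y => ∑ i ∈ s, F i y) = ∑ i ∈ s, C.int (F i) := by
  classical
  induction s using Finset.induction_on with
  | empty => simp
  | insert a s ha ih =>
    simp only [Finset.sum_insert ha]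
    rw [C.int_add (h a (Finset.mem_insert_self _ _))
      (DFun.sum s fun i hi => h i (Finset.mem_insert_of_mem hi)),
      ih fun i hi => h i (Finset.mem_insert_of_mem hi)]

lemma dfun_int {F : Z × Y → ℂ} (h : DFun F) : DFun fun z => C.int fun y => F (z, y) := by
  have hd := C.hdec
  have h1 : DFun fun p : Z × (Fin C.n → ℂ) => ind (C.S p.2) * F (p.1, C.dec p.2) :=
    (C.hS.comp (by fun_prop)).ind.mul (h.comp (by fun_prop))
  exact h1.chiN C.n

lemma int_swap (C' : Chart Z) {F : Y × Z → ℂ} (h : DFun F) :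
    C.int (fun y => C'.int fun z => F (y, z)) = C'.int fun z => C.int fun y => F (y, z) := by
  have hd := C.hdec
  have hd' := C'.hdec
  have h1 : DFun fun p : (Fin C.n → ℂ) × (Fin C'.n → ℂ) =>
      ind (C.S p.1) * (ind (C'.S p.2) * F (C.dec p.1, C'.dec p.2)) :=
    (C.hS.comp (by fun_prop)).ind.mul ((C'.hS.comp (by fun_prop)).ind.mul (h.comp (by fun_prop)))
  have h2 := chiN_swap _ _ h1
  unfold int
  convert h2 using 3 with a c
  · exact (chiN_const_mul _ (C'.dfun (h.comp (f := fun z => (C.dec a, z)) (by fun_prop))) _).symm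
  · rw [← chiN_const_mul]
    · simp only [mul_left_comm]
    · exact C.dfun (h.comp (f := fun y => (y, C'.dec c)) (by fun_prop))

lemma int_point {y₀ : Y} (h : C.R y₀) : C.int (fun y => ind (y = y₀)) = 1 := by
  obtain ⟨c, hc, rfl⟩ := h
  rw [← C.fib c hc]
  simp only [int, ind_and]

lemma int_single [DEq Y] {F : Y → ℂ} {y₀ : Y} (h : C.R y₀) (hF : ∀ y, C.R y → y ≠ y₀ → F y = 0) :
    C.int F = F y₀ := by
  rw [C.int_congr (G := fun y => F y₀ * ind (y = y₀)), C.int_const_mul, C.int_point h, mul_one]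
  · exact (Del.eq (by fun_prop) (by fun_prop)).ind
  · intro y hy
    by_cases e : y = y₀
    · simp [e]
    · simp [e, hF y hy e]

lemma int_finite [DEq Y] {F : Y → ℂ} (s : Finset Y) (h : ∀ y ∈ s, C.R y)
    (hF : ∀ y, C.R y → y ∉ s → F y = 0) : C.int F = ∑ y ∈ s, F y := by
  classical
  rw [C.int_congr (G := fun y => ∑ y₀ ∈ s, F y₀ * ind (y = y₀)), C.int_sum]
  · refine Finset.sum_congr rfl fun y₀ hy₀ => ?_
    rw [C.int_const_mul, C.int_point (h _ hy₀), mul_one]
    exact (Del.eq (by fun_prop) (by fun_prop)).ind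
  · intro y₀ _
    exact (DFun.const _).mul (Del.eq (by fun_prop) (by fun_prop)).ind
  · intro y hy
    by_cases e : y ∈ s
    · rw [Finset.sum_eq_single y]
      · simp
      · intro b _ hb; simp [Ne.symm hb]
      · intro h'; exact absurd e h'
    · rw [hF y hy e]
      refine (Finset.sum_eq_zero fun b hb => ?_).symm
      have : y ≠ b := fun h' => e (h' ▸ hb)
      simp [this]

/-- Double counting along a constructible correspondence. -/
lemma double_count (C' : Chart Z) {Γ : Y × Z → Prop} (hΓ : Del Γ) {F : Y → ℂ} {F' : Z → ℂ}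
    (hF : DFun F) (he : ∀ y z, C.R y → C'.R z → Γ (y, z) → F y = F' z) :
    C.int (fun y => F y * C'.int fun z => ind (Γ (y, z))) =
      C'.int fun z => F' z * C.int fun y => ind (Γ (y, z)) := by
  have h1 : DFun fun p : Y × Z => F p.1 * ind (Γ p) := (hF.comp (by fun_prop)).mul hΓ.ind
  have h2 := C.int_swap C' h1
  refine Eq.trans (C.int_congr fun y _ => ?_) (h2.trans (C'.int_congr fun z hz => ?_))
  · exact (C'.int_const_mul (hΓ.comp (f := fun z => (y, z)) (by fun_prop)).ind _).symm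
  · rw [← C.int_const_mul]
    · refine C.int_congr fun y hy => ?_
      by_cases hyz : Γ (y, z)
      · simp only [he y z hy hz hyz]
      · simp [hyz]
    · exact (hΓ.comp (f := fun y => (y, z)) (by fun_prop)).ind

/-- Change of variables along a constructible bijection. -/
lemma change [DEq Y] [DEq Z] (C' : Chart Z) {Γ : Y × Z → Prop} (hΓ : Del Γ) {F : Y → ℂ}
    {F' : Z → ℂ} (hF : DFun F) (he : ∀ y z, C.R y → C'.R z → Γ (y, z) → F y = F' z)
    (h1 : ∀ y, C.R y → F y ≠ 0 → ∃ z, C'.R z ∧ Γ (y, z) ∧ ∀ z', C'.R z' → Γ (y, z') → z' = z)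
    (h2 : ∀ z, C'.R z → F' z ≠ 0 → ∃ y, C.R y ∧ Γ (y, z) ∧ ∀ y', C.R y' → Γ (y', z) → y' = y) :
    C.int F = C'.int F' := by
  have h3 := C.double_count C' hΓ hF he
  refine Eq.trans (C.int_congr fun y hy => ?_) (h3.trans (C'.int_congr fun z hz => ?_))
  · by_cases h0 : F y = 0
    · simp [h0]
    · obtain ⟨z, hz, hyz, hu⟩ := h1 y hy h0
      rw [C'.int_single hz fun z' hz' hne => ind_false fun h => hne (hu z' hz' h)]
      simp [hyz]
  · by_cases h0 : F' z = 0
    · simp [h0]
    · obtain ⟨y, hy, hyz, hu⟩ := h2 z hz h0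
      rw [C.int_single hy fun y' hy' hne => ind_false fun h => hne (hu y' hy' h)]
      simp [hyz]

/-- Independence of the chart. -/
lemma int_indep [DEq Y] (C' : Chart Y) {F : Y → ℂ} (hF : DFun F)
    (h : ∀ y, F y ≠ 0 → (C.R y ↔ C'.R y)) : C.int F = C'.int F :=
  C.change C' (Γ := fun p => p.1 = p.2) DEq.eq hF (fun _ _ _ _ h => congrArg F h)
    (fun y hy h0 => ⟨y, (h y h0).1 hy, rfl, fun _ _ h => h.symm⟩)
    (fun y hy h0 => ⟨y, (h y h0).2 hy, rfl, fun _ _ h => h⟩)

end Chart

end Pool.Agent.Lib.MP_cc3443_ag
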