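import Pool.Agent.Lib.MP_cc3443_ag.Chart
import Pool.Agent.Lib.MP_cc3443_ag.Dual

open Filter Set WithZero MvPolynomial

noncomputable section

namespace Pool.Agent.Lib.MP_cc3443_ag

section poly
variable {σ : Type} [Finite σ]

lemma span_monomial (σ : Type) :
    Submodule.span ℂ (range fun d : σ →₀ ℕ => (monomial d 1 : MvPolynomial σ ℂ)) = ⊤ :=
  (basisMonomials σ ℂ).span_eq

lemma exists_codedPoly (σ : Type) [Finite σ] : ∃ _ : Coded (MvPolynomial σ ℂ),
    LinCoded (MvPolynomial σ ℂ) ∧ DMap fun p : MvPolynomial σ ℂ × (σ → ℂ) => eval p.2 p.1 := by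
  classical
  have := Fintype.ofFinite σ
  letI := Coded.ofSpan _ (span_monomial σ)
  refine ⟨this, linCoded_ofSpan _ (span_monomial σ), (PMap.of_polyval ?_).dmap⟩
  rintro ⟨(s : Finset (σ →₀ ℕ)), j⟩
  refine ⟨s, inferInstance, fun a => X (Sum.inl a) * ∏ k, X (Sum.inr ⟨k, ()⟩) ^ (a.1 k),
    fun _ => 1, fun c _ => ?_⟩
  change eval (fun k => c (Sum.inr ⟨k, ()⟩)) (∑ a : s, c (Sum.inl a) • monomial a.1 1) = _
  simp [map_sum, eval_monomial, Finsupp.prod_fintype]

instance codedPoly : Coded (MvPolynomial σ ℂ) := (exists_codedPoly σ).choose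

instance : LinCoded (MvPolynomial σ ℂ) := (exists_codedPoly σ).choose_spec.1

instance : DAdd (MvPolynomial σ ℂ) := LinCoded.dAdd
instance : DNeg (MvPolynomial σ ℂ) := LinCoded.dNeg
instance : DMul (MvPolynomial σ ℂ) := ⟨(PMap.bilin (LinearMap.mul ℂ (MvPolynomial σ ℂ))).dmap⟩

lemma dmap_mvEval : DMap fun p : MvPolynomial σ ℂ × (σ → ℂ) => eval p.2 p.1 :=
  (exists_codedPoly σ).choose_spec.2

end poly

variable (K : Type) [Field K] [Algebra ℂ K] [Algebra (RatFunc ℂ) K]
  [IsScalarTower ℂ (RatFunc ℂ) K] [FiniteDimensional (RatFunc ℂ) K]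

/-- Number of module generators of the affine coordinate ring. -/
def nG : ℕ := (exists_gens_chartRing (uu_transc (K := K))).choose

/-- Algebra generators of the affine coordinate ring. -/
def gG : Option (Fin (nG K)) → K := fun o =>
  o.elim (uu K) (exists_gens_chartRing (uu_transc (K := K))).choose_spec.choose

/-- Polynomials in the generators. -/
abbrev Pol : Type := MvPolynomial (Option (Fin (nG K))) ℂ

variable {K}

/-- Presentation of the affine coordinate ring. -/
def thP : Pol K →ₐ[ℂ] K := aeval (gG K)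

lemma gG_mem (o : Option (Fin (nG K))) : gG K o ∈ chartRing (U0 K) := by
  cases o with
  | none => exact fun x hx => hx
  | some i => exact (exists_gens_chartRing (uu_transc (K := K))).choose_spec.choose_spec.1 i

lemma thP_mem (P : Pol K) : thP P ∈ chartRing (U0 K) := by
  induction P using MvPolynomial.induction_on with
  | C a => simp [thP]
  | add p q hp hq => rw [map_add]; exact add_mem hp hq
  | mul_X p k hp => rw [map_mul, thP, aeval_X]; exact mul_mem hp (gG_mem k)

lemma thP_surj {z : K} (hz : z ∈ chartRing (U0 K)) : ∃ P, thP P = z := by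
  obtain ⟨p, rfl⟩ := (exists_gens_chartRing (uu_transc (K := K))).choose_spec.choose_spec.2 z hz
  refine ⟨∑ i : Fin (nG K), Polynomial.aeval (X none) (p i) * X (some i), ?_⟩
  rw [map_sum]
  refine Finset.sum_congr rfl fun i _ => ?_
  rw [map_mul, ← Polynomial.aeval_algHom_apply]
  simp [thP, gG]

lemma exists_thP_div (z : K) : ∃ P Q : Pol K, thP P / thP Q = z := by
  obtain ⟨x, hx⟩ := good_U0 (K := K).ne
  have key : ∀ z ∈ x.O, ∃ P Q : Pol K, thP P / thP Q = z := fun z hz => by
    obtain ⟨s, h1, h2, -, h4⟩ := good_U0.den x hx z hz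
    obtain ⟨P, hP⟩ := thP_surj h4
    obtain ⟨Q, hQ⟩ := thP_surj h1
    exact ⟨P, Q, by rw [hP, hQ, mul_div_cancel_left₀ _ h2]⟩
  rcases x.O.mem_or_inv_mem z with h | h
  · exact key z h
  · obtain ⟨P, Q, e⟩ := key _ h
    exact ⟨Q, P, by rw [← inv_div, e, inv_inv]⟩

variable (K) in
lemma exists_codedK : ∃ _ : Coded K, IsFamily (Z := K) (fun _ : Unit => Pol K × Pol K)
    (fun _ _ => True) (fun _ p => thP p.1 / thP p.2) :=
  ⟨_, isFamily_ofFamily _ _ _ (fun _ => Del.const True) fun z => by
    obtain ⟨P, Q, e⟩ := exists_thP_div z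
    exact ⟨(), (P, Q), trivial, e⟩⟩

instance (priority := low) codedK : Coded K := (exists_codedK K).choose

lemma famK : IsFamily (Z := K) (fun _ : Unit => Pol K × Pol K) (fun _ _ => True)
    (fun _ p => thP p.1 / thP p.2) := (exists_codedK K).choose_spec

lemma dmap_thP_div : DMap fun p : Pol K × Pol K => thP p.1 / thP p.2 :=
  (famK.pmap () fun _ => trivial).dmap

@[fun_prop] lemma DMap.thP {X : Type} [Coded X] {f : X → Pol K} (hf : DMap f) :
    DMap fun x => thP (f x) := by
  simpa using dmap_thP_div.comp (hf.prodMk (DMap.const 1))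

lemma Del.thP_eq_zero {X : Type} [Coded X] {f : X → Pol K} (hf : DMap f) :
    Del fun x => thP (f x) = 0 := (Del.lin_eq_zero (thP (K := K)).toLinearMap).comp hf

lemma dmap_K₂ {T : Type} [Coded T] {f : K × K → T}
    (h : DMap fun p : (Pol K × Pol K) × Pol K × Pol K =>
      f (thP p.1.1 / thP p.1.2, thP p.2.1 / thP p.2.2)) : DMap f := by
  refine famK.dmap (fun _ _ => trivial) fun _ => ?_
  have h1 : DMap fun q : (Pol K × Pol K) × K => f (q.2, thP q.1.1 / thP q.1.2) :=
    famK.dmap (fun _ _ => trivial) fun _ =>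
      h.comp (f := fun p : (Pol K × Pol K) × Pol K × Pol K => (p.2, p.1)) (by fun_prop)
  exact h1.comp (f := fun p : K × Pol K × Pol K => (p.2, p.1)) (by fun_prop)

lemma dmap_K₁ {T : Type} [Coded T] {f : K → T}
    (h : DMap fun p : Pol K × Pol K => f (thP p.1 / thP p.2)) : DMap f :=
  (dmap_K₂ (f := fun p => f p.1) (h.comp (by fun_prop))).comp (f := fun z => (z, z)) (by fun_prop)

lemma del_K₁ {P : K → Prop} (h : Del fun p : Pol K × Pol K => P (thP p.1 / thP p.2)) : Del P :=
  (famK.del (fun _ => Del.const True) (W := ℂ) (P := fun p => P p.2)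
    (fun _ p => P (thP p.2.1 / thP p.2.2)) (fun _ => h.comp (by fun_prop))
    fun _ _ _ _ => Iff.rfl).comp (f := fun z => (0, z)) (by fun_prop)

instance : DMul K := ⟨dmap_K₂ (by
  simp only [div_mul_div_comm, ← map_mul]
  exact dmap_thP_div.comp (f := fun p : (Pol K × Pol K) × Pol K × Pol K =>
    (p.1.1 * p.2.1, p.1.2 * p.2.2)) (by fun_prop))⟩

instance : DNeg K := ⟨dmap_K₁ (by
  simp only [← neg_div, ← map_neg]
  exact dmap_thP_div.comp (f := fun p : Pol K × Pol K => (-p.1, p.2)) (by fun_prop))⟩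

instance : DAdd K := ⟨dmap_K₂ (by
  classical
  have h1 := DMap.ite (Del.thP_eq_zero (f := fun p : (Pol K × Pol K) × Pol K × Pol K => p.1.2)
    (by fun_prop)) (dmap_thP_div.comp (f := fun p : (Pol K × Pol K) × Pol K × Pol K => p.2)
      (by fun_prop))
    (DMap.ite (Del.thP_eq_zero (f := fun p : (Pol K × Pol K) × Pol K × Pol K => p.2.2)
      (by fun_prop)) (dmap_thP_div.comp (f := fun p : (Pol K × Pol K) × Pol K × Pol K => p.1)
        (by fun_prop))
      (dmap_thP_div.comp (f := fun p : (Pol K × Pol K) × Pol K × Pol K =>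
        (p.1.1 * p.2.2 + p.1.2 * p.2.1, p.1.2 * p.2.2)) (by fun_prop)))
  convert h1 using 2 with p
  split_ifs with h2 h3
  · simp [h2]
  · simp [h3]
  · simp [div_add_div _ _ h2 h3])⟩

@[fun_prop] lemma DMap.inv {X : Type} [Coded X] {f : X → K} (hf : DMap f) :
    DMap fun x => (f x)⁻¹ := by
  refine DMap.comp (g := fun z : K => z⁻¹) (dmap_K₁ ?_) hf
  simp only [inv_div]
  exact dmap_thP_div.comp (f := fun p : Pol K × Pol K => (p.2, p.1)) (by fun_prop)

@[fun_prop] lemma DMap.zpow {X : Type} [Coded X] {f : X → K} (hf : DMap f) (n : ℤ) :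
    DMap fun x => f x ^ n := by
  rcases n with n | n
  · simpa using hf.pow n
  · simpa using (hf.pow (n + 1)).inv

instance : DEq K := ⟨by
  have h : Del fun z : K => z = 0 := del_K₁ (((Del.thP_eq_zero (f := fun p : Pol K × Pol K => p.1)
    (by fun_prop)).or (Del.thP_eq_zero (f := fun p : Pol K × Pol K => p.2) (by fun_prop))).congr
      fun p => div_eq_zero_iff.symm)
  exact (h.comp (f := fun p : K × K => p.1 - p.2) (by fun_prop)).congr fun p => sub_eq_zero⟩

@[fun_prop] lemma DMap.algebraMap {X : Type} [Coded X] {f : X → ℂ} (hf : DMap f) :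
    DMap fun x => algebraMap ℂ K (f x) := by
  have := DMap.thP (K := K) ((PMap.lin (Algebra.linearMap ℂ (Pol K))).dmap.comp hf)
  simpa using this

instance : DSMul ℂ K := ⟨by
  simp only [Algebra.smul_def]
  fun_prop⟩

lemma del_mem_fixed (x : Place K) : Del fun z : K => z ∈ x.O := by
  have h1 : ∀ k : ℤ, Del fun P : Pol K => x.val (thP P) ≤ exp k := fun k =>
    Del.mem_submodule'
      { carrier := {P | x.val (thP P) ≤ exp k}
        add_mem' := fun ha hb => by
          rw [mem_ofPred_eq, map_add]; exact x.val.map_add_le ha hb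
        zero_mem' := by simp
        smul_mem' := fun c P hP => by
          rw [mem_ofPred_eq, map_smul]; exact (x.val_smul_le _ _).trans hP }
  have h2 : DFun fun P : Pol K => x.val (thP P) := by
    haveI : Countable ℤᵐ⁰ := inferInstanceAs (Countable (Option ℤ))
    refine DFun.of_countable fun γ => ?_
    by_cases h : γ = 0
    · exact (Del.thP_eq_zero DMap.id').1.congr fun P => by simp [h]
    · refine ((h1 (log γ)).and (h1 (log γ - 1)).not).1.congr fun P => ?_
      rw [← x.val_lt_exp_iff, exp_log h, not_lt, le_antisymm_iff]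
  refine del_K₁ (((h2.comp (f := fun p : Pol K × Pol K => p.1) (by fun_prop)).map₂
    (h2.comp (f := fun p : Pol K × Pol K => p.2) (by fun_prop)) (· / ·)).del (· ≤ 1) |>.congr
    fun p => ?_)
  rw [x.mem_iff, map_div₀]

/-- The place with prescribed coordinates. -/
def IsPt (c : Option (Fin (nG K)) → ℂ) (x : Place K) : Prop :=
  ∀ o, x.val (gG K o - algebraMap ℂ K (c o)) < 1

lemma IsPt.mem {c : Option (Fin (nG K)) → ℂ} {x : Place K} (h : IsPt c x) : x ∈ U0 K :=
  x.mem_of_val_sub_lt (h none)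

lemma IsPt.res {c : Option (Fin (nG K)) → ℂ} {x : Place K} (h : IsPt c x) (P : Pol K) :
    x.val (thP P - algebraMap ℂ K (eval c P)) < 1 := by
  induction P using MvPolynomial.induction_on with
  | C a => simp [thP]
  | add p q hp hq =>
    rw [map_add, map_add, map_add, add_sub_add_comm]; exact x.val.map_add_lt hp hq
  | mul_X p k hp =>
    have : thP (p * X k) - algebraMap ℂ K (eval c (p * X k)) =
        gG K k * (thP p - algebraMap ℂ K (eval c p)) +
          algebraMap ℂ K (eval c p) * (gG K k - algebraMap ℂ K (c k)) := by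
      simp only [map_mul, thP, aeval_X, eval_X]; ring
    rw [this]
    refine x.val.map_add_lt ?_ ?_ <;> rw [map_mul]
    · exact (mul_le_of_le_one_left' (x.mem_iff.1 (gG_mem k x h.mem))).trans_lt hp
    · exact (mul_le_of_le_one_left' (x.val_const_le _)).trans_lt (h k)

lemma IsPt.val_lt {c : Option (Fin (nG K)) → ℂ} {x : Place K} (h : IsPt c x) (P : Pol K) :
    x.val (thP P) < 1 ↔ eval c P = 0 := x.val_lt_one_iff_of_res (h.res P)

lemma IsPt.unique {c : Option (Fin (nG K)) → ℂ} {x y : Place K} (h : IsPt c x) (h' : IsPt c y) :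
    x = y := by
  by_contra hne
  obtain ⟨s, hs, h1, h2⟩ := good_U0.sep h.mem h'.mem (Ne.symm hne)
  obtain ⟨P, rfl⟩ := thP_surj hs
  exact h1.not_lt ((h.val_lt P).2 ((h'.val_lt P).1 h2))

lemma exists_isPt {x : Place K} (hx : x ∈ U0 K) : ∃ c, IsPt c x := by
  choose c hc using fun o => x.exists_res (gG_mem o x hx)
  exact ⟨c, hc⟩

lemma exists_isPt_iff (c : Option (Fin (nG K)) → ℂ) :
    (∃ x, IsPt c x) ↔ ∀ P : Pol K, thP P = 0 → eval c P = 0 := by
  refine ⟨fun ⟨x, hx⟩ P hP => (hx.val_lt P).1 (by simp [hP]), fun h => ?_⟩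
  let J : Ideal (thP (K := K)).range := (RingHom.ker (eval c)).map thP.rangeRestrict
  have hJ : J ≠ ⊤ := by
    intro h1
    obtain ⟨Q, hQ, e⟩ := (Ideal.mem_map_iff_of_surjective _ thP.rangeRestrict_surjective).1
      (h1 ▸ Submodule.mem_top : (1 : (thP (K := K)).range) ∈ J)
    have h2 := h (1 - Q) (by rw [map_sub, map_one, sub_eq_zero]; exact congrArg Subtype.val e.symm)
    rw [map_sub, map_one, show eval c Q = 0 from hQ] at h2
    simp at h2
  have h1 : ∀ o, thP.rangeRestrict (X o - C (c o)) ∈ J := fun o =>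
    Ideal.mem_map_of_mem _ (by simp [RingHom.mem_ker])
  have h3 : ∀ o, (thP.rangeRestrict (X o - C (c o)) : K) = gG K o - algebraMap ℂ K (c o) :=
    fun o => by
      change thP (X o - C (c o)) = _
      simp [thP]
  obtain ⟨p, -, hp⟩ := exists_place_of_ideal _ J hJ (h1 none) fun h0 =>
    transc_sub_ne uu_transc (c none) ((h3 none).symm.trans (by rw [h0]; rfl))
  exact ⟨p, fun o => h3 o ▸ p.mem_nonunits_iff.1 (hp _ (h1 o))⟩

lemma del_exists_isPt : Del fun c : Option (Fin (nG K)) → ℂ => ∃ x, IsPt c x := by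
  obtain ⟨m, g, hg⟩ := Submodule.fg_iff_exists_fin_generating_family.1
    (IsNoetherian.noetherian (RingHom.ker (thP (K := K))))
  refine (Del.forall_finite fun i => Del.eq (PMap.eval (g i)).dmap (DMap.const 0)).congr
    fun c => ?_
  rw [exists_isPt_iff]
  refine ⟨fun h P hP => ?_, fun h i => h _ ?_⟩
  · have : RingHom.ker thP ≤ RingHom.ker (eval c) := by
      rw [← hg, Submodule.span_le]
      rintro _ ⟨i, rfl⟩
      exact h i
    exact this hP
  · have : g i ∈ RingHom.ker thP := hg ▸ Submodule.subset_span ⟨i, rfl⟩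
    exact this

instance : Finite (Ui K) := finite_Ui

variable (K) in
/-- Admissible parameters for places. -/
def plS (j : Option (Ui K)) (c : Option (Fin (nG K)) → ℂ) : Prop := j = none → ∃ x, IsPt c x

variable (K) in
/-- Parametrisation of places. -/
def plP (j : Option (Ui K)) (c : Option (Fin (nG K)) → ℂ) : Place K :=
  j.elim (Classical.epsilon (IsPt c)) Subtype.val

lemma del_plS (j : Option (Ui K)) : Del (plS K j) := (Del.const _).imp del_exists_isPt

variable (K) in
lemma exists_codedPlace : ∃ _ : Coded (Place K), FinCoded (Place K) ∧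
    IsFamily (Z := Place K) (fun _ => Option (Fin (nG K)) → ℂ) (plS K) (plP K) := by
  have h : ∀ x, ∃ j c, plS K j c ∧ plP K j c = x := fun x => by
    rcases U0_or_Ui x with hx | hx
    · obtain ⟨c, hc⟩ := exists_isPt hx
      exact ⟨none, c, fun _ => ⟨x, hc⟩, (Classical.epsilon_spec ⟨x, hc⟩).unique hc⟩
    · exact ⟨some ⟨x, hx⟩, 0, fun h => by simp at h, rfl⟩
  letI := Coded.ofFamily (fun _ => Option (Fin (nG K)) → ℂ) (plS K) (plP K) del_plS h
  exact ⟨this, ⟨inferInstanceAs (Finite (Σ _ : Option (Ui K), Coded.I (Option (Fin (nG K)) → ℂ)))⟩,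
    isFamily_ofFamily _ _ _ del_plS h⟩

instance codedPlace : Coded (Place K) := (exists_codedPlace K).choose

lemma famPlace : IsFamily (Z := Place K) (fun _ => Option (Fin (nG K)) → ℂ) (plS K) (plP K) :=
  (exists_codedPlace K).choose_spec.2

instance : FinCoded (Place K) := (exists_codedPlace K).choose_spec.1

lemma del_mem_place : Del fun p : K × Place K => p.1 ∈ p.2.O := by
  have he : ∀ {X : Type} [Coded X] {f : X → Pol K} {g : X → Option (Fin (nG K)) → ℂ},
      DMap f → DMap g → Del fun x => eval (g x) (f x) = 0 := fun {X} _ f g hf hg =>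
    Del.eq (f := fun x => eval (g x) (f x))
      (dmap_mvEval.comp (f := fun x => (f x, g x)) (hf.prodMk hg)) (DMap.const 0)
  refine ⟨famPlace.sig K (fun p => p.1 ∈ p.2.O) fun j => ?_,
    famPlace.sig K (fun p => p.1 ∉ p.2.O) fun j => ?_⟩
  · cases j with
    | some x =>
      exact (((del_plS _).comp (f := fun p : K × _ => p.2) (by fun_prop)).and
        ((del_mem_fixed x.1).comp (f := fun p : K × _ => p.1) (by fun_prop))).1
    | none =>
      refine (((del_plS none).comp (f := fun p : K × _ => p.2) (by fun_prop)).1.and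
        (Sig.exists' (P := fun (p : K × (Option (Fin (nG K)) → ℂ)) (q : Pol K × Pol K) =>
          ¬ eval p.2 q.2 = 0 ∧ p.1 * thP q.2 = thP q.1)
          ((he (by fun_prop) (by fun_prop)).not.and
            (Del.eq (by fun_prop) (by fun_prop))).1)).congr fun p => and_congr_right fun hp => ?_
      have h := Classical.epsilon_spec (hp rfl)
      change _ ↔ p.1 ∈ (Classical.epsilon (IsPt p.2)).O
      generalize Classical.epsilon (IsPt p.2) = x at h
      constructor
      · rintro ⟨q, h1, h2⟩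
        rw [← h.val_lt, not_lt] at h1
        have h3 : thP q.2 ≠ 0 := by rintro h0; simp [h0] at h1
        rw [(eq_mul_inv_iff_mul_eq₀ h3).2 h2]
        exact x.O.mul_mem _ _ (thP_mem _ x h.mem) ((x.inv_mem_iff h3).2 h1)
      · intro hz
        obtain ⟨s, h1, h2, h3, h4⟩ := good_U0.den x h.mem _ hz
        obtain ⟨P, hP⟩ := thP_surj h4
        obtain ⟨Q, rfl⟩ := thP_surj h1
        exact ⟨(P, Q), by rw [← h.val_lt, not_lt]; exact (x.inv_mem_iff h2).1 h3,
          by rw [hP, mul_comm]⟩
  · cases j with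
    | some x =>
      exact (((del_plS _).comp (f := fun p : K × _ => p.2) (by fun_prop)).and
        ((del_mem_fixed x.1).comp (f := fun p : K × _ => p.1) (by fun_prop)).not).1
    | none =>
      refine (((del_plS none).comp (f := fun p : K × _ => p.2) (by fun_prop)).1.and
        (Sig.exists' (P := fun (p : K × (Option (Fin (nG K)) → ℂ)) (q : Pol K × Pol K) =>
          (¬ eval p.2 q.2 = 0 ∧ eval p.2 q.1 = 0) ∧ p.1 * thP q.1 = thP q.2)
          (((he (by fun_prop) (by fun_prop)).not.and (he (by fun_prop) (by fun_prop))).and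
            (Del.eq (by fun_prop) (by fun_prop))).1)).congr fun p => and_congr_right fun hp => ?_
      have h := Classical.epsilon_spec (hp rfl)
      change _ ↔ p.1 ∉ (Classical.epsilon (IsPt p.2)).O
      generalize Classical.epsilon (IsPt p.2) = x at h
      constructor
      · rintro ⟨q, ⟨h1, h1'⟩, h2⟩ hz
        rw [← h.val_lt] at h1 h1'
        apply h1
        rw [← h2, map_mul]
        exact (mul_le_of_le_one_left' (x.mem_iff.1 hz)).trans_lt h1'
      · intro hz
        have h0 : p.1 ≠ 0 := fun h0 => hz (h0 ▸ x.O.zero_mem)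
        obtain ⟨s, h1, h2, h3, h4⟩ := good_U0.den x h.mem _ ((x.O.mem_or_inv_mem _).resolve_left hz)
        obtain ⟨P, hP⟩ := thP_surj h4
        obtain ⟨Q, rfl⟩ := thP_surj h1
        refine ⟨(P, Q), ⟨by rw [← h.val_lt, not_lt]; exact (x.inv_mem_iff h2).1 h3, ?_⟩,
          by rw [hP]; field_simp⟩
        rw [← h.val_lt, hP, map_mul, map_inv₀]
        exact (mul_le_of_le_one_left' (x.mem_iff.1 (h1 x h.mem))).trans_lt
          (inv_lt_one_of_one_lt₀ (not_le.1 fun h' => hz (x.mem_iff.2 h')))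

lemma Del.mem_O {X : Type} [Coded X] {f : X → K} {g : X → Place K} (hf : DMap f) (hg : DMap g) :
    Del fun a => f a ∈ (g a).O := del_mem_place.comp (hf.prodMk hg)

lemma del_eq_place (x₀ : Place K) : Del fun x : Place K => x = x₀ := by
  have h1 : ∀ y : Place K, ∃ z ∈ x₀.O, y ≠ x₀ → z ∉ y.O := by
    intro y
    by_contra h
    push Not at h
    exact (h 0 x₀.O.zero_mem).1 (Place.eq_of_le fun z hz => (h z hz).2).symm
  choose z hz hz' using h1
  haveI := (finite_poles x₀.unif⁻¹).to_subtype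
  refine ((Del.mem_O (DMap.const x₀.unif⁻¹) DMap.id').not.and
    (Del.forall_finite fun y : {x : Place K | x₀.unif⁻¹ ∉ x.O} =>
      Del.mem_O (DMap.const (z y)) DMap.id')).congr fun x => ⟨fun h => ?_, ?_⟩
  · by_contra hne
    exact hz' x hne (h.2 ⟨x, h.1⟩)
  · rintro rfl
    refine ⟨?_, fun y => hz y⟩
    rw [x.inv_mem_iff x.unif_ne_zero, x.val_unif, not_le, ← exp_zero, exp_lt_exp]
    omega

lemma dmap_of_cofinite {X T : Type} [Coded X] [Coded T] {f : Place K → X → T} {f₀ : X → T}
    (h : ∀ᶠ x in cofinite, f x = f₀) (hf : ∀ x, DMap (f x)) (h₀ : DMap f₀) :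
    DMap fun p : Place K × X => f p.1 p.2 := by
  haveI : Finite {x | ¬ f x = f₀} := Set.Finite.to_subtype h
  refine DMap.of_cover (α := Option {x | ¬ f x = f₀})
    (fun o p => o.elim (∀ y : {x | ¬ f x = f₀}, ¬ p.1 = y.1) fun y => p.1 = y.1)
    (fun o p => o.elim f₀ (fun y => f y.1) p.2) ?_ ?_ ?_ ?_
  · rintro (_ | y)
    · exact (Del.forall_finite fun y : {x | ¬ f x = f₀} =>
        ((del_eq_place y.1).comp (f := fun p : Place K × X => p.1) (by fun_prop)).not).1
    · exact ((del_eq_place y.1).comp (by fun_prop)).1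
  · rintro (_ | y)
    · exact h₀.comp (by fun_prop)
    · exact (hf y).comp (by fun_prop)
  · intro p
    by_cases hp : f p.1 = f₀
    · exact ⟨none, fun y hy => y.2 (hy ▸ hp)⟩
    · exact ⟨some ⟨p.1, hp⟩, rfl⟩
  · rintro (_ | y) p hp
    · rw [show f p.1 = f₀ from by_contra fun h' => hp ⟨p.1, h'⟩ rfl]; rfl
    · rw [show p.1 = y.1 from hp]; rfl

@[fun_prop] lemma DMap.tw {X : Type} [Coded X] {f : X → Place K} (hf : DMap f) (n : ℤ) :
    DMap fun a => tw (f a) n := by
  classical
  convert DMap.ite (Del.mem_O (DMap.const (uu K)) hf) (DMap.const 1) (DMap.const (uu K ^ (-n)))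
  rfl

end Pool.Agent.Lib.MP_cc3443_ag
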