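import Pool.Agent.Lib.MP_cc3443_ag.CodeK

open Filter Set WithZero Module

noncomputable section

namespace Pool.Agent.Lib.MP_cc3443_ag

variable {K : Type} [Field K] [Algebra ℂ K] {N N' : ℕ}

lemma exists_functional [IsFF K] {ι : Type} [Finite ι] {x : Place K} {v : ι → Fin N → K}
    {w : Fin N → K} (hw : w ∉ Submodule.span x.O (range v)) :
    ∃ φ : Fin N → K, (∀ j, ∑ i, φ i * v j i ∈ x.O) ∧ ∑ i, φ i * w i ∉ x.O := by
  classical
  suffices ∃ f : (Fin N → K) →ₗ[K] K, (∀ j, f (v j) ∈ x.O) ∧ f w ∉ x.O by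
    obtain ⟨f, h1, h2⟩ := this
    have h3 : ∀ w : Fin N → K, ∑ i, f (Pi.single i 1) * w i = f w := fun w => by
      conv_rhs => rw [pi_eq_sum_univ' w, map_sum]
      simp [mul_comm, Pi.single_apply]
    exact ⟨fun i => f (Pi.single i 1), fun j => by rw [h3]; exact h1 j, by rwa [h3]⟩
  obtain ⟨m, β, hβ, hs⟩ := exists_basis_fg x.O K _ (Submodule.fg_span (finite_range v))
  have hv : ∀ j, v j ∈ Submodule.span x.O (range β) := fun j =>
    hs ▸ Submodule.subset_span ⟨j, rfl⟩
  by_cases h : w ∈ Submodule.span K (range β)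
  · obtain ⟨c, rfl⟩ := (Submodule.mem_span_range_iff_exists_fun K).1 h
    obtain ⟨i, hi⟩ : ∃ i, c i ∉ x.O := by
      by_contra h'
      push Not at h'
      exact hw (hs ▸ mem_span_O.2 ⟨c, h', rfl⟩)
    obtain ⟨g, hg⟩ := (Fintype.linearCombination K β).exists_leftInverse_of_injective
      (LinearMap.ker_eq_bot.2 hβ.fintypeLinearCombination_injective)
    have h1 : ∀ c : Fin m → K, g (∑ i, c i • β i) = c := fun c => LinearMap.congr_fun hg c
    refine ⟨(LinearMap.proj i).comp g, fun j => ?_, by simpa [-map_sum, h1] using hi⟩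
    obtain ⟨d, hd, e⟩ := mem_span_O.1 (hv j)
    simpa [e, -map_sum, h1] using hd i
  · obtain ⟨f, h1, h2⟩ := Submodule.exists_le_ker_of_notMem h
    refine ⟨(x.unif⁻¹ * (f w)⁻¹) • f, fun j => ?_, ?_⟩
    · have : f (v j) = 0 := h2 (Submodule.span_le_restrictScalars x.O K _ (hv j))
      simp [this]
    · rw [LinearMap.smul_apply, smul_eq_mul, inv_mul_cancel_right₀ h1,
        x.inv_mem_iff x.unif_ne_zero, x.val_unif, not_le, ← exp_zero, exp_lt_exp]
      omega

variable [Algebra (RatFunc ℂ) K] [IsScalarTower ℂ (RatFunc ℂ) K]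
  [FiniteDimensional (RatFunc ℂ) K]

lemma Del.mem_span {X ι : Type} [Coded X] [Finite ι] {x : X → Place K} {v : X → ι → Fin N → K}
    {w : X → Fin N → K} (hx : DMap x) (hv : DMap v) (hw : DMap w) :
    Del fun a => w a ∈ Submodule.span (x a).O (range (v a)) := by
  have := Fintype.ofFinite ι
  constructor
  · refine (Sig.exists' (P := fun a (c : ι → K) => (∀ j, c j ∈ (x a).O) ∧ w a = ∑ j, c j • v a j)
      ((Del.forall_finite fun j => Del.mem_O (by fun_prop) (by fun_prop)).and
        (Del.eq (by fun_prop) (by fun_prop))).1).congr fun a => mem_span_O.symm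
  · refine (Sig.exists' (P := fun a (φ : Fin N → K) => (∀ j, ∑ i, φ i * v a j i ∈ (x a).O) ∧
      ∑ i, φ i * w a i ∉ (x a).O)
      ((Del.forall_finite fun j => Del.mem_O (by fun_prop) (by fun_prop)).and
        (Del.mem_O (by fun_prop) (by fun_prop)).not).1).congr fun a =>
          ⟨?_, exists_functional⟩
    rintro ⟨φ, h1, h2⟩ hw
    obtain ⟨c, hc, e⟩ := mem_span_O.1 hw
    apply h2
    simp only [e, Finset.sum_apply, Finset.mul_sum, Pi.smul_apply, smul_eq_mul]
    rw [Finset.sum_comm]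
    refine sum_mem fun j _ => ?_
    simp only [mul_left_comm _ (c j), ← Finset.mul_sum]
    exact (x a).O.mul_mem _ _ (hc j) (h1 j)

variable (K N) in
lemma exists_codedLat : ∃ _ : Coded (Lat K N), IsFamily (Z := Lat K N)
    (fun j : ℤ × ℕ => Fin j.2 → Fin N → K) (fun _ _ => True) (fun j G => genL j.1 G) :=
  ⟨_, isFamily_ofFamily _ _ _ (fun _ => Del.const True) fun L => by
    obtain ⟨n, m, G, e⟩ := exists_genL L
    exact ⟨(n, m), G, trivial, e⟩⟩

instance codedLat : Coded (Lat K N) := (exists_codedLat K N).choose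

lemma famLat : IsFamily (Z := Lat K N) (fun j : ℤ × ℕ => Fin j.2 → Fin N → K) (fun _ _ => True)
    (fun j G => genL j.1 G) := (exists_codedLat K N).choose_spec

variable {X : Type} [Coded X]

@[fun_prop] lemma DMap.genL {m : ℕ} (n : ℤ) {G : X → Fin m → Fin N → K} (hG : DMap G) :
    DMap fun a => genL n (G a) := (famLat.pmap (n, m) fun _ => trivial).dmap.comp hG

lemma Del.lat {P : X → Lat K N → Prop} {L : X → Lat K N} (hL : DMap L)
    (h : ∀ (n : ℤ) (m : ℕ), Del fun p : X × (Fin m → Fin N → K) => P p.1 (genL n p.2)) :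
    Del fun a => P a (L a) :=
  (famLat.del (fun _ => Del.const True) (P := fun p : X × Lat K N => P p.1 p.2) _
    (fun j => h j.1 j.2) fun _ _ _ _ => Iff.rfl).comp (f := fun a => (a, L a)) (by fun_prop)

lemma Sig.lat {P : X → Lat K N → Prop} {L : X → Lat K N} (hL : DMap L)
    (h : ∀ (n : ℤ) (m : ℕ), Sig fun p : X × (Fin m → Fin N → K) => P p.1 (genL n p.2)) :
    Sig fun a => P a (L a) :=
  (famLat.sig X (fun p : X × Lat K N => P p.1 p.2)
    fun j => (Sig.const True).and (h j.1 j.2)).comp (f := fun a => (a, L a)) (by fun_prop)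

lemma Del.mem_S {x : X → Place K} {w : X → Fin N → K} {L : X → Lat K N} (hx : DMap x)
    (hw : DMap w) (hL : DMap L) : Del fun a => w a ∈ (L a).S (x a) :=
  Del.lat (P := fun a L => w a ∈ L.S (x a)) hL fun n m => by
    simp only [genL_S]
    exact Del.mem_span (by fun_prop) (by fun_prop) (by fun_prop)

lemma Del.map_le {x : X → Place K} {L : X → Lat K N} {L' : X → Lat K N'}
    {g : X → (Fin N → K) →ₗ[K] (Fin N' → K)} (hx : DMap x) (hL : DMap L) (hL' : DMap L')
    (hg : DMap fun p : X × (Fin N → K) => g p.1 p.2) :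
    Del fun a => ∀ w ∈ (L a).S (x a), g a w ∈ (L' a).S (x a) :=
  Del.lat (P := fun a L => ∀ w ∈ L.S (x a), g a w ∈ (L' a).S (x a)) hL fun n m => by
    refine (Del.forall_finite fun j => Del.mem_S (x := fun p => x p.1) (L := fun p => L' p.1)
      (w := fun p : X × (Fin m → Fin N → K) => g p.1 (tw (x p.1) n • p.2 j)) (by fun_prop)
      (hg.comp (f := fun p : X × (Fin m → Fin N → K) => (p.1, tw (x p.1) n • p.2 j))
        (by fun_prop)) (by fun_prop)).congr fun p => ⟨fun h w hw => ?_, fun h j => h _ ?_⟩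
    · rw [genL_S, mem_span_O] at hw
      obtain ⟨c, hc, rfl⟩ := hw
      rw [map_sum]
      exact sum_mem fun j _ => by rw [map_smul]; exact Lat.smul_mem (hc j) (h j)
    · rw [genL_S]; exact Submodule.subset_span ⟨j, rfl⟩

lemma Del.S_le {x : X → Place K} {L L' : X → Lat K N} (hx : DMap x) (hL : DMap L)
    (hL' : DMap L') : Del fun a => (L a).S (x a) ≤ (L' a).S (x a) :=
  Del.map_le (g := fun _ => LinearMap.id) hx hL hL' (by simp only [LinearMap.id_apply]; fun_prop)

lemma Del.le {L L' : X → Lat K N} (hL : DMap L) (hL' : DMap L') : Del fun a => L a ≤ L' a :=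
  Del.forall' (P := fun a x => (L a).S x ≤ (L' a).S x)
    (Del.S_le (by fun_prop) (by fun_prop) (by fun_prop))

instance : DEq (Lat K N) :=
  ⟨((Del.le (L := fun p : Lat K N × Lat K N => p.1) (by fun_prop) (by fun_prop)).and
    (Del.le (by fun_prop) (by fun_prop))).congr fun _ => le_antisymm_iff.symm⟩

lemma Del.mem_sec {w : X → Fin N → K} {L : X → Lat K N} (hw : DMap w) (hL : DMap L) (n : ℤ) :
    Del fun a => w a ∈ sec (L a) n :=
  (Del.forall' (P := fun a x => tw x n • w a ∈ (L a).S x)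
    (Del.mem_S (by fun_prop) (by fun_prop) (by fun_prop))).congr fun _ =>
      Pool.Agent.Lib.MP_cc3443_ag.mem_sec.symm

lemma mapL_genL {ι : Type} [Finite ι] (n : ℤ) (G : ι → Fin N → K)
    (p : (Fin N → K) →ₗ[K] (Fin N' → K)) : (genL n G).mapL p = genL n fun j => p (G j) := by
  refine Lat.ext' fun x => ?_
  rw [Lat.mapL, Lat.mapF, Lat.mk'_S, genL_S, genL_S, Submodule.map_span, ← range_comp]
  congr 2
  funext j
  simp

lemma DMap.mapL {L : X → Lat K N} {g : X → (Fin N → K) →ₗ[K] (Fin N' → K)} (hL : DMap L)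
    (hg : DMap fun p : X × (Fin N → K) => g p.1 p.2) : DMap fun a => (L a).mapL (g a) := by
  refine (famLat.dmap (fun _ _ => trivial) (f := fun p : X × Lat K N => p.2.mapL (g p.1))
    fun j => ?_).comp (f := fun a => (a, L a)) (by fun_prop)
  simp only [mapL_genL]
  exact DMap.genL _ (DMap.pi fun i => hg.comp
    (f := fun p : X × (Fin j.2 → Fin N → K) => (p.1, p.2 i)) (by fun_prop))

lemma dmap_linear (p : (Fin N → K) →ₗ[K] (Fin N' → K)) : DMap fun w => p w := by
  classical
  have h : ∀ w, p w = ∑ i, w i • p (Pi.single i 1) := fun w => by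
    conv_lhs => rw [pi_eq_sum_univ' w, map_sum]
    simp [Pi.single_apply]
  rw [funext h]
  fun_prop

lemma dmap_clinear {τ : Type} [Finite τ] (p : (τ → ℂ) →ₗ[ℂ] (Fin N → K)) : DMap fun c => p c := by
  classical
  have := Fintype.ofFinite τ
  have h : ∀ w, p w = ∑ i, w i • p (Pi.single i 1) := fun w => by
    conv_lhs => rw [pi_eq_sum_univ' w, map_sum]
    simp [Pi.single_apply]
  rw [funext h]
  fun_prop

lemma Del.linearIndependent {k : ℕ} {w : X → Fin k → Fin N → K} (hw : DMap w) :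
    Del fun a => LinearIndependent ℂ (w a) :=
  (Del.forall' (P := fun a (c : Fin k → ℂ) => ∑ i, c i • w a i = 0 → c = 0)
    ((Del.eq (by fun_prop) (by fun_prop)).imp (Del.eq (by fun_prop) (by fun_prop)))).congr
    fun a => by simp only [Fintype.linearIndependent_iff, funext_iff (f := _) (g := (0 : Fin k → ℂ)),
      Pi.zero_apply]

lemma mem_genL {ι : Type} [Finite ι] {n : ℤ} {G : ι → Fin N → K} {x : Place K} {w : Fin N → K} :
    w ∈ (genL n G).S x ↔ (tw x n)⁻¹ • w ∈ (Lat.free G).S x := by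
  have := Fintype.ofFinite ι
  rw [genL_S, Lat.free_S, mem_span_O, mem_span_O]
  refine exists_congr fun c => and_congr_right fun _ => ?_
  rw [inv_smul_eq_iff₀ (tw_ne_zero x n), Finset.smul_sum]
  simp only [smul_comm (c _)]

lemma exists_scale (L : Lat K N) : ∃ (n : ℤ) (r : K), r ≠ 0 ∧ ∀ x, ∀ w ∈ L.S x,
    r • w ∈ (genL n fun i : Fin N => (Pi.single i 1 : Fin N → K)).S x := by
  obtain ⟨T, M, hT, hb⟩ := Lat.exists_bound (L := L)
    (L' := Lat.free fun i : Fin N => (Pi.single i 1 : Fin N → K))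
    (by rw [Lat.free_gen, span_single_top]; exact le_top)
  obtain ⟨r, hr, hr0, hs⟩ := good_U0.exists_small hT M
  let k : ℕ := M + ∑ x ∈ (finite_Ui (K := K)).toFinset, (x.ord r).natAbs
  refine ⟨-k, r, hr0, fun x w hw => ?_⟩
  rw [mem_genL, smul_smul]
  rcases U0_or_Ui x with hx | hx
  · rw [tw_U0 hx, inv_one, one_mul]
    exact hb x r w hw (x.mem_iff.1 (hr x hx)) fun h => hs x h hx
  · have h1 : x.val ((tw x (-k))⁻¹ * r) ≤ exp (-(M : ℤ)) := by
      rw [tw_Ui hx, neg_neg, ← zpow_neg, map_mul, x.val_eq hr0]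
      refine (mul_le_mul_left (val_uu_zpow_le hx k) _).trans ?_
      rw [← exp_add, exp_le_exp]
      have := Finset.single_le_sum (f := fun x : Place K => (x.ord r).natAbs)
        (fun _ _ => Nat.zero_le _) ((finite_Ui (K := K)).mem_toFinset.2 hx)
      omega
    exact hb x _ w hw (h1.trans (by rw [← exp_zero, exp_le_exp]; omega)) fun _ => h1

lemma le_hdim_iff {L : Lat K N} {n : ℤ} {k : ℕ} : (k : ℤ) ≤ hdim L n ↔
    ∃ w : Fin k → Fin N → K, LinearIndependent ℂ w ∧ ∀ i, w i ∈ sec L n := by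
  rw [hdim, Int.ofNat_le]
  constructor
  · intro h
    obtain ⟨f, hf⟩ := exists_linearIndependent_of_le_finrank h
    exact ⟨fun i => f i, hf.map' _ (Submodule.ker_subtype _), fun i => (f i).2⟩
  · rintro ⟨w, h1, h2⟩
    have h3 : LinearIndependent ℂ fun i => (⟨w i, h2 i⟩ : sec L n) :=
      LinearIndependent.of_comp (sec L n).subtype h1
    simpa using h3.fintype_card_le_finrank

lemma exists_sec_param (E : Lat K N) (n : ℤ) : ∃ (k : ℕ) (φ : (Fin k → ℂ) →ₗ[ℂ] (Fin N → K)),
    LinearMap.range φ = sec E n := by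
  obtain ⟨m, G, hG⟩ := Submodule.fg_iff_exists_fin_generating_family.1
    (Module.Finite.iff_fg.1 (inferInstance : Module.Finite ℂ (sec E n)))
  exact ⟨m, Fintype.linearCombination ℂ G, by rw [Fintype.range_linearCombination, hG]⟩

lemma dfun_hdim (n : ℤ) : DFun fun L : Lat K N => hdim L n := by
  have key : ∀ k : ℕ, Del fun L : Lat K N => (k : ℤ) ≤ hdim L n := fun k => by
    refine ⟨(Sig.exists' (P := fun (L : Lat K N) (w : Fin k → Fin N → K) =>
      LinearIndependent ℂ w ∧ ∀ i, w i ∈ sec L n) ((Del.linearIndependent (by fun_prop)).and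
        (Del.forall_finite fun i => Del.mem_sec (by fun_prop) (by fun_prop) n)).1).congr
        fun L => le_hdim_iff.symm, ?_⟩
    choose m φ hφ using fun n₀ : ℤ =>
      exists_sec_param (genL n₀ fun i : Fin N => (Pi.single i 1 : Fin N → K)) n
    refine (Sig.exists_countable fun n₀ : ℤ => Sig.exists' (P := fun (L : Lat K N) (r : K) =>
      (r ≠ 0 ∧ ∀ x, ∀ w ∈ L.S x, (r • LinearMap.id : _ →ₗ[K] _) w ∈
        (genL n₀ fun i : Fin N => (Pi.single i 1 : Fin N → K)).S x) ∧
      ¬ ∃ c : Fin k → Fin (m n₀) → ℂ, LinearIndependent ℂ (fun i => r⁻¹ • φ n₀ (c i)) ∧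
        ∀ i, r⁻¹ • φ n₀ (c i) ∈ sec L n) (Del.sig ?_)).congr fun L => ?_
    · have h1 := dmap_clinear (φ n₀)
      refine ((Del.ne (by fun_prop) (by fun_prop)).and (Del.forall' (Del.map_le (by fun_prop)
        (by fun_prop) (by fun_prop) ?_))).and (Del.exists' ((Del.linearIndependent ?_).and
          (Del.forall_finite fun i => Del.mem_sec ?_ (by fun_prop) n))).not
      · simp only [LinearMap.smul_apply, LinearMap.id_apply]; fun_prop
      · exact DMap.pi fun i => DMap.smul (by fun_prop) (h1.comp (by fun_prop))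
      · exact DMap.smul (by fun_prop) (h1.comp (by fun_prop))
    · beta_reduce
      rw [le_hdim_iff]
      constructor
      · rintro ⟨n₀, r, ⟨h1, h2⟩, h3⟩ ⟨w, h4, h5⟩
        have h6 : ∀ i, ∃ c, φ n₀ c = r • w i := fun i => by
          have : r • w i ∈ LinearMap.range (φ n₀) := by
            rw [hφ, mem_sec]
            intro x
            rw [smul_comm]
            exact h2 x _ (mem_sec.1 (h5 i) x)
          exact this
        choose c hc using h6
        exact h3 ⟨c, by simpa [hc, h1] using And.intro h4 h5⟩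
      · intro h
        obtain ⟨n₀, r, h1, h2⟩ := exists_scale L
        exact ⟨n₀, r, ⟨h1, h2⟩, fun ⟨c, hc⟩ => h ⟨_, hc⟩⟩
  refine DFun.of_countable fun v => ?_
  refine ((key v.toNat).and ((key (v + 1).toNat).not.and (Del.const (0 ≤ v)))).1.congr fun L => ?_
  have := hdim_nonneg L n
  omega

lemma finrank_span_eq_iff {m k : ℕ} {G : Fin m → Fin N → K} :
    finrank K (Submodule.span K (range G)) = k ↔
      ∃ p : (Fin k → Fin m → K) × (Fin k → Fin N → K) × (Fin m → Fin k → K),
        (∀ i j, ∑ l, p.2.1 i l * (∑ s, p.1 j s • G s) l = if i = j then 1 else 0) ∧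
        ∀ s, G s = ∑ j, p.2.2 s j • ∑ s, p.1 j s • G s := by
  classical
  constructor
  · intro h
    let b := finBasisOfFinrankEq K _ h
    choose c hc using fun j => (Submodule.mem_span_range_iff_exists_fun K).1 (b j).2
    choose f hf using fun i => (b.coord i).exists_extend
    refine ⟨(c, fun i l => f i (Pi.single l 1), fun s j =>
      b.repr ⟨G s, Submodule.subset_span ⟨s, rfl⟩⟩ j), fun i j => ?_, fun s => ?_⟩
    · have h3 : ∀ w : Fin N → K, ∑ l, f i (Pi.single l 1) * w l = f i w := fun w => by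
        conv_rhs => rw [pi_eq_sum_univ' w, map_sum]
        simp [mul_comm, Pi.single_apply]
      rw [h3, hc]
      have := LinearMap.congr_fun (hf i) (b j)
      simpa [Finsupp.single_apply, eq_comm] using this
    · simp only [hc]
      have := congrArg Subtype.val (b.sum_repr ⟨G s, Submodule.subset_span ⟨s, rfl⟩⟩).symm
      rw [Submodule.coe_sum] at this
      exact this
  · rintro ⟨⟨c, φ, d⟩, h1, h2⟩
    simp only at h1 h2
    set w := fun j => ∑ s, c j s • G s with hw
    have h3 : LinearIndependent K w := by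
      rw [Fintype.linearIndependent_iff]
      intro g hg i
      have h4 : ∑ l, φ i l * (∑ j, g j • w j) l = g i := by
        simp only [Finset.sum_apply (g := fun j => g j • w j), Finset.mul_sum, Pi.smul_apply,
          smul_eq_mul]
        rw [Finset.sum_comm]
        simp only [mul_left_comm _ (g _), ← Finset.mul_sum]
        simp [hw, -Finset.sum_apply, h1]
      rw [← h4, hg]; simp
    have h4 : Submodule.span K (range G) = Submodule.span K (range w) := by
      refine le_antisymm (Submodule.span_le.2 ?_) (Submodule.span_le.2 ?_)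
      · rintro _ ⟨s, rfl⟩
        rw [h2 s]
        exact sum_mem fun j _ => Submodule.smul_mem _ _ (Submodule.subset_span ⟨j, rfl⟩)
      · rintro _ ⟨j, rfl⟩
        exact sum_mem fun s _ => Submodule.smul_mem _ _ (Submodule.subset_span ⟨s, rfl⟩)
    rw [h4, finrank_span_eq_card h3, Fintype.card_fin]

lemma dfun_rk : DFun fun L : Lat K N => rk L := by
  refine DFun.of_countable fun k => Sig.lat (P := fun _ L => rk L = k) DMap.id' fun n m => ?_
  refine Sig.congr ?_ fun p => (finrank_span_eq_iff (G := p.2)).symm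
  apply Sig.exists'
  refine Del.sig (Del.and (Del.forall_finite fun i => Del.forall_finite fun j => ?_)
    (Del.forall_finite fun s => ?_))
  · exact Del.eq (by fun_prop) (by fun_prop)
  · exact Del.eq (by fun_prop) (by fun_prop)

lemma dfun_chiL : DFun fun L : Lat K N => chiL L := by
  refine DFun.of_cover (fun (n : ℤ) L => hdim L (n + 1) = hdim L n + dlt K * rk L)
    (fun n L => hdim L n - n * (dlt K * rk L)) (fun n => ?_) (fun n => ?_) (fun L => ?_)
    fun n L h => chiL_of_cert h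
  · exact (((dfun_hdim (n + 1)).prod (dfun_hdim n)).prod dfun_rk).sig_pred
      fun p => p.1.1 = p.1.2 + dlt K * p.2
  · exact (dfun_hdim n).map₂ dfun_rk fun a b => a - n * (dlt K * b)
  · obtain ⟨n, hn⟩ := (eventually_reg L).exists
    exact ⟨n, by rw [hn.hdim_eq, (hn.mono (Int.le_add_one le_rfl)).hdim_eq]; ring⟩

lemma Del.rk_eq {L : X → Lat K N} (hL : DMap L) (k : ℕ) : Del fun a => rk (L a) = k :=
  (dfun_rk.comp hL).del (· = k)

lemma Del.chiL_eq {L : X → Lat K N} (hL : DMap L) (k : ℤ) : Del fun a => chiL (L a) = k :=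
  (dfun_chiL.comp hL).del (· = k)

open Classical in
/-- The divisor of a line bundle with a rational section. -/
def dv (I : Lat K 1) : Place K →₀ ℤ :=
  if h : ∃ D, I = line 1 (-D) then h.choose else 0

lemma dv_line (D : Place K →₀ ℤ) : dv (line (1 : Fin 1 → K) (-D)) = D := by
  have h : ∃ D', line (1 : Fin 1 → K) (-D) = line 1 (-D') := ⟨D, rfl⟩
  rw [dv, dif_pos h]
  exact neg_injective (line_inj one_ne_zero h.choose_spec).symm

lemma eq_line_dv {I : Lat K 1} (h : rk I = 1) : I = line 1 (-dv I) := by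
  obtain ⟨D, rfl⟩ := exists_line (L := I) (s := 1) one_ne_zero
    (by rw [rk_eq_iff_gen.1 h, span_one_top])
  rw [← neg_neg D, dv_line]

lemma dv_of_rk {I : Lat K 1} (h : rk I ≠ 1) : dv I = 0 :=
  dif_neg fun ⟨_, hD⟩ => h (hD ▸ rk_line one_ne_zero _)

lemma del_ord_dv : Del fun p : (Place K × K) × Lat K 1 =>
    p.1.2 ≠ 0 ∧ p.1.1.ord p.1.2 = dv p.2 p.1.1 := by
  refine ((Del.ne (f := fun p : (Place K × K) × Lat K 1 => p.1.2) (by fun_prop) (DMap.const 0)).and
    (((Del.rk_eq (L := fun p => p.2) (by fun_prop) 1).and ((Del.mem_S (x := fun p => p.1.1) (L := fun p => p.2)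
      (w := fun p => p.1.2 • (1 : Fin 1 → K)) (by fun_prop) (by fun_prop) (by fun_prop)).and
      (Del.map_le (x := fun p => p.1.1) (L := fun p => p.2) (L' := fun _ => OO K)
        (g := fun p => p.1.2⁻¹ • LinearMap.id) (by fun_prop) (by fun_prop) (by fun_prop)
        (by simp only [LinearMap.smul_apply, LinearMap.id_apply]; fun_prop)))).or
      ((Del.rk_eq (L := fun p => p.2) (by fun_prop) 1).not.and ((Del.mem_O (f := fun p => p.1.2) (g := fun p => p.1.1)
        (by fun_prop) (by fun_prop)).and (Del.mem_O (f := fun p => p.1.2⁻¹) (g := fun p => p.1.1)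
        (by fun_prop) (by fun_prop)))))).congr ?_
  rintro ⟨⟨x, z⟩, I⟩
  refine and_congr_right fun hz => ?_
  simp only at hz ⊢
  by_cases h : rk I = 1
  · simp only [h, true_and, not_true, false_and, or_false]
    rw [eq_line_dv h, dv_line, smul_mem_line one_ne_zero, Finsupp.neg_apply, x.val_le_iff hz]
    simp only [OO, mem_line_one, LinearMap.smul_apply, LinearMap.id_apply, Pi.smul_apply,
      smul_eq_mul, map_mul, Finsupp.neg_apply, x.val_eq (inv_ne_zero hz), x.ord_inv, neg_neg,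
      Finsupp.coe_zero, Pi.zero_apply]
    constructor
    · rintro ⟨h1, h2⟩
      have := h2 (fun _ => x.unif ^ dv I x) (x.val_unif_zpow _).le
      rw [x.val_unif_zpow, ← exp_add, exp_le_exp] at this
      omega
    · intro h1
      refine ⟨h1.ge, fun w hw => (mul_le_mul_right hw _).trans ?_⟩
      rw [← exp_add, h1]; simp
  · simp only [h, false_and, not_false_iff, true_and, false_or, dv_of_rk h]
    rw [x.mem_iff_ord hz, x.mem_iff_ord (inv_ne_zero hz), x.ord_inv]
    simp only [Finsupp.coe_zero, Pi.zero_apply]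
    omega

lemma Sig.exists'' {Y Z : Type} [Coded Y] [Coded Z] {P : Y × Z → Prop} (h : Sig P) :
    Sig fun y => ∃ z, P (y, z) := Sig.exists' (P := fun y z => P (y, z)) h

lemma Del.exists'' {Y Z : Type} [Coded Y] [Coded Z] [FinCoded Z] {P : Y × Z → Prop} (h : Del P) :
    Del fun y => ∃ z, P (y, z) := Del.exists' (P := fun y z => P (y, z)) h

lemma DMap.twist_dv {I : X → Lat K 1} {L : X → Lat K N} (hI : DMap I) (hL : DMap L) (m : ℤ) :
    DMap fun a => (L a).twist (m • dv (I a)) := by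
  refine DMap.of_graph (Del.sig ?_)
  have h1 : Del fun q : ((X × Lat K N) × Place K) × K =>
      q.2 ≠ 0 ∧ q.1.2.ord q.2 = dv (I q.1.1.1) q.1.2 :=
    del_ord_dv.comp (f := fun q : ((X × Lat K N) × Place K) × K => ((q.1.2, q.2), I q.1.1.1))
      (by fun_prop)
  have h2 : Del fun q : ((X × Lat K N) × Place K) × K =>
      (∀ w ∈ (L q.1.1.1).S q.1.2, (q.2 ^ (-m) • LinearMap.id : _ →ₗ[K] _) w ∈ q.1.1.2.S q.1.2) ∧
      ∀ w ∈ q.1.1.2.S q.1.2, (q.2 ^ m • LinearMap.id : _ →ₗ[K] _) w ∈ (L q.1.1.1).S q.1.2 :=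
    (Del.map_le (by fun_prop) (by fun_prop) (by fun_prop)
      (by simp only [LinearMap.smul_apply, LinearMap.id_apply]; fun_prop)).and
    (Del.map_le (by fun_prop) (by fun_prop) (by fun_prop)
      (by simp only [LinearMap.smul_apply, LinearMap.id_apply]; fun_prop))
  have h3 : ∀ (q : (X × Lat K N) × Place K) (z : K),
      z ≠ 0 ∧ q.2.ord z = dv (I q.1.1) q.2 →
      (((∀ w ∈ (L q.1.1).S q.2, (z ^ (-m) • LinearMap.id : _ →ₗ[K] _) w ∈ q.1.2.S q.2) ∧
      ∀ w ∈ q.1.2.S q.2, (z ^ m • LinearMap.id : _ →ₗ[K] _) w ∈ (L q.1.1).S q.2) ↔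
      ((L q.1.1).twist (m • dv (I q.1.1))).S q.2 = q.1.2.S q.2) := by
    rintro ⟨⟨a, L'⟩, x⟩ z ⟨hz, hz'⟩
    have h4 := zpow_ne_zero m hz
    simp only [SetLike.ext_iff, LinearMap.smul_apply, LinearMap.id_apply, zpow_neg,
      Lat.mem_twist_of_ord (D := m • dv (I a)) (x := x) h4 (by simpa [x.ord_zpow] using Or.inl hz')]
    refine ⟨fun h w => ⟨fun hw => ?_, h.2 w⟩, fun h => ⟨fun w hw => (h _).1 ?_, fun w => (h w).2⟩⟩
    · simpa [h4] using h.1 _ hw
    · simpa [h4] using hw
  have h4 : ∀ q : (X × Lat K N) × Place K, ∃ z : K, z ≠ 0 ∧ q.2.ord z = dv (I q.1.1) q.2 :=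
    fun q => ⟨q.2.unif ^ dv (I q.1.1) q.2, zpow_ne_zero _ q.2.unif_ne_zero, by simp [q.2.ord_zpow]⟩
  have h5 : Del fun q : (X × Lat K N) × Place K =>
      ((L q.1.1).twist (m • dv (I q.1.1))).S q.2 = q.1.2.S q.2 := by
    refine ⟨(h1.and h2).1.exists''.congr fun q => ⟨?_, fun h => ?_⟩,
      (h1.and h2.not).1.exists''.congr fun q => ⟨?_, fun h => ?_⟩⟩
    · rintro ⟨z, hz, h⟩; exact (h3 q z hz).1 h
    · obtain ⟨z, hz⟩ := h4 q; exact ⟨z, hz, (h3 q z hz).2 h⟩
    · rintro ⟨z, hz, h⟩; exact fun h' => h ((h3 q z hz).2 h')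
    · obtain ⟨z, hz⟩ := h4 q; exact ⟨z, hz, fun h' => h ((h3 q z hz).1 h')⟩
  exact (Del.forall' h5).congr fun p => ⟨Lat.ext', fun h x => by rw [h]⟩

lemma DMap.twist {L : X → Lat K N} (hL : DMap L) (D : Place K →₀ ℤ) :
    DMap fun a => (L a).twist D := by
  simpa [dv_line] using DMap.twist_dv (DMap.const (line 1 (-D))) hL 1

lemma line_eq_genL (s : Fin N → K) (D : Place K →₀ ℤ) :
    line s D = (genL 0 fun _ : Fin 1 => s).twist D := by
  rw [line]
  congr 1
  exact Lat.ext' fun x => by simp [genL_S]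

lemma DMap.line {s : X → Fin N → K} (hs : DMap s) (D : Place K →₀ ℤ) :
    DMap fun a => line (s a) D := by
  simp only [line_eq_genL]
  exact (DMap.genL 0 (DMap.pi fun _ => hs)).twist D

end Pool.Agent.Lib.MP_cc3443_ag
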