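import Pool.Agent.Lib.MP_cc3443_ag.Cons

open MvPolynomial Set

noncomputable section

namespace Pool.Agent.Lib.MP_cc3443_ag

/-- Types covered by countably many constructible parameter spaces. -/
class Coded (Y : Type) where
  I : Type
  cI : Countable I
  ι : I → Type
  fι : ∀ i, Finite (ι i)
  dom : ∀ i, Set (ι i → ℂ)
  hdom : ∀ i, IsCons (dom i)
  dec : ∀ i, (ι i → ℂ) → Y
  surj : ∀ y, ∃ i, ∃ c ∈ dom i, dec i c = y

attribute [instance] Coded.cI Coded.fι

open Coded

/-- Finitely many parameter spaces suffice. -/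
class FinCoded (Y : Type) [Coded Y] : Prop where
  fin : Finite (I Y)

attribute [instance] FinCoded.fin

instance codedComplex : Coded ℂ where
  I := Unit
  cI := inferInstance
  ι := fun _ => Unit
  fι := inferInstance
  dom := fun _ => Set.univ
  hdom := fun _ => IsCons.univ
  dec := fun _ c => c ()
  surj := fun y => ⟨(), fun _ => y, trivial, rfl⟩

instance : FinCoded ℂ := ⟨inferInstanceAs (Finite Unit)⟩

instance codedProd (Y Z : Type) [Coded Y] [Coded Z] : Coded (Y × Z) where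
  I := I Y × I Z
  cI := inferInstance
  ι := fun i => ι i.1 ⊕ ι i.2
  fι := inferInstance
  dom := fun i => {c | c ∘ Sum.inl ∈ dom i.1 ∧ c ∘ Sum.inr ∈ dom i.2}
  hdom := fun i => ((hdom i.1).preimage_comp _).inter ((hdom i.2).preimage_comp _)
  dec := fun i c => (dec i.1 (c ∘ Sum.inl), dec i.2 (c ∘ Sum.inr))
  surj := fun y => by
    obtain ⟨i, c, hc, e⟩ := surj y.1
    obtain ⟨j, d, hd, e'⟩ := surj y.2
    exact ⟨(i, j), Sum.elim c d, ⟨hc, hd⟩, Prod.ext e e'⟩

instance (Y Z : Type) [Coded Y] [Coded Z] [FinCoded Y] [FinCoded Z] : FinCoded (Y × Z) :=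
  ⟨inferInstanceAs (Finite (I Y × I Z))⟩

instance codedPi (τ Y : Type) [Finite τ] [Coded Y] : Coded (τ → Y) where
  I := τ → I Y
  cI := inferInstance
  ι := fun i => Σ t, ι (i t)
  fι := inferInstance
  dom := fun i => {c | ∀ t, (fun k => c ⟨t, k⟩) ∈ dom (i t)}
  hdom := fun i => (IsCons.iInter fun t => (hdom (i t)).preimage_comp
    (fun k => (⟨t, k⟩ : Σ t, ι (i t)))).congr fun c => by simp [Function.comp_def]
  dec := fun i c t => dec (i t) (fun k => c ⟨t, k⟩)
  surj := fun y => by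
    choose i c hc e using fun t => surj (y t)
    exact ⟨i, fun s => c s.1 s.2, hc, _root_.funext e⟩

instance (τ Y : Type) [Finite τ] [Coded Y] [FinCoded Y] : FinCoded (τ → Y) :=
  ⟨inferInstanceAs (Finite (τ → I Y))⟩

variable {W X Y Z : Type} [Coded W] [Coded X] [Coded Y] [Coded Z]

/-- Predicates that are countable unions of constructible conditions. -/
def Sig (P : Y → Prop) : Prop := ∀ i, IsSig {c | c ∈ dom i ∧ P (dec i c)}

/-- Constructible predicates. -/
def Del (P : Y → Prop) : Prop := Sig P ∧ Sig fun y => ¬ P y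

/-- Maps given by polynomials on the parameters. -/
@[fun_prop]
def PMap (f : Y → Z) : Prop :=
  ∀ i : I Y, ∃ (j : I Z) (p : ι j → MvPolynomial (ι i) ℂ), ∀ c ∈ dom i,
    polyMap p c ∈ dom j ∧ dec j (polyMap p c) = f (dec i c)

/-- Definable maps. -/
@[fun_prop]
def DMap (f : Y → Z) : Prop :=
  ∀ (W : Type) [Coded W] (P : W × Z → Prop), Sig P → Sig fun p : W × Y => P (p.1, f p.2)

lemma Sig.congr {P Q : Y → Prop} (h : Sig P) (e : ∀ y, P y ↔ Q y) : Sig Q := by
  have : P = Q := funext fun y => propext (e y)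
  exact this ▸ h

lemma Sig.pmap {P : Z → Prop} (h : Sig P) {f : Y → Z} (hf : PMap f) : Sig fun y => P (f y) := by
  intro i
  obtain ⟨j, p, hp⟩ := hf i
  refine ((hdom i).isSig.inter ((h j).preimage_polyMap p)).congr fun c => ?_
  simp only [Set.mem_inter_iff, Set.mem_preimage, Set.mem_ofPred_eq]
  constructor
  · rintro ⟨h1, -, h3⟩
    exact ⟨h1, (hp c h1).2 ▸ h3⟩
  · rintro ⟨h1, h2⟩
    exact ⟨h1, (hp c h1).1, (hp c h1).2.symm ▸ h2⟩

namespace PMap

lemma of_reindex {f : Y → Z}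
    (h : ∀ i : I Y, ∃ (j : I Z) (ρ : ι j → ι i), ∀ c ∈ dom i,
      c ∘ ρ ∈ dom j ∧ dec j (c ∘ ρ) = f (dec i c)) : PMap f := by
  intro i
  obtain ⟨j, ρ, h⟩ := h i
  exact ⟨j, fun k => MvPolynomial.X (ρ k), by simpa using h⟩

@[fun_prop] lemma id' : PMap fun y : Y => y :=
  of_reindex fun i => ⟨i, id, fun _ hc => ⟨hc, rfl⟩⟩

@[fun_prop] lemma const (z : Z) : PMap fun _ : Y => z := by
  intro i
  obtain ⟨j, c, hc, e⟩ := surj z
  have : ∀ d : ι i → ℂ, polyMap (fun k => C (c k)) d = c := by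
    intro d; ext k; simp [polyMap]
  exact ⟨j, fun k => C (c k), fun d _ => by rw [this]; exact ⟨hc, e⟩⟩

@[fun_prop] lemma comp {g : Y → Z} {f : X → Y} (hg : PMap g) (hf : PMap f) :
    PMap fun x => g (f x) := by
  intro i
  obtain ⟨j, p, hp⟩ := hf i
  obtain ⟨k, q, hq⟩ := hg j
  refine ⟨k, fun l => aeval p (q l), fun c hc => ?_⟩
  have : polyMap (fun l => aeval p (q l)) c = polyMap q (polyMap p c) := by
    ext l; simp only [polyMap]; rw [← eval_polyMap]
  rw [this]
  beta_reduce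
  rw [← (hp c hc).2]
  exact hq _ (hp c hc).1

lemma fst' : PMap (Prod.fst : Y × Z → Y) :=
  of_reindex fun i => ⟨i.1, Sum.inl, fun _ hc => ⟨hc.1, rfl⟩⟩

lemma snd' : PMap (Prod.snd : Y × Z → Z) :=
  of_reindex fun i => ⟨i.2, Sum.inr, fun _ hc => ⟨hc.2, rfl⟩⟩

@[fun_prop] lemma fst {f : X → Y × Z} (hf : PMap f) : PMap fun x => (f x).1 := comp fst' hf

@[fun_prop] lemma snd {f : X → Y × Z} (hf : PMap f) : PMap fun x => (f x).2 := comp snd' hf

@[fun_prop] lemma prodMk {f : X → Y} {g : X → Z} (hf : PMap f) (hg : PMap g) :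
    PMap fun x => (f x, g x) := by
  intro i
  obtain ⟨j, p, hp⟩ := hf i
  obtain ⟨k, q, hq⟩ := hg i
  refine ⟨(j, k), Sum.elim p q, fun c hc => ?_⟩
  exact ⟨⟨(hp c hc).1, (hq c hc).1⟩, Prod.ext (hp c hc).2 (hq c hc).2⟩

@[fun_prop] lemma pi {τ : Type} [Finite τ] {f : X → τ → Y} (hf : ∀ t, PMap fun x => f x t) :
    PMap f := by
  intro i
  choose j p hp using fun t => hf t i
  refine ⟨j, fun s => p s.1 s.2, fun c hc => ⟨fun t => (hp t c hc).1, ?_⟩⟩
  funext t
  exact (hp t c hc).2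

@[fun_prop] lemma apply {τ : Type} [Finite τ] (t : τ) : PMap fun f : τ → Y => f t :=
  of_reindex fun i => ⟨i t, fun k => ⟨t, k⟩, fun _ hc => ⟨hc t, rfl⟩⟩

lemma dmap {f : Y → Z} (hf : PMap f) : DMap f := fun W _ P hP =>
  hP.pmap (f := fun p : W × Y => (p.1, f p.2)) (by fun_prop)

end PMap

namespace Sig

lemma and {P Q : Y → Prop} (hP : Sig P) (hQ : Sig Q) : Sig fun y => P y ∧ Q y := fun i =>
  ((hP i).inter (hQ i)).congr fun c => by
    simp only [Set.mem_inter_iff, Set.mem_ofPred_eq]; tauto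

lemma or {P Q : Y → Prop} (hP : Sig P) (hQ : Sig Q) : Sig fun y => P y ∨ Q y := fun i =>
  ((hP i).union (hQ i)).congr fun c => by
    simp only [Set.mem_union, Set.mem_ofPred_eq]; tauto

lemma const (p : Prop) : Sig fun _ : Y => p := fun i => by
  by_cases h : p
  · simpa [h] using (hdom i).isSig
  · simpa [h] using IsCons.empty.isSig

lemma exists_countable {α : Type*} [Countable α] {P : α → Y → Prop} (h : ∀ a, Sig (P a)) :
    Sig fun y => ∃ a, P a y := fun i =>
  (IsSig.iUnion fun a => h a i).congr fun c => by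
    simp only [Set.mem_iUnion, Set.mem_ofPred_eq]; tauto

lemma exists_mem_countable {α : Type*} {s : Set α} (hs : s.Countable) {P : α → Y → Prop}
    (h : ∀ a ∈ s, Sig (P a)) : Sig fun y => ∃ a ∈ s, P a y := by
  have := hs.to_subtype
  exact (exists_countable fun a : s => h a a.2).congr fun y => by simp

lemma forall_finite {α : Type*} [Finite α] {P : α → Y → Prop} (h : ∀ a, Sig (P a)) :
    Sig fun y => ∀ a, P a y := fun i =>
  ((hdom i).isSig.inter (IsSig.iInter fun a => h a i)).congr fun c => by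
    simp only [Set.mem_iInter, Set.mem_inter_iff, Set.mem_ofPred_eq]
    exact ⟨fun h => ⟨h.1, fun a => (h.2 a).2⟩, fun h => ⟨h.1, fun a => ⟨h.1, h.2 a⟩⟩⟩

lemma exists' {P : Y → Z → Prop} (h : Sig fun p : Y × Z => P p.1 p.2) :
    Sig fun y => ∃ z, P y z := fun i => by
  refine (IsSig.iUnion fun j : I Z => (h (i, j)).image_comp Sum.inl).congr fun c => ?_
  simp only [Set.mem_iUnion, Set.mem_ofPred_eq]
  constructor
  · rintro ⟨j, d, ⟨h1, h2⟩, rfl⟩
    exact ⟨h1.1, _, h2⟩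
  · rintro ⟨h1, z, h2⟩
    obtain ⟨j, d, hd, rfl⟩ := surj z
    exact ⟨j, Sum.elim c d, ⟨⟨h1, hd⟩, h2⟩, rfl⟩

lemma comp {P : Z → Prop} (h : Sig P) {f : Y → Z} (hf : DMap f) : Sig fun y => P (f y) :=
  (hf Y (fun p => P p.2) (h.pmap PMap.snd')).pmap (f := fun y => (y, y)) (by fun_prop)

end Sig

namespace DMap

@[fun_prop] lemma id' : DMap fun y : Y => y := fun _ _ _ h => h

@[fun_prop] lemma const (z : Z) : DMap fun _ : Y => z := (PMap.const z).dmap

@[fun_prop] lemma comp {g : Y → Z} {f : X → Y} (hg : DMap g) (hf : DMap f) :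
    DMap fun x => g (f x) := fun W _ P hP => hf W _ (hg W P hP)

@[fun_prop] lemma fst {f : X → Y × Z} (hf : DMap f) : DMap fun x => (f x).1 :=
  comp PMap.fst'.dmap hf

@[fun_prop] lemma snd {f : X → Y × Z} (hf : DMap f) : DMap fun x => (f x).2 :=
  comp PMap.snd'.dmap hf

@[fun_prop] lemma prodMk {f : X → Y} {g : X → Z} (hf : DMap f) (hg : DMap g) :
    DMap fun x => (f x, g x) := by
  intro W _ P hP
  have h1 : Sig fun p : (W × Z) × Y => P (p.1.1, (p.2, p.1.2)) :=
    hP.pmap (f := fun p : (W × Z) × Y => (p.1.1, (p.2, p.1.2))) (by fun_prop)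
  have h2 := hf _ _ h1
  have h3 : Sig fun p : (W × X) × Z => P (p.1.1, (f p.1.2, p.2)) :=
    h2.pmap (f := fun p : (W × X) × Z => ((p.1.1, p.2), p.1.2)) (by fun_prop)
  exact (hg _ _ h3).pmap (f := fun p : W × X => ((p.1, p.2), p.2)) (by fun_prop)

@[fun_prop] lemma apply {τ : Type} [Finite τ] (t : τ) : DMap fun f : τ → Y => f t :=
  (PMap.apply t).dmap

lemma pi_fin (m : ℕ) {f : X → Fin m → Y} (hf : ∀ t, DMap fun x => f x t) : DMap f := by
  induction m with
  | zero =>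
    have : f = fun _ => Fin.elim0 := by funext x t; exact t.elim0
    rw [this]; exact const _
  | succ m ih =>
    have h1 : PMap fun p : Y × (Fin m → Y) => (Fin.cons p.1 p.2 : Fin (m + 1) → Y) := by
      refine PMap.pi fun t => ?_
      refine Fin.cases ?_ (fun t => ?_) t
      · simp only [Fin.cons_zero]; fun_prop
      · simp only [Fin.cons_succ]; fun_prop
    have h2 := comp h1.dmap (prodMk (hf 0) (ih (f := fun x t => f x t.succ) fun t => hf t.succ))
    convert h2 using 2 with x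
    exact (Fin.cons_self_tail (f x)).symm

@[fun_prop] lemma pi {τ : Type} [Finite τ] {f : X → τ → Y} (hf : ∀ t, DMap fun x => f x t) :
    DMap f := by
  obtain ⟨m, ⟨e⟩⟩ := Finite.exists_equiv_fin τ
  have h1 : PMap fun g : Fin m → Y => fun t => g (e t) := by fun_prop
  have h2 := comp h1.dmap (pi_fin m (f := fun x t => f x (e.symm t)) fun t => hf _)
  simpa using h2

lemma of_graph {f : Y → Z} (h : Sig fun p : Y × Z => f p.1 = p.2) : DMap f := by
  intro W _ P hP
  have h1 : Sig fun q : (W × Y) × Z => f q.1.2 = q.2 ∧ P (q.1.1, q.2) :=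
    (h.pmap (f := fun q : (W × Y) × Z => (q.1.2, q.2)) (by fun_prop)).and
      (hP.pmap (f := fun q : (W × Y) × Z => (q.1.1, q.2)) (by fun_prop))
  exact (Sig.exists' (P := fun (p : W × Y) z => f p.2 = z ∧ P (p.1, z)) h1).congr fun p => by simp

lemma of_cover {α : Type*} [Countable α] {f : Y → Z} (S : α → Y → Prop) (g : α → Y → Z)
    (hS : ∀ a, Sig (S a)) (hg : ∀ a, DMap (g a)) (hc : ∀ y, ∃ a, S a y)
    (he : ∀ a y, S a y → f y = g a y) : DMap f := by
  intro W _ P hP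
  refine (Sig.exists_countable fun a =>
    ((hS a).pmap (PMap.snd' (Y := W))).and (hg a W P hP)).congr fun p => ⟨?_, fun h => ?_⟩
  · rintro ⟨a, h1, h2⟩
    rwa [he a _ h1]
  · obtain ⟨a, ha⟩ := hc p.2
    exact ⟨a, ha, by rwa [← he a _ ha]⟩

lemma ite {P : Y → Prop} [DecidablePred P] (hP : Del P) {f g : Y → Z} (hf : DMap f)
    (hg : DMap g) : DMap fun y => if P y then f y else g y := by
  refine of_cover (fun b : Bool => fun y => cond b (P y) (¬ P y)) (fun b => cond b f g) ?_ ?_ ?_ ?_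
  · rintro (_ | _)
    exacts [hP.2, hP.1]
  · rintro (_ | _)
    exacts [hg, hf]
  · intro y
    by_cases h : P y
    exacts [⟨true, h⟩, ⟨false, h⟩]
  · rintro (_ | _) y h
    exacts [if_neg h, if_pos h]

end DMap

namespace Del

lemma congr {P Q : Y → Prop} (h : Del P) (e : ∀ y, P y ↔ Q y) : Del Q := by
  have : P = Q := funext fun y => propext (e y)
  exact this ▸ h

lemma sig {P : Y → Prop} (h : Del P) : Sig P := h.1

lemma not {P : Y → Prop} (h : Del P) : Del fun y => ¬ P y :=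
  ⟨h.2, h.1.congr fun y => by simp⟩

lemma and {P Q : Y → Prop} (hP : Del P) (hQ : Del Q) : Del fun y => P y ∧ Q y :=
  ⟨hP.1.and hQ.1, (hP.2.or hQ.2).congr fun y => by tauto⟩

lemma or {P Q : Y → Prop} (hP : Del P) (hQ : Del Q) : Del fun y => P y ∨ Q y :=
  ⟨hP.1.or hQ.1, (hP.2.and hQ.2).congr fun y => by tauto⟩

lemma imp {P Q : Y → Prop} (hP : Del P) (hQ : Del Q) : Del fun y => P y → Q y :=
  (hP.not.or hQ).congr fun y => by tauto

lemma iff {P Q : Y → Prop} (hP : Del P) (hQ : Del Q) : Del fun y => P y ↔ Q y :=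
  ((hP.imp hQ).and (hQ.imp hP)).congr fun y => by tauto

lemma const (p : Prop) : Del fun _ : Y => p := ⟨Sig.const _, Sig.const _⟩

lemma comp {P : Z → Prop} (h : Del P) {f : Y → Z} (hf : DMap f) : Del fun y => P (f y) :=
  ⟨h.1.comp hf, h.2.comp hf⟩

lemma forall_finite {α : Type*} [Finite α] {P : α → Y → Prop} (h : ∀ a, Del (P a)) :
    Del fun y => ∀ a, P a y :=
  ⟨Sig.forall_finite fun a => (h a).1,
    (Sig.exists_countable fun a => (h a).2).congr fun y => by simp⟩

lemma exists_finite {α : Type*} [Finite α] {P : α → Y → Prop} (h : ∀ a, Del (P a)) :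
    Del fun y => ∃ a, P a y :=
  (forall_finite fun a => (h a).not).not.congr fun y => by simp

lemma isCons {P : Y → Prop} (h : Del P) (i : I Y) : IsCons {c | c ∈ dom i ∧ P (dec i c)} :=
  IsSig.isCons_of_compl (hdom i) (h.1 i) (h.2 i) (fun _ hc => hc.1)
    (fun c hc => by by_cases h' : P (dec i c); exacts [Or.inl ⟨hc, h'⟩, Or.inr ⟨hc, h'⟩])
    (fun _ h1 h2 => h2.2 h1.2)

lemma of_isCons {P : Y → Prop} (h : ∀ i, IsCons {c | c ∈ dom i ∧ P (dec i c)}) : Del P :=
  ⟨fun i => (h i).isSig, fun i => ((hdom i).inter (h i).compl).isSig.congr fun c => by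
    simp only [Set.mem_inter_iff, Set.mem_compl_iff, Set.mem_ofPred_eq]; tauto⟩

lemma exists' [FinCoded Z] {P : Y → Z → Prop} (h : Del fun p : Y × Z => P p.1 p.2) :
    Del fun y => ∃ z, P y z := of_isCons fun i => by
  refine (IsCons.iUnion fun j : I Z => (h.isCons (i, j)).image_comp Sum.inl).congr fun c => ?_
  simp only [Set.mem_iUnion, Set.mem_ofPred_eq]
  constructor
  · rintro ⟨j, d, ⟨h1, h2⟩, rfl⟩
    exact ⟨h1.1, _, h2⟩
  · rintro ⟨h1, z, h2⟩
    obtain ⟨j, d, hd, rfl⟩ := surj z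
    exact ⟨j, Sum.elim c d, ⟨⟨h1, hd⟩, h2⟩, rfl⟩

lemma forall' [FinCoded Z] {P : Y → Z → Prop} (h : Del fun p : Y × Z => P p.1 p.2) :
    Del fun y => ∀ z, P y z :=
  (exists' (P := fun y z => ¬ P y z) h.not).not.congr fun y => by simp

end Del

section fun_space
variable {τ : Type} [Finite τ]

lemma Sig.isSig_fun {P : (τ → ℂ) → Prop} (h : Sig P) : IsSig {c | P c} :=
  ((h fun _ => ()).preimage_comp (fun s => s.1)).congr fun c => by
    simp only [Set.mem_ofPred_eq]
    exact ⟨fun h => h.2, fun h => ⟨fun _ => trivial, h⟩⟩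

lemma Del.isCons_fun {P : (τ → ℂ) → Prop} (h : Del P) : IsCons {c | P c} :=
  ((h.isCons fun _ => ()).preimage_comp (fun s => s.1)).congr fun c => by
    simp only [Set.mem_ofPred_eq]
    exact ⟨fun h => h.2, fun h => ⟨fun _ => trivial, h⟩⟩

lemma IsCons.del {S : Set (τ → ℂ)} (h : IsCons S) : Del fun c => c ∈ S :=
  Del.of_isCons fun i => (h.preimage_comp fun t => (⟨t, ()⟩ : ι i)).congr fun c => by
    simp only [Set.mem_ofPred_eq]
    exact ⟨fun h => ⟨fun _ => trivial, h⟩, fun h => h.2⟩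

lemma PMap.eval (p : MvPolynomial τ ℂ) : PMap fun c : τ → ℂ => eval c p := by
  intro i
  refine ⟨(), fun _ => rename (fun t => (⟨t, ()⟩ : ι i)) p, fun c _ => ⟨trivial, ?_⟩⟩
  change MvPolynomial.eval c (rename _ p) = _
  rw [eval_rename]
  rfl

end fun_space

/-- Functions with countably many values and definable level sets. -/
def DFun {α : Type*} (F : Y → α) : Prop :=
  (Set.range F).Countable ∧ ∀ v, Sig fun y => F y = v

namespace DFun
variable {α β γ : Type*}

lemma sig_pred {F : Y → α} (h : DFun F) (Q : α → Prop) : Sig fun y => Q (F y) :=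
  (Sig.exists_mem_countable h.1 fun v _ => (Sig.const (Q v)).and (h.2 v)).congr fun y =>
    ⟨by rintro ⟨v, -, h1, rfl⟩; exact h1, fun h => ⟨_, ⟨y, rfl⟩, h, rfl⟩⟩

lemma del {F : Y → α} (h : DFun F) (Q : α → Prop) : Del fun y => Q (F y) :=
  ⟨h.sig_pred Q, h.sig_pred fun v => ¬ Q v⟩

lemma const (v : α) : DFun fun _ : Y => v :=
  ⟨(Set.countable_singleton v).mono (by rintro _ ⟨y, rfl⟩; rfl), fun _ => Sig.const _⟩

lemma comp {F : Z → α} (h : DFun F) {f : Y → Z} (hf : DMap f) : DFun fun y => F (f y) :=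
  ⟨h.1.mono (by rintro _ ⟨y, rfl⟩; exact ⟨_, rfl⟩), fun v => (h.2 v).comp hf⟩

lemma map {F : Y → α} (h : DFun F) (g : α → β) : DFun fun y => g (F y) :=
  ⟨(h.1.image g).mono (by rintro _ ⟨y, rfl⟩; exact ⟨_, ⟨y, rfl⟩, rfl⟩),
    fun v => h.sig_pred fun a => g a = v⟩

lemma prod {F : Y → α} {G : Y → β} (h : DFun F) (h' : DFun G) : DFun fun y => (F y, G y) :=
  ⟨(h.1.prod h'.1).mono (by rintro _ ⟨y, rfl⟩; exact ⟨⟨y, rfl⟩, ⟨y, rfl⟩⟩),
    fun v => ((h.2 v.1).and (h'.2 v.2)).congr fun y => by simp [Prod.ext_iff]⟩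

lemma map₂ {F : Y → α} {G : Y → β} (h : DFun F) (h' : DFun G) (g : α → β → γ) :
    DFun fun y => g (F y) (G y) :=
  (h.prod h').map fun p => g p.1 p.2

lemma add {F G : Y → ℂ} (h : DFun F) (h' : DFun G) : DFun fun y => F y + G y :=
  h.map₂ h' (· + ·)

lemma mul {F G : Y → ℂ} (h : DFun F) (h' : DFun G) : DFun fun y => F y * G y :=
  h.map₂ h' (· * ·)

lemma sum {ι : Type*} (s : Finset ι) {F : ι → Y → ℂ} (h : ∀ i ∈ s, DFun (F i)) :
    DFun fun y => ∑ i ∈ s, F i y := by
  classical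
  induction s using Finset.induction_on with
  | empty => simpa using const (0 : ℂ)
  | insert a s ha ih =>
    simp only [Finset.sum_insert ha]
    exact (h a (Finset.mem_insert_self _ _)).add
      (ih fun i hi => h i (Finset.mem_insert_of_mem hi))

lemma of_cover {δ : Type*} [Countable δ] {F : Y → α} (S : δ → Y → Prop) (G : δ → Y → α)
    (hS : ∀ a, Sig (S a)) (hG : ∀ a, DFun (G a)) (hc : ∀ y, ∃ a, S a y)
    (he : ∀ a y, S a y → F y = G a y) : DFun F := by
  refine ⟨(Set.countable_iUnion fun a => (hG a).1).mono ?_, fun v => ?_⟩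
  · rintro _ ⟨y, rfl⟩
    obtain ⟨a, ha⟩ := hc y
    exact Set.mem_iUnion.2 ⟨a, y, (he a y ha).symm⟩
  · refine (Sig.exists_countable fun a => (hS a).and ((hG a).2 v)).congr fun y => ⟨?_, fun h => ?_⟩
    · rintro ⟨a, h1, h2⟩
      rwa [he a y h1]
    · obtain ⟨a, ha⟩ := hc y
      exact ⟨a, ha, by rwa [← he a y ha]⟩

/-- A cover whose pieces may use an auxiliary definable parameter. -/
lemma of_cover' {δ : Type*} [Countable δ] {F : Y → α} (S : δ → Y × Z → Prop) (G : δ → Y × Z → α)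
    (hS : ∀ a, Sig (S a)) (hG : ∀ a, DFun (G a)) (hc : ∀ y, ∃ a z, S a (y, z))
    (he : ∀ a y z, S a (y, z) → F y = G a (y, z)) : DFun F := by
  refine ⟨(Set.countable_iUnion fun a => (hG a).1).mono ?_, fun v => ?_⟩
  · rintro _ ⟨y, rfl⟩
    obtain ⟨a, z, ha⟩ := hc y
    exact Set.mem_iUnion.2 ⟨a, _, (he a y z ha).symm⟩
  · refine (Sig.exists_countable fun a => Sig.exists' (P := fun y z => S a (y, z) ∧ G a (y, z) = v)
      ((hS a).and ((hG a).2 v))).congr fun y => ⟨?_, fun h => ?_⟩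
    · rintro ⟨a, z, h1, h2⟩
      rwa [he a y z h1]
    · obtain ⟨a, z, ha⟩ := hc y
      exact ⟨a, z, ha, by rwa [← he a y z ha]⟩

lemma of_countable [Countable α] {F : Y → α} (h : ∀ v, Sig fun y => F y = v) : DFun F :=
  ⟨Set.to_countable _, h⟩

lemma of_del {P : Y → Prop} (h : Del P) : DFun P := by
  refine of_countable fun v => ?_
  by_cases hv : v
  · exact h.1.congr fun y => by simp [hv]
  · exact h.2.congr fun y => by simp [hv]

end DFun

end Pool.Agent.Lib.MP_cc3443_ag
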