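import Mathlib

open MvPolynomial Set

noncomputable section

namespace Pool.Agent.Lib.MP_cc3443_ag

/-- Constructible subsets of complex affine space. -/
inductive IsCons {ι : Type} : Set (ι → ℂ) → Prop
  | zero (p : MvPolynomial ι ℂ) : IsCons {c | eval c p = 0}
  | compl {S} : IsCons S → IsCons Sᶜ
  | union {S T} : IsCons S → IsCons T → IsCons (S ∪ T)

variable {ι κ : Type}

namespace IsCons

lemma univ : IsCons (Set.univ : Set (ι → ℂ)) := by
  simpa using IsCons.zero (0 : MvPolynomial ι ℂ)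

lemma empty : IsCons (∅ : Set (ι → ℂ)) := by
  simpa using (univ (ι := ι)).compl

lemma inter {S T : Set (ι → ℂ)} (hS : IsCons S) (hT : IsCons T) : IsCons (S ∩ T) := by
  have := (hS.compl.union hT.compl).compl
  simpa [Set.compl_union] using this

lemma congr {S T : Set (ι → ℂ)} (hS : IsCons S) (h : ∀ c, c ∈ S ↔ c ∈ T) : IsCons T := by
  have : S = T := Set.ext h
  exact this ▸ hS

lemma biUnion {α : Type*} {s : Set α} (hs : s.Finite) {S : α → Set (ι → ℂ)}
    (h : ∀ a ∈ s, IsCons (S a)) : IsCons (⋃ a ∈ s, S a) := by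
  induction s, hs using Set.Finite.induction_on with
  | empty => simpa using empty
  | insert _ _ ih =>
    rw [Set.biUnion_insert]
    exact (h _ (Set.mem_insert _ _)).union (ih fun a ha => h a (Set.mem_insert_of_mem _ ha))

lemma iUnion {α : Type*} [Finite α] {S : α → Set (ι → ℂ)} (h : ∀ a, IsCons (S a)) :
    IsCons (⋃ a, S a) := by
  simpa using biUnion (Set.finite_univ (α := α)) (S := S) fun a _ => h a

lemma iInter {α : Type*} [Finite α] {S : α → Set (ι → ℂ)} (h : ∀ a, IsCons (S a)) :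
    IsCons (⋂ a, S a) := by
  have := (iUnion fun a => (h a).compl).compl
  simpa [Set.compl_iUnion] using this

end IsCons

/-- A polynomial map between affine spaces. -/
def polyMap (p : κ → MvPolynomial ι ℂ) (c : ι → ℂ) : κ → ℂ := fun k => eval c (p k)

lemma eval_polyMap (p : κ → MvPolynomial ι ℂ) (c : ι → ℂ) (q : MvPolynomial κ ℂ) :
    eval (polyMap p c) q = eval c (aeval p q) := by
  induction q using MvPolynomial.induction_on with
  | C a => simp
  | add p q hp hq => simp [hp, hq]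
  | mul_X q k hq => simp [hq, polyMap]

@[simp] lemma polyMap_X_comp (ρ : κ → ι) (c : ι → ℂ) :
    polyMap (fun k => X (ρ k)) c = c ∘ ρ := by
  ext k; simp [polyMap]

lemma IsCons.preimage_polyMap {S : Set (κ → ℂ)} (hS : IsCons S) (p : κ → MvPolynomial ι ℂ) :
    IsCons (polyMap p ⁻¹' S) := by
  induction hS with
  | zero q => exact (IsCons.zero (aeval p q)).congr fun c => by simp [eval_polyMap]
  | compl _ ih => exact ih.compl
  | union _ _ ih1 ih2 => exact ih1.union ih2

lemma IsCons.preimage_comp {S : Set (κ → ℂ)} (hS : IsCons S) (ρ : κ → ι) :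
    IsCons {c : ι → ℂ | c ∘ ρ ∈ S} :=
  (hS.preimage_polyMap fun k => X (ρ k)).congr fun c => by simp

open PrimeSpectrum Topology in
lemma IsCons.exists_spec {S : Set (ι → ℂ)} (hS : IsCons S) :
    ∃ T : Set (PrimeSpectrum (MvPolynomial ι ℂ)), IsConstructible T ∧
      S = (pointToPoint (k := ℂ)) ⁻¹' T := by
  induction hS with
  | zero q =>
    refine ⟨PrimeSpectrum.zeroLocus {q}, ?_, ?_⟩
    · rw [← isConstructible_compl]
      exact (isRetrocompact_zeroLocus_compl (Set.finite_singleton _)).isConstructible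
        (isClosed_zeroLocus _).isOpen_compl
    · ext c
      simp [PrimeSpectrum.mem_zeroLocus, pointToPoint, mem_vanishingIdeal_singleton_iff,
        aeval_eq_eval]
  | compl _ ih =>
    obtain ⟨T, hT, rfl⟩ := ih
    exact ⟨Tᶜ, hT.compl, rfl⟩
  | union _ _ ih1 ih2 =>
    obtain ⟨T, hT, rfl⟩ := ih1
    obtain ⟨T', hT', rfl⟩ := ih2
    exact ⟨T ∪ T', hT.union hT', rfl⟩

open PrimeSpectrum Topology in
lemma isCons_of_spec {T : Set (PrimeSpectrum (MvPolynomial ι ℂ))} (hT : IsConstructible T) :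
    IsCons ((pointToPoint (k := ℂ)) ⁻¹' T : Set (ι → ℂ)) := by
  obtain ⟨D, rfl⟩ := exists_constructibleSetData_iff.mpr hT
  simp only [ConstructibleSetData.toSet, Set.preimage_iUnion]
  refine IsCons.biUnion D.finite_toSet fun C _ => ?_
  refine ((IsCons.iInter fun i => IsCons.zero (C.g i)).inter (IsCons.zero C.f).compl).congr ?_
  intro c
  simp [BasicConstructibleSetData.toSet, PrimeSpectrum.mem_zeroLocus, pointToPoint,
    Set.range_subset_iff, mem_vanishingIdeal_singleton_iff, aeval_eq_eval]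

open PrimeSpectrum Topology in
/-- Chevalley's theorem. -/
lemma IsCons.image_polyMap [Finite ι] [Finite κ] {S : Set (ι → ℂ)} (hS : IsCons S)
    (p : κ → MvPolynomial ι ℂ) : IsCons (polyMap p '' S) := by
  obtain ⟨T, hT, rfl⟩ := hS.exists_spec
  let f : MvPolynomial κ ℂ →+* MvPolynomial ι ℂ := (aeval p).toRingHom
  have hf : f.FinitePresentation := by
    rw [← RingHom.FinitePresentation.of_finiteType]
    apply RingHom.FiniteType.of_comp_finiteType (f := algebraMap ℂ (MvPolynomial κ ℂ))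
    have : f.comp (algebraMap ℂ (MvPolynomial κ ℂ)) = algebraMap ℂ (MvPolynomial ι ℂ) := by
      ext a; simp [f]
    rw [this, RingHom.finiteType_algebraMap]
    infer_instance
  have hpt : ∀ c : ι → ℂ, PrimeSpectrum.comap f (pointToPoint (k := ℂ) c) =
      pointToPoint (k := ℂ) (polyMap p c) := by
    intro c
    ext q
    simp [pointToPoint, mem_vanishingIdeal_singleton_iff, f, aeval_eq_eval, eval_polyMap]
  refine (isCons_of_spec (isConstructible_comap_image hf hT)).congr fun a => ⟨?_, ?_⟩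
  · rintro ⟨q, hq, hqa⟩
    obtain ⟨D, rfl⟩ := exists_constructibleSetData_iff.mpr hT
    simp only [ConstructibleSetData.toSet, Set.mem_iUnion] at hq
    obtain ⟨C, hC, hq1, hq2⟩ := hq
    have h2 : C.f ∉ q.asIdeal := by simpa [PrimeSpectrum.mem_zeroLocus] using hq2
    rw [← IsPrime.vanishingIdeal_zeroLocus (K := ℂ) q.asIdeal, mem_vanishingIdeal_iff] at h2
    push Not at h2
    obtain ⟨c, hc, hc2⟩ := h2
    refine ⟨c, ?_, ?_⟩
    · simp only [ConstructibleSetData.toSet, Set.mem_preimage, Set.mem_iUnion]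
      refine ⟨C, hC, ?_, ?_⟩
      · intro r hr
        exact (mem_vanishingIdeal_singleton_iff _ _).2 (hc _ (hq1 hr))
      · simpa [PrimeSpectrum.mem_zeroLocus, pointToPoint, mem_vanishingIdeal_singleton_iff]
          using hc2
    · ext k
      have h3 : (X k - MvPolynomial.C (a k) : MvPolynomial κ ℂ) ∈
          (PrimeSpectrum.comap f q).asIdeal := by
        rw [hqa]; simp [pointToPoint, mem_vanishingIdeal_singleton_iff]
      have h4 := hc _ h3
      simp [f] at h4
      simp only [polyMap]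
      rw [← aeval_eq_eval]
      exact sub_eq_zero.1 h4
  · rintro ⟨c, hc, rfl⟩
    exact ⟨_, hc, hpt c⟩

lemma IsCons.image_comp [Finite ι] [Finite κ] {S : Set (ι → ℂ)} (hS : IsCons S) (ρ : κ → ι) :
    IsCons {a : κ → ℂ | ∃ c ∈ S, c ∘ ρ = a} :=
  (hS.image_polyMap fun k => X (ρ k)).congr fun c => by simp

lemma IsCons.finite_or_cofinite {S : Set (ι → ℂ)} (hS : IsCons S) (γ : ι → Polynomial ℂ) :
    {a : ℂ | (fun i => (γ i).eval a) ∈ S}.Finite ∨
      {a : ℂ | (fun i => (γ i).eval a) ∉ S}.Finite := by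
  induction hS with
  | zero q =>
    have h : ∀ a : ℂ, eval (fun i => (γ i).eval a) q = (aeval γ q).eval a := by
      intro a
      induction q using MvPolynomial.induction_on with
      | C a => simp
      | add p q hp hq => simp [hp, hq]
      | mul_X q k hq => simp [hq]
    by_cases h0 : aeval γ q = 0
    · right; simp [h, h0]
    · left
      simp only [Set.mem_ofPred_eq, h]
      exact (Polynomial.finite_setOfPred_isRoot h0)
  | compl _ ih => simpa [or_comm] using ih
  | union _ _ ih1 ih2 =>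
    rcases ih1 with h1 | h1
    · rcases ih2 with h2 | h2
      · left; exact (h1.union h2).subset fun a ha => ha
      · right; exact h2.subset fun a ha h => ha (Or.inr h)
    · right; exact h1.subset fun a ha h => ha (Or.inl h)

lemma nonempty_iInter_of_fin_cofin (T : ℕ → Set ℂ) (hT : Antitone T)
    (h : ∀ k, (T k).Finite ∨ (T k)ᶜ.Finite) (hne : ∀ k, (T k).Nonempty) :
    (⋂ k, T k).Nonempty := by
  by_cases hf : ∃ k, (T k).Finite
  · obtain ⟨k, hk⟩ := hf
    by_contra hc
    have hc' : ∀ a, ∃ j, a ∉ T j := by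
      intro a
      by_contra h'
      push Not at h'
      exact hc ⟨a, Set.mem_iInter.2 h'⟩
    choose j hj using hc'
    obtain ⟨M, hM⟩ := (hk.image j).bddAbove
    obtain ⟨a, ha⟩ := hne (max k M)
    have hak : a ∈ T k := hT (le_max_left _ _) ha
    exact hj a (hT ((hM ⟨a, hak, rfl⟩).trans (le_max_right _ _)) ha)
  · push Not at hf
    have hc : (⋃ k, (T k)ᶜ).Countable :=
      Set.countable_iUnion fun k => ((h k).resolve_left (hf k)).countable
    by_contra hne'
    rw [Set.not_nonempty_iff_eq_empty] at hne'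
    rw [← Set.compl_iInter, hne', Set.compl_empty] at hc
    exact not_countable_complex hc

lemma nonempty_iInter_fin (n : ℕ) (T : ℕ → Set (Fin n → ℂ)) (hT : Antitone T)
    (h : ∀ k, IsCons (T k)) (hne : ∀ k, (T k).Nonempty) : (⋂ k, T k).Nonempty := by
  induction n with
  | zero =>
    refine ⟨default, Set.mem_iInter.2 fun k => ?_⟩
    obtain ⟨a, ha⟩ := hne k
    rwa [Subsingleton.elim default a]
  | succ n ih =>
    let P : ℕ → Set ℂ := fun k => {a | ∃ c ∈ T k, c 0 = a}
    obtain ⟨a, ha⟩ : (⋂ k, P k).Nonempty := by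
      refine nonempty_iInter_of_fin_cofin P ?_ ?_ ?_
      · rintro k l hkl a ⟨c, hc, rfl⟩
        exact ⟨c, hT hkl hc, rfl⟩
      · intro k
        have := ((h k).image_comp (fun _ : Unit => (0 : Fin (n + 1)))).finite_or_cofinite
          (fun _ => Polynomial.X)
        simp only [Polynomial.eval_X, Set.mem_ofPred_eq] at this
        have e : ∀ a : ℂ, (∃ c ∈ T k, (c ∘ fun _ : Unit => (0 : Fin (n + 1))) = fun _ => a) ↔
            a ∈ P k := by
          intro a
          simp [P, funext_iff]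
        simp only [e] at this
        exact this
      · intro k
        obtain ⟨c, hc⟩ := hne k
        exact ⟨c 0, c, hc, rfl⟩
    let p : Fin (n + 1) → MvPolynomial (Fin n) ℂ := Fin.cons (C a) X
    have hp : ∀ c, polyMap p c = Fin.cons a c := by
      intro c; ext i
      refine Fin.cases ?_ (fun i => ?_) i <;> simp [polyMap, p]
    obtain ⟨c, hc⟩ := ih (fun k => polyMap p ⁻¹' T k) (fun k l hkl => Set.preimage_mono (hT hkl))
      (fun k => (h k).preimage_polyMap p) (fun k => by
        obtain ⟨c, hc, hca⟩ := Set.mem_iInter.1 ha k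
        refine ⟨Fin.tail c, ?_⟩
        rw [Set.mem_preimage, hp, ← hca, Fin.cons_self_tail]
        exact hc)
    exact ⟨polyMap p c, Set.mem_iInter.2 fun k => Set.mem_iInter.1 hc k⟩

/-- Countable saturation of the complex numbers. -/
lemma nonempty_iInter_cons [Finite ι] (T : ℕ → Set (ι → ℂ)) (hT : Antitone T)
    (h : ∀ k, IsCons (T k)) (hne : ∀ k, (T k).Nonempty) : (⋂ k, T k).Nonempty := by
  obtain ⟨n, ⟨e⟩⟩ := Finite.exists_equiv_fin ι
  obtain ⟨c, hc⟩ := nonempty_iInter_fin n (fun k => {c | c ∘ e ∈ T k})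
    (fun k l hkl c hc => hT hkl hc) (fun k => (h k).preimage_comp e) (fun k => by
      obtain ⟨c, hc⟩ := hne k
      exact ⟨c ∘ e.symm, by simpa [Function.comp_assoc] using hc⟩)
  exact ⟨c ∘ e, Set.mem_iInter.2 fun k => Set.mem_iInter.1 hc k⟩

lemma exists_finite_subcover_cons [Finite ι] {D : Set (ι → ℂ)} (hD : IsCons D)
    (A : ℕ → Set (ι → ℂ)) (hA : ∀ k, IsCons (A k)) (hc : D ⊆ ⋃ k, A k) :
    ∃ n, D ⊆ ⋃ k ∈ Set.Iic n, A k := by
  by_contra hn
  push Not at hn
  obtain ⟨c, hc'⟩ := nonempty_iInter_cons (fun n => D ∩ (⋃ k ∈ Set.Iic n, A k)ᶜ)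
    (fun k l hkl => Set.inter_subset_inter_right _ (Set.compl_subset_compl.2
      (Set.biUnion_subset_biUnion_left (Set.Iic_subset_Iic.2 hkl))))
    (fun n => hD.inter (IsCons.biUnion (Set.finite_Iic n) fun k _ => hA k).compl)
    (fun n => by
      obtain ⟨c, hc1, hc2⟩ := Set.not_subset.1 (hn n)
      exact ⟨c, hc1, hc2⟩)
  obtain ⟨k, hk⟩ := Set.mem_iUnion.1 (hc (Set.mem_iInter.1 hc' 0).1)
  exact (Set.mem_iInter.1 hc' k).2 (Set.mem_biUnion (Set.mem_Iic.2 le_rfl) hk)

/-- Countable unions of constructible sets. -/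
def IsSig (S : Set (ι → ℂ)) : Prop :=
  ∃ T : ℕ → Set (ι → ℂ), (∀ n, IsCons (T n)) ∧ S = ⋃ n, T n

lemma IsCons.isSig {S : Set (ι → ℂ)} (hS : IsCons S) : IsSig S :=
  ⟨fun _ => S, fun _ => hS, by simp [Set.iUnion_const]⟩

namespace IsSig

lemma congr {S T : Set (ι → ℂ)} (hS : IsSig S) (h : ∀ c, c ∈ S ↔ c ∈ T) : IsSig T := by
  have : S = T := Set.ext h
  exact this ▸ hS

lemma iUnion {α : Type*} [Countable α] {S : α → Set (ι → ℂ)} (h : ∀ a, IsSig (S a)) :
    IsSig (⋃ a, S a) := by
  rcases isEmpty_or_nonempty α with hα | hα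
  · simpa using IsCons.empty.isSig
  choose T hT hST using h
  obtain ⟨e, he⟩ := exists_surjective_nat (α × ℕ)
  refine ⟨fun n => T (e n).1 (e n).2, fun n => hT _ _, ?_⟩
  ext c
  simp only [hST, Set.mem_iUnion]
  constructor
  · rintro ⟨a, n, h⟩
    obtain ⟨m, hm⟩ := he (a, n)
    exact ⟨m, by simpa [hm] using h⟩
  · rintro ⟨m, h⟩
    exact ⟨_, _, h⟩

lemma union {S T : Set (ι → ℂ)} (hS : IsSig S) (hT : IsSig T) : IsSig (S ∪ T) := by
  rw [Set.union_eq_iUnion]
  exact iUnion fun b => by cases b <;> assumption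

lemma inter {S T : Set (ι → ℂ)} (hS : IsSig S) (hT : IsSig T) : IsSig (S ∩ T) := by
  obtain ⟨A, hA, rfl⟩ := hS
  obtain ⟨B, hB, rfl⟩ := hT
  rw [Set.iUnion_inter]
  refine iUnion fun n => ?_
  rw [Set.inter_iUnion]
  exact iUnion fun m => ((hA n).inter (hB m)).isSig

lemma iInter {α : Type*} [Finite α] {S : α → Set (ι → ℂ)} (h : ∀ a, IsSig (S a)) :
    IsSig (⋂ a, S a) := by
  have : ∀ s : Set α, s.Finite → IsSig (⋂ a ∈ s, S a) := by
    intro s hs
    induction s, hs using Set.Finite.induction_on with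
    | empty => simpa using IsCons.univ.isSig
    | insert _ _ ih => rw [Set.biInter_insert]; exact (h _).inter ih
  simpa using this _ Set.finite_univ

lemma preimage_polyMap {S : Set (κ → ℂ)} (hS : IsSig S) (p : κ → MvPolynomial ι ℂ) :
    IsSig (polyMap p ⁻¹' S) := by
  obtain ⟨A, hA, rfl⟩ := hS
  rw [Set.preimage_iUnion]
  exact iUnion fun n => ((hA n).preimage_polyMap p).isSig

lemma preimage_comp {S : Set (κ → ℂ)} (hS : IsSig S) (ρ : κ → ι) :
    IsSig {c : ι → ℂ | c ∘ ρ ∈ S} :=
  (hS.preimage_polyMap fun k => X (ρ k)).congr fun c => by simp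

lemma image_comp [Finite ι] [Finite κ] {S : Set (ι → ℂ)} (hS : IsSig S) (ρ : κ → ι) :
    IsSig {a : κ → ℂ | ∃ c ∈ S, c ∘ ρ = a} := by
  obtain ⟨A, hA, rfl⟩ := hS
  refine (iUnion fun n => ((hA n).image_comp ρ).isSig).congr fun a => ?_
  simp only [Set.mem_iUnion, Set.mem_ofPred_eq]
  constructor
  · rintro ⟨n, c, hc, rfl⟩
    exact ⟨c, ⟨n, hc⟩, rfl⟩
  · rintro ⟨c, ⟨n, hc⟩, rfl⟩
    exact ⟨n, c, hc, rfl⟩

/-- A set which is a countable union of constructible sets, together with its complement inside a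
constructible set, is constructible. -/
lemma isCons_of_compl [Finite ι] {D A B : Set (ι → ℂ)} (hD : IsCons D) (hA : IsSig A)
    (hB : IsSig B) (hAD : A ⊆ D) (hc : D ⊆ A ∪ B) (hd : ∀ c ∈ A, c ∉ B) : IsCons A := by
  obtain ⟨A, hA, rfl⟩ := hA
  obtain ⟨B, hB, rfl⟩ := hB
  obtain ⟨n, hn⟩ := exists_finite_subcover_cons hD (fun k => A k ∪ B k)
    (fun k => (hA k).union (hB k)) (by rwa [Set.iUnion_union_distrib])
  refine (IsCons.biUnion (Set.finite_Iic n) fun k _ => hA k).congr fun c => ⟨?_, ?_⟩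
  · intro h
    simp only [Set.mem_iUnion] at h ⊢
    obtain ⟨k, -, hk⟩ := h
    exact ⟨k, hk⟩
  · intro h
    have := hn (hAD h)
    simp only [Set.mem_iUnion] at this ⊢
    obtain ⟨k, hk, h1 | h1⟩ := this
    · exact ⟨k, hk, h1⟩
    · exact absurd (Set.mem_iUnion.2 ⟨k, h1⟩) (hd c h)

end IsSig

end Pool.Agent.Lib.MP_cc3443_ag
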