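import Pool.Agent.Lib.MP_cc3443_ag.Std

open Filter Set WithZero Module Finsupp

noncomputable section

namespace Pool.Agent.Lib.MP_cc3443_ag

variable {K : Type} [Field K] [Algebra ℂ K] [Algebra (RatFunc ℂ) K]
  [IsScalarTower ℂ (RatFunc ℂ) K] [FiniteDimensional (RatFunc ℂ) K]

/-- Euler characteristic of the variety of line subbundles of degree `m`. -/
def nn (V : Lat K 2) (m : ℤ) : ℂ := (QC V 1 (chiO K + m)).int fun M => ind (Sat V M)

/-- Upper bound for the degrees of rank one subsheaves. -/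
def Bd (V : Lat K 2) (B : ℤ) : Prop := ∀ M ≤ V, chiL M ≤ chiO K + B

lemma exists_Bd (V : Lat K 2) (b : ℤ) : ∃ B, b ≤ B ∧ Bd V B := by
  obtain ⟨C, hC⟩ := exists_chiL_bound V
  exact ⟨max b (C - chiO K), le_max_left _ _, fun M hM => by
    have := hC M hM
    have := le_max_right b (C - chiO K)
    omega⟩

lemma nn_eq_zero {V : Lat K 2} {B m : ℤ} (h : Bd V B) (hm : B < m) : nn V m = 0 :=
  Chart.int_eq_zero _ fun M hM => by
    have h1 := QC_R.1 hM
    have := h M h1.1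
    have := h1.2.2
    omega

lemma fiber {V : Lat K 2} {B : ℤ} (hB : Bd V B) (b : ℤ) {ψ : Lat K 2 → ℂ} (hψ : DFun ψ) :
    (QC V 1 (chiO K + b)).int ψ = ∑ m ∈ Finset.Icc b B, (QC V 1 (chiO K + m)).int fun M =>
      ind (Sat V M) * (QC V 1 (chiO K + b)).int fun L => ind (L ≤ M) * ψ L := by
  have h1 : DFun fun p : Lat K 2 × Lat K 2 => ind (p.1 ≤ V ∧ Sat V p.1) * (ind (p.2 ≤ p.1) * ψ p.2) :=
    (Del.sat (by fun_prop) (by fun_prop)).ind.mul
      ((Del.le (by fun_prop) (by fun_prop)).ind.mul (hψ.comp (by fun_prop)))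
  have h2 : ∀ m, ((QC V 1 (chiO K + m)).int fun M =>
      ind (Sat V M) * (QC V 1 (chiO K + b)).int fun L => ind (L ≤ M) * ψ L) =
      (QC V 1 (chiO K + b)).int fun L => (QC V 1 (chiO K + m)).int fun M =>
        ind (M ≤ V ∧ Sat V M) * (ind (L ≤ M) * ψ L) := fun m => by
    rw [← Chart.int_swap _ _ h1]
    refine Chart.int_congr _ fun M hM => ?_
    dsimp only
    rw [Chart.int_const_mul _ ((Del.le DMap.id' (DMap.const M)).ind.mul hψ)]
    simp [(QC_R.1 hM).1]
  simp only [h2]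
  rw [← Chart.int_sum _ _ fun m _ => Chart.dfun_int _
    (h1.comp (f := fun p : Lat K 2 × Lat K 2 => (p.2, p.1)) (by fun_prop))]
  refine Chart.int_congr _ fun L hL => ?_
  rw [QC_R] at hL
  have h3 : rk (V.restrict L.gen) = 1 := by rw [rk, gen_restrict_gen hL.1]; exact hL.2.1
  have h4 := le_restrict hL.1 le_rfl
  have h5 : ∀ m M, (QC V 1 (chiO K + m)).R M → M ≠ V.restrict L.gen →
      ind (M ≤ V ∧ Sat V M) * (ind (L ≤ M) * ψ L) = 0 := fun m M hM hne => by
    by_contra h6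
    have h7 := of_ind_ne_zero (left_ne_zero_of_mul h6)
    have h8 := of_ind_ne_zero (left_ne_zero_of_mul (right_ne_zero_of_mul h6))
    apply hne
    rw [gen_eq_of_rk h8 (hL.2.1.trans (QC_R.1 hM).2.1.symm)]
    exact h7.2.eq_restrict h7.1
  rw [Finset.sum_eq_single (chiL (V.restrict L.gen) - chiO K), Chart.int_single _
    (QC_R.2 ⟨V.restrict_le _, h3, by ring⟩) (h5 _)]
  · simp [V.restrict_le, sat_restrict, h4]
  · intro m _ hm
    refine Chart.int_eq_zero _ fun M hM => h5 m M hM ?_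
    rintro rfl
    exact hm (by rw [(QC_R.1 hM).2.2]; ring)
  · intro h6
    have h7 := hB _ (V.restrict_le L.gen)
    have h8 := chiL_mono h4 (hL.2.1.trans h3.symm)
    have h9 := hL.2.2
    exact absurd (Finset.mem_Icc.2 ⟨by omega, by omega⟩) h6

lemma equiv_sum (d b : ℤ) {ψ : Lat K 2 → Lat K 2 → ℂ} (hψ : ∀ V, DFun (ψ V))
    (he : ∀ (Γ : Lat K 2 × Lat K 2 → Prop) (V V' L L' : Lat K 2), Del Γ → Iso Γ V L V' L' →
      Iso Γ L ⊥ L' ⊥ → ψ V L = ψ V' L') :
    ∃ γ : ℤ → ℂ, ∀ V : Lat K 2, V.gen = ⊤ → chiL V = 2 * chiO K + d → ∀ B, Bd V B →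
      (QC V 1 (chiO K + b)).int (ψ V) = ∑ m ∈ Finset.Icc b B, γ m * nn V m := by
  refine ⟨fun m => (QC (modE K m (d - m)) 1 (chiO K + b)).int fun L =>
    ind (L ≤ modM K m) * ψ (modE K m (d - m)) L, fun V hV hd B hB => ?_⟩
  rw [fiber hB b (hψ V)]
  refine Finset.sum_congr rfl fun m _ => ?_
  rw [nn, Chart.int_congr _ (F := fun M => ind (Sat V M)) (G := fun M => ind (M ≤ V ∧ Sat V M))
    fun M hM => by simp [(QC_R.1 hM).1], ← Chart.int_const_mul _
      (Del.sat (DMap.const V) DMap.id').ind]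
  refine Chart.int_congr _ fun M hM => ?_
  rw [QC_R] at hM
  by_cases hs : Sat V M
  · obtain ⟨Γ, hΓ, h1, h2⟩ := exists_std hV hM.1 hs hM.2.1 hM.2.2 (l := d - m) (by rw [hd]; ring)
    rw [ind_true hs, ind_true ⟨hM.1, hs⟩, one_mul, mul_one]
    refine h1.int_eq hΓ hM.1 (modM_le _ _) rfl rfl
      ((Del.le DMap.id' (DMap.const M)).ind.mul (hψ V))
      (fun G _ h => ⟨bot_le, of_ind_ne_zero (left_ne_zero_of_mul h)⟩)
      (fun G _ h => ⟨bot_le, of_ind_ne_zero (left_ne_zero_of_mul h)⟩) fun L L' h3 h4 h5 h6 => ?_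
    rw [ind_true h5, ind_true (h1.mem h4 h5 h6).2,
      he Γ V _ L L' hΓ (h2 L L' h5 h3.2.1 h6) (h1.sub le_rfl bot_le h5 h6 h1.bot)]
  · simp [hs]

/-- On rank two bundles the function is a combination of counts of line subbundles. -/
def LinC (d : ℤ) (f : Fn K) : Prop :=
  ∃ (b₀ : ℤ) (γ : ℤ → ℂ), (∀ m < b₀, γ m = 0) ∧ ∀ V : Lat K 2, V.gen = ⊤ →
    chiL V = 2 * chiO K + d → ∀ B, Bd V B → ∀ b ≤ b₀,
      f 2 V ⊥ = ∑ m ∈ Finset.Icc b B, γ m * nn V m

lemma LinC.of {d : ℤ} {f : Fn K} (b₀ : ℤ) (γ : ℤ → ℂ) (h : ∀ V : Lat K 2, V.gen = ⊤ →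
    chiL V = 2 * chiO K + d → ∀ B, Bd V B → f 2 V ⊥ = ∑ m ∈ Finset.Icc b₀ B, γ m * nn V m) :
    LinC d f := by
  refine ⟨b₀, fun m => if m < b₀ then 0 else γ m, fun m hm => if_pos hm,
    fun V h1 h2 B hB b hb => ?_⟩
  rw [h V h1 h2 B hB, ← Finset.sum_subset (Finset.Icc_subset_Icc_left hb)]
  · exact Finset.sum_congr rfl fun m hm => by simp [(Finset.mem_Icc.1 hm).1]
  · intro m h3 h4
    rw [Finset.mem_Icc] at h3 h4
    simp [show m < b₀ by omega]

lemma nn_eq_of_le {V G : Lat K 2} (h : G ≤ V) (b : ℤ) :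
    nn G b = (QC V 1 (chiO K + b)).int fun L => ind (L ≤ G ∧ Sat G L) := by
  rw [nn, Chart.int_congr _ (G := fun L => ind (QR G 1 (chiO K + b) L) * ind (L ≤ G ∧ Sat G L))
    fun M hM => by simp [(QC_R.1 hM).1, QC_R.1 hM], Chart.int_indep _ (QC V 1 (chiO K + b))
      ((Del.qr (DMap.const G) DMap.id' _ _).ind.mul (Del.sat (DMap.const G) DMap.id').ind)
      fun L hL => ?_]
  · refine Chart.int_congr _ fun L hL => ?_
    by_cases h1 : L ≤ G
    · rw [ind_true (show QR G 1 (chiO K + b) L from ⟨h1, (QC_R.1 hL).2⟩), one_mul]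
    · simp [h1]
  · have := of_ind_ne_zero (left_ne_zero_of_mul hL)
    rw [QC_R, QC_R]
    exact ⟨fun _ => ⟨this.1.trans h, this.2⟩, fun _ => this⟩

lemma Sph.linC {ν : ℕ × ℤ} {f : Fn K} (hf : Sph ν f) (h2 : ν.1 = 2) : LinC ν.2 f := by
  induction hf with
  | tors d => simp at h2
  | line l => simp at h2
  | zero ν => exact LinC.of 0 0 fun _ _ _ _ _ => by simp
  | add _ _ ih1 ih2 =>
    obtain ⟨b₁, γ₁, h1, h3⟩ := ih1 h2
    obtain ⟨b₂, γ₂, h4, h5⟩ := ih2 h2
    refine LinC.of (min b₁ b₂) (γ₁ + γ₂) fun V hV hd B hB => ?_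
    simp only [Pi.add_apply, add_mul, Finset.sum_add_distrib]
    rw [h3 V hV hd B hB _ (min_le_left _ _), h5 V hV hd B hB _ (min_le_right _ _)]
  | smul c _ ih =>
    obtain ⟨b₁, γ₁, h1, h3⟩ := ih h2
    refine LinC.of b₁ (c • γ₁) fun V hV hd B hB => ?_
    simp only [Pi.smul_apply, smul_eq_mul, mul_assoc, ← Finset.mul_sum]
    rw [h3 V hV hd B hB _ le_rfl]
  | @mul μ ν f g hf hg ih1 ih2 =>
    rw [Prod.fst_add] at h2
    rw [Prod.snd_add]
    obtain h | h | h : ν.1 = 0 ∨ ν.1 = 1 ∨ ν.1 = 2 := by omega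
    · by_cases h3 : ν.2 = 0
      · obtain ⟨b₁, γ₁, h1, h4⟩ := ih1 (by omega)
        refine LinC.of b₁ (g 2 ⊥ ⊥ • γ₁) fun V hV hd B hB => ?_
        rw [hall_eq hf hg, Chart.int_single _ (y₀ := ⊥) (QC_R.2 ⟨bot_le, by simp [h], by simp [h, h3]⟩)
          fun G hG hne => (hne (eq_bot_of_rk (by simpa [h] using (QC_R.1 hG).2.1))).elim,
          h4 V hV (by rw [hd, h3, add_zero]) B hB _ le_rfl]
        simp only [Pi.smul_apply, smul_eq_mul, mul_assoc, ← Finset.mul_sum]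
        rw [mul_comm]
      · refine LinC.of 0 0 fun V hV hd B hB => ?_
        rw [hall_eq hf hg, Chart.int_eq_zero _ fun G hG => ?_]
        · simp
        · have h4 := (QC_R.1 hG).2
          rw [eq_bot_of_rk (L := G) (by simpa [h] using h4.1)] at h4
          exact absurd (by simpa [h] using h4.2.symm) h3
    · obtain ⟨γ, hγ⟩ := equiv_sum (μ.2 + ν.2) ν.2 (ψ := fun V L => f 2 V L * g 2 L ⊥)
        (fun V => dfun_hall_aux hf hf.bdd hg.bdd V ⊥) fun Γ V V' L L' hΓ h1 h3 => by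
          rw [hf.iso_eq hΓ h1, hg.iso_eq hΓ h3]
      refine LinC.of ν.2 γ fun V hV hd B hB => ?_
      rw [hall_eq hf hg, ← hγ V hV hd B hB]
      simp [h, add_comm]
    · obtain ⟨b₁, γ₁, h1, h4⟩ := ih2 h
      have h5 : ∀ V : Lat K 2, DFun fun p : Lat K 2 × Lat K 2 =>
          f 2 V p.2 * ind (p.1 ≤ p.2 ∧ Sat p.2 p.1) := fun V =>
        ((hf.bdd.left V).comp (by fun_prop)).mul (Del.sat (by fun_prop) (by fun_prop)).ind
      choose γ hγ using fun b => equiv_sum (μ.2 + ν.2) b (ψ := fun V L =>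
        (QC V 2 (2 * chiO K + ν.2)).int fun G => f 2 V G * ind (L ≤ G ∧ Sat G L))
        (fun V => Chart.dfun_int _ (h5 V)) fun Γ V V' L L' hΓ h1 h3 => by
          have h6 := h3.cls L L' bot_le le_rfl h3.top
          refine h1.int_eq hΓ le_rfl le_rfl (by omega) (by omega)
            ((h5 V).comp (f := fun G => (L, G)) (by fun_prop))
            (fun G h7 h8 => ⟨(of_ind_ne_zero (right_ne_zero_of_mul h8)).1, h7.1⟩)
            (fun G h7 h8 => ⟨(of_ind_ne_zero (right_ne_zero_of_mul h8)).1, h7.1⟩)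
            fun G G' _ h7 h8 h9 => ?_
          rw [hf.iso_eq hΓ (h1.sub h7 h8 le_rfl h1.top h9),
            (h1.sub le_rfl h7 h8 h9 h1.bot).sat_iff]
          simp [h7, (h1.mem h7 h8 h9).1]
      refine LinC.of b₁ (fun m => ∑ b ∈ Finset.Icc b₁ m, γ₁ b * γ b m) fun V hV hd B hB => ?_
      have h6 : ∀ b, DFun fun G => γ₁ b * (QC V 1 (chiO K + b)).int fun L =>
          f 2 V G * ind (L ≤ G ∧ Sat G L) := fun b => (DFun.const _).mul (Chart.dfun_int _
            ((h5 V).comp (f := fun p : Lat K 2 × Lat K 2 => (p.2, p.1)) (by fun_prop)))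
      rw [hall_eq hf hg, h, rk_bot, chiL_bot, zero_add, zero_add, add_comm, Nat.cast_ofNat,
        Chart.int_congr _ (G := fun G => ∑ b ∈ Finset.Icc b₁ B, γ₁ b *
          (QC V 1 (chiO K + b)).int fun L => f 2 V G * ind (L ≤ G ∧ Sat G L)) fun G hG => ?_,
        Chart.int_sum _ _ fun b _ => h6 b]
      · simp only [Finset.sum_mul]
        rw [Finset.sum_comm' (t' := Finset.Icc b₁ B) (s' := fun b => Finset.Icc b B)
          fun m b => by simp only [Finset.mem_Icc]; omega]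
        refine Finset.sum_congr rfl fun b _ => ?_
        rw [Chart.int_const_mul _ (Chart.dfun_int _ ((h5 V).comp
          (f := fun p : Lat K 2 × Lat K 2 => (p.2, p.1)) (by fun_prop))),
          ← Chart.int_swap _ _ (h5 V), hγ b V hV hd B hB, Finset.mul_sum]
        simp only [mul_assoc]
      · rw [QC_R] at hG
        rw [h4 G (rk_eq_iff_gen.1 hG.2.1) hG.2.2 B (fun M hM => hB M (hM.trans hG.1)) _ le_rfl,
          Finset.mul_sum]
        refine Finset.sum_congr rfl fun b _ => ?_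
        rw [nn_eq_of_le hG.1, Chart.int_const_mul _ (Del.sat (DMap.const G) DMap.id').ind,
          mul_left_comm]

lemma qq_eq_sum (hχ : chiO K ≤ 0) (V : Lat K 2) (b : ℤ) :
    qq V b = ∑ k ∈ Finset.Icc 0 (-2 * chiO K), SS K k * nn V (b + k) := by
  obtain ⟨B, h1, hB⟩ := exists_Bd V (b + -2 * chiO K)
  rw [qq, fiber hB b (DFun.const 1)]
  have h2 : ∀ m, ((QC V 1 (chiO K + m)).int fun M =>
      ind (Sat V M) * (QC V 1 (chiO K + b)).int fun L => ind (L ≤ M) * 1) =
      SS K (m - b) * nn V m := fun m => by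
    rw [nn, Chart.int_congr _ (F := fun M => ind (Sat V M)) (G := fun M => ind (M ≤ V ∧ Sat V M))
      fun M hM => by simp [(QC_R.1 hM).1], ← Chart.int_const_mul _
        (Del.sat (DMap.const V) DMap.id').ind]
    refine Chart.int_congr _ fun M hM => ?_
    rw [QC_R] at hM
    obtain ⟨s, D, hs, rfl⟩ := exists_line_of_rk hM.2.1
    have h3 := hM.2.2
    rw [chiL_line hs, add_right_inj] at h3
    simp only [mul_one, int_le_eq_qq hM.1, qq_line hs, h3, hM.1, true_and]
    rw [mul_comm]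
  simp only [h2]
  rw [← Finset.sum_subset (Finset.Icc_subset_Icc_right h1) fun m h3 h4 => by
    rw [Finset.mem_Icc] at h3 h4
    rw [SS_big hχ (by omega), zero_mul]]
  refine Finset.sum_nbij' (fun m => m - b) (fun k => b + k) ?_ ?_ ?_ ?_ ?_
  all_goals simp only [Finset.mem_Icc, add_sub_cancel, add_sub_cancel_left, implies_true]
  all_goals omega

lemma nn_rec (hχ : chiO K ≤ 0) {V : Lat K 2} (hV : V.gen = ⊤) {d : ℤ}
    (hd : chiL V = 2 * chiO K + d) (b : ℤ) :
    ∑ k ∈ Finset.Icc 0 (-2 * chiO K), SS K k * (nn V (b + k) - nn V (d - (b + k))) = 0 := by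
  simp only [mul_sub, Finset.sum_sub_distrib]
  rw [← qq_eq_sum hχ, ← qq_symm hχ hV, qq_eq_sum hχ, sub_eq_zero]
  refine Finset.sum_nbij' (fun k => -2 * chiO K - k) (fun k => -2 * chiO K - k) ?_ ?_ ?_ ?_ ?_
  · simp only [Finset.mem_Icc]; omega
  · simp only [Finset.mem_Icc]; omega
  · simp
  · simp
  · intro k _
    rw [SS_symm hχ, hd]
    congr 2
    ring

lemma nn_split (hχ : chiO K ≤ 0) (D₁ D₂ : Place K →₀ ℤ) (m : ℤ) :
    nn (split D₁ D₂) m = ind (m = degree D₁) + ind (m = degree D₂) := by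
  have h1 : ∀ b c : ℤ, ∑ k ∈ Finset.Icc 0 (-2 * chiO K), SS K k * ind (b + k = c) =
      SS K (c - b) := fun b c => by
    rw [Finset.sum_eq_single (c - b)]
    · simp
    · intro k _ hk
      rw [ind_false (by omega), mul_zero]
    · intro h
      rw [Finset.mem_Icc] at h
      by_cases h2 : c - b < 0
      · rw [SS_neg h2, zero_mul]
      · rw [SS_big hχ (by omega), zero_mul]
  obtain ⟨B, h2, hB⟩ := exists_Bd (split D₁ D₂) (max (degree D₁) (degree D₂))
  rw [max_le_iff] at h2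
  have key : ∀ (n : ℕ) (m : ℤ), B - n < m →
      nn (split D₁ D₂) m = ind (m = degree D₁) + ind (m = degree D₂) := by
    intro n
    induction n with
    | zero =>
      intro m hm
      rw [nn_eq_zero hB (by omega), ind_false (by omega), ind_false (by omega), add_zero]
    | succ n ih =>
      intro m hm
      have h3 := qq_eq_sum hχ (split D₁ D₂) m
      rw [qq_split, ← h1, ← h1, ← Finset.sum_add_distrib, ← sub_eq_zero,
        ← Finset.sum_sub_distrib, Finset.sum_eq_single 0] at h3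
      · rw [SS_zero, add_zero] at h3
        linear_combination -h3
      · intro k hk hk0
        rw [Finset.mem_Icc] at hk
        rw [ih (m + k) (by omega)]
        ring
      · intro h
        exact absurd (Finset.mem_Icc.2 ⟨le_rfl, by omega⟩) h
  exact key (B - m + 1).toNat m (by omega)

end Pool.Agent.Lib.MP_cc3443_ag
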