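import Pool.Agent.Lib.MP_cc3443_ag.Line

open Filter Set WithZero Module Finsupp

noncomputable section

namespace Pool.Agent.Lib.MP_cc3443_ag

variable {K : Type} [Field K]

/-- The determinant pairing on the plane. -/
def dt : (Fin 2 → K) →ₗ[K] (Fin 2 → K) →ₗ[K] K :=
  LinearMap.mk₂ K (fun v w => v 0 * w 1 - v 1 * w 0) (fun _ _ _ => by simp; ring)
    (fun _ _ _ => by simp; ring) (fun _ _ _ => by simp; ring) (fun _ _ _ => by simp; ring)

lemma dt_apply (v w : Fin 2 → K) : dt v w = v 0 * w 1 - v 1 * w 0 := rfl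

@[simp] lemma dt_self (v : Fin 2 → K) : dt v v = 0 := by rw [dt_apply]; ring

lemma dt_swap (v w : Fin 2 → K) : dt v w = -dt w v := by rw [dt_apply, dt_apply]; ring

lemma dt_decomp {s y : Fin 2 → K} (h : dt s y = 1) (w : Fin 2 → K) :
    w = dt w y • s + dt s w • y := by
  rw [dt_apply] at h
  funext i
  fin_cases i
  · simp only [dt_apply, Fin.zero_eta, Pi.add_apply, Pi.smul_apply, smul_eq_mul]
    linear_combination (-w 0) * h
  · simp only [dt_apply, Fin.mk_one, Pi.add_apply, Pi.smul_apply, smul_eq_mul]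
    linear_combination (-w 1) * h

lemma exists_dt {s : Fin 2 → K} (hs : s ≠ 0) : ∃ y, dt s y = 1 := by
  by_cases h : s 0 = 0
  · have h1 : s 1 ≠ 0 := fun h1 => hs (funext fun i => by fin_cases i <;> simpa)
    exact ⟨![-(s 1)⁻¹, 0], by simp [dt_apply, h1]⟩
  · exact ⟨![0, (s 0)⁻¹], by simp [dt_apply, h]⟩

lemma ne_zero_of_dt {s y : Fin 2 → K} (h : dt s y = 1) : s ≠ 0 := by
  rintro rfl; simp at h

/-- Projection along a vector. -/
def pr (s : Fin 2 → K) : (Fin 2 → K) →ₗ[K] (Fin 1 → K) := (dt s).smulRight 1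

lemma pr_apply (s w : Fin 2 → K) : pr s w = dt s w • (1 : Fin 1 → K) := rfl

lemma mem_span_iff_dt {s : Fin 2 → K} (hs : s ≠ 0) {w : Fin 2 → K} : w ∈ K ∙ s ↔ dt s w = 0 := by
  obtain ⟨y, hy⟩ := exists_dt hs
  rw [Submodule.mem_span_singleton]
  constructor
  · rintro ⟨a, rfl⟩; simp
  · intro h
    exact ⟨dt w y, by conv_rhs => rw [dt_decomp hy w, h, zero_smul, add_zero]⟩

lemma ker_pr {s : Fin 2 → K} (hs : s ≠ 0) : LinearMap.ker (pr s) = K ∙ s := by
  ext w
  rw [mem_span_iff_dt hs, LinearMap.mem_ker, pr_apply, smul_eq_zero, or_iff_left one_ne_zero]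

variable [Algebra ℂ K]

section FF
variable [IsFF K]

lemma Place.val_zpow_mul_le (x : Place K) {m k : ℤ} {z : K} :
    x.val (x.unif ^ m * z) ≤ exp k ↔ x.val z ≤ exp (k + m) := by
  rw [map_mul, x.val_unif_zpow, exp_neg, inv_mul_le_iff₀ exp_pos, ← exp_add, add_comm]

/-- Local bases adapted to a line. -/
structure Flag (V : Lat K 2) (s : Fin 2 → K) (y : Place K → Fin 2 → K) (y₀ : Fin 2 → K)
    (D₁ D₂ : Place K →₀ ℤ) : Prop where
  det : ∀ x, dt s (y x) = 1
  ev : ∀ᶠ x in cofinite, y x = y₀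
  mem : ∀ x w, w ∈ V.S x ↔ x.val (dt w (y x)) ≤ exp (D₁ x) ∧ x.val (dt s w) ≤ exp (D₂ x)

instance : Infinite (Place K) := by
  obtain ⟨u, hu⟩ := IsFF.ex (K := K)
  choose x hx using exists_place_over hu
  refine Infinite.of_injective x fun a b hab => ?_
  have h1 := hx a
  have h2 := hx b
  rw [← hab] at h2
  have h3 := (x a).val.map_sub_lt h2 h1
  rw [sub_sub_sub_cancel_left, ← map_sub] at h3
  exact sub_eq_zero.1 ((x a).const_eq_zero h3)

namespace Flag
variable {V : Lat K 2} {s : Fin 2 → K} {y : Place K → Fin 2 → K} {y₀ : Fin 2 → K}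
  {D₁ D₂ : Place K →₀ ℤ} (h : Flag V s y y₀ D₁ D₂)
include h

lemma ne_zero : s ≠ 0 := ne_zero_of_dt (h.det (Classical.arbitrary _))

lemma det₀ : dt s y₀ = 1 := by
  obtain ⟨x, hx⟩ := h.ev.exists
  exact hx ▸ h.det x

lemma fst_mem (x : Place K) : x.unif ^ (-D₁ x) • s ∈ V.S x := by
  simp [h.mem, h.det, x.val_unif_zpow, -map_inv₀, -zpow_neg, -map_zpow₀]

lemma snd_mem (x : Place K) : x.unif ^ (-D₂ x) • y x ∈ V.S x := by
  simp [h.mem, h.det, x.val_unif_zpow, -map_inv₀, -zpow_neg, -map_zpow₀]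

lemma gen_eq : V.gen = ⊤ := by
  obtain ⟨x⟩ : Nonempty (Place K) := inferInstance
  rw [eq_top_iff]
  intro w _
  rw [dt_decomp (h.det x) w]
  exact add_mem
    (V.gen.smul_mem _ ((V.gen.smul_mem_iff (zpow_ne_zero _ x.unif_ne_zero)).1
      (Lat.mem_gen (h.fst_mem x))))
    (V.gen.smul_mem _ ((V.gen.smul_mem_iff (zpow_ne_zero _ x.unif_ne_zero)).1
      (Lat.mem_gen (h.snd_mem x))))

lemma restrict_eq : V.restrict (K ∙ s) = line s D₁ := by
  refine Lat.ext' fun x => ?_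
  ext w
  rw [Lat.mem_restrict, mem_line, Submodule.mem_span_singleton]
  constructor
  · rintro ⟨hw, z, rfl⟩
    exact ⟨z, by simpa [h.det] using ((h.mem _ _).1 hw).1, rfl⟩
  · rintro ⟨z, hz, rfl⟩
    exact ⟨by simpa [h.mem, h.det] using hz, z, rfl⟩

lemma mapL_eq : V.mapL (pr s) = line 1 D₂ := by
  refine Lat.ext' fun x => ?_
  ext w
  rw [Lat.mem_mapL, mem_line]
  constructor
  · rintro ⟨v, hv, rfl⟩
    exact ⟨_, ((h.mem _ _).1 hv).2, rfl⟩
  · rintro ⟨z, hz, rfl⟩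
    exact ⟨z • y x, by simpa [h.mem, h.det] using hz, by simp [pr_apply, h.det]⟩

lemma twist (D : Place K →₀ ℤ) : Flag (V.twist D) s y y₀ (D₁ + D) (D₂ + D) where
  det := h.det
  ev := h.ev
  mem := fun x w => by
    simp only [Lat.mem_twist, h.mem, map_smul, LinearMap.smul_apply, smul_eq_mul,
      x.val_zpow_mul_le, Finsupp.add_apply]

end Flag

lemma exists_flag {V : Lat K 2} (hV : V.gen = ⊤) {s : Fin 2 → K} (hs : s ≠ 0) :
    ∃ y y₀ D₁ D₂, Flag V s y y₀ D₁ D₂ := by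
  classical
  obtain ⟨y₀, hy₀⟩ := exists_dt hs
  obtain ⟨D₁, h₁⟩ := exists_line (L := V.restrict (K ∙ s)) hs (by simp [hV])
  obtain ⟨D₂, h₂⟩ := exists_line (L := V.mapL (pr s)) (s := 1) one_ne_zero (by
    rw [Lat.gen_mapL, hV, Submodule.map_top]
    refine le_antisymm ?_ ((Submodule.span_singleton_le_iff_mem _ _).2
      ⟨y₀, by simp [pr_apply, hy₀]⟩)
    rintro _ ⟨w, rfl⟩
    exact Submodule.smul_mem _ _ (Submodule.mem_span_singleton_self _))
  have h3 : ∀ x : Place K, ∃ y, dt s y = 1 ∧ x.unif ^ (-D₂ x) • y ∈ V.S x := by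
    intro x
    have h4 : x.unif ^ (-D₂ x) • (1 : Fin 1 → K) ∈ (V.mapL (pr s)).S x := by
      rw [h₂, smul_mem_line one_ne_zero, x.val_unif_zpow, neg_neg]
    obtain ⟨v, hv, e⟩ := Lat.mem_mapL.1 h4
    have h5 : dt s v = x.unif ^ (-D₂ x) := smul_left_injective K one_ne_zero e
    have h6 := zpow_ne_zero (D₂ x) x.unif_ne_zero
    exact ⟨x.unif ^ D₂ x • v, by simp [h5, h6], by simpa [smul_smul, h6] using hv⟩
  choose y hy hy' using h3
  let y' : Place K → Fin 2 → K := fun x => if x.unif ^ (-D₂ x) • y₀ ∈ V.S x then y₀ else y x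
  have h4 : ∀ x, dt s (y' x) = 1 := fun x => by simp only [y']; split_ifs; exacts [hy₀, hy x]
  have h5 : ∀ x : Place K, x.unif ^ (-D₂ x) • y' x ∈ V.S x := fun x => by
    simp only [y']; split_ifs with h; exacts [h, hy' x]
  refine ⟨y', y₀, D₁, D₂, h4, ?_, fun x w => ?_⟩
  · have h6 : ∀ᶠ x in cofinite, D₂ x = 0 := D₂.hasFiniteSupport.subset fun x hx => hx
    have h7 : ∀ᶠ x : Place K in cofinite, ∀ i, y₀ i ∈ x.O :=
      eventually_all.2 fun i => eventually_mem _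
    refine (V.std_S.and (h6.and h7)).mono fun x hx => if_pos ?_
    rw [hx.2.1, neg_zero, zpow_zero, one_smul, hx.1, hV]
    exact ⟨trivial, hx.2.2⟩
  have h6 : ∀ z : K, x.val z ≤ exp (D₂ x) → z • y' x ∈ V.S x := fun z hz => by
    have := Lat.smul_mem (x.zpow_mul_mem_iff.2 hz) (h5 x)
    rwa [smul_smul, mul_right_comm, ← zpow_add₀ x.unif_ne_zero, add_neg_cancel, zpow_zero,
      one_mul] at this
  have h7 : ∀ z : K, z • s ∈ V.S x ↔ x.val z ≤ exp (D₁ x) := fun z => by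
    rw [← smul_mem_line hs, ← h₁, Lat.mem_restrict, and_iff_left]
    exact Submodule.smul_mem _ _ (Submodule.mem_span_singleton_self _)
  constructor
  · intro hw
    have h8 : x.val (dt s w) ≤ exp (D₂ x) := by
      rw [← smul_mem_line (s := (1 : Fin 1 → K)) one_ne_zero, ← h₂]
      exact Lat.mem_mapL.2 ⟨w, hw, rfl⟩
    refine ⟨(h7 _).1 ?_, h8⟩
    rw [eq_sub_of_add_eq (dt_decomp (h4 x) w).symm]
    exact sub_mem hw (h6 _ h8)
  · rintro ⟨h8, h9⟩
    rw [dt_decomp (h4 x) w]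
    exact add_mem ((h7 _).2 h8) (h6 _ h9)

/-- Direct sum of two line bundles. -/
def split (D₁ D₂ : Place K →₀ ℤ) : Lat K 2 :=
  (Lat.free fun i : Fin 2 => (Pi.single i 1 : Fin 2 → K)).mapF
    (fun x => (LinearEquiv.piCongrRight fun i => LinearEquiv.smulOfNeZero K K
      (x.unif ^ (-(![D₁, D₂] i) x)) (zpow_ne_zero _ x.unif_ne_zero)).toLinearMap) LinearMap.id
    (by
      have h : ∀ᶠ x in cofinite, ∀ i, (![D₁, D₂] i) x = 0 :=
        eventually_all.2 fun i => (![D₁, D₂] i).hasFiniteSupport.subset fun x hx => hx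
      refine h.mono fun x hx => ?_
      ext w i
      simp [hx])
    fun x => by
      rw [Lat.free_gen, span_single_top, Submodule.map_top, Submodule.map_top, LinearEquiv.range,
        LinearMap.range_id]

lemma mem_free_single {N : ℕ} {x : Place K} {w : Fin N → K} :
    w ∈ (Lat.free fun i : Fin N => (Pi.single i 1 : Fin N → K)).S x ↔ ∀ i, w i ∈ x.O := by
  rw [Lat.free_S, mem_span_O]
  constructor
  · rintro ⟨c, hc, rfl⟩ i
    simpa [Finset.sum_apply, Pi.single_apply] using hc i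
  · intro h
    exact ⟨w, h, by funext i; simp [Finset.sum_apply, Pi.single_apply]⟩

lemma mem_split {D₁ D₂ : Place K →₀ ℤ} {x : Place K} {w : Fin 2 → K} :
    w ∈ (split D₁ D₂).S x ↔ x.val (w 0) ≤ exp (D₁ x) ∧ x.val (w 1) ≤ exp (D₂ x) := by
  rw [split, Lat.mem_mapF, ← x.zpow_mul_mem_iff, ← x.zpow_mul_mem_iff]
  have h := fun m => zpow_ne_zero m x.unif_ne_zero
  constructor
  · rintro ⟨v, hv, rfl⟩
    rw [mem_free_single] at hv
    simpa [h] using And.intro (hv 0) (hv 1)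
  · intro hw
    refine ⟨fun i => x.unif ^ (![D₁, D₂] i) x * w i, mem_free_single.2 fun i => ?_, ?_⟩
    · fin_cases i
      exacts [hw.1, hw.2]
    · funext i
      simp [h]

lemma flag_split (D₁ D₂ : Place K →₀ ℤ) :
    Flag (split D₁ D₂) ![1, 0] (fun _ => ![0, 1]) ![0, 1] D₁ D₂ where
  det := fun _ => by simp [dt_apply]
  ev := Eventually.of_forall fun _ => rfl
  mem := fun x w => by simp [mem_split, dt_apply]

lemma flag_split' (D₁ D₂ : Place K →₀ ℤ) :
    Flag (split D₁ D₂) ![0, 1] (fun _ => ![-1, 0]) ![-1, 0] D₂ D₁ where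
  det := fun _ => by simp [dt_apply]
  ev := Eventually.of_forall fun _ => rfl
  mem := fun x w => by simp [mem_split, dt_apply, and_comm]

end FF

variable [Algebra (RatFunc ℂ) K] [IsScalarTower ℂ (RatFunc ℂ) K]
  [FiniteDimensional (RatFunc ℂ) K]

lemma Flag.chiL_eq {V : Lat K 2} {s : Fin 2 → K} {y : Place K → Fin 2 → K} {y₀ : Fin 2 → K}
    {D₁ D₂ : Place K →₀ ℤ} (h : Flag V s y y₀ D₁ D₂) :
    chiL V = 2 * chiO K + degree D₁ + degree D₂ := by
  rw [chiL_exact V (pr s), ker_pr h.ne_zero, h.restrict_eq, h.mapL_eq, chiL_line h.ne_zero,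
    chiL_line one_ne_zero]
  ring

lemma rk_eq_iff_gen {N : ℕ} {V : Lat K N} : rk V = N ↔ V.gen = ⊤ := by
  refine ⟨fun h => Submodule.eq_top_of_finrank_eq (by simpa [rk] using h), fun h => ?_⟩
  rw [rk, h]; simp

lemma chiL_twist_two {V : Lat K 2} (hV : V.gen = ⊤) (D : Place K →₀ ℤ) :
    chiL (V.twist D) = chiL V + 2 * degree D := by
  obtain ⟨y, y₀, D₁, D₂, h⟩ := exists_flag hV (s := ![1, 0]) (by simp)
  rw [h.chiL_eq, (h.twist D).chiL_eq, map_add, map_add]
  ring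

lemma hdim_split (D₁ D₂ : Place K →₀ ℤ) (n : ℤ) :
    hdim (split D₁ D₂) n = hdim (line (1 : Fin 1 → K) D₁) n + hdim (line (1 : Fin 1 → K) D₂) n := by
  have h := flag_split D₁ D₂
  rw [hdim_exact_of _ (pr ![1, 0]), ker_pr h.ne_zero, h.restrict_eq, h.mapL_eq,
    hdim_line h.ne_zero]
  intro σ hσ
  rw [h.mapL_eq] at hσ
  obtain ⟨z, rfl⟩ := Submodule.mem_span_singleton.1 (gen_line (1 : Fin 1 → K) D₂ ▸ sec_le_gen hσ)
  refine ⟨![0, z], mem_sec.2 fun x => ?_, by simp [pr_apply, dt_apply]⟩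
  have := mem_sec.1 hσ x
  rw [smul_smul, smul_mem_line one_ne_zero] at this
  simpa [mem_split] using this

lemma twist_split (D₁ D₂ D : Place K →₀ ℤ) : (split D₁ D₂).twist D = split (D₁ + D) (D₂ + D) :=
  Lat.ext' fun x => by
    ext w
    rw [((flag_split D₁ D₂).twist D).mem, (flag_split _ _).mem]

end Pool.Agent.Lib.MP_cc3443_ag
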