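import Pool.Agent.Lib.MP_cc3443_ag.Quot

open Filter Set WithZero Module Finsupp

noncomputable section

namespace Pool.Agent.Lib.MP_cc3443_ag

variable {K : Type} [Field K] [Algebra ℂ K] [Algebra (RatFunc ℂ) K]
  [IsScalarTower ℂ (RatFunc ℂ) K] [FiniteDimensional (RatFunc ℂ) K] {N N' : ℕ}

lemma of_ind_ne_zero {P : Prop} (h : ind P ≠ 0) : P := by_contra fun h' => h (ind_false h')

lemma HasClass.trans {E G F : Lat K N} {μ ν : ℕ × ℤ} (h : HasClass E G μ) (h' : HasClass G F ν) :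
    HasClass E F (μ + ν) := by
  rw [hasClass_iff] at h h' ⊢
  refine ⟨h'.1.trans h.1, by rw [h.2.1, h'.2.1, Prod.fst_add]; ring, ?_⟩
  rw [h.2.2, h'.2.2, Prod.fst_add, Prod.snd_add]; push_cast; ring

lemma Sph.supp {ν : ℕ × ℤ} {f : Fn K} (h : Sph ν f) {N : ℕ} {E F : Lat K N} (h0 : f N E F ≠ 0) :
    HasClass E F ν := by
  induction h generalizing E F with
  | tors d => exact of_ind_ne_zero h0
  | line l => exact (of_ind_ne_zero h0).1
  | zero ν => exact absurd rfl h0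
  | @add ν f g _ _ ih1 ih2 =>
    by_cases h1 : f N E F = 0
    · exact ih2 fun h2 => h0 (by simp [h1, h2])
    · exact ih1 h1
  | smul c _ ih => exact ih fun h1 => h0 (by simp [h1])
  | @mul μ ν f g _ _ ih1 ih2 =>
    by_contra hn
    apply h0
    have : ∀ G, f N E G * g N G F = 0 := fun G => by_contra fun h1 =>
      hn ((ih1 (left_ne_zero_of_mul h1)).trans (ih2 (right_ne_zero_of_mul h1)))
    simp only [hall, this]
    exact lim_eq_zero E

/-- The quotient is torsion free. -/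
def Sat (E F : Lat K N) : Prop := ∀ x, ∀ w ∈ E.S x, w ∈ F.gen → w ∈ F.S x

lemma sat_iff_st {E F : Lat K N} : (∀ x, E.st x ∩ F.gen ⊆ F.st x) ↔ Sat E F := by
  simp only [Sat, Set.subset_def, mem_inter_iff, Lat.mem_st, SetLike.mem_coe, and_imp]

lemma le_restrict {E F : Lat K N} (h : F ≤ E) {W : Submodule K (Fin N → K)} (hW : F.gen ≤ W) :
    F ≤ E.restrict W := fun x _ hw => Lat.mem_restrict.2 ⟨h x hw, hW (Lat.mem_gen hw)⟩

lemma gen_restrict_gen {E F : Lat K N} (h : F ≤ E) : (E.restrict F.gen).gen = F.gen :=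
  inf_eq_right.2 (Lat.gen_mono h)

lemma sat_restrict (E : Lat K N) (W : Submodule K (Fin N → K)) : Sat E (E.restrict W) :=
  fun _ _ hw h => Lat.mem_restrict.2 ⟨hw, h.2⟩

lemma Sat.eq_restrict {E F : Lat K N} (h : Sat E F) (hle : F ≤ E) : F = E.restrict F.gen :=
  le_antisymm (le_restrict hle le_rfl) fun x w hw =>
    h x w (Lat.mem_restrict.1 hw).1 (Lat.mem_restrict.1 hw).2

lemma sat_iff {E F : Lat K N} (h : F ≤ E) :
    Sat E F ↔ ∀ G, F ≤ G → G ≤ E → rk G = rk F → G ≤ F := by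
  constructor
  · intro hs G h1 h2 h3 x w hw
    exact hs x w (h2 x hw) (gen_eq_of_rk h1 h3.symm ▸ Lat.mem_gen hw)
  · intro hs x w hw hw'
    exact hs _ (le_restrict h le_rfl) (E.restrict_le _) (by rw [rk, gen_restrict_gen h, rk]) x
      (Lat.mem_restrict.2 ⟨hw, hw'⟩)

lemma exists_ker_eq (W : Submodule K (Fin N → K)) :
    ∃ A : Matrix (Fin N) (Fin N) K, LinearMap.ker (Matrix.toLin' A) = W := by
  obtain ⟨σ, hσ⟩ := W.mkQ.exists_rightInverse_of_surjective W.range_mkQ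
  refine ⟨LinearMap.toMatrix' (σ ∘ₗ W.mkQ), ?_⟩
  rw [Matrix.toLin'_toMatrix', LinearMap.ker_comp_of_ker_eq_bot, W.ker_mkQ]
  exact LinearMap.ker_eq_bot.2 (Function.LeftInverse.injective (LinearMap.congr_fun hσ))

lemma Del.sat {X : Type} [Coded X] {E F : X → Lat K N} (hE : DMap E) (hF : DMap F) :
    Del fun a => F a ≤ E a ∧ Sat (E a) (F a) := by
  constructor
  · have h1 : DMap fun p : X × (Fin N → Fin N → K) => (E p.1).mapL (Matrix.toLin' p.2) :=
      DMap.mapL (by fun_prop) (DMap.pi fun i => by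
        simp only [Matrix.toLin'_apply, Matrix.mulVec, dotProduct]; fun_prop)
    have h2 : DMap fun p : X × (Fin N → Fin N → K) => (F p.1).mapL (Matrix.toLin' p.2) :=
      DMap.mapL (by fun_prop) (DMap.pi fun i => by
        simp only [Matrix.toLin'_apply, Matrix.mulVec, dotProduct]; fun_prop)
    have h3 : DMap fun p : X × (Fin N → Fin N → K) => E p.1 := by fun_prop
    have h4 : DMap fun p : X × (Fin N → Fin N → K) => F p.1 := by fun_prop
    refine (((Del.le h4 h3).and ((Del.rk_eq h2 0).and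
      (((((dfun_rk.comp h3).prod (dfun_rk.comp h4)).prod (dfun_rk.comp h1)).del
        fun q => q.1.1 = q.1.2 + q.2).and
      ((((dfun_chiL.comp h3).prod (dfun_chiL.comp h4)).prod (dfun_chiL.comp h1)).del
        fun q => q.1.1 = q.1.2 + q.2)))).1.exists'').congr fun a => ⟨?_, fun h => ?_⟩
    · rintro ⟨A, h5, h6, h7, h8⟩
      simp only at h5 h6 h7 h8
      have h9 : (F a).gen ≤ LinearMap.ker (Matrix.toLin' A) := by
        rw [LinearMap.le_ker_iff_map]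
        exact Submodule.finrank_eq_zero.1 h6
      rw [rk_exact _ (Matrix.toLin' A), add_left_inj] at h7
      rw [chiL_exact _ (Matrix.toLin' A), add_left_inj] at h8
      refine ⟨h5, ?_⟩
      rw [eq_of_chiL (le_restrict h5 h9) h7.symm h8.symm]
      exact sat_restrict _ _
    · obtain ⟨A, hA⟩ := exists_ker_eq (F a).gen
      refine ⟨A, h.1, ?_, ?_, ?_⟩
      · exact Submodule.finrank_eq_zero.2 (LinearMap.le_ker_iff_map.1 hA.ge)
      · simp only
        rw [rk_exact _ (Matrix.toLin' A), hA, ← h.2.eq_restrict h.1]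
      · simp only
        rw [chiL_exact _ (Matrix.toLin' A), hA, ← h.2.eq_restrict h.1]
  · have h3 : DMap fun p : X × Lat K N => E p.1 := by fun_prop
    have h4 : DMap fun p : X × Lat K N => F p.1 := by fun_prop
    have h5 : DMap fun p : X × Lat K N => p.2 := by fun_prop
    refine ((Del.le hF hE).not.1.or ((Del.le h4 h5).and ((Del.le h5 h3).and
      ((((dfun_rk.comp h5).prod (dfun_rk.comp h4)).del fun q => q.1 = q.2).and
        (Del.le h5 h4).not))).1.exists'').congr fun a => ?_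
    by_cases h : F a ≤ E a
    · simp [h, sat_iff h]
    · simp [h]

lemma Del.hasClass {X : Type} [Coded X] {E F : X → Lat K N} (hE : DMap E) (hF : DMap F)
    (ν : ℕ × ℤ) : Del fun a => HasClass (E a) (F a) ν :=
  ((Del.le hF hE).and ((((dfun_rk.comp hE).prod (dfun_rk.comp hF)).del
    fun q => q.1 = q.2 + ν.1).and (((dfun_chiL.comp hE).prod (dfun_chiL.comp hF)).del
    fun q => q.1 = q.2 + ν.2 + ν.1 * chiO K))).congr fun _ => hasClass_iff.symm

/-- Constructibility on bounded families. -/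
def Bdd (f : Fn K) : Prop := ∀ (N : ℕ) (E₀ : Lat K N),
  DFun fun p : Lat K N × Lat K N => ind (p.1 ≤ E₀) * f N p.1 p.2

lemma Bdd.left {f : Fn K} (h : Bdd f) (E : Lat K N) : DFun fun G => f N E G := by
  simpa using (h N E).comp (f := fun G => (E, G)) (by fun_prop)

lemma dfun_hall_aux {μ : ℕ × ℤ} {f g : Fn K} (hf : Sph μ f) (bf : Bdd f) (bg : Bdd g)
    (E F : Lat K N) : DFun fun G => f N E G * g N G F := by
  have h := (bf.left E).mul ((bg N E).comp (f := fun G => (G, F)) (by fun_prop))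
  convert h using 2 with G
  by_cases h0 : f N E G = 0
  · simp [h0]
  · simp [(hasClass_iff.1 (hf.supp h0)).1]

lemma qr_of_ne_zero {μ ν : ℕ × ℤ} {f g : Fn K} (hf : Sph μ f) (hg : Sph ν g) {E F G : Lat K N}
    (h : f N E G * g N G F ≠ 0) : QR E (rk F + ν.1) (chiL F + ν.2 + ν.1 * chiO K) G :=
  ⟨(hasClass_iff.1 (hf.supp (left_ne_zero_of_mul h))).1,
    (hasClass_iff.1 (hg.supp (right_ne_zero_of_mul h))).2⟩

lemma hall_eq_aux {μ ν : ℕ × ℤ} {f g : Fn K} (hf : Sph μ f) (hg : Sph ν g) (bf : Bdd f)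
    (bg : Bdd g) (E F : Lat K N) : hall f g N E F =
      (QC E (rk F + ν.1) (chiL F + ν.2 + ν.1 * chiO K)).int fun G => f N E G * g N G F :=
  lim_eq (dfun_hall_aux hf bf bg E F) fun _ h => qr_of_ne_zero hf hg h

lemma Sph.bdd {ν : ℕ × ℤ} {f : Fn K} (h : Sph ν f) : Bdd f := by
  induction h with
  | tors d =>
    exact fun N E₀ => (Del.le (by fun_prop) (by fun_prop)).ind.mul
      (Del.hasClass (E := fun p : Lat K N × Lat K N => p.1) (by fun_prop) (by fun_prop) _).ind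
  | line l =>
    refine fun N E₀ => (Del.le (by fun_prop) (by fun_prop)).ind.mul (Del.ind ?_)
    refine ((Del.hasClass (E := fun p : Lat K N × Lat K N => p.1) (F := fun p => p.2)
      (by fun_prop) (by fun_prop) (1, l)).and (Del.sat (E := fun p : Lat K N × Lat K N => p.1)
      (F := fun p => p.2) (by fun_prop) (by fun_prop))).congr fun p =>
        and_congr_right fun hp => ?_
    rw [sat_iff_st, and_iff_right (hasClass_iff.1 hp).1]
  | zero ν => exact fun N E₀ => by simpa using DFun.const (0 : ℂ)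
  | add _ _ ih1 ih2 => exact fun N E₀ => by simpa [mul_add] using (ih1 N E₀).add (ih2 N E₀)
  | smul c _ ih =>
    exact fun N E₀ => by simpa [mul_left_comm] using (DFun.const c).mul (ih N E₀)
  | @mul μ ν f g hf hg bf bg =>
    intro N E₀
    refine DFun.of_cover (fun (j : ℕ × ℤ) p => rk p.2 = j.1 ∧ chiL p.2 = j.2)
      (fun j p => ind (p.1 ≤ E₀) * (QC E₀ (j.1 + ν.1) (j.2 + ν.2 + ν.1 * chiO K)).int fun G =>
        (ind (p.1 ≤ E₀) * f N p.1 G) * (ind (G ≤ E₀) * g N G p.2))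
      (fun j => ((Del.rk_eq (by fun_prop) _).and (Del.chiL_eq (by fun_prop) _)).1) (fun j => ?_)
      (fun p => ⟨(rk p.2, chiL p.2), rfl, rfl⟩) ?_
    · exact (Del.le (by fun_prop) (by fun_prop)).ind.mul (Chart.dfun_int _
        (F := fun q : (Lat K N × Lat K N) × Lat K N =>
          (ind (q.1.1 ≤ E₀) * f N q.1.1 q.2) * (ind (q.2 ≤ E₀) * g N q.2 q.1.2))
        (((bf N E₀).comp (f := fun q : (Lat K N × Lat K N) × Lat K N => (q.1.1, q.2))
          (by fun_prop)).mul ((bg N E₀).comp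
            (f := fun q : (Lat K N × Lat K N) × Lat K N => (q.2, q.1.2)) (by fun_prop))))
    · rintro j ⟨E, F⟩ ⟨h1, h2⟩
      simp only at h1 h2 ⊢
      by_cases h : E ≤ E₀
      · rw [hall_eq_aux hf hg bf bg, ← h1, ← h2, Chart.int_indep _ (QC E₀ _ _)
          (dfun_hall_aux hf bf bg E F) fun G hG => ?_]
        · congr 1
          exact Chart.int_congr _ fun G hG => by simp [h, (QC_R.1 hG).1]
        · have := qr_of_ne_zero hf hg hG
          rw [QC_R, QC_R]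
          exact ⟨fun _ => ⟨this.1.trans h, this.2⟩, fun _ => this⟩
      · simp [h]

lemma hall_eq {μ ν : ℕ × ℤ} {f g : Fn K} (hf : Sph μ f) (hg : Sph ν g) (E F : Lat K N) :
    hall f g N E F =
      (QC E (rk F + ν.1) (chiL F + ν.2 + ν.1 * chiO K)).int fun G => f N E G * g N G F :=
  hall_eq_aux hf hg hf.bdd hg.bdd E F

/-- A correspondence identifying the subsheaves of two sheaves. -/
structure Iso (Γ : Lat K N × Lat K N' → Prop) (E F : Lat K N) (E' F' : Lat K N') : Prop where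
  le : F ≤ E
  top : Γ (E, E')
  bot : Γ (F, F')
  ex : ∀ G, F ≤ G → G ≤ E → ∃ G', Γ (G, G')
  ex' : ∀ G', F' ≤ G' → G' ≤ E' → ∃ G, F ≤ G ∧ G ≤ E ∧ Γ (G, G')
  le_iff : ∀ G₁ G₂ G₁' G₂', F ≤ G₁ → G₁ ≤ E → F ≤ G₂ → G₂ ≤ E → Γ (G₁, G₁') → Γ (G₂, G₂') →
    (G₁ ≤ G₂ ↔ G₁' ≤ G₂')
  cls : ∀ G G', F ≤ G → G ≤ E → Γ (G, G') →
    rk G' + rk F = rk G + rk F' ∧ chiL G' + chiL F = chiL G + chiL F'

namespace Iso
variable {Γ : Lat K N × Lat K N' → Prop} {E F : Lat K N} {E' F' : Lat K N'} (h : Iso Γ E F E' F')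
include h

lemma mem {G : Lat K N} {G' : Lat K N'} (h1 : F ≤ G) (h2 : G ≤ E) (h3 : Γ (G, G')) :
    F' ≤ G' ∧ G' ≤ E' :=
  ⟨(h.le_iff _ _ _ _ le_rfl h.le h1 h2 h.bot h3).1 h1,
    (h.le_iff _ _ _ _ h1 h2 h.le le_rfl h3 h.top).1 h2⟩

lemma sub {A B : Lat K N} {A' B' : Lat K N'} (h1 : F ≤ B) (h2 : B ≤ A) (h3 : A ≤ E)
    (hA : Γ (A, A')) (hB : Γ (B, B')) : Iso Γ A B A' B' where
  le := h2
  top := hA
  bot := hB
  ex := fun G h4 h5 => h.ex G (h1.trans h4) (h5.trans h3)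
  ex' := fun G' h4 h5 => by
    obtain ⟨G, h6, h7, h8⟩ := h.ex' G' ((h.mem h1 (h2.trans h3) hB).1.trans h4)
      (h5.trans (h.mem (h1.trans h2) h3 hA).2)
    exact ⟨G, (h.le_iff _ _ _ _ h1 (h2.trans h3) h6 h7 hB h8).2 h4,
      (h.le_iff _ _ _ _ h6 h7 (h1.trans h2) h3 h8 hA).2 h5, h8⟩
  le_iff := fun G₁ G₂ G₁' G₂' a b c d =>
    h.le_iff _ _ _ _ (h1.trans a) (b.trans h3) (h1.trans c) (d.trans h3)
  cls := fun G G' a b c => by
    have h4 := h.cls G G' (h1.trans a) (b.trans h3) c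
    have h5 := h.cls B B' h1 (h2.trans h3) hB
    omega

lemma le' : F' ≤ E' := (h.mem h.le le_rfl h.top).1

lemma hasClass_iff (ν : ℕ × ℤ) : HasClass E F ν ↔ HasClass E' F' ν := by
  have := h.cls E E' h.le le_rfl h.top
  simp only [Pool.Agent.Lib.MP_cc3443_ag.hasClass_iff, h.le, h.le', true_and]
  omega

lemma sat_iff : Sat E F ↔ Sat E' F' := by
  rw [Pool.Agent.Lib.MP_cc3443_ag.sat_iff h.le, Pool.Agent.Lib.MP_cc3443_ag.sat_iff h.le']
  constructor
  · intro hs G' h1 h2 h3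
    obtain ⟨G, h4, h5, h6⟩ := h.ex' G' h1 h2
    have := h.cls G G' h4 h5 h6
    exact (h.le_iff _ _ _ _ h4 h5 le_rfl h.le h6 h.bot).1 (hs G h4 h5 (by omega))
  · intro hs G h1 h2 h3
    obtain ⟨G', h6⟩ := h.ex G h1 h2
    have := h.cls G G' h1 h2 h6
    exact (h.le_iff _ _ _ _ h1 h2 le_rfl h.le h6 h.bot).2
      (hs G' (h.mem h1 h2 h6).1 (h.mem h1 h2 h6).2 (by omega))

lemma int_eq (hΓ : Del Γ) {A : Lat K N} {A' : Lat K N'} (hA : E ≤ A) (hA' : E' ≤ A') {r r' : ℕ}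
    {c c' : ℤ} (hr : r' + rk F = r + rk F') (hc : c' + chiL F = c + chiL F') {ψ : Lat K N → ℂ}
    {ψ' : Lat K N' → ℂ} (hψ : DFun ψ) (hs : ∀ G, QR A r c G → ψ G ≠ 0 → F ≤ G ∧ G ≤ E)
    (hs' : ∀ G, QR A' r' c' G → ψ' G ≠ 0 → F' ≤ G ∧ G ≤ E')
    (he : ∀ G G', QR A r c G → F ≤ G → G ≤ E → Γ (G, G') → ψ G = ψ' G') :
    (QC A r c).int ψ = (QC A' r' c').int ψ' := by
  refine Chart.change _ _ (Γ := fun p => (F ≤ p.1 ∧ p.1 ≤ E) ∧ Γ p)
    (((Del.le (by fun_prop) (by fun_prop)).and (Del.le (by fun_prop) (by fun_prop))).and hΓ) hψ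
    (fun G G' h1 _ h2 => he G G' (QC_R.1 h1) h2.1.1 h2.1.2 h2.2) (fun G h1 h2 => ?_)
    fun G' h1 h2 => ?_
  · rw [QC_R] at h1
    obtain ⟨h3, h4⟩ := hs G h1 h2
    obtain ⟨G', h5⟩ := h.ex G h3 h4
    have h6 := h.cls G G' h3 h4 h5
    have h7 := h1.2.1
    have h8 := h1.2.2
    refine ⟨G', QC_R.2 ⟨(h.mem h3 h4 h5).2.trans hA', by omega, by omega⟩, ⟨⟨h3, h4⟩, h5⟩,
      fun G'' _ h9 => le_antisymm ?_ ?_⟩
    · exact (h.le_iff _ _ _ _ h3 h4 h3 h4 h9.2 h5).1 le_rfl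
    · exact (h.le_iff _ _ _ _ h3 h4 h3 h4 h5 h9.2).1 le_rfl
  · rw [QC_R] at h1
    obtain ⟨h3, h4⟩ := hs' G' h1 h2
    obtain ⟨G, h5, h5', h5''⟩ := h.ex' G' h3 h4
    have h6 := h.cls G G' h5 h5' h5''
    have h7 := h1.2.1
    have h8 := h1.2.2
    refine ⟨G, QC_R.2 ⟨h5'.trans hA, by omega, by omega⟩, ⟨⟨h5, h5'⟩, h5''⟩,
      fun G'' _ h9 => le_antisymm ?_ ?_⟩
    · exact (h.le_iff _ _ _ _ h9.1.1 h9.1.2 h5 h5' h9.2 h5'').2 le_rfl
    · exact (h.le_iff _ _ _ _ h5 h5' h9.1.1 h9.1.2 h5'' h9.2).2 le_rfl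

end Iso

/-- Spherical functions are invariant under definable identifications. -/
lemma Sph.iso_eq {ν : ℕ × ℤ} {f : Fn K} (hf : Sph ν f) {Γ : Lat K N × Lat K N' → Prop}
    (hΓ : Del Γ) {E F : Lat K N} {E' F' : Lat K N'} (h : Iso Γ E F E' F') :
    f N E F = f N' E' F' := by
  induction hf generalizing E F E' F' with
  | tors d => exact ind_congr (h.hasClass_iff _)
  | line l => exact ind_congr (by rw [h.hasClass_iff, sat_iff_st, sat_iff_st, h.sat_iff])
  | zero ν => rfl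
  | add _ _ ih1 ih2 => simp only [Pi.add_apply, ih1 h, ih2 h]
  | smul c _ ih => simp only [Pi.smul_apply, ih h]
  | @mul μ ν f g hf hg ih1 ih2 =>
    rw [hall_eq hf hg, hall_eq hf hg]
    refine h.int_eq hΓ le_rfl le_rfl (by omega) (by omega) (dfun_hall_aux hf hf.bdd hg.bdd E F)
      (fun G h1 h2 => ⟨(hasClass_iff.1 (hg.supp (right_ne_zero_of_mul h2))).1, h1.1⟩)
      (fun G h1 h2 => ⟨(hasClass_iff.1 (hg.supp (right_ne_zero_of_mul h2))).1, h1.1⟩)
      fun G G' _ h1 h2 h3 => ?_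
    rw [ih1 (h.sub h1 h2 le_rfl h.top h3), ih2 (h.sub le_rfl h1 h2 h3 h.bot)]

end Pool.Agent.Lib.MP_cc3443_ag
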