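import Pool.Agent.Lib.MP_cc3443_ag.LatBG

open Filter Set WithZero Module

noncomputable section

namespace Pool.Agent.Lib.MP_cc3443_ag

lemma affine_unique {A B A' B' : ℤ} (h : ∀ᶠ n : ℤ in atTop, A + n * B = A' + n * B') :
    A = A' ∧ B = B' := by
  obtain ⟨n, hn⟩ := eventually_atTop.1 h
  have h1 := hn n le_rfl
  have h2 := hn (n + 1) (by omega)
  have h3 : B = B' := by linarith
  subst h3
  exact ⟨by linarith, rfl⟩

variable {K : Type} [Field K] [Algebra ℂ K] [Algebra (RatFunc ℂ) K]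
  [IsScalarTower ℂ (RatFunc ℂ) K] [FiniteDimensional (RatFunc ℂ) K] {N N' : ℕ}

/-- Castelnuovo-Mumford regularity. -/
def Reg (L : Lat K N) (n : ℤ) : Prop :=
  ∃ (m : ℕ) (e : Fin m → Fin N → K) (a : Fin m → ℤ), IsBG L e a ∧ ∀ i, 0 ≤ a i + n

lemma eventually_reg (L : Lat K N) : ∀ᶠ n : ℤ in atTop, Reg L n := by
  obtain ⟨m, e, a, h⟩ := exists_isBG L
  exact (IsBG.eventually_le a).mono fun n hn => ⟨m, e, a, h, hn⟩

lemma Reg.mono {L : Lat K N} {n n' : ℤ} (h : Reg L n) (hn : n ≤ n') : Reg L n' := by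
  obtain ⟨m, e, a, h, h'⟩ := h
  exact ⟨m, e, a, h, fun i => by have := h' i; omega⟩

lemma exists_chiL (L : Lat K N) :
    ∃ c : ℤ, ∀ᶠ n : ℤ in atTop, hdim L n = c + n * (dlt K * rk L) := by
  obtain ⟨m, e, a, h⟩ := exists_isBG L
  exact ⟨_, (IsBG.eventually_le a).mono fun n hn => by
    rw [h.hdim_of_le fun i => by have := hn i; omega, mul_assoc]⟩

/-- Euler characteristic of a lattice. -/
def chiL (L : Lat K N) : ℤ := (exists_chiL L).choose

lemma eventually_hdim (L : Lat K N) :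
    ∀ᶠ n : ℤ in atTop, hdim L n = chiL L + n * (dlt K * rk L) := (exists_chiL L).choose_spec

lemma chiL_eq_of {L : Lat K N} {c b : ℤ} (h : ∀ᶠ n : ℤ in atTop, hdim L n = c + n * b) :
    chiL L = c :=
  (affine_unique ((h.and (eventually_hdim L)).mono fun _ hn => hn.2.symm.trans hn.1)).1

lemma IsBG.chiL_eq {L : Lat K N} {m : ℕ} {e : Fin m → Fin N → K} {a : Fin m → ℤ}
    (h : IsBG L e a) : chiL L = ∑ i, (a i + 1) :=
  chiL_eq_of ((IsBG.eventually_le a).mono fun n hn => by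
    rw [h.hdim_of_le fun i => by have := hn i; omega, mul_assoc])

lemma Reg.hdim_eq {L : Lat K N} {n : ℤ} (h : Reg L n) :
    hdim L n = chiL L + n * (dlt K * rk L) := by
  obtain ⟨m, e, a, h, h'⟩ := h
  rw [h.hdim_of_le fun i => by have := h' i; omega, mul_assoc, h.chiL_eq]

lemma Reg.le_of_sec_le {L L' : Lat K N} {n : ℤ} (h : Reg L n) (hs : sec L n ≤ sec L' n) :
    L ≤ L' := by
  obtain ⟨m, e, a, h, h'⟩ := h
  intro x
  rw [h.S_eq_span h' x, Submodule.span_le]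
  rintro _ ⟨w, hw, rfl⟩
  exact mem_sec.1 (hs hw) x

lemma Reg.eq_of_sec_eq {L L' : Lat K N} {n : ℤ} (h : Reg L n) (h' : Reg L' n)
    (hs : sec L n = sec L' n) : L = L' :=
  le_antisymm (h.le_of_sec_le hs.le) (h'.le_of_sec_le hs.ge)

lemma chiL_of_cert {L : Lat K N} {n : ℤ} (h : hdim L (n + 1) = hdim L n + dlt K * rk L) :
    chiL L = hdim L n - n * (dlt K * rk L) := by
  obtain ⟨m, e, a, hb⟩ := exists_isBG L
  have h1 : ∑ i, ((1 : ℤ) - ((a i + (n + 1) + 1).toNat - (a i + n + 1).toNat)) = 0 := by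
    rw [Finset.sum_sub_distrib, Finset.sum_sub_distrib, ← hb.hdim_eq, ← hb.hdim_eq, h,
      ← Nat.cast_mul, ← hb.card]
    simp
  rw [Finset.sum_eq_zero_iff_of_nonneg fun i _ => by omega] at h1
  rw [hb.hdim_of_le fun i => by have := h1 i (Finset.mem_univ i); omega, hb.chiL_eq]
  ring

lemma hdim_mono {L L' : Lat K N} (h : L ≤ L') (n : ℤ) : hdim L n ≤ hdim L' n :=
  Int.ofNat_le.2 (Submodule.finrank_mono (sec_mono h n))

lemma hdim_nonneg (L : Lat K N) (n : ℤ) : 0 ≤ hdim L n := Int.natCast_nonneg _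

lemma rk_mono {L L' : Lat K N} (h : L ≤ L') : rk L ≤ rk L' :=
  Submodule.finrank_mono (Lat.gen_mono h)

lemma gen_eq_of_rk {L L' : Lat K N} (h : L ≤ L') (hr : rk L = rk L') : L.gen = L'.gen :=
  Submodule.eq_of_le_of_finrank_eq (Lat.gen_mono h) hr

lemma chiL_mono {L L' : Lat K N} (h : L ≤ L') (hr : rk L = rk L') : chiL L ≤ chiL L' := by
  obtain ⟨n, h1, h2⟩ := ((eventually_hdim L).and (eventually_hdim L')).exists
  have := hdim_mono h n
  rw [h1, h2, hr] at this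
  linarith

lemma eq_of_chiL {L L' : Lat K N} (h : L ≤ L') (hr : rk L = rk L') (hc : chiL L = chiL L') :
    L = L' := by
  obtain ⟨n, h1, h2⟩ := ((eventually_reg L).and (eventually_reg L')).exists
  refine h1.eq_of_sec_eq h2 (Submodule.eq_of_le_of_finrank_eq (sec_mono h n) ?_)
  have := h1.hdim_eq
  rw [hr, hc, ← h2.hdim_eq] at this
  exact Int.ofNat_inj.1 this

lemma eq_bot_of_rk {L : Lat K N} (h : rk L = 0) : L = ⊥ :=
  Lat.eq_bot_of_gen (Submodule.finrank_eq_zero.1 h)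

@[simp] lemma rk_bot : rk (⊥ : Lat K N) = 0 := finrank_bot K _

lemma sec_bot (n : ℤ) : sec (⊥ : Lat K N) n = ⊥ :=
  eq_bot_iff.2 fun _ hw => sec_le_gen hw

@[simp] lemma chiL_bot : chiL (⊥ : Lat K N) = 0 :=
  chiL_eq_of (b := 0) (Eventually.of_forall fun n => by simp [hdim, sec_bot])

lemma exists_exp_bound (E : Lat K N) : ∃ A : ℕ, ∀ (L : Lat K N) (m : ℕ) (e : Fin m → Fin N → K)
    (a : Fin m → ℤ), L ≤ E → IsBG L e a → ∀ i, a i + 1 ≤ A := by
  obtain ⟨m, e, a, h⟩ := exists_isBG E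
  obtain ⟨A, hA⟩ : ∃ A : ℕ, ∀ j, (a j + 1).toNat ≤ A :=
    ⟨∑ i, (a i + 1).toNat, fun j => Finset.single_le_sum (f := fun i => (a i + 1).toNat)
      (fun _ _ => Nat.zero_le _) (Finset.mem_univ j)⟩
  refine ⟨A, fun L m' e' a' hL h' i => ?_⟩
  have h1 : hdim E (-(A : ℤ)) = 0 := by
    rw [h.hdim_eq]
    refine Finset.sum_eq_zero fun j _ => ?_
    have := hA j
    omega
  have h2 := le_antisymm ((hdim_mono hL _).trans h1.le) (hdim_nonneg L _)
  rw [h'.hdim_eq, Finset.sum_eq_zero_iff_of_nonneg fun i _ => by omega] at h2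
  have := h2 i (Finset.mem_univ i)
  omega

lemma exists_chiL_bound (E : Lat K N) : ∃ C : ℤ, ∀ L ≤ E, chiL L ≤ C := by
  obtain ⟨A, hA⟩ := exists_exp_bound E
  refine ⟨(dlt K * rk E : ℕ) * A, fun L hL => ?_⟩
  obtain ⟨m, e, a, h⟩ := exists_isBG L
  rw [h.chiL_eq]
  refine (Finset.sum_le_sum fun i _ => hA L m e a hL h i).trans ?_
  simp only [Finset.sum_const, Finset.card_univ, Fintype.card_fin, nsmul_eq_mul]
  refine mul_le_mul_of_nonneg_right (Int.ofNat_le.2 ?_) (Int.natCast_nonneg _)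
  rw [h.card]
  exact Nat.mul_le_mul_left _ (rk_mono hL)

/-- Uniform regularity of the subsheaves of a given Euler characteristic. -/
lemma exists_uniform_reg (E : Lat K N) (c : ℤ) : ∃ n : ℤ, ∀ L ≤ E, chiL L = c → Reg L n := by
  classical
  obtain ⟨A, hA⟩ := exists_exp_bound E
  refine ⟨(dlt K * rk E : ℕ) * A - c + 1, fun L hL hc => ?_⟩
  obtain ⟨m, e, a, h⟩ := exists_isBG L
  refine ⟨m, e, a, h, fun i => ?_⟩
  rw [h.chiL_eq, ← Finset.add_sum_erase _ _ (Finset.mem_univ i)] at hc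
  have h1 : ∑ j ∈ Finset.univ.erase i, (a j + 1) ≤ (dlt K * rk E : ℕ) * A := by
    refine (Finset.sum_le_sum fun i _ => hA L m e a hL h i).trans ?_
    simp only [Finset.sum_const, nsmul_eq_mul]
    refine mul_le_mul_of_nonneg_right (Int.ofNat_le.2 ?_) (Int.natCast_nonneg _)
    refine Finset.card_erase_le.trans ?_
    rw [Finset.card_univ, Fintype.card_fin, h.card]
    exact Nat.mul_le_mul_left _ (rk_mono hL)
  omega

/-- The subsheaf generated by twisted global sections. -/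
def genL {ι : Type} [Finite ι] (n : ℤ) (G : ι → Fin N → K) : Lat K N :=
  Lat.ofGens (fun x j => tw x n • G j) G
    ((eventually_mem (uu K)).mono fun x hx => by funext j; rw [tw_U0 hx, one_smul])
    fun x => by
      refine le_antisymm (Submodule.span_le.2 ?_) (Submodule.span_le.2 ?_)
      · rintro _ ⟨j, rfl⟩
        exact Submodule.smul_mem _ _ (Submodule.subset_span ⟨j, rfl⟩)
      · rintro _ ⟨j, rfl⟩
        exact (Submodule.smul_mem_iff _ (tw_ne_zero x n)).1 (Submodule.subset_span ⟨j, rfl⟩)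

lemma genL_S {ι : Type} [Finite ι] (n : ℤ) (G : ι → Fin N → K) (x : Place K) :
    (genL n G).S x = Submodule.span x.O (range fun j => tw x n • G j) := Lat.ofGens_S _ _ _ _ _

lemma genL_gen {ι : Type} [Finite ι] (n : ℤ) (G : ι → Fin N → K) :
    (genL n G).gen = Submodule.span K (range G) := rfl

lemma mem_sec_genL {ι : Type} [Finite ι] (n : ℤ) (G : ι → Fin N → K) (j : ι) :
    G j ∈ sec (genL n G) n :=
  mem_sec.2 fun x => by rw [genL_S]; exact Submodule.subset_span ⟨j, rfl⟩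

lemma genL_le {ι : Type} [Finite ι] {n : ℤ} {G : ι → Fin N → K} {L : Lat K N} :
    genL n G ≤ L ↔ ∀ j, G j ∈ sec L n := by
  refine ⟨fun h j => sec_mono h n (mem_sec_genL n G j), fun h x => ?_⟩
  rw [genL_S, Submodule.span_le]
  rintro _ ⟨j, rfl⟩
  exact mem_sec.1 (h j) x

lemma Reg.eq_genL {ι : Type} [Finite ι] {L : Lat K N} {n : ℤ} (h : Reg L n) {G : ι → Fin N → K}
    (hG : Submodule.span ℂ (range G) = sec L n) : genL n G = L := by
  refine le_antisymm (genL_le.2 fun j => hG ▸ Submodule.subset_span ⟨j, rfl⟩)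
    (h.le_of_sec_le ?_)
  rw [← hG, Submodule.span_le]
  rintro _ ⟨j, rfl⟩
  exact mem_sec_genL n G j

lemma exists_genL (L : Lat K N) : ∃ (n : ℤ) (m : ℕ) (G : Fin m → Fin N → K), genL n G = L := by
  obtain ⟨n, hn⟩ := (eventually_reg L).exists
  obtain ⟨m, G, hG⟩ := Submodule.fg_iff_exists_fin_generating_family.1
    (Module.Finite.iff_fg.1 (inferInstance : Module.Finite ℂ (sec L n)))
  exact ⟨n, m, G, hn.eq_genL hG⟩

lemma exists_lift_Γ (G : Lat K N) (p : (Fin N → K) →ₗ[K] (Fin N' → K)) {U : Set (Place K)}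
    (hU : Good U) {σ : Fin N' → K} (hσ : σ ∈ (G.mapL p).Γ U) : ∃ w ∈ G.Γ U, p w = σ := by
  refine hU.mem_of_local ((G.Γ U).map (p.restrictScalars (chartRing U))) fun x hx => ?_
  obtain ⟨v, hv, rfl⟩ := Lat.mem_mapL.1 (hσ x hx)
  rw [← G.span_Γ hU hx] at hv
  have := Submodule.mem_map_of_mem (f := p.restrictScalars x.O) hv
  rwa [Submodule.map_span] at this

lemma rk_exact (G : Lat K N) (p : (Fin N → K) →ₗ[K] (Fin N' → K)) :
    rk G = rk (G.restrict (LinearMap.ker p)) + rk (G.mapL p) := by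
  have := (p.domRestrict G.gen).finrank_range_add_finrank_ker
  rw [LinearMap.range_domRestrict, LinearMap.ker_domRestrict,
    ← Submodule.finrank_map_subtype_eq, Submodule.map_comap_subtype] at this
  rw [rk, ← this, add_comm]
  rfl

lemma hdim_exact_of (G : Lat K N) (p : (Fin N → K) →ₗ[K] (Fin N' → K)) {n : ℤ}
    (h : ∀ σ ∈ sec (G.mapL p) n, ∃ w ∈ sec G n, p w = σ) :
    hdim G n = hdim (G.restrict (LinearMap.ker p)) n + hdim (G.mapL p) n := by
  have := ((p.restrictScalars ℂ).domRestrict (sec G n)).finrank_range_add_finrank_ker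
  rw [LinearMap.range_domRestrict, LinearMap.ker_domRestrict,
    ← Submodule.finrank_map_subtype_eq, Submodule.map_comap_subtype] at this
  have h1 : sec G n ⊓ LinearMap.ker (p.restrictScalars ℂ) =
      sec (G.restrict (LinearMap.ker p)) n := by
    ext w
    simp only [Submodule.mem_inf, mem_sec, Lat.mem_restrict, forall_and,
      Submodule.smul_mem_iff _ (tw_ne_zero _ n), forall_const]
    rfl
  have h2 : (sec G n).map (p.restrictScalars ℂ) = sec (G.mapL p) n := by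
    ext σ
    refine ⟨?_, h σ⟩
    rintro ⟨w, hw, rfl⟩
    exact mem_sec.2 fun x => Lat.mem_mapL.2 ⟨_, mem_sec.1 hw x, map_smul _ _ _⟩
  rw [h1, h2] at this
  rw [hdim, ← this, add_comm]
  rfl

lemma hdim_exact (G : Lat K N) (p : (Fin N → K) →ₗ[K] (Fin N' → K)) {n : ℤ}
    (h : Reg (G.restrict (LinearMap.ker p)) n) :
    hdim G n = hdim (G.restrict (LinearMap.ker p)) n + hdim (G.mapL p) n := by
  refine hdim_exact_of G p fun σ hσ => ?_
  obtain ⟨m, e, a, hb, ha⟩ := h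
  obtain ⟨h0, h1⟩ := mem_sec'.1 hσ
  obtain ⟨w₀, hw₀, e₀⟩ := exists_lift_Γ G p good_U0 h0
  obtain ⟨w₁, hw₁, e₁⟩ := exists_lift_Γ G p good_Ui h1
  obtain ⟨x₀, hx₀⟩ := good_U0 (K := K).ne
  obtain ⟨x₁, hx₁⟩ := good_Ui (K := K).ne
  have hu : uu K ^ (-n) * uu K ^ n = 1 := by
    rw [← zpow_add₀ uu_ne_zero]; simp
  have h2 : w₀ - uu K ^ n • w₁ ∈ (G.restrict (LinearMap.ker p)).gen := by
    refine ⟨sub_mem (Lat.mem_gen (hw₀ x₀ hx₀))
      (G.gen.smul_mem _ (Lat.mem_gen (hw₁ x₁ hx₁))), ?_⟩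
    rw [SetLike.mem_coe, LinearMap.mem_ker, map_sub, map_smul, e₀, e₁, smul_smul, mul_comm, hu,
      one_smul, sub_self]
  obtain ⟨α, hα, hβ⟩ := hb.exists_decomp (n := n) (fun i => by have := ha i; omega) h2
  refine ⟨w₀ - α, mem_sec'.2 ⟨fun x hx => sub_mem (hw₀ x hx) (Lat.mem_restrict.1 (hα x hx)).1,
    fun x hx => ?_⟩, ?_⟩
  · have h3 := add_mem (Lat.mem_restrict.1 (hβ x hx)).1 (hw₁ x hx)
    convert h3 using 1
    rw [smul_sub, smul_sub, smul_sub, smul_smul, hu, one_smul]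
    abel
  · rw [map_sub, e₀, (Lat.mem_restrict.1 (hα x₀ hx₀)).2, sub_zero]

/-- Additivity of the Euler characteristic. -/
lemma chiL_exact (G : Lat K N) (p : (Fin N → K) →ₗ[K] (Fin N' → K)) :
    chiL G = chiL (G.restrict (LinearMap.ker p)) + chiL (G.mapL p) := by
  refine chiL_eq_of (b := dlt K * rk G) (((eventually_reg (G.restrict (LinearMap.ker p))).and
    (eventually_reg (G.mapL p))).mono fun n hn => ?_)
  rw [hdim_exact G p hn.1, hn.1.hdim_eq, hn.2.hdim_eq, rk_exact G p]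
  push_cast
  ring

lemma restrict_eq_bot {G : Lat K N} {W : Submodule K (Fin N → K)} (h : G.gen ⊓ W = ⊥) :
    G.restrict W = ⊥ := Lat.eq_bot_of_gen h

lemma hdim_mapL {G : Lat K N} {p : (Fin N → K) →ₗ[K] (Fin N' → K)}
    (h : G.gen ⊓ LinearMap.ker p = ⊥) (n : ℤ) : hdim (G.mapL p) n = hdim G n := by
  rw [hdim_exact_of G p (n := n), restrict_eq_bot h]
  · simp [hdim, sec_bot]
  intro σ hσ
  obtain ⟨w, hw, rfl⟩ := sec_le_gen hσ
  refine ⟨w, mem_sec.2 fun x => ?_, rfl⟩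
  obtain ⟨v, hv, e⟩ := Lat.mem_mapL.1 (mem_sec.1 hσ x)
  have h1 : tw x n • w - v ∈ G.gen ⊓ LinearMap.ker p :=
    ⟨sub_mem (G.gen.smul_mem _ hw) (Lat.mem_gen hv), by
      rw [SetLike.mem_coe, LinearMap.mem_ker, map_sub, map_smul, e, sub_self]⟩
  rw [h, Submodule.mem_bot, sub_eq_zero] at h1
  rwa [h1]

end Pool.Agent.Lib.MP_cc3443_ag
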