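import Pool.Agent.Lib.MP_cc3443_ag.RH

open Filter Set Polynomial

noncomputable section

namespace Pool.Agent.Lib.MP_cc3443_ag

/-- Definable functions on the plane whose two iterated integrals agree. -/
def Fub (F : ℂ × ℂ → ℂ) : Prop :=
  DFun F ∧ chi1 (fun a => chi1 fun b => F (a, b)) = chi1 fun b => chi1 fun a => F (a, b)

lemma DFun.swap {F : ℂ × ℂ → ℂ} (h : DFun F) : DFun fun p : ℂ × ℂ => F (p.2, p.1) :=
  h.comp (by fun_prop)

lemma iter_add {F G : ℂ × ℂ → ℂ} (hF : DFun F) (hG : DFun G) :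
    chi1 (fun a => chi1 fun b => F (a, b) + G (a, b)) =
      chi1 (fun a => chi1 fun b => F (a, b)) + chi1 (fun a => chi1 fun b => G (a, b)) := by
  rw [← chi1_add hF.chi1.cofConst hG.chi1.cofConst]
  congr 1
  funext a
  exact chi1_add (hF.comp (f := fun b => (a, b)) (by fun_prop)).cofConst
    (hG.comp (f := fun b => (a, b)) (by fun_prop)).cofConst

lemma iter_const_mul {F : ℂ × ℂ → ℂ} (hF : DFun F) (v : ℂ) :
    chi1 (fun a => chi1 fun b => v * F (a, b)) = v * chi1 (fun a => chi1 fun b => F (a, b)) := by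
  rw [← chi1_const_mul hF.chi1.cofConst]
  congr 1
  funext a
  exact chi1_const_mul (hF.comp (f := fun b => (a, b)) (by fun_prop)).cofConst v

lemma Fub.add {F G : ℂ × ℂ → ℂ} (hF : Fub F) (hG : Fub G) : Fub fun p => F p + G p :=
  ⟨hF.1.add hG.1, by
    rw [iter_add hF.1 hG.1, hF.2, hG.2]; exact (iter_add hF.1.swap hG.1.swap).symm⟩

lemma Fub.const_mul {F : ℂ × ℂ → ℂ} (hF : Fub F) (v : ℂ) : Fub fun p => v * F p :=
  ⟨(DFun.const v).mul hF.1, by
    rw [iter_const_mul hF.1, hF.2]; exact (iter_const_mul hF.1.swap v).symm⟩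

lemma Fub.of_fst {f : ℂ → ℂ} (h : DFun f) : Fub fun p => f p.1 :=
  ⟨h.comp (by fun_prop), by simp⟩

lemma Fub.of_snd {f : ℂ → ℂ} (h : DFun f) : Fub fun p => f p.2 :=
  ⟨h.comp (by fun_prop), by simp⟩

lemma Fub.point (q : ℂ × ℂ) : Fub fun p => ind (p = q) := by
  refine ⟨(Del.eq (by fun_prop) (by fun_prop)).ind, ?_⟩
  have h1 : ∀ c : ℂ, DFun fun a => ind (a = c) := fun c => (Del.eq (by fun_prop) (by fun_prop)).ind
  have h2 : ∀ c v : ℂ, chi1 (fun a => ind (a = c) * v) = chi1 (fun a => ind (a = c)) * v :=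
    fun c v => by simpa only [mul_comm] using chi1_const_mul (h1 c).cofConst v
  simp only [Prod.ext_iff, ind_and, chi1_const_mul (h1 _).cofConst, h2]

lemma Fub.sum {ι : Type*} (s : Finset ι) {F : ι → ℂ × ℂ → ℂ} (h : ∀ i ∈ s, Fub (F i)) :
    Fub fun p => ∑ i ∈ s, F i p := by
  classical
  induction s using Finset.induction_on with
  | empty => exact Fub.of_fst (DFun.const 0)
  | insert a s ha ih =>
    simp only [Finset.sum_insert ha]
    exact (h a (Finset.mem_insert_self _ _)).add (ih fun i hi => h i (Finset.mem_insert_of_mem hi))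

lemma eq_sum_points {F : ℂ × ℂ → ℂ} (h : (Function.support F).Finite) :
    F = fun p => ∑ q ∈ h.toFinset, F q * ind (p = q) := by
  funext p
  rw [Finset.sum_eq_single p]
  · simp
  · intro q _ hq; simp [hq.symm]
  · intro hp; simpa using hp

lemma Fub.of_finite {F : ℂ × ℂ → ℂ} (h : (Function.support F).Finite) : Fub F := by
  rw [eq_sum_points h]
  exact Fub.sum _ fun q _ => (Fub.point q).const_mul _

lemma dmap_eval (p : ℂ[X]) : DMap fun a : ℂ => p.eval a := by
  simp only [eval_eq_sum_range]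
  fun_prop

lemma dmap_evalEval (P : ℂ[X][X]) : DMap fun p : ℂ × ℂ => P.evalEval p.1 p.2 := by
  simp only [← map_evalRingHom_eval, coeff_map,
    fun a b : ℂ => eval_eq_sum_range' (p := P.map (evalRingHom a))
      (Nat.lt_succ_of_le natDegree_map_le) b, coe_evalRingHom]
  exact DMap.sum _ fun i => ((dmap_eval _).comp (by fun_prop)).mul (by fun_prop)

/-- Indicator of a plane curve. -/
def indV (P : ℂ[X][X]) (p : ℂ × ℂ) : ℂ := ind (P.evalEval p.1 p.2 = 0)

lemma dfun_indV (P : ℂ[X][X]) : DFun (indV P) := (Del.eq (dmap_evalEval P) (DMap.const _)).ind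

section curve
variable {K : Type} [Field K] [Algebra ℂ K]

lemma Place.res_aevalAeval [IsFF K] (p : Place K) {x y : K} {a b : ℂ}
    (ha : p.val (x - algebraMap ℂ K a) < 1) (hb : p.val (y - algebraMap ℂ K b) < 1) (Q : ℂ[X][X]) :
    p.val (aevalAeval x y Q - algebraMap ℂ K (Q.evalEval a b)) < 1 := by
  have hadd : ∀ {z z' : K} {c c' : ℂ}, p.val (z - algebraMap ℂ K c) < 1 →
      p.val (z' - algebraMap ℂ K c') < 1 → p.val (z + z' - algebraMap ℂ K (c + c')) < 1 :=
    fun h h' => by rw [map_add, add_sub_add_comm]; exact p.val.map_add_lt h h'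
  have hmul : ∀ {z z' : K} {c c' : ℂ}, p.val (z - algebraMap ℂ K c) < 1 →
      p.val (z' - algebraMap ℂ K c') < 1 → p.val (z * z' - algebraMap ℂ K (c * c')) < 1 := by
    intro z z' c c' h h'
    have : z * z' - algebraMap ℂ K (c * c') =
        z' * (z - algebraMap ℂ K c) + algebraMap ℂ K c * (z' - algebraMap ℂ K c') := by
      rw [map_mul]; ring
    rw [this]
    refine p.val.map_add_lt ?_ ?_ <;> rw [map_mul]
    · exact (mul_le_of_le_one_left' (p.mem_iff.1 (p.mem_of_val_sub_lt h'))).trans_lt h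
    · exact (mul_le_of_le_one_left' (p.val_const_le c)).trans_lt h'
  have h1 : ∀ q : ℂ[X], p.val (aeval x q - algebraMap ℂ K (q.eval a)) < 1 := by
    intro q
    induction q using Polynomial.induction_on with
    | C c => simp
    | add q r hq hr => rw [map_add, eval_add]; exact hadd hq hr
    | monomial n c h =>
      rw [pow_succ, ← mul_assoc, map_mul, eval_mul, aeval_X, eval_X]; exact hmul h ha
  induction Q using Polynomial.induction_on with
  | C q => rw [aevalAeval_C, evalEval_C]; exact h1 q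
  | add q r hq hr => rw [map_add, evalEval_add]; exact hadd hq hr
  | monomial n c h =>
    rw [pow_succ, ← mul_assoc, map_mul, evalEval_mul, aevalAeval_Y, evalEval_X]; exact hmul h hb

lemma Place.val_lt_one_iff_of_res [IsFF K] (p : Place K) {z : K} {c : ℂ}
    (h : p.val (z - algebraMap ℂ K c) < 1) : p.val z < 1 ↔ c = 0 :=
  ⟨fun h' => p.res_unique h (by simpa using h'), by rintro rfl; simpa using h⟩

variable [Algebra (RatFunc ℂ) K] [IsScalarTower ℂ (RatFunc ℂ) K]
  [FiniteDimensional (RatFunc ℂ) K] {P : ℂ[X][X]} {y : K}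
  (hker : ∀ Q, aevalAeval (uu K) y Q = 0 ↔ P ∣ Q)
include hker

lemma exists_place_pt {a b : ℂ} (h : P.evalEval a b = 0) : ∃ p : Place K,
    p.val (uu K - algebraMap ℂ K a) < 1 ∧ p.val (y - algebraMap ℂ K b) < 1 := by
  let θ := aevalAeval (R := ℂ) (uu K) y
  let J : Ideal θ.range := (RingHom.ker (evalEvalRingHom a b)).map θ.rangeRestrict
  have hJ : J ≠ ⊤ := by
    intro h1
    obtain ⟨Q, hQ, e⟩ := (Ideal.mem_map_iff_of_surjective _ θ.rangeRestrict_surjective).1
      (h1 ▸ Submodule.mem_top : (1 : θ.range) ∈ J)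
    have h2 : θ (1 - Q) = 0 := by rw [map_sub, map_one, sub_eq_zero]; exact congrArg Subtype.val e.symm
    have h3 := evalEval_dvd a b ((hker _).1 h2)
    rw [h, zero_dvd_iff, evalEval_sub, evalEval_one, show Q.evalEval a b = 0 from hQ] at h3
    simp at h3
  have h1 : θ.rangeRestrict (C (X - C a)) ∈ J :=
    Ideal.mem_map_of_mem _ (by simp [RingHom.mem_ker, evalEval_C])
  have h2 : θ.rangeRestrict (X - C (C b)) ∈ J :=
    Ideal.mem_map_of_mem _ (by simp [RingHom.mem_ker, evalEval_C])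
  have h3 : (θ.rangeRestrict (C (X - C a)) : K) = uu K - algebraMap ℂ K a := by simp [θ]
  have h4 : (θ.rangeRestrict (X - C (C b)) : K) = y - algebraMap ℂ K b := by simp [θ]
  obtain ⟨p, -, hp⟩ := exists_place_of_ideal _ J hJ h1 fun h0 =>
    transc_sub_ne uu_transc a (by rw [← h3, h0]; rfl)
  exact ⟨p, h3 ▸ p.mem_nonunits_iff.1 (hp _ h1), h4 ▸ p.mem_nonunits_iff.1 (hp _ h2)⟩

lemma finite_inter_aux {Q : ℂ[X][X]} (hQ : ¬ P ∣ Q) :
    {p : ℂ × ℂ | P.evalEval p.1 p.2 = 0 ∧ Q.evalEval p.1 p.2 = 0}.Finite := by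
  have h0 : aevalAeval (uu K) y Q ≠ 0 := fun h => hQ ((hker Q).1 h)
  refine ((zerosF (aevalAeval (uu K) y Q)).finite_toSet.biUnion
    (t := fun p => {q : ℂ × ℂ | p.val (uu K - algebraMap ℂ K q.1) < 1 ∧
      p.val (y - algebraMap ℂ K q.2) < 1}) fun p _ => Set.Subsingleton.finite
      fun q hq q' hq' => Prod.ext (p.res_unique hq.1 hq'.1) (p.res_unique hq.2 hq'.2)).subset ?_
  rintro q ⟨h1, h2⟩
  obtain ⟨p, hp⟩ := exists_place_pt hker h1
  exact mem_biUnion ((mem_zerosF h0).2
    ((p.val_lt_one_iff_of_res (p.res_aevalAeval hp.1 hp.2 Q)).2 h2)) hp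

omit hker in
lemma exists_unique_locus
    (hfrac : ∀ z : K, ∃ (Q : ℂ[X][X]) (r : ℂ[X]), r ≠ 0 ∧ aeval (uu K) r * z = aevalAeval (uu K) y Q) :
    ∃ r : ℂ[X], r ≠ 0 ∧ ∀ (p p' : Place K) (a b : ℂ), r.eval a ≠ 0 →
      p.val (uu K - algebraMap ℂ K a) < 1 → p.val (y - algebraMap ℂ K b) < 1 →
      p'.val (uu K - algebraMap ℂ K a) < 1 → p'.val (y - algebraMap ℂ K b) < 1 → p = p' := by
  classical
  obtain ⟨m, g, -, hg⟩ := exists_gens_chartRing (uu_transc (K := K))
  choose Q r hr hQ using fun i => hfrac (g i)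
  refine ⟨∏ i, r i, Finset.prod_ne_zero_iff.2 fun i _ => hr i, fun p p' a b h0 h1 h2 h3 h4 => ?_⟩
  by_contra hne
  obtain ⟨s, hs, h5, h6⟩ := good_U0.sep (p.mem_of_val_sub_lt h1) (p'.mem_of_val_sub_lt h3)
    (Ne.symm hne)
  obtain ⟨c, rfl⟩ := hg s hs
  have h7 : aevalAeval (uu K) y (C (∏ i, r i)) * ∑ i, aeval (uu K) (c i) * g i =
      aevalAeval (uu K) y (∑ i, C (c i * ∏ j ∈ Finset.univ.erase i, r j) * Q i) := by
    rw [Finset.mul_sum, map_sum]
    refine Finset.sum_congr rfl fun i _ => ?_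
    rw [map_mul, ← hQ, aevalAeval_C, aevalAeval_C, ← Finset.mul_prod_erase _ _ (Finset.mem_univ i),
      map_mul, map_mul]
    ring
  have h8 := (p'.val_lt_one_iff_of_res (p'.res_aevalAeval h3 h4 _)).1 (by
    rw [← h7, map_mul]
    exact (mul_le_of_le_one_left' (p'.mem_iff.1 (p'.mem_of_val_sub_lt
      (p'.res_aevalAeval h3 h4 _)))).trans_lt h6)
  have h9 := (p.val_lt_one_iff_of_res (p.res_aevalAeval h1 h2 _)).2 h8
  rw [← h7, map_mul, h5, mul_one, p.val_lt_one_iff_of_res (p.res_aevalAeval h1 h2 _),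
    evalEval_C] at h9
  exact h0 h9

lemma fub_curve_aux (hy : Transcendental ℂ y)
    (hfrac : ∀ z : K, ∃ (Q : ℂ[X][X]) (r : ℂ[X]), r ≠ 0 ∧ aeval (uu K) r * z = aevalAeval (uu K) y Q) :
    Fub (indV P) := by
  classical
  obtain ⟨r, hr, hu⟩ := exists_unique_locus hfrac
  obtain ⟨W, hW⟩ := exists_chi_curve (K := K)
  have hx := uu_transc (K := K)
  let M : ℂ × ℂ → ℂ := fun q => ∑ p ∈ zerosF (uu K - algebraMap ℂ K q.1),
    ind (p.val (y - algebraMap ℂ K q.2) < 1)
  have hM : ∀ q : ℂ × ℂ, M q = ∑ p ∈ zerosF (y - algebraMap ℂ K q.2),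
      ind (p.val (uu K - algebraMap ℂ K q.1) < 1) := by
    intro q
    simp only [M, ← mem_zerosF (transc_sub_ne hx _), ← mem_zerosF (transc_sub_ne hy _), ind,
      Finset.sum_boole]
    congr 2
    ext p
    simp [and_comm]
  have hV : ∀ (q : ℂ × ℂ) (p : Place K), p.val (uu K - algebraMap ℂ K q.1) < 1 →
      p.val (y - algebraMap ℂ K q.2) < 1 → P.evalEval q.1 q.2 = 0 := fun q p h1 h2 =>
    (p.val_lt_one_iff_of_res (p.res_aevalAeval h1 h2 P)).1 (by simp [(hker P).2 dvd_rfl])
  have hR : (Function.support fun q => M q - indV P q).Finite := by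
    refine ((r.roots.toFinset.finite_toSet.biUnion
      fun a _ => (zerosF (uu K - algebraMap ℂ K a)).finite_toSet).biUnion
      (t := fun p => {q : ℂ × ℂ | p.val (uu K - algebraMap ℂ K q.1) < 1 ∧
        p.val (y - algebraMap ℂ K q.2) < 1}) fun p _ => Set.Subsingleton.finite
        fun q hq q' hq' => Prod.ext (p.res_unique hq.1 hq'.1) (p.res_unique hq.2 hq'.2)).subset ?_
    intro q hq
    by_cases h : P.evalEval q.1 q.2 = 0
    · obtain ⟨p, hp⟩ := exists_place_pt hker h
      have h1 := (mem_zerosF (transc_sub_ne hx _)).2 hp.1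
      refine mem_biUnion (mem_biUnion (x := q.1) ?_ h1) hp
      by_contra h2
      apply hq
      simp only [M, indV]
      rw [Finset.sum_eq_single p, ind_true hp.2, ind_true h, sub_self]
      · exact fun p' hp' hne => ind_false fun h3 => hne (hu p' p q.1 q.2
          (fun h4 => h2 (by simp [hr, h4])) ((mem_zerosF (transc_sub_ne hx _)).1 hp') h3 hp.1 hp.2)
      · exact fun h3 => absurd h1 h3
    · refine absurd ?_ hq
      simp only [M, indV]
      rw [ind_false h, sub_zero]
      exact Finset.sum_eq_zero fun p hp => ind_false fun h3 =>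
        h (hV q p ((mem_zerosF (transc_sub_ne hx _)).1 hp) h3)
  have h1 := Fub.of_finite hR
  have h2 : Fub M := by
    refine ⟨by simpa using h1.1.add (dfun_indV P), ?_⟩
    let Z : Finset (Place K) := ((finite_poles (uu K)).union (finite_poles y)).toFinset
    have hZ : ∀ p, p ∈ Z ↔ uu K ∉ p.O ∨ y ∉ p.O := fun p => Set.Finite.mem_toFinset _
    rw [← sub_eq_zero, ← sub_self (W - Z.card)]
    congr 1
    · rw [← hW _ Z hx fun p hp => (hZ p).2 (Or.inl hp)]
      congr 1
      funext a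
      simp only [M]
      rw [(chi1_sum _ fun p => (chi1_res p y).1).2]
      refine Finset.sum_congr rfl fun p hp => ?_
      have := p.mem_of_val_sub_lt ((mem_zerosF (transc_sub_ne hx _)).1 hp)
      rw [(chi1_res p y).2, hZ]
      simp [this]
    · rw [← hW _ Z hy fun p hp => (hZ p).2 (Or.inr hp)]
      congr 1
      funext b
      simp only [hM]
      rw [(chi1_sum _ fun p => (chi1_res p (uu K)).1).2]
      refine Finset.sum_congr rfl fun p hp => ?_
      have := p.mem_of_val_sub_lt ((mem_zerosF (transc_sub_ne hy _)).1 hp)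
      rw [(chi1_res p _).2, hZ]
      simp [this]
  have h3 := h2.add (h1.const_mul (-1))
  simpa using h3

end curve

lemma exists_curve {P : ℂ[X][X]} (hP : Irreducible P) (h0 : P.natDegree ≠ 0) :
    ∃ (K : Type) (_ : Field K) (_ : Algebra ℂ K) (_ : Algebra (RatFunc ℂ) K)
      (_ : IsScalarTower ℂ (RatFunc ℂ) K) (_ : FiniteDimensional (RatFunc ℂ) K) (y : K),
      (∀ Q, aevalAeval (uu K) y Q = 0 ↔ P ∣ Q) ∧
      ∀ z : K, ∃ (Q : ℂ[X][X]) (r : ℂ[X]), r ≠ 0 ∧ aeval (uu K) r * z = aevalAeval (uu K) y Q := by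
  have h1 := hP.isPrimitive h0
  let f := P.map (algebraMap ℂ[X] (RatFunc ℂ))
  haveI : Fact (Irreducible f) := ⟨h1.irreducible_iff_irreducible_map_fraction_map.1 hP⟩
  haveI : FiniteDimensional (RatFunc ℂ) (AdjoinRoot f) :=
    (AdjoinRoot.powerBasis (Fact.out : Irreducible f).ne_zero).finite
  have h2 : ∀ Q : ℂ[X][X], aevalAeval (uu (AdjoinRoot f)) (AdjoinRoot.root f) Q =
      AdjoinRoot.mk f (Q.map (algebraMap ℂ[X] (RatFunc ℂ))) := by
    intro Q
    induction Q using Polynomial.induction_on with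
    | C q => rw [aevalAeval_C, map_C, ← algebraMap_poly]; rfl
    | add q r hq hr => rw [map_add, hq, hr, Polynomial.map_add, map_add]
    | monomial n c h =>
      rw [pow_succ, ← mul_assoc, map_mul, h, aevalAeval_Y, Polynomial.map_mul _ (q := X), map_X,
        map_mul, AdjoinRoot.mk_X]
  refine ⟨AdjoinRoot f, inferInstance, inferInstance, inferInstance, inferInstance, inferInstance,
    AdjoinRoot.root f, fun Q => ?_, fun z => ?_⟩
  · rw [h2, AdjoinRoot.mk_eq_zero]
    exact ⟨h1.dvd_of_fraction_map_dvd_fraction_map, Polynomial.map_dvd _⟩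
  · obtain ⟨q, rfl⟩ := AdjoinRoot.mk_surjective z
    obtain ⟨r, hr, e⟩ := IsLocalization.integerNormalization_spec (nonZeroDivisors ℂ[X]) q
    refine ⟨IsLocalization.integerNormalization (nonZeroDivisors ℂ[X]) q, r,
      nonZeroDivisors.ne_zero hr, ?_⟩
    rw [h2, e, ← algebraMap_poly, ← algebraMap_smul (RatFunc ℂ), Polynomial.smul_eq_C_mul, map_mul]
    rfl

lemma fub_indV {P : ℂ[X][X]} (hP : Irreducible P) : Fub (indV P) := by
  by_cases h0 : P.natDegree = 0
  · rw [eq_C_of_natDegree_eq_zero h0]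
    have := Fub.of_fst (Del.eq (dmap_eval (P.coeff 0)) (DMap.const 0)).ind
    convert this using 2
    simp [indV, evalEval_C]
  obtain ⟨K, _, _, _, _, _, y, hker, hfrac⟩ := exists_curve hP h0
  by_cases hy : ∃ c : ℂ, y = algebraMap ℂ K c
  · obtain ⟨c, rfl⟩ := hy
    have h1 : P ∣ X - C (C c) := (hker _).1 (by simp)
    have h2 := hP.dvd_symm (irreducible_X_sub_C _) h1
    have := Fub.of_snd (Del.eq (f := fun b : ℂ => b) (by fun_prop) (DMap.const c)).ind
    convert this using 2 with p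
    refine ind_congr ⟨fun h => ?_, fun h => ?_⟩
    · have := evalEval_dvd p.1 p.2 h1
      simpa [h, sub_eq_zero, evalEval_C] using this
    · have := evalEval_dvd p.1 p.2 h2
      simpa [h, evalEval_C] using this
  · exact fub_curve_aux hker (transc_of_not_const fun c hc => hy ⟨c, hc⟩) hfrac

lemma finite_inter {P Q : ℂ[X][X]} (hP : Irreducible P) (hQ : Irreducible Q) (h : ¬ P ∣ Q) :
    {p : ℂ × ℂ | P.evalEval p.1 p.2 = 0 ∧ Q.evalEval p.1 p.2 = 0}.Finite := by
  by_cases h0 : P.natDegree = 0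
  · by_cases h1 : Q.natDegree = 0
    · rw [eq_C_of_natDegree_eq_zero h0] at hP h ⊢
      rw [eq_C_of_natDegree_eq_zero h1] at h ⊢
      obtain ⟨a, b, e⟩ := hP.of_map.coprime_iff_not_dvd.2 fun h' => h (_root_.map_dvd C h')
      refine Set.finite_empty.subset ?_
      rintro p ⟨h2, h3⟩
      rw [evalEval_C] at h2 h3
      simpa [h2, h3] using congrArg (eval p.1) e
    · obtain ⟨K, _, _, _, _, _, y, hker, -⟩ := exists_curve hQ h1
      exact (finite_inter_aux hker fun h' => h (hQ.dvd_symm hP h')).subset fun p hp => hp.symm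
  · obtain ⟨K, _, _, _, _, _, y, hker, -⟩ := exists_curve hP h0
    exact finite_inter_aux hker h

/-- The span of constants, points and irreducible curves. -/
def planeAlg : Submodule ℂ (ℂ × ℂ → ℂ) :=
  Submodule.span ℂ {F | F = 1 ∨ (Function.support F).Finite ∨ ∃ P, Irreducible P ∧ F = indV P}

lemma fub_of_mem {F : ℂ × ℂ → ℂ} (h : F ∈ planeAlg) : Fub F := by
  induction h using Submodule.span_induction with
  | mem F h =>
    rcases h with rfl | h | ⟨P, hP, rfl⟩
    exacts [Fub.of_fst (DFun.const 1), Fub.of_finite h, fub_indV hP]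
  | zero => exact Fub.of_fst (DFun.const 0)
  | add F G _ _ hF hG => exact hF.add hG
  | smul c F _ hF => exact hF.const_mul c

lemma planeAlg_mul {F G : ℂ × ℂ → ℂ} (hF : F ∈ planeAlg) (hG : G ∈ planeAlg) :
    F * G ∈ planeAlg := by
  have h := Submodule.mul_mem_mul hF hG
  rw [planeAlg, Submodule.span_mul_span] at h
  refine Submodule.span_le.2 ?_ h
  rintro _ ⟨F, hF, G, hG, rfl⟩
  refine Submodule.subset_span ?_
  rcases hF with rfl | hF | ⟨P, hP, rfl⟩
  · simpa using hG
  · exact Or.inr (Or.inl (hF.subset (Function.support_mul_subset_left _ _)))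
  rcases hG with rfl | hG | ⟨Q, hQ, rfl⟩
  · exact Or.inr (Or.inr ⟨P, hP, mul_one _⟩)
  · exact Or.inr (Or.inl (hG.subset (Function.support_mul_subset_right _ _)))
  by_cases h : P ∣ Q
  · refine Or.inr (Or.inr ⟨P, hP, funext fun p => ?_⟩)
    change indV P p * indV Q p = _
    rw [indV, indV, ← ind_and]
    exact ind_congr ⟨fun h => h.1, fun h' => ⟨h', by simpa [h'] using evalEval_dvd p.1 p.2 h⟩⟩
  · refine Or.inr (Or.inl ((finite_inter hP hQ h).subset fun p hp => ?_))
    by_contra h'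
    apply hp
    change indV P p * indV Q p = _
    rw [indV, indV, ← ind_and]
    exact ind_false h'

lemma one_mem_planeAlg : (1 : ℂ × ℂ → ℂ) ∈ planeAlg := Submodule.subset_span (Or.inl rfl)

lemma ind_or_mem {A B : ℂ × ℂ → Prop} (hA : (fun p => ind (A p)) ∈ planeAlg)
    (hB : (fun p => ind (B p)) ∈ planeAlg) : (fun p => ind (A p ∨ B p)) ∈ planeAlg := by
  convert sub_mem (add_mem hA hB) (planeAlg_mul hA hB) using 1
  funext p
  by_cases h1 : A p <;> by_cases h2 : B p <;> simp [h1, h2]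

lemma indV_mem (P : ℂ[X][X]) : indV P ∈ planeAlg := by
  induction P using WfDvdMonoid.induction_on_irreducible with
  | zero => convert one_mem_planeAlg; funext p; simp [indV]
  | unit u hu =>
    convert zero_mem planeAlg
    funext p
    exact ind_false (hu.map (evalEvalRingHom p.1 p.2)).ne_zero
  | mul a i _ hi ha =>
    convert ind_or_mem (Submodule.subset_span (Or.inr (Or.inr ⟨i, hi, rfl⟩))) ha using 2
    simp [indV, evalEval_mul]

lemma IsCons.mem_planeAlg {S : Set (Unit ⊕ Unit → ℂ)} (h : IsCons S) :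
    (fun p : ℂ × ℂ => ind (Sum.elim (fun _ => p.1) (fun _ => p.2) ∈ S)) ∈ planeAlg := by
  induction h with
  | zero q =>
    convert indV_mem (MvPolynomial.aeval (Sum.elim (fun _ => C X) fun _ => X) q) using 2 with p
    refine ind_congr ?_
    rw [Set.mem_ofPred_eq]
    refine Eq.congr_left ?_
    induction q using MvPolynomial.induction_on with
    | C a => simp [evalEval_C]
    | add p q hp hq => simp [hp, hq, evalEval_add]
    | mul_X q k hq => rcases k with _ | _ <;> simp [hq, evalEval_mul, evalEval_C]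
  | @compl S _ ih =>
    convert sub_mem one_mem_planeAlg ih using 1
    funext p
    by_cases h : Sum.elim (fun _ => p.1) (fun _ => p.2) ∈ S <;> simp [h]
  | union _ _ ih1 ih2 => exact ind_or_mem ih1 ih2

lemma DFun.finite_range {F : ℂ × ℂ → ℂ} (h : DFun F) : (range F).Finite := by
  obtain ⟨v, hv⟩ := h.1.exists_eq_range (range_nonempty F)
  obtain ⟨n, hn⟩ := exists_finite_subcover_cons IsCons.univ _
    (fun k => (h.del (· = v k)).isCons ((), ())) fun c _ => by
      obtain ⟨k, hk⟩ : F (Coded.dec ((), ()) c) ∈ range v := hv ▸ mem_range_self _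
      exact mem_iUnion.2 ⟨k, ⟨trivial, trivial⟩, hk.symm⟩
  refine ((Set.finite_Iic n).image v).subset ?_
  rintro _ ⟨p, rfl⟩
  obtain ⟨k, hk, -, e⟩ := mem_iUnion₂.1 (hn (mem_univ (Sum.elim (fun _ => p.1) fun _ => p.2)))
  exact ⟨k, hk, e.symm⟩

theorem keyFubini {F : ℂ × ℂ → ℂ} (h : DFun F) :
    chi1 (fun a => chi1 fun b => F (a, b)) = chi1 fun b => chi1 fun a => F (a, b) := by
  refine (fub_of_mem ?_).2
  have h1 : F = ∑ v ∈ h.finite_range.toFinset, v • fun p => ind (F p = v) := by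
    funext p
    rw [Finset.sum_apply, Finset.sum_eq_single (F p)]
    · simp
    · intro q _ hq; simp [hq.symm]
    · intro hp; simp at hp
  rw [h1]
  refine sum_mem fun v _ => Submodule.smul_mem _ _ ?_
  convert ((h.del (· = v)).isCons ((), ())).mem_planeAlg using 3 with p
  exact ⟨fun h => ⟨⟨trivial, trivial⟩, h⟩, fun h => h.2⟩

end Pool.Agent.Lib.MP_cc3443_ag
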