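import Pool.Agent.Lib.MP_cc3443_ag.Lat
import Pool.Agent.Lib.MP_cc3443_ag.BG

open Filter Set WithZero Module

noncomputable section

namespace Pool.Agent.Lib.MP_cc3443_ag

variable {K : Type} [Field K] [Algebra ℂ K] [Algebra (RatFunc ℂ) K]
  [IsScalarTower ℂ (RatFunc ℂ) K] [FiniteDimensional (RatFunc ℂ) K] {N N' : ℕ}

variable (K) in
/-- The coordinate of the map to the projective line. -/
def uu : K := algebraMap (RatFunc ℂ) K RatFunc.X

variable (K) in
/-- Places over the affine line. -/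
def U0 : Set (Place K) := {x | uu K ∈ x.O}

variable (K) in
/-- Places over infinity. -/
def Ui : Set (Place K) := {x | uu K ∉ x.O}

omit [FiniteDimensional (RatFunc ℂ) K] in
lemma uu_transc : Transcendental ℂ (uu K) :=
  (transcendental_algebraMap_iff (algebraMap (RatFunc ℂ) K).injective).2 RatFunc.transcendental_X

omit [FiniteDimensional (RatFunc ℂ) K] in
lemma uu_ne_zero : uu K ≠ 0 := transc_ne_zero uu_transc

lemma good_U0 : Good (U0 K) := good_fin uu_transc

lemma good_Ui : Good (Ui K) := good_inf uu_transc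

lemma finite_Ui : (Ui K).Finite := finite_poles _

omit [FiniteDimensional (RatFunc ℂ) K] in
lemma algebraMap_poly (p : Polynomial ℂ) :
    algebraMap (RatFunc ℂ) K (algebraMap (Polynomial ℂ) (RatFunc ℂ) p) =
      Polynomial.aeval (uu K) p := by
  rw [uu, Polynomial.aeval_algebraMap_apply]
  congr 1
  rw [← RatFunc.algebraMap_X, Polynomial.aeval_algebraMap_apply, Polynomial.aeval_X_left_apply]

omit [FiniteDimensional (RatFunc ℂ) K] in
lemma A0_mem {f : RatFunc ℂ} (hf : f ∈ A0) {x : Place K} (hx : x ∈ U0 K) :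
    algebraMap (RatFunc ℂ) K f ∈ x.O := by
  obtain ⟨p, rfl⟩ := mem_A0.1 hf
  rw [algebraMap_poly]
  exact x.aeval_mem hx p

lemma Place.val_aeval_of_pole [IsFF K] (x : Place K) {v : K} (hv : v ∉ x.O) {p : Polynomial ℂ}
    (hp : p ≠ 0) : x.val (Polynomial.aeval v p) = x.val v ^ p.natDegree := by
  have h1 : 1 < x.val v := by rw [x.mem_iff] at hv; exact not_le.1 hv
  have h2 := IsAlgClosed.splits p
  rw [h2.natDegree_eq_card_roots]
  conv_lhs => rw [h2.eq_prod_roots]
  rw [map_mul, Polynomial.aeval_C, map_mul,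
    x.val_const (Polynomial.leadingCoeff_ne_zero.2 hp), one_mul, map_multiset_prod,
    map_multiset_prod, Multiset.map_map, Multiset.map_map]
  rw [Multiset.map_congr rfl (g := fun _ => x.val v), Multiset.map_const', Multiset.prod_replicate]
  intro a _
  simpa using x.val.map_sub_eq_of_lt_left ((x.val_const_le a).trans_lt h1)

lemma Ri_mem {f : RatFunc ℂ} (hf : vI f ≤ 1) {x : Place K} (hx : x ∈ Ui K) :
    algebraMap (RatFunc ℂ) K f ∈ x.O := by
  by_cases h0 : f = 0
  · simp [h0]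
  have h1 : 1 < x.val (uu K) := not_le.1 fun h => hx (x.mem_iff.2 h)
  have hn := RatFunc.num_ne_zero h0
  have hd := f.denom_ne_zero
  rw [← f.num_div_denom, map_div₀, vI_poly hn, vI_poly hd, ← exp_sub, ← exp_zero, exp_le_exp] at hf
  rw [← f.num_div_denom, map_div₀, algebraMap_poly, algebraMap_poly, x.mem_iff, map_div₀,
    x.val_aeval_of_pole hx hn, x.val_aeval_of_pole hx hd,
    div_le_one₀ (pow_pos (zero_lt_one.trans h1) _)]
  exact pow_le_pow_right₀ h1.le (by omega)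

lemma small0 {T : Set (Place K)} (hT : T.Finite) (M : ℕ) :
    ∃ r ∈ A0, r ≠ 0 ∧ ∀ y ∈ T, y ∈ U0 K →
      y.val (algebraMap (RatFunc ℂ) K r) ≤ exp (-(M : ℤ)) := by
  have h1 : ∀ y : Place K, ∃ a : ℂ, y ∈ U0 K → y.val (uu K - algebraMap ℂ K a) < 1 := by
    intro y
    by_cases h : y ∈ U0 K
    · obtain ⟨a, ha⟩ := y.exists_res h
      exact ⟨a, fun _ => ha⟩
    · exact ⟨0, fun h' => absurd h' h⟩
  choose a ha using h1
  have h2 : ∀ y, RatFunc.X - algebraMap ℂ (RatFunc ℂ) (a y) ∈ A0 := fun y =>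
    sub_mem ⟨Polynomial.X, RatFunc.algebraMap_X⟩ (A0.algebraMap_mem _)
  refine ⟨∏ y ∈ hT.toFinset, (RatFunc.X - algebraMap ℂ (RatFunc ℂ) (a y)) ^ M,
    prod_mem fun y _ => pow_mem (h2 y) M,
    Finset.prod_ne_zero_iff.2 fun y _ => pow_ne_zero _ (transc_sub_ne RatFunc.transcendental_X _),
    fun y hy hy0 => ?_⟩
  rw [map_prod]
  refine (Good.val_prod_le _ _ y (fun b _ => A0_mem (pow_mem (h2 b) M) hy0)
    (hT.mem_toFinset.2 hy)).trans ?_
  rw [map_pow, map_sub, ← IsScalarTower.algebraMap_apply]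
  exact Good.val_pow_le (ha y hy0) M

lemma val_uu_zpow_le {y : Place K} (hy : y ∈ Ui K) (M : ℕ) :
    y.val (uu K ^ (-(M : ℤ))) ≤ exp (-(M : ℤ)) := by
  rw [zpow_neg, zpow_natCast, ← inv_pow]
  refine Good.val_pow_le ?_ M
  rw [map_inv₀]
  exact inv_lt_one_of_one_lt₀ (not_le.1 fun h => hy (y.mem_iff.2 h))

lemma uu_zpow_mem {y : Place K} (hy : y ∈ Ui K) {m : ℤ} (hm : m ≤ 0) : uu K ^ m ∈ y.O := by
  obtain ⟨M, rfl⟩ := Int.exists_eq_neg_ofNat hm
  exact y.mem_iff.2 ((val_uu_zpow_le hy M).trans (by rw [← exp_zero, exp_le_exp]; omega))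

omit [IsScalarTower ℂ (RatFunc ℂ) K] [FiniteDimensional (RatFunc ℂ) K] in
lemma tw_U0 {x : Place K} (hx : x ∈ U0 K) (n : ℤ) : tw x n = 1 := if_pos hx

omit [IsScalarTower ℂ (RatFunc ℂ) K] [FiniteDimensional (RatFunc ℂ) K] in
lemma tw_Ui {x : Place K} (hx : x ∈ Ui K) (n : ℤ) : tw x n = uu K ^ (-n) := if_neg hx

omit [IsScalarTower ℂ (RatFunc ℂ) K] [FiniteDimensional (RatFunc ℂ) K] in
lemma U0_or_Ui (x : Place K) : x ∈ U0 K ∨ x ∈ Ui K := em _

omit [FiniteDimensional (RatFunc ℂ) K] in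
lemma tw_ne_zero (x : Place K) (n : ℤ) : tw x n ≠ 0 := by
  rcases U0_or_Ui x with h | h
  · simp [tw_U0 h]
  · rw [tw_Ui h]; exact zpow_ne_zero _ uu_ne_zero

omit [IsScalarTower ℂ (RatFunc ℂ) K] [FiniteDimensional (RatFunc ℂ) K] in
@[simp] lemma tw_zero (x : Place K) : tw x 0 = 1 := by simp [tw]

lemma mem_sec {L : Lat K N} {n : ℤ} {w : Fin N → K} :
    w ∈ sec L n ↔ ∀ x, tw x n • w ∈ L.S x := by
  refine ⟨fun hw => ?_, fun hw => Submodule.subset_span fun x => L.mem_st.2 (hw x)⟩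
  induction hw using Submodule.span_induction with
  | mem w hw => exact fun x => L.mem_st.1 (hw x)
  | zero => simp
  | add a b _ _ ha hb => exact fun x => by rw [smul_add]; exact add_mem (ha x) (hb x)
  | smul c a _ ha =>
    intro x
    rw [smul_comm, ← algebraMap_smul K]
    exact Lat.smul_mem (x.const c) (ha x)

lemma mem_sec' {L : Lat K N} {n : ℤ} {w : Fin N → K} :
    w ∈ sec L n ↔ w ∈ L.Γ (U0 K) ∧ uu K ^ (-n) • w ∈ L.Γ (Ui K) := by
  rw [mem_sec]
  refine ⟨fun h => ⟨fun x hx => ?_, fun x hx => ?_⟩, fun h x => ?_⟩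
  · simpa [tw_U0 hx] using h x
  · simpa only [tw_Ui hx] using h x
  · rcases U0_or_Ui x with hx | hx
    · simpa [tw_U0 hx] using h.1 x hx
    · simpa only [tw_Ui hx] using h.2 x hx

lemma sec_mono {L L' : Lat K N} (h : L ≤ L') (n : ℤ) : sec L n ≤ sec L' n :=
  fun _ hw => mem_sec.2 fun x => h x (mem_sec.1 hw x)

lemma sec_le_gen {L : Lat K N} {n : ℤ} {w : Fin N → K} (hw : w ∈ sec L n) : w ∈ L.gen := by
  obtain ⟨x⟩ : Nonempty (Place K) := inferInstance
  exact (L.gen.smul_mem_iff (tw_ne_zero x n)).1 (Lat.mem_gen (mem_sec.1 hw x))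

lemma span_single_top (K : Type) [Field K] (N : ℕ) :
    Submodule.span K (range fun i : Fin N => (Pi.single i 1 : Fin N → K)) = ⊤ := by
  rw [← (Pi.basisFun K (Fin N)).span_eq]
  congr 2
  funext i
  simp

lemma fg_aux (R : Type) [CommRing R] [IsDedekindDomain R] [Algebra R (RatFunc ℂ)]
    [IsFractionRing R (RatFunc ℂ)] [Algebra R K] [IsScalarTower R (RatFunc ℂ) K]
    {U : Set (Place K)} (hU : Good U) (hc : ∀ c : ℂ, ∃ r : R, algebraMap R K r = algebraMap ℂ K c)
    (h : ∀ x : Place K, (∀ r : R, algebraMap R K r ∈ x.O) → x ∈ U) (L : Lat K N)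
    (G : Submodule R (Fin N → K)) (hG : ∀ w ∈ G, w ∈ L.Γ U) : G.FG := by
  classical
  obtain ⟨Λ, hΛ, hB⟩ := exists_gens_general (K := K) R (RatFunc ℂ)
  obtain ⟨T, M, hT, hb⟩ := Lat.exists_bound (L := L)
    (L' := Lat.free fun i : Fin N => (Pi.single i 1 : Fin N → K))
    (by rw [Lat.free_gen, span_single_top]; exact le_top)
  obtain ⟨r, hr, hr0, hs⟩ := hU.exists_small hT M
  obtain ⟨m, v, hv⟩ := Submodule.fg_iff_exists_fin_generating_family.1 hΛ
  refine (Submodule.fg_span (finite_range fun p : Fin N × Fin m =>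
    (r⁻¹ * v p.2) • (Pi.single p.1 1 : Fin N → K))).of_le fun w hw => ?_
  have h1 : ∀ i, r * w i ∈ Λ := by
    intro i
    refine hB _ fun O hO hR => ?_
    let x : Place K := ⟨O, hO, fun c => by obtain ⟨r, hr⟩ := hc c; exact hr ▸ hR r⟩
    have hx : x ∈ U := h x hR
    have h2 := hb x r w (hG w hw x hx) (x.mem_iff.1 (hr x hx)) fun hxT => hs x hxT hx
    rw [Lat.free_S, mem_span_O] at h2
    obtain ⟨c, hc, e⟩ := h2
    have h3 := congrFun e i
    simp only [Pi.smul_apply, smul_eq_mul, Finset.sum_apply, Pi.single_apply, mul_ite, mul_one,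
      mul_zero, Finset.sum_ite_eq, Finset.mem_univ, if_true] at h3
    rw [h3]; exact hc i
  rw [pi_eq_sum_univ' w]
  refine sum_mem fun i _ => ?_
  obtain ⟨c, hc⟩ := (Submodule.mem_span_range_iff_exists_fun R).1 (hv ▸ h1 i)
  have h2 : w i = ∑ j, algebraMap R K (c j) * (r⁻¹ * v j) := by
    simp only [mul_left_comm _ r⁻¹, ← Algebra.smul_def, ← Finset.mul_sum, hc]
    rw [inv_mul_cancel_left₀ hr0]
  rw [h2, Finset.sum_smul]
  refine sum_mem fun j _ => ?_
  rw [mul_smul, algebraMap_smul]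
  refine Submodule.smul_mem _ _ ?_
  apply Submodule.subset_span
  exact ⟨(i, j), rfl⟩

/-- Splitting data for the direct image of a lattice on the projective line. -/
structure IsBG (L : Lat K N) {m : ℕ} (e : Fin m → Fin N → K) (a : Fin m → ℤ) : Prop where
  li : LinearIndependent (RatFunc ℂ) e
  span : ∀ w, w ∈ L.gen ↔ ∃ f : Fin m → RatFunc ℂ, ∑ i, f i • e i = w
  fin : ∀ f : Fin m → RatFunc ℂ, ∑ i, f i • e i ∈ L.Γ (U0 K) ↔ ∀ i, f i ∈ A0
  inf : ∀ f : Fin m → RatFunc ℂ, ∑ i, f i • e i ∈ L.Γ (Ui K) ↔ ∀ i, vI (f i) ≤ exp (a i)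

lemma exists_isBG (L : Lat K N) : ∃ (m : ℕ) (e : Fin m → Fin N → K) (a : Fin m → ℤ),
    IsBG L e a := by
  let G₀ : Submodule A0 (Fin N → K) :=
    { carrier := L.Γ (U0 K)
      add_mem' := fun ha hb => add_mem ha hb
      zero_mem' := zero_mem _
      smul_mem' := fun c w hw x hx => by
        have := Lat.smul_mem (A0_mem c.2 hx) (hw x hx)
        rw [algebraMap_smul] at this
        exact this }
  let G₁ : Submodule Ri (Fin N → K) :=
    { carrier := L.Γ (Ui K)
      add_mem' := fun ha hb => add_mem ha hb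
      zero_mem' := zero_mem _
      smul_mem' := fun c w hw x hx => by
        have := Lat.smul_mem (Ri_mem c.2 hx) (hw x hx)
        rw [algebraMap_smul] at this
        exact this }
  have h₀ : G₀.FG := fg_aux A0 good_U0 (fun c => ⟨algebraMap ℂ A0 c,
      (IsScalarTower.algebraMap_apply ℂ (RatFunc ℂ) K c).symm⟩)
    (fun x hx => hx ⟨RatFunc.X, Polynomial.X, RatFunc.algebraMap_X⟩) L G₀ fun _ h => h
  have h₁ : G₁.FG := fg_aux Ri good_Ui (fun c => ⟨⟨algebraMap ℂ _ c, vI_C_le c⟩,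
      (IsScalarTower.algebraMap_apply ℂ (RatFunc ℂ) K c).symm⟩)
    (fun x hx => x.not_mem_of_inv_sub_mem uu_transc fun a => by
      have h1 : (RatFunc.X - algebraMap ℂ (RatFunc ℂ) a)⁻¹ ∈ Ri := by
        have h2 : vI (algebraMap ℂ (RatFunc ℂ) a) < vI RatFunc.X :=
          (vI_C_le a).trans_lt (by rw [vI_X, ← exp_zero, exp_lt_exp]; omega)
        rw [mem_Ri, map_inv₀, vI.map_sub_eq_of_lt_left h2, vI_X, ← exp_neg, ← exp_zero,
          exp_le_exp]
        omega
      have h3 : algebraMap (RatFunc ℂ) K (RatFunc.X - algebraMap ℂ (RatFunc ℂ) a)⁻¹ ∈ x.O :=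
        hx ⟨_, h1⟩
      rwa [map_inv₀, map_sub, ← IsScalarTower.algebraMap_apply] at h3) L G₁ fun _ h => h
  have key : ∀ (U : Set (Place K)), U.Nonempty → (∀ T : Set (Place K), T.Finite → ∀ M : ℕ,
      ∃ r : RatFunc ℂ, r ≠ 0 ∧ ∀ y ∈ U, y.val (algebraMap (RatFunc ℂ) K r) ≤ 1 ∧
        (y ∈ T → y.val (algebraMap (RatFunc ℂ) K r) ≤ exp (-(M : ℤ)))) →
      Submodule.span (RatFunc ℂ) (L.Γ U : Set (Fin N → K)) = L.gen.restrictScalars _ := by
    rintro U ⟨x, hx⟩ h
    refine le_antisymm (Submodule.span_le.2 fun w hw => Lat.mem_gen (hw x hx)) fun w hw => ?_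
    obtain ⟨T, M, hT, hb⟩ := Lat.exists_bound_vec hw
    obtain ⟨r, hr, hs⟩ := h T hT M
    refine (Submodule.smul_mem_iff _ hr).1 (Submodule.subset_span fun y hy => ?_)
    rw [← algebraMap_smul K]
    exact hb y _ (hs y hy).1 (hs y hy).2
  have k₀ := key (U0 K) good_U0.ne fun T hT M => by
    obtain ⟨r, h1, h2, h3⟩ := small0 hT M
    exact ⟨r, h2, fun y hy => ⟨y.mem_iff.1 (A0_mem h1 hy), fun hyT => h3 y hyT hy⟩⟩
  have k₁ := key (Ui K) good_Ui.ne fun T hT M => by
    refine ⟨RatFunc.X ^ (-(M : ℤ)), zpow_ne_zero _ RatFunc.X_ne_zero, fun y hy => ?_⟩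
    rw [map_zpow₀]
    exact ⟨y.mem_iff.1 (uu_zpow_mem hy (by omega)), fun _ => val_uu_zpow_le hy M⟩
  obtain ⟨m, e, a, h1, h2, h3, h4⟩ := bg G₀ G₁ h₀ h₁ (k₀.trans k₁.symm)
  refine ⟨m, e, a, h1, fun w => ?_, h3, h4⟩
  rw [← Submodule.mem_span_range_iff_exists_fun, h2]
  exact (SetLike.ext_iff.1 k₀ w).symm

variable (K) in
/-- Degree of the map to the projective line. -/
def dlt : ℕ := finrank (RatFunc ℂ) K

lemma dlt_pos : 0 < dlt K := finrank_pos

/-- Rank of a lattice. -/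
def rk (L : Lat K N) : ℕ := finrank K L.gen

namespace IsBG
variable {L : Lat K N} {m : ℕ} {e : Fin m → Fin N → K} {a : Fin m → ℤ} (h : IsBG L e a)
include h

lemma card : m = dlt K * rk L := by
  have h1 : Submodule.span (RatFunc ℂ) (range e) = L.gen.restrictScalars _ := by
    ext w
    rw [Submodule.mem_span_range_iff_exists_fun, Submodule.restrictScalars_mem, h.span]
  have h2 := finrank_span_eq_card h.li
  rw [h1, Fintype.card_fin] at h2
  rw [← h2, dlt, rk, finrank_mul_finrank]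
  rfl

lemma mem_sec_iff (f : Fin m → RatFunc ℂ) (n : ℤ) :
    ∑ i, f i • e i ∈ sec L n ↔ ∀ i, f i ∈ Pk (a i + n) := by
  have h1 : uu K ^ (-n) • ∑ i, f i • e i = ∑ i, (RatFunc.X ^ (-n) * f i) • e i := by
    rw [Finset.smul_sum]
    refine Finset.sum_congr rfl fun i _ => ?_
    rw [mul_smul, uu, ← map_zpow₀, algebraMap_smul]
  rw [mem_sec', h1, h.fin, h.inf, ← forall_and]
  refine forall_congr' fun i => and_congr_right fun _ => ?_
  rw [map_mul, vI_zpow, exp_neg, inv_mul_le_iff₀ exp_pos, ← exp_add, add_comm]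

/-- Parametrisation of the space of sections. -/
def secMap (n : ℤ) : ((i : Fin m) → Pk (a i + n)) →ₗ[ℂ] sec L n where
  toFun := fun f => ⟨∑ i, (f i : RatFunc ℂ) • e i, (h.mem_sec_iff _ n).2 fun i => (f i).2⟩
  map_add' := fun f g => Subtype.ext (by simp [add_smul, Finset.sum_add_distrib])
  map_smul' := fun c f => Subtype.ext (by simp [Finset.smul_sum])

/-- Coordinates on the space of sections. -/
def secEquiv (n : ℤ) : ((i : Fin m) → Pk (a i + n)) ≃ₗ[ℂ] sec L n :=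
  LinearEquiv.ofBijective (h.secMap n)
    ⟨fun f g hfg => funext fun i => Subtype.ext
      (Fintype.linearIndependent_iffₛ.1 h.li _ _ (congrArg Subtype.val hfg) i), by
      rintro ⟨w, hw⟩
      obtain ⟨f, rfl⟩ := (h.span w).1 (sec_le_gen hw)
      exact ⟨fun i => ⟨f i, (h.mem_sec_iff f n).1 hw i⟩, rfl⟩⟩

lemma hdim_eq (n : ℤ) : hdim L n = ∑ i, ((a i + n + 1).toNat : ℤ) := by
  rw [hdim, ← (h.secEquiv n).finrank_eq, finrank_pi_fintype]
  simp [finrank_Pk]

lemma hdim_of_le {n : ℤ} (hn : ∀ i, 0 ≤ a i + n + 1) :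
    hdim L n = ∑ i, (a i + 1) + n * dlt K * rk L := by
  rw [h.hdim_eq, Finset.sum_congr rfl fun i _ => Int.toNat_of_nonneg (hn i)]
  simp only [add_right_comm _ n, Finset.sum_add_distrib (g := fun _ => n), Finset.sum_const,
    Finset.card_univ, Fintype.card_fin, nsmul_eq_mul]
  rw [mul_assoc, ← Nat.cast_mul, ← h.card, mul_comm]

omit h in
lemma eventually_le (a : Fin m → ℤ) : ∀ᶠ n : ℤ in atTop, ∀ i, 0 ≤ a i + n :=
  eventually_all.2 fun i => (eventually_ge_atTop (-a i)).mono fun n hn => by omega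

lemma single_mem_gen (i : Fin m) (f : RatFunc ℂ) :
    ∑ j, (Pi.single i f : Fin m → RatFunc ℂ) j • e j = f • e i := by
  classical
  simp [Pi.single_apply]

/-- Vanishing of the first cohomology. -/
lemma exists_decomp {n : ℤ} (hn : ∀ i, 0 ≤ a i + n + 1) {w : Fin N → K} (hw : w ∈ L.gen) :
    ∃ α ∈ L.Γ (U0 K), uu K ^ (-n) • (w - α) ∈ L.Γ (Ui K) := by
  obtain ⟨f, rfl⟩ := (h.span w).1 hw
  choose p hp hp' using fun i => exists_poly_approx (f i)
  refine ⟨∑ i, p i • e i, (h.fin p).2 hp, ?_⟩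
  have h1 : uu K ^ (-n) • (∑ i, f i • e i - ∑ i, p i • e i) =
      ∑ i, (RatFunc.X ^ (-n) * (f i - p i)) • e i := by
    rw [← Finset.sum_sub_distrib, Finset.smul_sum]
    refine Finset.sum_congr rfl fun i _ => ?_
    rw [mul_smul, uu, ← map_zpow₀, algebraMap_smul, sub_smul]
  rw [h1, h.inf]
  intro i
  rw [map_mul, vI_zpow]
  refine (mul_le_mul_right (lt_one_iff_le_exp.1 (hp' i)) _).trans ?_
  rw [← exp_add, exp_le_exp]
  have := hn i
  omega

/-- Global generation. -/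
lemma S_eq_span {n : ℤ} (hn : ∀ i, 0 ≤ a i + n) (x : Place K) :
    L.S x = Submodule.span x.O ((tw x n • ·) '' (sec L n : Set (Fin N → K))) := by
  classical
  refine le_antisymm ?_ (Submodule.span_le.2 ?_)
  · rcases U0_or_Ui x with hx | hx
    · rw [← L.span_Γ good_U0 hx]
      refine Submodule.span_le.2 fun w hw => ?_
      obtain ⟨f, rfl⟩ := (h.span w).1 (Lat.mem_gen (hw x hx))
      refine sum_mem fun i _ => ?_
      rw [← algebraMap_smul K]
      refine Submodule.smul_mem _ (⟨_, A0_mem ((h.fin f).1 hw i) hx⟩ : x.O)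
        (Submodule.subset_span ⟨e i, ?_, by simp [tw_U0 hx]⟩)
      have := (h.mem_sec_iff (Pi.single i 1) n).2 fun j => by
        by_cases hj : j = i
        · subst hj
          rw [Pi.single_eq_same]
          exact ⟨one_mem _, by rw [map_one, ← exp_zero, exp_le_exp]; exact hn j⟩
        · rw [Pi.single_eq_of_ne hj]; exact zero_mem _
      rwa [h.single_mem_gen, one_smul] at this
    · rw [← L.span_Γ good_Ui hx]
      refine Submodule.span_le.2 fun w hw => ?_
      obtain ⟨f, rfl⟩ := (h.span w).1 (Lat.mem_gen (hw x hx))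
      refine sum_mem fun i _ => ?_
      have h1 : vI (f i * RatFunc.X ^ (-a i)) ≤ 1 := by
        rw [map_mul, vI_zpow]
        refine (mul_le_mul_left ((h.inf f).1 hw i) _).trans ?_
        rw [← exp_add]; simp
      have h2 : f i • e i = algebraMap (RatFunc ℂ) K (f i * RatFunc.X ^ (-a i)) •
          tw x n • (RatFunc.X ^ (a i + n) : RatFunc ℂ) • e i := by
        rw [tw_Ui hx, uu, ← map_zpow₀, algebraMap_smul, algebraMap_smul, smul_smul, smul_smul,
          mul_assoc, mul_assoc, ← zpow_add₀ RatFunc.X_ne_zero, ← zpow_add₀ RatFunc.X_ne_zero]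
        simp
      rw [h2]
      refine Submodule.smul_mem _ (⟨_, Ri_mem h1 hx⟩ : x.O)
        (Submodule.subset_span ⟨_, ?_, rfl⟩)
      have := (h.mem_sec_iff (Pi.single i (RatFunc.X ^ (a i + n))) n).2 fun j => by
        by_cases hj : j = i
        · subst hj
          rw [Pi.single_eq_same]
          refine ⟨?_, (vI_zpow _).le⟩
          obtain ⟨k, hk⟩ := Int.eq_ofNat_of_zero_le (hn j)
          rw [hk, zpow_natCast]
          exact pow_mem (show RatFunc.X ∈ A0 from ⟨Polynomial.X, RatFunc.algebraMap_X⟩) _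
        · rw [Pi.single_eq_of_ne hj]; exact zero_mem _
      rwa [h.single_mem_gen] at this
  · rintro _ ⟨w, hw, rfl⟩
    exact mem_sec.1 hw x

end IsBG

instance (L : Lat K N) (n : ℤ) : Module.Finite ℂ (sec L n) := by
  obtain ⟨m, e, a, h⟩ := exists_isBG L
  exact Module.Finite.equiv (h.secEquiv n)

end Pool.Agent.Lib.MP_cc3443_ag
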