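import Pool.Agent.Lib.MP_cc3443_ag.Coded

open MvPolynomial Set

noncomputable section

namespace Pool.Agent.Lib.MP_cc3443_ag

open Coded

lemma exists_poly_linear {ι : Type} [Finite ι] (φ : (ι → ℂ) →ₗ[ℂ] ℂ) :
    ∃ p : MvPolynomial ι ℂ, ∀ c, eval c p = φ c := by
  classical
  have := Fintype.ofFinite ι
  refine ⟨∑ i, X i * C (φ (Pi.single i 1)), fun c => ?_⟩
  conv_rhs => rw [pi_eq_sum_univ' c]
  simp [map_sum, Pi.single_apply]

lemma isCons_submodule {ι : Type} [Finite ι] (S : Submodule ℂ (ι → ℂ)) :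
    IsCons (S : Set (ι → ℂ)) := by
  let b := Module.finBasis ℂ ((ι → ℂ) ⧸ S)
  choose p hp using fun k => exists_poly_linear ((b.coord k).comp S.mkQ)
  refine (IsCons.iInter fun k => IsCons.zero (p k)).congr fun c => ?_
  simp only [Set.mem_iInter, Set.mem_ofPred_eq, hp, SetLike.mem_coe]
  rw [← Submodule.Quotient.mk_eq_zero, ← b.forall_coord_eq_zero_iff]
  rfl

/-- Complex vector spaces whose parameter spaces are exhausting finite-dimensional spaces. -/
class LinCoded (W : Type) [AddCommGroup W] [Module ℂ W] [Coded W] : Prop where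
  dom_univ : ∀ i : I W, dom i = Set.univ
  lin : ∀ i : I W, ∃ L : (ι i → ℂ) →ₗ[ℂ] W, ∀ c, dec i c = L c
  big : ∀ s : Set W, s.Finite → ∃ j : I W, ∀ w ∈ s, ∃ c, dec j c = w

instance : LinCoded ℂ where
  dom_univ := fun _ => rfl
  lin := fun _ => ⟨LinearMap.proj (), fun _ => rfl⟩
  big := fun _ _ => ⟨(), fun w _ => ⟨fun _ => w, rfl⟩⟩

section
variable {W W' : Type} [AddCommGroup W] [Module ℂ W] [Coded W] [LinCoded W]
  [AddCommGroup W'] [Module ℂ W'] [Coded W'] [LinCoded W']

instance : LinCoded (W × W') where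
  dom_univ := fun i => by
    ext c
    change (c ∘ Sum.inl ∈ dom i.1 ∧ c ∘ Sum.inr ∈ dom i.2) ↔ _
    simp [LinCoded.dom_univ]
  lin := fun i => by
    obtain ⟨L, hL⟩ := LinCoded.lin i.1
    obtain ⟨L', hL'⟩ := LinCoded.lin i.2
    refine ⟨(L.comp (LinearMap.funLeft ℂ ℂ Sum.inl)).prod (L'.comp (LinearMap.funLeft ℂ ℂ Sum.inr)),
      fun c => Prod.ext (hL _) (hL' _)⟩
  big := fun s hs => by
    obtain ⟨j, hj⟩ := LinCoded.big _ (hs.image Prod.fst)
    obtain ⟨j', hj'⟩ := LinCoded.big _ (hs.image Prod.snd)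
    refine ⟨(j, j'), fun w hw => ?_⟩
    obtain ⟨c, hc⟩ := hj _ ⟨w, hw, rfl⟩
    obtain ⟨c', hc'⟩ := hj' _ ⟨w, hw, rfl⟩
    exact ⟨Sum.elim c c', Prod.ext hc hc'⟩

instance (τ : Type) [Finite τ] : LinCoded (τ → W) where
  dom_univ := fun i => by
    ext c
    change (∀ t, (fun k => c ⟨t, k⟩) ∈ dom (i t)) ↔ _
    simp [LinCoded.dom_univ]
  lin := fun i => by
    choose L hL using fun t => LinCoded.lin (i t)
    refine ⟨LinearMap.pi fun t => (L t).comp (LinearMap.funLeft ℂ ℂ fun k => ⟨t, k⟩),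
      fun c => _root_.funext fun t => hL t _⟩
  big := fun s hs => by
    choose j hj using fun t => LinCoded.big _ (hs.image fun w => w t)
    refine ⟨j, fun w hw => ?_⟩
    choose c hc using fun t => hj t _ ⟨w, hw, rfl⟩
    exact ⟨fun s => c s.1 s.2, _root_.funext hc⟩

lemma PMap.of_polyval {Y : Type} [Coded Y] {f : Y → W}
    (h : ∀ i : I Y, ∃ (α : Type) (_ : Fintype α) (q : α → MvPolynomial (ι i) ℂ) (w : α → W),
      ∀ c ∈ dom i, f (dec i c) = ∑ a, MvPolynomial.eval c (q a) • w a) : PMap f := by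
  intro i
  obtain ⟨α, _, q, w, h⟩ := h i
  obtain ⟨j, hj⟩ := LinCoded.big _ (Set.finite_range w)
  choose d hd using fun a => hj _ ⟨a, rfl⟩
  obtain ⟨L, hL⟩ := LinCoded.lin j
  refine ⟨j, fun k => ∑ a, q a * C (d a k), fun c hc => ⟨by simp [LinCoded.dom_univ], ?_⟩⟩
  have : polyMap (fun k => ∑ a, q a * C (d a k)) c = ∑ a, MvPolynomial.eval c (q a) • d a := by
    ext k; simp [polyMap, Finset.sum_apply]
  rw [this, h c hc, hL, map_sum]
  refine Finset.sum_congr rfl fun a _ => ?_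
  rw [map_smul, ← hL, hd]

lemma PMap.bilin {W'' : Type} [AddCommGroup W''] [Module ℂ W''] [Coded W''] [LinCoded W'']
    (B : W →ₗ[ℂ] W' →ₗ[ℂ] W'') : PMap fun p : W × W' => B p.1 p.2 := by
  classical
  refine PMap.of_polyval fun i => ?_
  obtain ⟨L, hL⟩ := LinCoded.lin i.1
  obtain ⟨L', hL'⟩ := LinCoded.lin i.2
  have := Fintype.ofFinite (ι i.1)
  have := Fintype.ofFinite (ι i.2)
  refine ⟨ι i.1 × ι i.2, inferInstance, fun a => X (Sum.inl a.1) * X (Sum.inr a.2),
    fun a => B (L (Pi.single a.1 1)) (L' (Pi.single a.2 1)), fun c _ => ?_⟩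
  change B (dec i.1 (c ∘ Sum.inl)) (dec i.2 (c ∘ Sum.inr)) = _
  rw [hL, hL', pi_eq_sum_univ' (c ∘ Sum.inl), pi_eq_sum_univ' (c ∘ Sum.inr)]
  simp only [map_sum, map_smul, LinearMap.sum_apply, LinearMap.smul_apply, Fintype.sum_prod_type,
    Finset.smul_sum, smul_smul, Function.comp_apply, map_mul, eval_X]
  rw [Finset.sum_comm]
  refine Finset.sum_congr rfl fun a _ => Finset.sum_congr rfl fun b _ => ?_
  rw [mul_comm]

lemma PMap.lin (φ : W →ₗ[ℂ] W') : PMap fun w => φ w := by
  have h := PMap.bilin ((LinearMap.lsmul ℂ W').compl₂ φ)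
  simpa using h.comp (f := fun w : W => ((1 : ℂ), w)) (by fun_prop)

omit [Coded W'] [LinCoded W'] in
lemma Del.lin_eq_zero (φ : W →ₗ[ℂ] W') : Del fun w => φ w = 0 := by
  refine Del.of_isCons fun i => ?_
  obtain ⟨L, hL⟩ := LinCoded.lin i
  refine (isCons_submodule (LinearMap.ker (φ.comp L))).congr fun c => ?_
  simp [LinCoded.dom_univ, hL]

lemma Del.mem_submodule' (S : Submodule ℂ W) : Del fun w => w ∈ S :=
  (Del.lin_eq_zero S.mkQ).congr fun w => by simp

end

/-- Addition is definable. -/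
class DAdd (W : Type) [Add W] [Coded W] : Prop where
  add : DMap fun p : W × W => p.1 + p.2

/-- Multiplication is definable. -/
class DMul (W : Type) [Mul W] [Coded W] : Prop where
  mul : DMap fun p : W × W => p.1 * p.2

/-- Scalar multiplication is definable. -/
class DSMul (M W : Type) [SMul M W] [Coded M] [Coded W] : Prop where
  smul : DMap fun p : M × W => p.1 • p.2

/-- Negation is definable. -/
class DNeg (W : Type) [Neg W] [Coded W] : Prop where
  neg : DMap fun p : W => -p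

/-- Equality is constructible. -/
class DEq (W : Type) [Coded W] : Prop where
  eq : Del fun p : W × W => p.1 = p.2

section
variable {X W M : Type} [Coded X] [Coded W] [Coded M]

@[fun_prop] lemma DMap.add [Add W] [DAdd W] {f g : X → W} (hf : DMap f) (hg : DMap g) :
    DMap fun x => f x + g x := DAdd.add.comp (hf.prodMk hg)

@[fun_prop] lemma DMap.mul [Mul W] [DMul W] {f g : X → W} (hf : DMap f) (hg : DMap g) :
    DMap fun x => f x * g x := DMul.mul.comp (hf.prodMk hg)

@[fun_prop] lemma DMap.smul [SMul M W] [DSMul M W] {f : X → M} {g : X → W} (hf : DMap f)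
    (hg : DMap g) : DMap fun x => f x • g x := DSMul.smul.comp (hf.prodMk hg)

@[fun_prop] lemma DMap.neg [Neg W] [DNeg W] {f : X → W} (hf : DMap f) :
    DMap fun x => -f x := DNeg.neg.comp hf

@[fun_prop] lemma DMap.sub [AddGroup W] [DAdd W] [DNeg W] {f g : X → W} (hf : DMap f)
    (hg : DMap g) : DMap fun x => f x - g x := by
  simpa only [sub_eq_add_neg] using hf.add hg.neg

@[fun_prop] lemma DMap.sum [AddCommMonoid W] [DAdd W] {α : Type*} (s : Finset α)
    {f : α → X → W} (hf : ∀ a, DMap (f a)) : DMap fun x => ∑ a ∈ s, f a x := by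
  classical
  induction s using Finset.induction_on with
  | empty => simpa using DMap.const (0 : W)
  | insert a s ha ih =>
    simp only [Finset.sum_insert ha]
    exact (hf a).add ih

@[fun_prop] lemma DMap.pow [Monoid W] [DMul W] {f : X → W} (hf : DMap f) (n : ℕ) :
    DMap fun x => f x ^ n := by
  induction n with
  | zero => simpa using DMap.const (1 : W)
  | succ n ih => simpa only [pow_succ] using ih.mul hf

lemma Del.eq [DEq W] {f g : X → W} (hf : DMap f) (hg : DMap g) : Del fun x => f x = g x :=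
  DEq.eq.comp (hf.prodMk hg)

lemma Del.ne [DEq W] {f g : X → W} (hf : DMap f) (hg : DMap g) : Del fun x => f x ≠ g x :=
  (Del.eq hf hg).not

instance (τ : Type) [Finite τ] [Add W] [DAdd W] : DAdd (τ → W) :=
  ⟨DMap.pi fun t => by simp only [Pi.add_apply]; fun_prop⟩

instance (τ : Type) [Finite τ] [Neg W] [DNeg W] : DNeg (τ → W) :=
  ⟨DMap.pi fun t => by simp only [Pi.neg_apply]; fun_prop⟩

instance (τ : Type) [Finite τ] [SMul M W] [DSMul M W] : DSMul M (τ → W) :=
  ⟨DMap.pi fun t => by simp only [Pi.smul_apply]; fun_prop⟩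

instance (τ : Type) [Finite τ] [DEq W] : DEq (τ → W) :=
  ⟨(Del.forall_finite fun t => Del.eq (f := fun p : (τ → W) × (τ → W) => p.1 t)
    (g := fun p => p.2 t) (by fun_prop) (by fun_prop)).congr fun p => funext_iff.symm⟩

instance [DEq W] [DEq M] : DEq (W × M) :=
  ⟨((Del.eq (f := fun p : (W × M) × (W × M) => p.1.1) (g := fun p => p.2.1)
    (by fun_prop) (by fun_prop)).and (Del.eq (f := fun p : (W × M) × (W × M) => p.1.2)
    (g := fun p => p.2.2) (by fun_prop) (by fun_prop))).congr fun p => Prod.ext_iff.symm⟩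

instance [Mul W] [DMul W] : DSMul W W := ⟨DMul.mul⟩

end

section
variable {W : Type} [AddCommGroup W] [Module ℂ W] [Coded W] [LinCoded W]

lemma LinCoded.dAdd : DAdd W :=
  ⟨(PMap.lin (LinearMap.fst ℂ W W + LinearMap.snd ℂ W W)).dmap⟩

lemma LinCoded.dNeg : DNeg W := ⟨(PMap.lin (-LinearMap.id : W →ₗ[ℂ] W)).dmap⟩

lemma LinCoded.dSMul : DSMul ℂ W := ⟨(PMap.bilin (LinearMap.lsmul ℂ W)).dmap⟩

lemma LinCoded.dEq : DEq W :=
  ⟨(Del.lin_eq_zero (LinearMap.fst ℂ W W - LinearMap.snd ℂ W W)).congr fun p => by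
    simp [sub_eq_zero]⟩

end

instance : DAdd ℂ := LinCoded.dAdd
instance : DNeg ℂ := LinCoded.dNeg
instance : DEq ℂ := LinCoded.dEq
instance : DMul ℂ := ⟨(PMap.bilin (LinearMap.mul ℂ ℂ)).dmap⟩

/-- Coding of a vector space with a countable spanning family. -/
@[reducible] def Coded.ofSpan {W A : Type} [AddCommGroup W] [Module ℂ W] [Countable A] (w : A → W)
    (hw : Submodule.span ℂ (Set.range w) = ⊤) : Coded W where
  I := Finset A
  cI := inferInstance
  ι := fun s => s
  fι := inferInstance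
  dom := fun _ => Set.univ
  hdom := fun _ => IsCons.univ
  dec := fun s c => ∑ a : s, c a • w a
  surj := fun y => by
    have hy : y ∈ Submodule.span ℂ (Set.range w) := hw ▸ Submodule.mem_top
    obtain ⟨c, rfl⟩ := Finsupp.mem_span_range_iff_exists_finsupp.1 hy
    exact ⟨c.support, fun a => c a, trivial, by
      rw [Finsupp.sum, Finset.sum_coe_sort c.support fun a => c a • w a]⟩

lemma linCoded_ofSpan {W A : Type} [AddCommGroup W] [Module ℂ W] [Countable A] (w : A → W)
    (hw : Submodule.span ℂ (Set.range w) = ⊤) : @LinCoded W _ _ (Coded.ofSpan w hw) := by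
  classical
  letI := Coded.ofSpan w hw
  refine ⟨fun _ => rfl, fun s : Finset A =>
    ⟨(Fintype.linearCombination ℂ (fun a : s => w a) : (s → ℂ) →ₗ[ℂ] W), fun c => rfl⟩,
    fun s hs => ?_⟩
  choose c hc using fun y : W => Finsupp.mem_span_range_iff_exists_finsupp.1
    (show y ∈ Submodule.span ℂ (Set.range w) from hw ▸ Submodule.mem_top)
  refine ⟨hs.toFinset.biUnion fun y => (c y).support, fun y hy =>
    ⟨fun a : ↥(hs.toFinset.biUnion fun y => (c y).support) => c y a, ?_⟩⟩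
  change ∑ a : ↥(hs.toFinset.biUnion fun y => (c y).support), c y a • w a = y
  rw [Finset.sum_coe_sort _ fun a => c y a • w a]
  conv_rhs => rw [← hc y]
  rw [Finsupp.sum_of_support_subset _ (Finset.subset_biUnion_of_mem (fun y => (c y).support)
    (hs.mem_toFinset.2 hy))]
  simp

section family
variable {Z J : Type} [Countable J] (Y : J → Type) [∀ j, Coded (Y j)] (S : ∀ j, Y j → Prop)
  (π : ∀ j, Y j → Z)

/-- Coding through a countable family of parametrisations. -/
@[reducible] def Coded.ofFamily (hS : ∀ j, Del (S j)) (hs : ∀ z, ∃ j y, S j y ∧ π j y = z) :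
    Coded Z where
  I := Σ j, I (Y j)
  cI := inferInstance
  ι := fun i => ι i.2
  fι := inferInstance
  dom := fun i => {c | c ∈ dom i.2 ∧ S _ (dec i.2 c)}
  hdom := fun i => (hS i.1).isCons i.2
  dec := fun i c => π _ (dec i.2 c)
  surj := fun z => by
    obtain ⟨j, y, hy, rfl⟩ := hs z
    obtain ⟨i, c, hc, rfl⟩ := surj y
    exact ⟨⟨j, i⟩, c, ⟨hc, hy⟩, rfl⟩

/-- The coding of `Z` is generated by the family. -/
structure IsFamily [Coded Z] : Prop where
  sig : ∀ (W : Type) [Coded W] (P : W × Z → Prop),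
    (∀ j, Sig fun p : W × Y j => S j p.2 ∧ P (p.1, π j p.2)) → Sig P
  pmap : ∀ j, (∀ y, S j y) → PMap (π j)

lemma isFamily_ofFamily (hS : ∀ j, Del (S j)) (hs : ∀ z, ∃ j y, S j y ∧ π j y = z) :
    @IsFamily Z J Y _ S π (Coded.ofFamily Y S π hS hs) := by
  letI := Coded.ofFamily Y S π hS hs
  refine ⟨fun W _ P h i => ?_, fun j hj => ?_⟩
  · refine (h i.2.1 (i.1, i.2.2)).congr fun c => ?_
    exact ⟨fun h => ⟨⟨h.1.1, h.1.2, h.2.1⟩, h.2.2⟩, fun h => ⟨⟨h.1.1, h.1.2.1⟩, h.1.2.2, h.2⟩⟩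
  · exact PMap.of_reindex fun i => ⟨⟨j, i⟩, id, fun c hc => ⟨⟨hc, hj _⟩, rfl⟩⟩

variable {Y S π}

lemma IsFamily.del [Coded Z] (h : IsFamily Y S π) (hS : ∀ j, Del (S j)) {W : Type} [Coded W]
    {P : W × Z → Prop} (Q : ∀ j, W × Y j → Prop) (hQ : ∀ j, Del (Q j))
    (e : ∀ j w y, S j y → (P (w, π j y) ↔ Q j (w, y))) : Del P := by
  refine ⟨h.sig W _ fun j => ?_, h.sig W _ fun j => ?_⟩
  · exact (((hS j).comp (f := fun p : W × Y j => p.2) (by fun_prop)).and (hQ j)).1.congr fun p =>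
      and_congr_right fun hp => (e j _ _ hp).symm
  · exact (((hS j).comp (f := fun p : W × Y j => p.2) (by fun_prop)).and (hQ j).not).1.congr
      fun p => and_congr_right fun hp => (e j _ _ hp).symm.not

lemma IsFamily.dmap [Coded Z] (h : IsFamily Y S π) (hS : ∀ j y, S j y) {W T : Type} [Coded W]
    [Coded T] {f : W × Z → T} (hf : ∀ j, DMap fun p : W × Y j => f (p.1, π j p.2)) : DMap f := by
  intro U _ P hP
  have h1 : Sig fun q : (U × W) × Z => P (q.1.1, f (q.1.2, q.2)) := by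
    refine h.sig _ _ fun j => ?_
    refine ((hf j U P hP).pmap (f := fun q : (U × W) × Y j => (q.1.1, (q.1.2, q.2)))
      (by fun_prop)).congr fun q => by simp [hS]
  exact h1.pmap (f := fun p : U × W × Z => ((p.1, p.2.1), p.2.2)) (by fun_prop)

end family

end Pool.Agent.Lib.MP_cc3443_ag
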