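import Pool.Agent.Lib.MP_cc3443_ag.Main

open Filter Set WithZero Module Finsupp

noncomputable section

namespace Pool.Agent.Lib.MP_cc3443_ag

variable {K : Type} [Field K] [Algebra ℂ K] [Algebra (RatFunc ℂ) K]
  [IsScalarTower ℂ (RatFunc ℂ) K] [FiniteDimensional (RatFunc ℂ) K] {N N' : ℕ}

lemma sat_bot (V : Lat K N) : Sat V ⊥ := fun x w _ hw => by
  rw [Lat.bot_gen, Submodule.mem_bot] at hw
  rw [hw]; exact zero_mem _

lemma del_mapL (p : (Fin N → K) →ₗ[K] (Fin N' → K)) :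
    Del fun q : Lat K N × Lat K N' => q.1.mapL p = q.2 :=
  Del.eq (DMap.mapL (by fun_prop) ((dmap_linear _).comp (by fun_prop))) (by fun_prop)

lemma Flag.sph_eq {V : Lat K 2} {s y : Fin 2 → K} {D₁ D₂ : Place K →₀ ℤ}
    (h : Flag V s (fun _ => y) y D₁ D₂) {ν : ℕ × ℤ} {f : Fn K} (hf : Sph ν f) :
    f 2 V ⊥ = f 2 (split D₁ D₂) ⊥ := by
  have h0 : dt (![1, 0] : Fin 2 → K) ![0, 1] = 1 := by simp [dt_apply]
  have h1 : V.mapL (trF s y ![1, 0] ![0, 1] 1 1) = split D₁ D₂ := Lat.ext' fun x => by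
    ext w
    rw [Lat.mem_mapL, (flag_split D₁ D₂).mem]
    constructor
    · rintro ⟨v, hv, rfl⟩
      rw [dt_trF_snd h0, dt_fst_trF h0, one_mul, one_mul]
      exact (h.mem x v).1 hv
    · intro hw
      refine ⟨trF ![1, 0] ![0, 1] s y 1 1 w, (h.mem x _).2 ?_, ?_⟩
      · rwa [dt_trF_snd h.det₀, dt_fst_trF h.det₀, one_mul, one_mul]
      · simpa using trF_trF h0 h.det₀ one_ne_zero one_ne_zero w
  rw [← h1]
  refine hf.iso_eq (del_mapL _) (iso_mapL bot_le (sat_bot V) ?_)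
  rw [Lat.bot_gen, eq_bot_iff]
  rintro w ⟨-, hw⟩
  have h2 := trF_trF h.det₀ h0 one_ne_zero one_ne_zero w
  rw [show trF s y ![1, 0] ![0, 1] 1 1 w = 0 from hw, map_zero] at h2
  exact h2.symm

lemma exists_flag_of_sum {V V₁ V₂ : Lat K 2} (h1 : ∀ x, ∀ w ∈ V₁.S x, w ∈ V₂.S x → w = 0)
    (h2 : ∀ x, V₁.S x ⊔ V₂.S x = V.S x) (h3 : V₁ ≠ ⊥) (h4 : V₂ ≠ ⊥) :
    ∃ s y D₁ D₂, Flag V s (fun _ => y) y D₁ D₂ := by
  have h5 : ∀ w ∈ V₁.gen, w ∈ V₂.gen → w = 0 := fun w a b => by
    obtain ⟨x⟩ : Nonempty (Place K) := inferInstance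
    obtain ⟨M, hM⟩ := Lat.exists_pow_smul_mem x a
    obtain ⟨M', hM'⟩ := Lat.exists_pow_smul_mem x b
    have := h1 x (x.unif ^ (M + M' : ℤ) • w) (hM _ (by rw [x.val_unif_zpow, exp_le_exp]; omega))
      (hM' _ (by rw [x.val_unif_zpow, exp_le_exp]; omega))
    exact (smul_eq_zero.1 this).resolve_left (zpow_ne_zero _ x.unif_ne_zero)
  obtain ⟨s, hs, hs0⟩ := Submodule.exists_mem_ne_zero_of_ne_bot
    fun h => h3 (Lat.eq_bot_of_gen h)
  obtain ⟨t, ht, ht0⟩ := Submodule.exists_mem_ne_zero_of_ne_bot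
    fun h => h4 (Lat.eq_bot_of_gen h)
  have h6 : dt s t ≠ 0 := fun h => ht0 (h5 t
    ((Submodule.span_singleton_le_iff_mem _ _).2 hs ((mem_span_iff_dt hs0).2 h)) ht)
  obtain ⟨y, hy, hd⟩ : ∃ y ∈ V₂.gen, dt s y = 1 :=
    ⟨(dt s t)⁻¹ • t, V₂.gen.smul_mem _ ht, by simp [h6]⟩
  have hd' : dt y (-s) = 1 := by rw [map_neg, ← dt_swap, hd]
  have hy0 := ne_zero_of_dt hd'
  obtain ⟨D₁, rfl⟩ := exists_line (L := V₁) hs0 (le_antisymm (fun w hw => by
    have h7 : dt s w • y = w - dt w y • s := eq_sub_of_add_eq' (dt_decomp hd w).symm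
    have h8 := h5 _ (h7 ▸ sub_mem hw (V₁.gen.smul_mem _ hs)) (V₂.gen.smul_mem _ hy)
    exact (mem_span_iff_dt hs0).2 ((smul_eq_zero.1 h8).resolve_right hy0))
    ((Submodule.span_singleton_le_iff_mem _ _).2 hs))
  obtain ⟨D₂, rfl⟩ := exists_line (L := V₂) hy0 (le_antisymm (fun w hw => by
    have h7 : dt w y • s = w - dt s w • y := eq_sub_of_add_eq (dt_decomp hd w).symm
    have h8 := h5 _ (Submodule.smul_mem _ _ hs) (h7 ▸ sub_mem hw (V₂.gen.smul_mem _ hy))
    refine (mem_span_iff_dt hy0).2 ?_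
    rw [dt_swap, (smul_eq_zero.1 h8).resolve_right hs0, neg_zero])
    ((Submodule.span_singleton_le_iff_mem _ _).2 hy))
  refine ⟨s, y, D₁, D₂, fun _ => hd, Eventually.of_forall fun _ => rfl, fun x w => ?_⟩
  rw [← h2, Submodule.mem_sup]
  constructor
  · rintro ⟨a, ha, b, hb, rfl⟩
    obtain ⟨a', ha', rfl⟩ := mem_line.1 ha
    obtain ⟨b', hb', rfl⟩ := mem_line.1 hb
    simpa [hd] using And.intro ha' hb'
  · intro hw
    exact ⟨_, mem_line.2 ⟨_, hw.1, rfl⟩, _, mem_line.2 ⟨_, hw.2, rfl⟩, (dt_decomp hd w).symm⟩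

lemma exists_proj {E F : Lat K N} {d : ℤ} (h : HasClass E F (2, d)) (hs : Sat E F) :
    ∃ p : (Fin N → K) →ₗ[K] (Fin 2 → K), E.gen ⊓ LinearMap.ker p = F.gen := by
  have h0 := hasClass_iff.1 h
  obtain ⟨A, hA⟩ := exists_ker_eq F.gen
  have h1 : finrank K (E.gen.map (Matrix.toLin' A)) = 2 := by
    have := rk_exact E (Matrix.toLin' A)
    rw [hA, ← hs.eq_restrict h0.1, h0.2.1, add_right_inj] at this
    exact this.symm
  let e : E.gen.map (Matrix.toLin' A) ≃ₗ[K] (Fin 2 → K) := (finBasisOfFinrankEq K _ h1).equivFun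
  obtain ⟨q, hq⟩ := e.toLinearMap.exists_extend
  refine ⟨q ∘ₗ Matrix.toLin' A,
    le_antisymm (fun w hw => ?_) (le_inf (Lat.gen_mono h0.1) fun w hw => ?_)⟩
  · have h3 : e ⟨_, w, hw.1, rfl⟩ = 0 := (LinearMap.congr_fun hq ⟨_, w, hw.1, rfl⟩).symm.trans hw.2
    rw [e.map_eq_zero_iff] at h3
    rw [← hA]
    exact congrArg Subtype.val h3
  · rw [← hA] at hw
    rw [LinearMap.mem_ker, LinearMap.comp_apply, hw, map_zero]

lemma hall_line {V : Lat K 2} (hV : V.gen = ⊤) {a b : ℤ} (hd : chiL V = 2 * chiO K + (a + b)) :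
    hall (lineFn a) (lineFn b) 2 V ⊥ = nn V b := by
  rw [hall_eq (Sph.line a) (Sph.line b), nn]
  simp only [rk_bot, chiL_bot, zero_add, Nat.cast_one, one_mul, add_comm b]
  refine Chart.int_congr _ fun G hG => ?_
  rw [QC_R] at hG
  have h1 := hG.2.1
  have h2 := hG.2.2
  simp only [lineFn, sat_iff_st, hasClass_iff, hG.1, rk_eq_iff_gen.2 hV, h1, h2, hd, sat_bot,
    rk_bot, chiL_bot, bot_le, Nat.cast_one]
  rw [ind_true (P := (True ∧ _) ∧ True) ⟨⟨trivial, trivial, by ring⟩, trivial⟩, mul_one]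
  exact ind_congr ⟨fun h => h.2, fun h => ⟨⟨trivial, trivial, by ring⟩, h⟩⟩

lemma hall_line_not_sat {E F : Lat K N} (h : ¬ Sat E F) (a b : ℤ) :
    hall (lineFn a) (lineFn b) N E F = 0 := by
  rw [hall_eq (Sph.line a) (Sph.line b)]
  refine Chart.int_eq_zero _ fun G _ => by_contra fun h1 => h fun x w hw hw' => ?_
  have h2 := of_ind_ne_zero (left_ne_zero_of_mul h1)
  have h3 := of_ind_ne_zero (right_ne_zero_of_mul h1)
  exact sat_iff_st.1 h3.2 x w (sat_iff_st.1 h2.2 x w hw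
    (Lat.gen_mono (hasClass_iff.1 h3.1).1 hw')) hw'

variable (K) in
/-- Commutators of the rank one generators. -/
def CC (d m : ℤ) : Fn K := hall (lineFn (d - m)) (lineFn m) +
  (-1 : ℂ) • hall (lineFn m) (lineFn (d - m))

lemma sph_CC (d m : ℤ) : Sph (2, d) (CC K d m) := by
  have h1 := (Sph.line (K := K) (d - m)).mul (Sph.line m)
  have h2 := (Sph.line (K := K) m).mul (Sph.line (d - m))
  simp only [Prod.mk_add_mk, sub_add_cancel, add_sub_cancel] at h1 h2
  exact h1.add (h2.smul _)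

lemma CC_apply {V : Lat K 2} (hV : V.gen = ⊤) {d : ℤ} (hd : chiL V = 2 * chiO K + d) (m : ℤ) :
    CC K d m 2 V ⊥ = nn V m - nn V (d - m) := by
  simp only [CC, Pi.add_apply, Pi.smul_apply]
  rw [hall_line hV (by rw [hd]; ring), hall_line hV (by rw [hd]; ring)]
  simp [sub_eq_add_neg]

lemma prim_CC (hχ : chiO K ≤ 0) (d m : ℤ) : Prim (CC K d m) := by
  intro N E F G₁ G₂ h
  have h1 : ∀ x, G₁.S x ⊓ G₂.S x = F.S x := fun x => SetLike.coe_injective (by
    rw [Submodule.coe_inf, Lat.coe_S, Lat.coe_S, Lat.coe_S, (h x).1])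
  have h2 : ∀ x, G₁.S x ⊔ G₂.S x = E.S x := fun x => SetLike.coe_injective (by
    rw [Submodule.coe_sup, Lat.coe_S, Lat.coe_S, Lat.coe_S, (h x).2])
  have h3 : CC K d m N F F = 0 := by_contra fun h3 => by
    simpa using (hasClass_iff.1 ((sph_CC d m).supp h3)).2.1
  have h4 : torsFn 0 N F F = 1 := ind_true (hasClass_iff.2 (by simp))
  have h5 : F ≤ G₁ := fun x => (h1 x).ge.trans inf_le_left
  have h6 : F ≤ G₂ := fun x => (h1 x).ge.trans inf_le_right
  have h7 : G₁ ≤ E := fun x => le_sup_left.trans (h2 x).le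
  have h8 : G₂ ≤ E := fun x => le_sup_right.trans (h2 x).le
  by_cases e₁ : G₁ = F
  · subst e₁
    rw [show E = G₂ from Lat.ext' fun x => by rw [← h2, sup_eq_right.2 (h6 x)], h3, h4]
    simp
  by_cases e₂ : G₂ = F
  · subst e₂
    rw [show E = G₁ from Lat.ext' fun x => by rw [← h2, sup_eq_left.2 (h5 x)], h3, h4]
    simp
  rw [torsFn_zero e₁, torsFn_zero e₂, mul_zero, zero_mul, add_zero]
  by_contra h9
  have hc := (sph_CC d m).supp h9
  have hs : Sat E F := by_contra fun hs => h9 (by simp [CC, hall_line_not_sat hs])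
  obtain ⟨p, hp⟩ := exists_proj hc hs
  have hi := iso_mapL (h5.trans h7) hs hp
  have hk : ∀ G, F ≤ G → G ≤ E → G ≠ F → G.mapL p ≠ ⊥ := fun G a b c e =>
    c (le_antisymm ((hi.le_iff _ _ _ _ a b le_rfl hi.le e hi.bot).2 le_rfl) a)
  obtain ⟨s, y, D₁, D₂, hF⟩ := exists_flag_of_sum (V := E.mapL p) (V₁ := G₁.mapL p)
    (V₂ := G₂.mapL p) (fun x w a b => by
      obtain ⟨v, hv, rfl⟩ := Lat.mem_mapL.1 a
      obtain ⟨v', hv', e⟩ := Lat.mem_mapL.1 b
      have h10 := sub_mem (h7 x hv) (h8 x hv')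
      have h11 : v - v' ∈ F.S x := hs x _ h10 (by
        rw [← hp]; exact ⟨Lat.mem_gen h10, LinearMap.mem_ker.2 (by rw [map_sub, e, sub_self])⟩)
      have h12 : v ∈ F.S x := by
        rw [← h1]
        exact ⟨hv, by simpa using add_mem (h6 x h11) hv'⟩
      have h13 := Lat.mem_gen h12
      rw [← hp] at h13
      exact h13.2) (fun x => by
      ext w
      rw [Lat.mem_mapL, ← h2, Submodule.mem_sup]
      constructor
      · rintro ⟨a, ha, b, hb, rfl⟩
        obtain ⟨a', ha', rfl⟩ := Lat.mem_mapL.1 ha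
        obtain ⟨b', hb', rfl⟩ := Lat.mem_mapL.1 hb
        exact ⟨_, Submodule.add_mem_sup ha' hb', map_add _ _ _⟩
      · rintro ⟨v, hv, rfl⟩
        obtain ⟨a, ha, b, hb, rfl⟩ := Submodule.mem_sup.1 hv
        exact ⟨_, Lat.mem_mapL.2 ⟨a, ha, rfl⟩, _, Lat.mem_mapL.2 ⟨b, hb, rfl⟩, (map_add _ _ _).symm⟩)
    (hk _ h5 h7 e₁) (hk _ h6 h8 e₂)
  have h10 := (hasClass_iff.1 ((hi.hasClass_iff _).1 hc)).2.2
  rw [hF.chiL_eq, chiL_bot] at h10
  have h11 : d = degree D₁ + degree D₂ := by push_cast at h10; omega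
  apply h9
  rw [(sph_CC d m).iso_eq (del_mapL p) hi, hF.sph_eq (sph_CC d m),
    CC_apply (flag_split _ _).gen_eq (by rw [(flag_split _ _).chiL_eq, h11, add_assoc]),
    nn_split hχ, nn_split hχ, ind_congr (P := d - m = degree D₁) (Q := m = degree D₂) (by omega),
    ind_congr (P := d - m = degree D₂) (Q := m = degree D₁) (by omega)]
  ring

lemma exists_flag_of (α : Place K → K) (hα : ∀ᶠ x in cofinite, α x = 0) (D₁ D₂ : Place K →₀ ℤ) :
    ∃ V, Flag V ![1, 0] (fun x => ![α x, 1]) ![0, 1] D₁ D₂ := by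
  have h0 : ∀ a : K, dt (![1, 0] : Fin 2 → K) ![a, 1] = 1 := fun a => by simp [dt_apply]
  have h1 := fun x w => trF_trF (h0 (α x)) (h0 0) one_ne_zero one_ne_zero w
  simp only [inv_one] at h1
  have h2 : ∀ a : K, (split D₁ D₂).gen.map (trF ![1, 0] ![0, 1] ![1, 0] ![a, 1] 1 1) = ⊤ :=
    fun a => by
      rw [(flag_split _ _).gen_eq, eq_top_iff]
      exact fun w _ => ⟨_, trivial, by
        simpa using trF_trF (h0 a) (h0 0) one_ne_zero one_ne_zero w⟩
  refine ⟨(split D₁ D₂).mapF (fun x => trF ![1, 0] ![0, 1] ![1, 0] ![α x, 1] 1 1)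
    (trF ![1, 0] ![0, 1] ![1, 0] ![0, 1] 1 1) (hα.mono fun x hx => by rw [hx])
    fun x => (h2 _).trans (h2 _).symm, fun x => h0 _, hα.mono fun x hx => by rw [hx],
    fun x w => ?_⟩
  rw [Lat.mem_mapF]
  constructor
  · rintro ⟨v, hv, rfl⟩
    rw [dt_trF_snd (h0 _), dt_fst_trF (h0 _), one_mul, one_mul]
    exact ((flag_split D₁ D₂).mem x v).1 hv
  · intro hw
    refine ⟨_, ((flag_split D₁ D₂).mem x _).2 ?_, h1 x w⟩
    rwa [dt_trF_snd (h0 _), dt_fst_trF (h0 _), one_mul, one_mul]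

lemma mem_sec_line_one {D : Place K →₀ ℤ} {w : Fin 1 → K} :
    w ∈ sec (line 1 D) 0 ↔ ∀ x : Place K, x.val (w 0) ≤ exp (D x) := by
  simp only [mem_sec, tw_zero, one_smul, mem_line_one]

lemma exists_special {k : ℤ} (hk : k ≤ -2 * chiO K) : ∃ (A : Place K →₀ ℤ) (P : Place K),
    degree A = k ∧ ∀ f : K, (∀ x, x ≠ P → x.val f ≤ exp (A x)) → P.val f ≠ exp (A P + 1) := by
  classical
  obtain ⟨P, Q, hPQ⟩ := exists_pair_ne (Place K)
  let B : Place K →₀ ℤ := single Q (-2 * chiO K - k)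
  have hle : ∀ D : Place K →₀ ℤ, line (1 : Fin 1 → K) D ≤ line 1 (D + single P 1) := fun D =>
    (line_le_line one_ne_zero).2 (le_add_of_nonneg_right (single_nonneg.2 zero_le_one))
  refine ⟨canon K - B, P, by rw [map_sub, degree_canon, degree_single]; ring, fun f h1 h2 => ?_⟩
  have h3 : ell K (B - single P 1) < ell K B := by
    have h4 := sec_mono (hle (B - single P 1)) 0
    rw [sub_add_cancel] at h4
    refine Int.ofNat_lt.2 (Submodule.finrank_lt_finrank_of_lt (lt_of_le_of_ne h4 fun h5 => ?_))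
    have h6 : (1 : Fin 1 → K) ∈ sec (line 1 B) 0 := mem_sec_line_one.2 fun x => by
      rw [Pi.one_apply, map_one, ← exp_zero, exp_le_exp]
      exact (single_nonneg.2 (by omega) : 0 ≤ B) x
    have h7 := mem_sec_line_one.1 (h5 ▸ h6) P
    rw [Pi.one_apply, map_one, ← exp_zero, exp_le_exp] at h7
    simp [B, single_apply, hPQ.symm] at h7
  have h4 : ell K (canon K - B) < ell K (canon K - B + single P 1) := by
    refine Int.ofNat_lt.2 (Submodule.finrank_lt_finrank_of_lt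
      (lt_of_le_of_ne (sec_mono (hle _) 0) fun h5 => ?_))
    have h6 : (fun _ => f : Fin 1 → K) ∈ sec (line 1 (canon K - B + single P 1)) 0 :=
      mem_sec_line_one.2 fun x => by
        by_cases hx : x = P
        · subst hx; simpa using h2.le
        · simpa [single_apply, Ne.symm hx] using h1 x hx
    have h7 := mem_sec_line_one.1 (h5 ▸ h6) P
    rw [h2, exp_le_exp] at h7
    omega
  have h5 := ell_sub (canon K - B)
  have h6 := ell_sub (canon K - B + single P 1)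
  rw [sub_sub_cancel] at h5
  rw [← sub_sub, sub_sub_cancel, map_add, degree_single] at h6
  omega

lemma exists_nonsplit {d a : ℤ} (h : 2 * a - d ≤ -2 * chiO K) : ∃ V : Lat K 2, V.gen = ⊤ ∧
    chiL V = 2 * chiO K + d ∧ ∀ m, d - a ≤ m → nn V m = ind (m = a) := by
  classical
  obtain ⟨A, P, hA, hP⟩ := exists_special h
  obtain ⟨V, hV⟩ := exists_flag_of (fun x => if x = P then x.unif ^ (-(A x + 1)) else 0)
    ((Set.finite_singleton P).subset fun x hx => by_contra fun h => hx (if_neg h))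
    (ptD K (d - a) + A) (ptD K (d - a))
  have h1 : degree (ptD K (d - a) + A) = a := by rw [map_add, degree_ptD, hA]; ring
  refine ⟨V, hV.gen_eq, by rw [hV.chiL_eq, h1, degree_ptD]; ring, fun m hm => ?_⟩
  have h2 : ∀ M, (QC V 1 (chiO K + m)).R M → M ≠ V.restrict (K ∙ ![1, 0]) →
      ind (Sat V M) = 0 := fun M hM hne => ind_false fun hs => by
    rw [QC_R] at hM
    obtain ⟨s, D, hs0, rfl⟩ := exists_line_of_rk hM.2.1
    by_cases h3 : s 1 = 0
    · apply hne
      rw [hs.eq_restrict hM.1, gen_line]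
      congr 1
      refine Submodule.eq_of_le_of_finrank_eq ((Submodule.span_singleton_le_iff_mem _ _).2
        ((mem_span_iff_dt hV.ne_zero).2 (by simp [dt_apply, h3]))) ?_
      rw [finrank_span_singleton hs0, finrank_span_singleton hV.ne_zero]
    have h4 : line s D = line ![s 0 / s 1, 1] (D - divF (s 1)) := by
      rw [← line_smul _ h3]
      congr 1
      funext i
      fin_cases i <;> simp [mul_div_cancel₀ _ h3]
    generalize D - divF (s 1) = D' at h4
    generalize s 0 / s 1 = f at h4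
    have h5 := hM.2.2
    have h6 := fun x => (hV.mem x _).1 (line_le_iff.1 (h4 ▸ hM.1) x)
    rw [h4, chiL_line (by simp), add_right_inj] at h5
    simp only [map_smul, LinearMap.smul_apply, smul_eq_mul, Place.val_zpow_mul_le] at h6
    have h7 : D' ≤ ptD K (d - a) := fun x => by
      have := (h6 x).2
      simp only [dt_apply, Matrix.cons_val_zero, Matrix.cons_val_one, mul_one, zero_mul, sub_zero,
        map_one, ← exp_zero, exp_le_exp] at this
      omega
    have h8 : D' = ptD K (d - a) := by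
      refine line_inj (s := (1 : Fin 1 → K)) one_ne_zero (eq_of_chiL ((line_le_line one_ne_zero).2 h7)
        (by rw [rk_line one_ne_zero, rk_line one_ne_zero]) (le_antisymm ?_ ?_))
      · exact chiL_mono ((line_le_line one_ne_zero).2 h7)
          (by rw [rk_line one_ne_zero, rk_line one_ne_zero])
      · rw [chiL_line one_ne_zero, chiL_line one_ne_zero, h5, degree_ptD]; omega
    have h9 : ∀ x : Place K, x.val (f - if x = P then x.unif ^ (-(A x + 1)) else 0) ≤ exp (A x) :=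
      fun x => by simpa [dt_apply, h8] using (h6 x).1
    refine hP f (fun x hx => by simpa [hx] using h9 x) ?_
    have h10 := h9 P
    rw [if_pos rfl] at h10
    have h11 : P.val (P.unif ^ (-(A P + 1))) = exp (A P + 1) := by rw [P.val_unif_zpow, neg_neg]
    rw [← sub_add_cancel f (P.unif ^ (-(A P + 1))), P.val.map_add_eq_of_lt_right, h11]
    rw [h11]
    exact h10.trans_lt (exp_lt_exp.2 (by omega))
  have h3 : chiL (V.restrict (K ∙ ![1, 0])) = chiO K + a := by
    rw [hV.restrict_eq, chiL_line hV.ne_zero, h1]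
  by_cases h4 : m = a
  · rw [nn, Chart.int_single _ (QC_R.2 ⟨V.restrict_le _, by rw [hV.restrict_eq, rk_line hV.ne_zero],
      by rw [h3, h4]⟩) h2, ind_true (sat_restrict _ _), ind_true h4]
  · rw [ind_false h4]
    refine Chart.int_eq_zero _ fun M hM => h2 M hM ?_
    rintro rfl
    have := (QC_R.1 hM).2.2
    omega

theorem rank_sphLie {g : ℕ} (hg : HasGenus K g) (h1 : 1 ≤ g) (d : ℤ) :
    Module.rank ℂ (sphLie K (2, d)) + 1 = g := by
  have h2 := hg.chiO_eq
  have h3 : LinearIndependent ℂ fun i : Fin (g - 1) => CC K d (d / 2 + 1 + i) := by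
    rw [Fintype.linearIndependent_iff]
    intro c hc
    by_contra! h4
    obtain ⟨j, hj, hj'⟩ := Finset.exists_max_image (Finset.univ.filter fun i => c i ≠ 0) id
      (by obtain ⟨i, hi⟩ := h4; exact ⟨i, by simpa⟩)
    obtain ⟨V, h5, h6, h7⟩ := exists_nonsplit (K := K) (d := d) (a := d / 2 + 1 + j) (by omega)
    have h8 := congrFun (congrFun (congrFun hc 2) V) ⊥
    simp only [Finset.sum_apply, Pi.smul_apply, smul_eq_mul, Pi.zero_apply, CC_apply h5 h6] at h8
    rw [Finset.sum_eq_single j (fun i _ hi => ?_) (by simp), h7 _ (by omega), h7 _ (by omega),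
      ind_true rfl, ind_false (by omega), sub_zero, mul_one] at h8
    · simpa [h8] using hj
    · by_cases h9 : c i = 0
      · rw [h9, zero_mul]
      have h10 : i < j := lt_of_le_of_ne (hj' i (by simpa)) hi
      rw [h7 _ (by omega), h7 _ (by omega), ind_false (by omega), ind_false (by omega), sub_zero,
        mul_zero]
  have h4 : LinearIndependent ℂ fun i : Fin (g - 1) => (⟨CC K d (d / 2 + 1 + i),
      Submodule.subset_span ⟨sph_CC _ _, prim_CC (by omega) _ _⟩⟩ : sphLie K (2, d)) :=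
    LinearIndependent.of_comp (sphLie K (2, d)).subtype h3
  have h5 := h4.cardinal_le_rank
  have h6 := rank_sphLie_lt hg h1 d
  obtain ⟨g, rfl⟩ := Nat.exists_eq_add_of_le' h1
  rw [Cardinal.nat_succ, Order.lt_succ_iff] at h6
  rw [Cardinal.mk_fin, Nat.add_sub_cancel] at h5
  rw [le_antisymm h6 h5, Nat.cast_succ]

end Pool.Agent.Lib.MP_cc3443_ag
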