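import Pool.Agent.Lib.MP_cc3443_ag.Count

open Filter Set WithZero Module Finsupp

noncomputable section

namespace Pool.Agent.Lib.MP_cc3443_ag

variable {K : Type} [Field K] [Algebra ℂ K] [Algebra (RatFunc ℂ) K]
  [IsScalarTower ℂ (RatFunc ℂ) K] [FiniteDimensional (RatFunc ℂ) K] {N N' : ℕ}

lemma torsFn_zero {G F : Lat K N} (h : G ≠ F) : torsFn 0 N G F = 0 :=
  ind_false fun h1 => h (eq_of_chiL (hasClass_iff.1 h1).1
    (by simpa using (hasClass_iff.1 h1).2.1.symm) (by simpa using (hasClass_iff.1 h1).2.2.symm)).symm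

lemma Prim.eq_zero {f : Fn K} (hf : Prim f) {E F G₁ G₂ : Lat K N}
    (h1 : ∀ x, G₁.S x ⊓ G₂.S x = F.S x) (h2 : ∀ x, G₁.S x ⊔ G₂.S x = E.S x) (h3 : G₁ ≠ F)
    (h4 : G₂ ≠ F) : f N E F = 0 := by
  rw [hf N E F G₁ G₂ fun x => ?_, torsFn_zero h3, torsFn_zero h4]
  · simp
  · simp only [← Lat.coe_S, ← h1, ← h2, Submodule.coe_sup, Submodule.coe_inf, and_self]

lemma Prim.split {f : Fn K} (hf : Prim f) (D₁ D₂ : Place K →₀ ℤ) :
    f 2 (split D₁ D₂) ⊥ = 0 := by
  have h1 := flag_split D₁ D₂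
  have h2 := flag_split' D₁ D₂
  refine hf.eq_zero (G₁ := line ![1, 0] D₁) (G₂ := line ![0, 1] D₂) (fun x => ?_) (fun x => ?_)
    (fun h => ?_) fun h => ?_
  · rw [Lat.bot_S, eq_bot_iff]
    rintro w ⟨h3, h4⟩
    have h5 := ((mem_line_frame (h1.det x)).1 h3).2
    have h6 := ((mem_line_frame (h2.det x)).1 h4).2
    simp only [dt_apply] at h5 h6
    funext i
    fin_cases i
    · simpa using h6
    · simpa using h5
  · refine le_antisymm (sup_le ?_ ?_) fun w hw => ?_
    · rw [← h1.restrict_eq]; exact Lat.restrict_le _ _ x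
    · rw [← h2.restrict_eq]; exact Lat.restrict_le _ _ x
    · rw [dt_decomp (h1.det x) w]
      exact Submodule.add_mem_sup (mem_line.2 ⟨_, ((h1.mem x w).1 hw).1, rfl⟩)
        (mem_line.2 ⟨_, ((h1.mem x w).1 hw).2, rfl⟩)
  · simpa [rk_line h1.ne_zero] using congrArg rk h
  · simpa [rk_line h2.ne_zero] using congrArg rk h

lemma exists_compl (x : Place K) {Λ : Submodule x.O (Fin N → K)} (hΛ : Λ.FG)
    (W : Submodule K (Fin N → K)) : ∃ C : Submodule x.O (Fin N → K), C.FG ∧ C ≤ Λ ∧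
      (∀ w ∈ C, w ∈ W → w = 0) ∧ ∀ w ∈ Λ, ∃ c ∈ C, w - c ∈ W := by
  obtain ⟨A, hA⟩ := exists_ker_eq W
  obtain ⟨m, β, hβ, hs⟩ := exists_basis_fg x.O K _
    (hΛ.map ((Matrix.toLin' A).restrictScalars x.O))
  have h1 : ∀ i, ∃ c ∈ Λ, Matrix.toLin' A c = β i := fun i => by
    have : β i ∈ Λ.map ((Matrix.toLin' A).restrictScalars x.O) :=
      hs ▸ Submodule.subset_span ⟨i, rfl⟩
    exact this
  choose c hc hc' using h1
  have h2 : ∀ a : Fin m → K, Matrix.toLin' A (∑ i, a i • c i) = ∑ i, a i • β i := fun a => by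
    simp only [map_sum, map_smul, hc']
  refine ⟨Submodule.span x.O (range c), Submodule.fg_span (finite_range c),
    Submodule.span_le.2 (by rintro _ ⟨i, rfl⟩; exact hc i), fun w hw hW => ?_, fun w hw => ?_⟩
  · obtain ⟨a, -, rfl⟩ := mem_span_O.1 hw
    rw [← hA, LinearMap.mem_ker, h2] at hW
    simp [Fintype.linearIndependent_iff.1 hβ a hW]
  · have h3 : Matrix.toLin' A w ∈ Submodule.span x.O (range β) := hs ▸ ⟨w, hw, rfl⟩
    obtain ⟨a, ha, e⟩ := mem_span_O.1 h3
    exact ⟨_, mem_span_O.2 ⟨a, ha, rfl⟩, by rw [← hA, LinearMap.mem_ker, map_sub, h2, e, sub_self]⟩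

/-- Primitive functions vanish on sheaves with both torsion and positive rank. -/
lemma Prim.not_sat {f : Fn K} (hf : Prim f) {E F : Lat K N} (h : F ≤ E) (hs : ¬ Sat E F)
    (hr : rk E ≠ rk F) : f N E F = 0 := by
  choose C h1 h2 h3 h4 using fun x => exists_compl x (E.fg_S x) F.gen
  have h5 : ∀ x, (E.restrict F.gen).S x ⊔ C x = E.S x := fun x => by
    refine le_antisymm (sup_le (E.restrict_le _ x) (h2 x)) fun w hw => ?_
    obtain ⟨c, hc, h6⟩ := h4 x w hw
    rw [← sub_add_cancel w c]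
    exact Submodule.add_mem_sup (Lat.mem_restrict.2 ⟨sub_mem hw (h2 x hc), h6⟩) hc
  have h7 : ∀ x, Submodule.span K ((F.S x ⊔ C x : Submodule x.O (Fin N → K)) : Set (Fin N → K)) =
      E.gen := fun x => by
    refine le_antisymm (Submodule.span_le.2 fun w hw => Lat.mem_gen (sup_le (h x) (h2 x) hw)) ?_
    rw [← E.span_S x, Submodule.span_le]
    intro w hw
    obtain ⟨c, hc, h6⟩ := h4 x w hw
    rw [← sub_add_cancel w c]
    rw [← F.span_S x] at h6
    exact add_mem (Submodule.span_mono (fun v hv => Submodule.mem_sup_left hv) h6)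
      (Submodule.subset_span (Submodule.mem_sup_right hc))
  have h8 : ∀ᶠ x in cofinite, F.S x ⊔ C x = E.S x :=
    (F.std_S.and (E.restrict F.gen).std_S).mono fun x hx => by
      have : F.S x = (E.restrict F.gen).S x := by
        ext w
        rw [hx.1, hx.2, gen_restrict_gen h]
      rw [this, h5 x]
  obtain ⟨G, hG, hG'⟩ : ∃ G : Lat K N, (∀ x, G.S x = F.S x ⊔ C x) ∧ G.gen = E.gen :=
    ⟨E.modify (fun x => F.S x ⊔ C x) (fun x => (F.fg_S x).sup (h1 x)) h7 h8,
      fun x => by rw [Lat.modify, Lat.mk'_S], rfl⟩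
  refine hf.eq_zero (G₁ := E.restrict F.gen) (G₂ := G) (fun x => ?_) (fun x => ?_)
    (fun h6 => hs ?_) fun h6 => hr (by rw [← h6, rk, rk, hG'])
  rotate_left 2
  · have := sat_restrict E F.gen
    rwa [h6] at this
  · rw [hG]
    refine le_antisymm ?_ (le_inf (le_restrict h le_rfl x) le_sup_left)
    rintro w ⟨h6, h7⟩
    obtain ⟨a, ha, c, hc, rfl⟩ := Submodule.mem_sup.1 h7
    have h8 := sub_mem (Lat.mem_restrict.1 h6).2 (Lat.mem_gen ha)
    rw [add_sub_cancel_left] at h8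
    rwa [h3 x c hc h8, add_zero]
  · rw [hG, ← sup_assoc, sup_eq_left.2 (le_restrict h le_rfl x), h5]

/-- Preimage of a lattice. -/
def pull (E : Lat K N) (p : (Fin N → K) →ₗ[K] (Fin N' → K)) (G : Lat K N') : Lat K N :=
  Lat.mk' (E.gen ⊓ G.gen.comap p) (fun x => E.S x ⊓ (G.S x).comap (p.restrictScalars x.O))
    (fun x => (E.fg_S x).of_le inf_le_left)
    (fun x => by
      refine le_antisymm (Submodule.span_le.2 fun w hw => ⟨Lat.mem_gen hw.1, Lat.mem_gen hw.2⟩)
        fun w hw => ?_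
      obtain ⟨M, hM⟩ := Lat.exists_pow_smul_mem x hw.1
      obtain ⟨M', hM'⟩ := Lat.exists_pow_smul_mem x hw.2
      refine (Submodule.smul_mem_iff _ (zpow_ne_zero (M + M' : ℤ) x.unif_ne_zero)).1
        (Submodule.subset_span ⟨hM _ ?_, ?_⟩)
      · rw [x.val_unif_zpow, exp_le_exp]; omega
      · change p _ ∈ G.S x
        rw [map_smul]
        exact hM' _ (by rw [x.val_unif_zpow, exp_le_exp]; omega))
    (by
      classical
      have h : ∀ᶠ x : Place K in cofinite, ∀ i j, p (Pi.single i 1) j ∈ x.O :=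
        eventually_all.2 fun j => eventually_all.2 fun i => eventually_mem _
      refine (E.std_S.and (G.std_S.and h)).mono fun x hx w => ?_
      change (w ∈ E.S x ∧ p w ∈ G.S x) ↔ (w ∈ E.gen ∧ p w ∈ G.gen) ∧ _
      rw [hx.1, hx.2.1]
      refine ⟨fun h => ⟨⟨h.1.1, h.2.1⟩, h.1.2⟩, fun h => ⟨⟨h.1.1, h.2⟩, h.1.2, fun j => ?_⟩⟩
      rw [pi_eq_sum_univ' w, map_sum, Finset.sum_apply]
      refine sum_mem fun i _ => ?_
      rw [map_smul]
      exact x.O.mul_mem _ _ (h.2 i) (hx.2.2 i j))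

lemma mem_pull {E : Lat K N} {p : (Fin N → K) →ₗ[K] (Fin N' → K)} {G : Lat K N'} {x : Place K}
    {w : Fin N → K} : w ∈ (pull E p G).S x ↔ w ∈ E.S x ∧ p w ∈ G.S x := by
  rw [pull, Lat.mk'_S]; rfl

lemma iso_mapL {E F : Lat K N} (h : F ≤ E) (hs : Sat E F) {p : (Fin N → K) →ₗ[K] (Fin N' → K)}
    (hp : E.gen ⊓ LinearMap.ker p = F.gen) :
    Iso (fun q => q.1.mapL p = q.2) E F (E.mapL p) ⊥ := by
  have h1 : ∀ w ∈ F.gen, p w = 0 := fun w hw => (hp ▸ hw : w ∈ E.gen ⊓ LinearMap.ker p).2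
  have h2 : ∀ x, ∀ w ∈ E.S x, p w = 0 → w ∈ F.S x := fun x w hw h0 =>
    hs x w hw (hp ▸ ⟨Lat.mem_gen hw, h0⟩)
  refine ⟨h, rfl, Lat.eq_bot_of_gen (LinearMap.le_ker_iff_map.1 h1), fun G _ _ => ⟨G.mapL p, rfl⟩,
    fun G' _ h3 => ⟨pull E p G', fun x w hw => mem_pull.2 ⟨h x hw, ?_⟩,
      fun x w hw => (mem_pull.1 hw).1, Lat.ext' fun x => ?_⟩, ?_, ?_⟩
  · rw [h1 w (Lat.mem_gen hw)]; exact zero_mem _
  · ext w
    rw [Lat.mem_mapL]
    constructor
    · rintro ⟨v, hv, rfl⟩; exact (mem_pull.1 hv).2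
    · intro hw
      obtain ⟨v, hv, rfl⟩ := Lat.mem_mapL.1 (h3 x hw)
      exact ⟨v, mem_pull.2 ⟨hv, hw⟩, rfl⟩
  · rintro G₁ G₂ G₁' G₂' - h3 h4 h5 (rfl : G₁.mapL p = G₁') (rfl : G₂.mapL p = G₂')
    refine ⟨fun h6 x w hw => ?_, fun h6 x w hw => ?_⟩
    · obtain ⟨v, hv, rfl⟩ := Lat.mem_mapL.1 hw
      exact Lat.mem_mapL.2 ⟨v, h6 x hv, rfl⟩
    · obtain ⟨v, hv, e⟩ := Lat.mem_mapL.1 (h6 x (Lat.mem_mapL.2 ⟨w, hw, rfl⟩))
      rw [← sub_add_cancel w v]
      exact add_mem (h4 x (h2 x _ (sub_mem (h3 x hw) (h5 x hv)) (by rw [map_sub, e, sub_self]))) hv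
  · rintro G G' h3 h4 (rfl : G.mapL p = G')
    have h5 : G.restrict (LinearMap.ker p) = F :=
      le_antisymm (fun x w hw => h2 x w (h4 x (Lat.mem_restrict.1 hw).1) (Lat.mem_restrict.1 hw).2)
        (le_restrict h3 h1)
    rw [rk_exact G p, chiL_exact G p, h5]
    simp [add_comm]

lemma exists_model {E F : Lat K N} {d : ℤ} (h : HasClass E F (2, d)) (hs : Sat E F) :
    ∃ V : Lat K 2, V.gen = ⊤ ∧ chiL V = 2 * chiO K + d ∧
      ∀ ν f, Sph ν f → f N E F = f 2 V ⊥ := by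
  have h0 := hasClass_iff.1 h
  obtain ⟨A, hA⟩ := exists_ker_eq F.gen
  have h1 : finrank K (E.gen.map (Matrix.toLin' A)) = 2 := by
    have := rk_exact E (Matrix.toLin' A)
    rw [hA, ← hs.eq_restrict h0.1, h0.2.1, add_right_inj] at this
    exact this.symm
  let e : E.gen.map (Matrix.toLin' A) ≃ₗ[K] (Fin 2 → K) := (finBasisOfFinrankEq K _ h1).equivFun
  obtain ⟨q, hq⟩ := e.toLinearMap.exists_extend
  have h2 : E.gen ⊓ LinearMap.ker (q ∘ₗ Matrix.toLin' A) = F.gen := by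
    refine le_antisymm (fun w hw => ?_) (le_inf (Lat.gen_mono h0.1) fun w hw => ?_)
    · have h3 : e ⟨_, w, hw.1, rfl⟩ = 0 := (LinearMap.congr_fun hq ⟨_, w, hw.1, rfl⟩).symm.trans hw.2
      rw [e.map_eq_zero_iff] at h3
      rw [← hA]
      exact congrArg Subtype.val h3
    · rw [← hA] at hw
      rw [LinearMap.mem_ker, LinearMap.comp_apply, hw, map_zero]
  have h3 := iso_mapL h0.1 hs h2
  have h4 := hasClass_iff.1 ((h3.hasClass_iff _).1 h)
  refine ⟨_, rk_eq_iff_gen.1 (by simpa using h4.2.1), by simpa [add_comm] using h4.2.2,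
    fun ν f hf => hf.iso_eq (Del.eq (DMap.mapL (by fun_prop) ((dmap_linear _).comp (by fun_prop)))
      (by fun_prop)) h3⟩

open Classical in
/-- A rank two bundle in the plane representing a given bundle. -/
def modelOf (d : ℤ) (E F : Lat K N) : Lat K 2 :=
  if h : HasClass E F (2, d) ∧ Sat E F then (exists_model h.1 h.2).choose else ⊥

variable (K) in
/-- The antisymmetrised counts of line subbundles. -/
def AA (d m : ℤ) : Fn K := fun _ E F => ind (HasClass E F (2, d) ∧ Sat E F) *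
  (nn (modelOf d E F) m - nn (modelOf d E F) (d - m))

lemma AA_neg (d m : ℤ) : AA K d (d - m) = -AA K d m := by
  funext N E F
  simp only [AA, sub_sub_cancel, Pi.neg_apply]
  ring

lemma AA_rec (hχ : chiO K ≤ 0) (d b : ℤ) :
    ∑ k ∈ Finset.Icc 0 (-2 * chiO K), SS K k • AA K d (b + k) = 0 := by
  funext N E F
  simp only [AA, Finset.sum_apply, Pi.smul_apply, smul_eq_mul, Pi.zero_apply, mul_left_comm (SS K _),
    ← Finset.mul_sum]
  by_cases h : HasClass E F (2, d) ∧ Sat E F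
  · have := (exists_model h.1 h.2).choose_spec
    rw [modelOf, dif_pos h, nn_rec hχ this.1 this.2.1, mul_zero]
  · simp [h]

lemma mem_span_AA (hχ : chiO K ≤ 0) {d : ℤ} {f : Fn K} (hf : Sph (2, d) f) (hp : Prim f) :
    f ∈ Submodule.span ℂ (range (AA K d)) := by
  obtain ⟨b₀, γ, h0, hγ⟩ := hf.linC rfl
  have h1 : ∀ m, γ (d - m) = -γ m := fun m => by
    obtain ⟨B, h1, hB⟩ := exists_Bd (split (ptD K m) (ptD K (d - m))) (max m (d - m))
    rw [max_le_iff] at h1
    have h2 := hγ _ (flag_split _ _).gen_eq (by rw [(flag_split _ _).chiL_eq]; simp) B hB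
      (min b₀ (min m (d - m))) (min_le_left _ _)
    have h3 : ∀ c, c ∈ Finset.Icc (min b₀ (min m (d - m))) B →
        ∑ k ∈ Finset.Icc (min b₀ (min m (d - m))) B, γ k * ind (k = c) = γ c := fun c hc => by
      rw [Finset.sum_eq_single c (fun k _ hk => by simp [hk]) fun h => absurd hc h]
      simp
    simp only [hp.split, nn_split hχ, degree_ptD, mul_add, Finset.sum_add_distrib] at h2
    rw [h3 _ (Finset.mem_Icc.2 ⟨by omega, h1.1⟩), h3 _ (Finset.mem_Icc.2 ⟨by omega, h1.2⟩)] at h2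
    linear_combination -h2
  have h2 : f = ∑ m ∈ Finset.Icc b₀ (d - b₀), (γ m / 2) • AA K d m := by
    funext N E F
    simp only [AA, Finset.sum_apply, Pi.smul_apply, smul_eq_mul]
    by_cases h : HasClass E F (2, d) ∧ Sat E F
    · obtain ⟨h3, h4, h5⟩ := (exists_model h.1 h.2).choose_spec
      rw [modelOf, dif_pos h, h5 _ f hf]
      generalize (exists_model h.1 h.2).choose = V at h3 h4
      obtain ⟨B, h6, hB⟩ := exists_Bd V (d - b₀)
      rw [hγ V h3 h4 B hB b₀ le_rfl, ← Finset.sum_subset (Finset.Icc_subset_Icc_right h6)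
        fun m h7 h8 => by
          rw [Finset.mem_Icc] at h7 h8
          rw [← neg_neg (γ m), ← h1, h0 _ (by omega), neg_zero, zero_mul]]
      have h7 : ∑ m ∈ Finset.Icc b₀ (d - b₀), γ m * nn V (d - m) =
          -∑ m ∈ Finset.Icc b₀ (d - b₀), γ m * nn V m := by
        rw [← Finset.sum_neg_distrib]
        refine Finset.sum_nbij' (fun k => d - k) (fun k => d - k) ?_ ?_ ?_ ?_ ?_
        · simp only [Finset.mem_Icc]; omega
        · simp only [Finset.mem_Icc]; omega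
        · simp
        · simp
        · intro k _; rw [h1]; ring
      simp only [ind_true h, one_mul, div_mul_eq_mul_div, mul_sub, ← Finset.sum_div,
        Finset.sum_sub_distrib, h7]
      ring
    · simp only [ind_false h, zero_mul, mul_zero, Finset.sum_const_zero]
      by_contra h3
      have h4 := hf.supp h3
      have h5 := hasClass_iff.1 h4
      exact h3 (hp.not_sat h5.1 (fun hs => h ⟨h4, hs⟩) (by rw [h5.2.1]; omega))
  rw [h2]
  exact sum_mem fun m _ => Submodule.smul_mem _ _ (Submodule.subset_span ⟨m, rfl⟩)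

lemma AA_mem {g : ℕ} (hg : chiO K = 1 - g) (h1 : 1 ≤ g) (d m : ℤ) : AA K d m ∈
    Submodule.span ℂ (range fun i : Fin (g - 1) => AA K d (d / 2 + 1 + i)) := by
  have hχ : chiO K ≤ 0 := by omega
  set T := Submodule.span ℂ (range fun i : Fin (g - 1) => AA K d (d / 2 + 1 + i))
  have h2 : ∀ m, AA K d (d - m) ∈ T → AA K d m ∈ T := fun m h => by
    rwa [AA_neg, neg_mem_iff] at h
  have h3 : ∀ m, d / 2 < m → m < d / 2 + g → AA K d m ∈ T := fun m h4 h5 =>
    Submodule.subset_span ⟨⟨(m - (d / 2 + 1)).toNat, by omega⟩, by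
      simp only
      congr 1
      omega⟩
  have key : ∀ (n : ℕ) (m : ℤ), d - (d / 2 + g) < m → m < d / 2 + g + n → AA K d m ∈ T := by
    intro n
    induction n with
    | zero =>
      intro m h4 h5
      by_cases h6 : d / 2 < m
      · exact h3 m h6 (by omega)
      by_cases h7 : d / 2 < d - m
      · exact h2 m (h3 _ h7 (by omega))
      · have h8 := AA_neg (K := K) d m
        rw [show d - m = m by omega, eq_neg_iff_add_eq_zero, ← two_smul ℂ, smul_eq_zero,
          or_iff_right two_ne_zero] at h8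
        rw [h8]; exact zero_mem _
    | succ n ih =>
      intro m h4 h5
      by_cases h6 : m < d / 2 + g + n
      · exact ih m h4 h6
      have h7 := AA_rec hχ d (m + 2 * chiO K)
      rw [← Finset.add_sum_erase _ _ (Finset.mem_Icc.2 ⟨(by omega : 0 ≤ -2 * chiO K), le_rfl⟩),
        ← sub_zero (-2 * chiO K), SS_symm hχ, SS_zero, one_smul, add_eq_zero_iff_eq_neg,
        show m + 2 * chiO K + (-2 * chiO K - 0) = m by ring] at h7
      rw [h7]
      refine neg_mem (sum_mem fun k hk => Submodule.smul_mem _ _ (ih _ ?_ ?_))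
      all_goals
        simp only [Finset.mem_erase, Finset.mem_Icc] at hk
        omega
  by_cases h4 : d - (d / 2 + g) < m
  · exact key (m - (d / 2 + g) + 1).toNat m h4 (by omega)
  · exact h2 m (key (d - m - (d / 2 + g) + 1).toNat _ (by omega) (by omega))

theorem rank_sphLie_lt {g : ℕ} (hg : HasGenus K g) (h1 : 1 ≤ g) (d : ℤ) :
    Module.rank ℂ (sphLie K (2, d)) < g := by
  have h2 := hg.chiO_eq
  have h3 : sphLie K (2, d) ≤
      Submodule.span ℂ (range fun i : Fin (g - 1) => AA K d (d / 2 + 1 + i)) := by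
    refine Submodule.span_le.2 fun f hf => Submodule.span_le.2 ?_ (mem_span_AA (by omega) hf.1 hf.2)
    rintro _ ⟨m, rfl⟩
    exact AA_mem h2 h1 d m
  refine ((Submodule.rank_mono h3).trans ((rank_span_le _).trans Cardinal.mk_range_le)).trans_lt ?_
  rw [Cardinal.mk_fin, Nat.cast_lt]
  omega

end Pool.Agent.Lib.MP_cc3443_ag
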