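import Pool.Agent.Lib.MP_cc3443_ag.Defs

open Filter Set IntermediateField WithZero IsDedekindDomain
open scoped IntermediateField.algebraAdjoinAdjoin

noncomputable section

namespace Pool.Agent.Lib.MP_cc3443_ag

/-- Function fields of one variable over the complex numbers. -/
class IsFF (K : Type) [Field K] [Algebra ℂ K] : Prop where
  ex : ∃ u : K, Transcendental ℂ u
  fin : ∀ v : K, Transcendental ℂ v → FiniteDimensional ℂ⟮v⟯ K

instance isFF_of_ratFunc (K : Type) [Field K] [Algebra ℂ K] [Algebra (RatFunc ℂ) K]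
    [IsScalarTower ℂ (RatFunc ℂ) K] [FiniteDimensional (RatFunc ℂ) K] : IsFF K where
  ex := ⟨algebraMap (RatFunc ℂ) K RatFunc.X,
    (transcendental_algebraMap_iff (algebraMap (RatFunc ℂ) K).injective).2 RatFunc.transcendental_X⟩
  fin := fun _ hv => FunctionField.finiteDimensional_of_adjoin_transcendental hv

variable {K : Type} [Field K] [Algebra ℂ K]

lemma Place.ext' {x y : Place K} (h : x.O = y.O) : x = y := by
  cases x; cases y; cases h; rfl

lemma Place.smul_mem (x : Place K) (c : ℂ) {z : K} (hz : z ∈ x.O) : c • z ∈ x.O := by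
  rw [Algebra.smul_def]; exact x.O.mul_mem _ _ (x.const c) hz

lemma Place.aeval_mem (x : Place K) {v : K} (hv : v ∈ x.O) (p : Polynomial ℂ) :
    Polynomial.aeval v p ∈ x.O := by
  induction p using Polynomial.induction_on' with
  | add p q hp hq => rw [map_add]; exact x.O.add_mem _ _ hp hq
  | monomial n a =>
    rw [Polynomial.aeval_monomial]
    exact x.O.mul_mem _ _ (x.const a) (pow_mem hv n)

/-- Functions regular at all places of `U`. -/
def chartRing (U : Set (Place K)) : Subalgebra ℂ K where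
  carrier := {z | ∀ x ∈ U, z ∈ x.O}
  mul_mem' := fun ha hb x hx => x.O.mul_mem _ _ (ha x hx) (hb x hx)
  add_mem' := fun ha hb x hx => x.O.add_mem _ _ (ha x hx) (hb x hx)
  algebraMap_mem' := fun c x _ => x.const c

lemma mem_chartRing {U : Set (Place K)} {z : K} : z ∈ chartRing U ↔ ∀ x ∈ U, z ∈ x.O := Iff.rfl

section dedekind
variable (R F : Type) [CommRing R] [IsDedekindDomain R] [Field F] [Algebra R F] [IsFractionRing R F]
  [Algebra F K] [FiniteDimensional F K] [CharZero F] [Algebra R K] [IsScalarTower R F K]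
include F

omit [Algebra ℂ K] in
lemma exists_heightOne (O : ValuationSubring K) (hO : O ≠ ⊤) (hR : ∀ r, algebraMap R K r ∈ O) :
    haveI := integralClosure.isDedekindDomain R F K
    haveI := integralClosure.isFractionRing_of_finite_extension (A := R) F K
    ∃ w : HeightOneSpectrum (integralClosure R K), w.valuationSubringAtPrime K = O := by
  haveI := integralClosure.isDedekindDomain R F K
  haveI := integralClosure.isFractionRing_of_finite_extension (A := R) F K
  have hB : ∀ b : integralClosure R K, (b : K) ∈ O := by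
    intro b
    letI : Algebra R O := ((algebraMap R K).codRestrict O.toSubring hR).toAlgebra
    haveI : IsScalarTower R O K := IsScalarTower.of_algebraMap_eq fun _ => rfl
    have h1 : IsIntegral O (b : K) := b.2.tower_top
    obtain ⟨y, hy⟩ := IsIntegrallyClosed.isIntegral_iff.1 h1
    rw [← hy]; exact y.2
  let φ : integralClosure R K →+* O := (integralClosure R K).val.toRingHom.codRestrict O.toSubring hB
  let P : Ideal (integralClosure R K) := (IsLocalRing.maximalIdeal O).comap φ
  have hP : ∀ s : integralClosure R K, s ∉ P → (s : K)⁻¹ ∈ O := by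
    intro s hs
    have : IsUnit (φ s) := by
      by_contra h
      exact hs ((IsLocalRing.mem_maximalIdeal _).2 h)
    obtain ⟨t, ht⟩ := isUnit_iff_exists_inv.1 this
    have : (s : K) * t = 1 := congrArg Subtype.val ht
    rw [← eq_inv_of_mul_eq_one_right this]; exact t.2
  have hP0 : P ≠ ⊥ := by
    intro h
    apply hO
    rw [eq_top_iff]
    intro z _
    obtain ⟨a, b, hb, rfl⟩ := IsFractionRing.div_surjective (A := integralClosure R K) z
    rw [div_eq_mul_inv]
    exact O.mul_mem _ _ (hB a) (hP b (by rw [h]; simpa using nonZeroDivisors.ne_zero hb))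
  let w : HeightOneSpectrum (integralClosure R K) := ⟨P, Ideal.comap_isPrime _ _, hP0⟩
  refine ⟨w, ValuationSubring.eq_of_le_of_ne_top _ ?_ hO⟩
  rintro z ⟨a, s, hs, rfl⟩
  exact O.mul_mem _ _ (hB a) (hP s hs)

end dedekind

section transc
variable {v : K} (hv : Transcendental ℂ v)
include hv

lemma pid_adjoin : IsPrincipalIdealRing (Algebra.adjoin ℂ {v}) :=
  IsPrincipalIdealRing.of_surjective (Polynomial.algEquivOfTranscendental ℂ v hv).toRingEquiv
    (Polynomial.algEquivOfTranscendental ℂ v hv).surjective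

lemma transc_inv : Transcendental ℂ v⁻¹ := fun h => hv (IsAlgebraic.inv_iff.1 h)

lemma transc_ne_zero : v ≠ 0 := by rintro rfl; exact hv isAlgebraic_zero

omit hv in
lemma adjoin_mem_place (x : Place K) (hx : v ∈ x.O) (r : Algebra.adjoin ℂ {v}) :
    algebraMap _ K r ∈ x.O := by
  obtain ⟨r, hr⟩ := r
  rw [Algebra.adjoin_singleton_eq_range_aeval] at hr
  obtain ⟨p, rfl⟩ := hr
  exact x.aeval_mem hx p

variable [IsFF K]

lemma exists_val_aux (x : Place K) (hx : v ∈ x.O) :
    ∃ val : Valuation K ℤᵐ⁰, Function.Surjective val ∧ val.valuationSubring = x.O := by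
  haveI := pid_adjoin hv
  haveI := IsFF.fin v hv
  haveI := integralClosure.isDedekindDomain (Algebra.adjoin ℂ {v}) ℂ⟮v⟯ K
  haveI := integralClosure.isFractionRing_of_finite_extension (A := Algebra.adjoin ℂ {v}) ℂ⟮v⟯ K
  obtain ⟨w, hw⟩ := exists_heightOne (Algebra.adjoin ℂ {v}) ℂ⟮v⟯ x.O x.ne_top
    (adjoin_mem_place x hx)
  exact ⟨w.valuation K, w.valuation_surjective K, by
    rw [← hw, HeightOneSpectrum.valuationSubringAtPrime_eq_valuationSubring]⟩

lemma mem_chartRing_iff_isIntegral {z : K} :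
    z ∈ chartRing {x : Place K | v ∈ x.O} ↔ IsIntegral (Algebra.adjoin ℂ {v}) z := by
  haveI := pid_adjoin hv
  haveI := IsFF.fin v hv
  haveI := integralClosure.isDedekindDomain (Algebra.adjoin ℂ {v}) ℂ⟮v⟯ K
  haveI := integralClosure.isFractionRing_of_finite_extension (A := Algebra.adjoin ℂ {v}) ℂ⟮v⟯ K
  constructor
  · intro h
    obtain ⟨b, rfl⟩ := HeightOneSpectrum.mem_integers_of_valuation_le_one
      (R := integralClosure (Algebra.adjoin ℂ {v}) K) K z fun w => by
      have h1 : ∀ r : Algebra.adjoin ℂ {v}, (r : K) ∈ (w.valuation K).valuationSubring :=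
        fun r => w.valuation_le_one (K := K) (algebraMap _ _ r)
      refine h ⟨(w.valuation K).valuationSubring, ?_, fun c => h1 (algebraMap ℂ _ c)⟩
        (h1 ⟨v, Algebra.self_mem_adjoin_singleton ℂ v⟩)
      simp only [ne_eq, Valuation.valuationSubring_eq_top_iff, not_not]
      infer_instance
    exact b.2
  · intro h x hx
    letI : Algebra (Algebra.adjoin ℂ {v}) x.O :=
      ((algebraMap _ K).codRestrict x.O.toSubring (adjoin_mem_place x hx)).toAlgebra
    haveI : IsScalarTower (Algebra.adjoin ℂ {v}) x.O K :=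
      IsScalarTower.of_algebraMap_eq fun _ => rfl
    have h1 : IsIntegral x.O z := h.tower_top
    obtain ⟨y, hy⟩ := IsIntegrallyClosed.isIntegral_iff.1 h1
    rw [← hy]; exact y.2

/-- Every element of a local ring is a quotient of functions regular on the affine chart. -/
lemma exists_denom (x : Place K) (hx : v ∈ x.O) {z : K} (hz : z ∈ x.O) :
    ∃ s ∈ chartRing {x : Place K | v ∈ x.O}, s ≠ 0 ∧ s⁻¹ ∈ x.O ∧
      s * z ∈ chartRing {x : Place K | v ∈ x.O} := by
  haveI := pid_adjoin hv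
  haveI := IsFF.fin v hv
  haveI := integralClosure.isDedekindDomain (Algebra.adjoin ℂ {v}) ℂ⟮v⟯ K
  haveI := integralClosure.isFractionRing_of_finite_extension (A := Algebra.adjoin ℂ {v}) ℂ⟮v⟯ K
  obtain ⟨w, hw⟩ := exists_heightOne (Algebra.adjoin ℂ {v}) ℂ⟮v⟯ x.O x.ne_top
    (adjoin_mem_place x hx)
  rw [← hw] at hz ⊢
  obtain ⟨a, s, hs, rfl⟩ := hz
  have hs0 : (s : K) ≠ 0 := by
    intro h
    apply hs
    have : s = 0 := Subtype.ext h
    rw [this]; exact w.asIdeal.zero_mem
  refine ⟨s, (mem_chartRing_iff_isIntegral hv).2 s.2, hs0, ⟨1, s, hs, by simp⟩, ?_⟩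
  have : (s : K) * (algebraMap _ K a * (algebraMap _ K s)⁻¹) = a := by
    change (s : K) * ((a : K) * (s : K)⁻¹) = a
    field_simp
  rw [this]
  exact (mem_chartRing_iff_isIntegral hv).2 a.2

lemma finite_poles_aux (z : K) : {x : Place K | v ∈ x.O ∧ z ∉ x.O}.Finite := by
  haveI := pid_adjoin hv
  haveI := IsFF.fin v hv
  haveI := integralClosure.isDedekindDomain (Algebra.adjoin ℂ {v}) ℂ⟮v⟯ K
  haveI := integralClosure.isFractionRing_of_finite_extension (A := Algebra.adjoin ℂ {v}) ℂ⟮v⟯ K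
  have h1 := (HeightOneSpectrum.Support.finite (integralClosure (Algebra.adjoin ℂ {v}) K) z).image
    fun w => w.valuationSubringAtPrime K
  refine (h1.preimage (f := Place.O) fun x _ y _ h => Place.ext' h).subset ?_
  rintro x ⟨hx, hz⟩
  obtain ⟨w, hw⟩ := exists_heightOne (Algebra.adjoin ℂ {v}) ℂ⟮v⟯ x.O x.ne_top
    (adjoin_mem_place x hx)
  refine ⟨w, ?_, hw⟩
  rw [← hw, HeightOneSpectrum.valuationSubringAtPrime_eq_valuationSubring] at hz
  rw [Valuation.mem_valuationSubring_iff] at hz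
  exact not_le.1 hz

/-- The ring of the affine chart is a finite module over the polynomial ring. -/
lemma exists_gens_chartRing : ∃ (m : ℕ) (b : Fin m → K),
    (∀ i, b i ∈ chartRing {x : Place K | v ∈ x.O}) ∧
    ∀ z ∈ chartRing {x : Place K | v ∈ x.O}, ∃ p : Fin m → Polynomial ℂ,
      z = ∑ i, Polynomial.aeval v (p i) * b i := by
  haveI := pid_adjoin hv
  haveI := IsFF.fin v hv
  haveI := IsIntegralClosure.finite (Algebra.adjoin ℂ {v}) ℂ⟮v⟯ K
    (integralClosure (Algebra.adjoin ℂ {v}) K)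
  obtain ⟨m, b, hb⟩ := Module.Finite.exists_fin (R := Algebra.adjoin ℂ {v})
    (M := integralClosure (Algebra.adjoin ℂ {v}) K)
  refine ⟨m, fun i => b i, fun i => (mem_chartRing_iff_isIntegral hv).2 (b i).2, fun z hz => ?_⟩
  have h1 : (⟨z, (mem_chartRing_iff_isIntegral hv).1 hz⟩ : integralClosure _ K) ∈
      Submodule.span (Algebra.adjoin ℂ {v}) (Set.range b) := hb ▸ Submodule.mem_top
  obtain ⟨c, hc⟩ := (Submodule.mem_span_range_iff_exists_fun _).1 h1
  have h2 : ∀ i, ∃ p : Polynomial ℂ, Polynomial.aeval v p = c i := fun i => by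
    exact (Algebra.adjoin_singleton_eq_range_aeval ℂ v).le (c i).2
  choose p hp using h2
  refine ⟨p, ?_⟩
  have := congrArg Subtype.val hc
  simp only at this
  rw [← this]
  push_cast
  simp only [hp]
  rfl

end transc

variable [IsFF K]

lemma Place.exists_transc (x : Place K) : ∃ v, Transcendental ℂ v ∧ v ∈ x.O := by
  obtain ⟨u, hu⟩ := IsFF.ex (K := K)
  rcases x.O.mem_or_inv_mem u with h | h
  exacts [⟨u, hu, h⟩, ⟨u⁻¹, transc_inv hu, h⟩]

lemma Place.exists_val (x : Place K) :
    ∃ val : Valuation K ℤᵐ⁰, Function.Surjective val ∧ val.valuationSubring = x.O := by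
  obtain ⟨v, hv, hx⟩ := x.exists_transc
  exact exists_val_aux hv x hx

lemma finite_poles (z : K) : {x : Place K | z ∉ x.O}.Finite := by
  obtain ⟨u, hu⟩ := IsFF.ex (K := K)
  refine ((finite_poles_aux hu z).union (finite_poles_aux (transc_inv hu) z)).subset fun x hx => ?_
  rcases x.O.mem_or_inv_mem u with h | h
  exacts [Or.inl ⟨h, hx⟩, Or.inr ⟨h, hx⟩]

namespace Place

/-- The normalised valuation of a place. -/
def val (x : Place K) : Valuation K ℤᵐ⁰ := x.exists_val.choose

variable (x : Place K)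

lemma val_surj : Function.Surjective x.val := x.exists_val.choose_spec.1

lemma mem_iff {z : K} : z ∈ x.O ↔ x.val z ≤ 1 := by
  rw [← x.exists_val.choose_spec.2]; rfl

/-- A uniformiser. -/
def unif : K := (x.val_surj (exp (-1))).choose

lemma val_unif : x.val x.unif = exp (-1) := (x.val_surj (exp (-1))).choose_spec

lemma unif_ne_zero : x.unif ≠ 0 := by
  intro h
  have := x.val_unif
  rw [h, map_zero] at this
  exact exp_ne_zero this.symm

lemma val_unif_zpow (m : ℤ) : x.val (x.unif ^ m) = exp (-m) := by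
  rw [map_zpow₀, val_unif, ← exp_zsmul]; simp

/-- Order of vanishing. -/
def ord (z : K) : ℤ := -log (x.val z)

lemma val_eq {z : K} (hz : z ≠ 0) : x.val z = exp (-x.ord z) := by
  rw [ord, neg_neg, exp_log]; simpa using hz

lemma ord_eq_of_val {z : K} {m : ℤ} (h : x.val z = exp (-m)) : x.ord z = m := by
  simp [ord, h]

lemma ord_mul {a b : K} (ha : a ≠ 0) (hb : b ≠ 0) : x.ord (a * b) = x.ord a + x.ord b :=
  x.ord_eq_of_val (by rw [map_mul, x.val_eq ha, x.val_eq hb, ← exp_add, neg_add])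

@[simp] lemma ord_one : x.ord 1 = 0 := by simp [ord]

@[simp] lemma ord_zero : x.ord 0 = 0 := by simp [ord]

@[simp] lemma ord_inv (a : K) : x.ord a⁻¹ = -x.ord a := by simp [ord]

@[simp] lemma ord_neg (a : K) : x.ord (-a) = x.ord a := by simp [ord]

lemma ord_zpow (a : K) (m : ℤ) : x.ord (a ^ m) = m * x.ord a := by simp [ord]

@[simp] lemma ord_unif : x.ord x.unif = 1 := x.ord_eq_of_val x.val_unif

lemma val_le_iff {z : K} (hz : z ≠ 0) {m : ℤ} : x.val z ≤ exp (-m) ↔ m ≤ x.ord z := by
  rw [x.val_eq hz, exp_le_exp]; omega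

lemma mem_iff_ord {z : K} (hz : z ≠ 0) : z ∈ x.O ↔ 0 ≤ x.ord z := by
  rw [mem_iff, ← x.val_le_iff hz]; simp

lemma val_lt_one_iff {z : K} : x.val z < 1 ↔ x.val z ≤ exp (-1) := by
  by_cases hz : z = 0
  · simp [hz]
  · rw [x.val_eq hz, ← exp_zero, exp_lt_exp, exp_le_exp]; omega

lemma val_lt_exp_iff {z : K} {m : ℤ} : x.val z < exp m ↔ x.val z ≤ exp (m - 1) := by
  by_cases hz : z = 0
  · simp [hz, exp_pos]
  · rw [x.val_eq hz, exp_lt_exp, exp_le_exp]; omega

lemma val_const {c : ℂ} (hc : c ≠ 0) : x.val (algebraMap ℂ K c) = 1 := by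
  have h1 := x.mem_iff.1 (x.const c)
  have h2 := x.mem_iff.1 (x.const c⁻¹)
  rw [map_inv₀, map_inv₀] at h2
  exact le_antisymm h1 ((inv_le_one₀ (by simpa [pos_iff_ne_zero] using hc)).1 h2)

lemma val_const_le (c : ℂ) : x.val (algebraMap ℂ K c) ≤ 1 := x.mem_iff.1 (x.const c)

lemma val_smul_le (c : ℂ) (z : K) : x.val (c • z) ≤ x.val z := by
  rw [Algebra.smul_def, map_mul]
  exact mul_le_of_le_one_left' (x.val_const_le c)

lemma const_eq_zero {c : ℂ} (h : x.val (algebraMap ℂ K c) < 1) : c = 0 := by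
  by_contra hc
  exact absurd (x.val_const hc) h.ne

lemma zpow_mul_mem_iff {z : K} {m : ℤ} : x.unif ^ m * z ∈ x.O ↔ x.val z ≤ exp m := by
  rw [mem_iff, map_mul, val_unif_zpow, exp_neg, inv_mul_le_iff₀ exp_pos, mul_one]

lemma inv_mem_iff {z : K} (hz : z ≠ 0) : z⁻¹ ∈ x.O ↔ 1 ≤ x.val z := by
  rw [mem_iff, map_inv₀, inv_le_one₀ (by simpa [pos_iff_ne_zero] using hz)]

lemma eq_of_le {x y : Place K} (h : x.O ≤ y.O) : x = y := by
  by_contra hne
  obtain ⟨z, hzy, hzx⟩ : ∃ z ∈ y.O, z ∉ x.O := by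
    by_contra h'
    push Not at h'
    exact hne (Place.ext' (le_antisymm h h'))
  apply y.ne_top
  rw [eq_top_iff]
  intro w _
  by_cases hw : w = 0
  · rw [hw]; exact y.O.zero_mem
  have hz0 : z ≠ 0 := by rintro rfl; exact hzx x.O.zero_mem
  rw [x.mem_iff_ord hz0, not_le] at hzx
  let k := (x.ord w).natAbs
  have h1 : w * (z ^ k)⁻¹ ∈ x.O := by
    rw [x.mem_iff_ord (by simp [hw, hz0]), x.ord_mul hw (by simp [hz0]), ord_inv, ← zpow_natCast,
      ord_zpow]
    have : (k : ℤ) = |x.ord w| := Int.natCast_natAbs _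
    nlinarith [abs_nonneg (x.ord w), neg_abs_le (x.ord w)]
  have h2 := y.O.mul_mem _ _ (h h1) (pow_mem hzy k)
  rwa [mul_assoc, inv_mul_cancel₀ (pow_ne_zero _ hz0), mul_one] at h2

lemma finite_ord (z : K) : {x : Place K | x.ord z ≠ 0}.Finite := by
  by_cases hz : z = 0
  · simp [hz]
  refine ((finite_poles z).union (finite_poles z⁻¹)).subset fun x hx => ?_
  by_contra h
  simp only [Set.mem_union, Set.mem_ofPred_eq, not_or, not_not] at h
  rw [x.mem_iff_ord hz, x.mem_iff_ord (inv_ne_zero hz), ord_inv] at h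
  exact hx (by omega)

/-- The residue field is the field of complex numbers. -/
lemma exists_res {z : K} (hz : z ∈ x.O) : ∃ c : ℂ, x.val (z - algebraMap ℂ K c) < 1 := by
  by_cases ha : IsAlgebraic ℂ z
  · obtain ⟨c, rfl⟩ : z ∈ (algebraMap ℂ K).range :=
      minpoly.mem_range_of_degree_eq_one ℂ z
        (IsAlgClosed.degree_eq_one_of_irreducible ℂ (minpoly.irreducible ha.isIntegral))
    exact ⟨c, by simp⟩
  by_contra hc
  push Not at hc
  have h1 : ∀ p : Polynomial ℂ, p ≠ 0 → 1 ≤ x.val (Polynomial.aeval z p) := by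
    intro p hp
    rw [(IsAlgClosed.splits p).eq_prod_roots, map_mul, Polynomial.aeval_C, map_mul,
      x.val_const (Polynomial.leadingCoeff_ne_zero.2 hp), one_mul, map_multiset_prod,
      map_multiset_prod, Multiset.map_map, Multiset.map_map]
    refine Multiset.one_le_prod_of_one_le fun a ha => ?_
    obtain ⟨a, -, rfl⟩ := Multiset.mem_map.1 ha
    simpa using hc a
  haveI := IsFF.fin z ha
  apply x.ne_top
  rw [eq_top_iff]
  intro w _
  have h2 : ∀ r : ℂ⟮z⟯, algebraMap _ K r ∈ x.O := by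
    intro r
    obtain ⟨p, q, hr⟩ := (IntermediateField.mem_adjoin_simple_iff ℂ (r : K)).1 r.2
    change (r : K) ∈ x.O
    rw [hr, div_eq_mul_inv]
    refine x.O.mul_mem _ _ (x.aeval_mem hz p) ?_
    by_cases hq : q = 0
    · simp [hq]
    · have := h1 q hq
      refine (x.inv_mem_iff ?_).2 this
      intro h0
      simp [h0] at this
  letI : Algebra ℂ⟮z⟯ x.O := ((algebraMap _ K).codRestrict x.O.toSubring h2).toAlgebra
  haveI : IsScalarTower ℂ⟮z⟯ x.O K := IsScalarTower.of_algebraMap_eq fun _ => rfl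
  have h3 : IsIntegral x.O w := (Algebra.IsIntegral.isIntegral (R := ℂ⟮z⟯) w).tower_top
  obtain ⟨y, hy⟩ := IsIntegrallyClosed.isIntegral_iff.1 h3
  rw [← hy]; exact y.2

end Place

end Pool.Agent.Lib.MP_cc3443_ag
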