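import Pool.Agent.Lib.MP_cc3443_ag.CodeLat

open Filter Set WithZero Module Finsupp

noncomputable section

namespace Pool.Agent.Lib.MP_cc3443_ag

/-- The chosen coordinates on a finite-dimensional space. -/
def epsE (W : Type) [AddCommGroup W] [Module ℂ W] : (Fin (finrank ℂ W) → ℂ) →ₗ[ℂ] W :=
  Classical.epsilon (fun e : (Fin (finrank ℂ W) → ℂ) →ₗ[ℂ] W => Function.Bijective e)

lemma epsE_bij (W : Type) [AddCommGroup W] [Module ℂ W] [Module.Finite ℂ W] :
    Function.Bijective (epsE W) :=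
  Classical.epsilon_spec (p := fun e : (Fin (finrank ℂ W) → ℂ) →ₗ[ℂ] W => Function.Bijective e)
    ⟨(finBasis ℂ W).equivFun.symm, (finBasis ℂ W).equivFun.symm.bijective⟩

open Classical in
lemma chiSub_def {V : Type} [AddCommGroup V] [Module ℂ V] (H : Submodule ℂ V)
    (F : Submodule ℂ V → ℂ) : chiSub H F = chiN (finrank ℂ (H →ₗ[ℂ] H)) fun a =>
      if epsE _ a ∘ₗ epsE _ a = epsE (H →ₗ[ℂ] H) a then
        F ((LinearMap.range (epsE (H →ₗ[ℂ] H) a)).map H.subtype) else 0 := rfl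

lemma idem_range_iff {W : Type} [AddCommGroup W] [Module ℂ W] {P P₀ : W →ₗ[ℂ] W}
    (h₀ : P₀ ∘ₗ P₀ = P₀) : (P ∘ₗ P = P ∧ LinearMap.range P = LinearMap.range P₀) ↔
      (P₀ ∘ₗ (P - P₀) = P - P₀ ∧ (P - P₀) ∘ₗ P₀ = 0) := by
  have h0 : ∀ w, P₀ (P₀ w) = P₀ w := LinearMap.congr_fun h₀
  simp only [LinearMap.ext_iff, LinearMap.comp_apply, LinearMap.sub_apply, map_sub, h0,
    sub_left_inj, LinearMap.zero_apply, sub_eq_zero]
  constructor
  · rintro ⟨h1, h2⟩
    refine ⟨fun w => ?_, fun w => ?_⟩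
    · obtain ⟨v, hv⟩ : P w ∈ LinearMap.range P₀ := h2 ▸ ⟨w, rfl⟩
      rw [← hv, h0]
    · obtain ⟨v, hv⟩ : P₀ w ∈ LinearMap.range P := h2 ▸ ⟨w, rfl⟩
      rw [← hv, h1]
  · rintro ⟨h1, h2⟩
    refine ⟨fun w => by rw [← h1 w, h2, h1], le_antisymm ?_ ?_⟩
    · rintro _ ⟨w, rfl⟩; exact ⟨_, h1 w⟩
    · rintro _ ⟨w, rfl⟩; exact ⟨_, h2 w⟩

lemma exists_idem {W : Type} [AddCommGroup W] [Module ℂ W] (S : Submodule ℂ W) :
    ∃ P : W →ₗ[ℂ] W, P ∘ₗ P = P ∧ LinearMap.range P = S := by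
  obtain ⟨g, hg⟩ := S.subtype.exists_leftInverse_of_injective S.ker_subtype
  have h : ∀ s : S, g s = s := LinearMap.congr_fun hg
  refine ⟨S.subtype ∘ₗ g, by ext w; simp [h], le_antisymm ?_ fun w hw => ⟨w, ?_⟩⟩
  · rintro _ ⟨w, rfl⟩; exact (g w).2
  · exact congrArg Subtype.val (h ⟨w, hw⟩)

variable {K : Type} [Field K] [Algebra ℂ K] [Algebra (RatFunc ℂ) K]
  [IsScalarTower ℂ (RatFunc ℂ) K] [FiniteDimensional (RatFunc ℂ) K] {N N' : ℕ}

lemma dmap_cbilin {τ τ' : Type} [Finite τ] [Finite τ']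
    (B : (τ → ℂ) →ₗ[ℂ] (τ' → ℂ) →ₗ[ℂ] (Fin N → K)) :
    DMap fun p : (τ → ℂ) × (τ' → ℂ) => B p.1 p.2 := by
  classical
  have := Fintype.ofFinite τ
  have h : ∀ p : (τ → ℂ) × (τ' → ℂ), B p.1 p.2 = ∑ i, p.1 i • B (Pi.single i 1) p.2 := fun p => by
    conv_lhs => rw [pi_eq_sum_univ' p.1, map_sum]
    simp [Pi.single_apply]
  rw [funext h]
  exact DMap.sum _ fun i => DMap.smul (by fun_prop) ((dmap_clinear _).comp (by fun_prop))

/-- Points of the Quot scheme. -/
def QR (E : Lat K N) (r : ℕ) (c : ℤ) (G : Lat K N) : Prop := G ≤ E ∧ rk G = r ∧ chiL G = c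

lemma Del.qr {X : Type} [Coded X] {E G : X → Lat K N} (hE : DMap E) (hG : DMap G) (r : ℕ) (c : ℤ) :
    Del fun a => QR (E a) r c (G a) := (Del.le hG hE).and ((Del.rk_eq hG r).and (Del.chiL_eq hG c))

section
variable (E : Lat K N) (n : ℤ)

/-- The subsheaf generated by the image of an endomorphism of the space of sections. -/
def decQ (P : sec E n →ₗ[ℂ] sec E n) : Lat K N :=
  genL n fun j => (P (finBasis ℂ (sec E n) j) : Fin N → K)

variable {E n}

lemma span_decQ (P : sec E n →ₗ[ℂ] sec E n) :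
    Submodule.span ℂ (range fun j => (P (finBasis ℂ (sec E n) j) : Fin N → K)) =
      (LinearMap.range P).map (sec E n).subtype := by
  rw [LinearMap.range_eq_map, ← (finBasis ℂ (sec E n)).span_eq, Submodule.map_span,
    Submodule.map_span, ← range_comp, ← range_comp]
  rfl

lemma decQ_eq {P : sec E n →ₗ[ℂ] sec E n} {G : Lat K N} (hG : Reg G n)
    (h : sec G n = (LinearMap.range P).map (sec E n).subtype) : decQ E n P = G :=
  hG.eq_genL (by rw [span_decQ, h])

lemma range_le_sec_decQ (P : sec E n →ₗ[ℂ] sec E n) :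
    (LinearMap.range P).map (sec E n).subtype ≤ sec (decQ E n P) n := by
  rw [← span_decQ, Submodule.span_le]
  rintro _ ⟨j, rfl⟩
  exact mem_sec_genL n _ j

end

/-- The Grassmannian chart of the Quot scheme. -/
def quotChart (E : Lat K N) (r : ℕ) (c n : ℤ) (hn : ∀ G, QR E r c G → Reg G n) :
    Chart (Lat K N) where
  n := finrank ℂ (sec E n →ₗ[ℂ] sec E n)
  S := fun a => epsE _ a ∘ₗ epsE _ a = epsE (sec E n →ₗ[ℂ] sec E n) a ∧ ∃ G, QR E r c G ∧
    sec G n = (LinearMap.range (epsE (sec E n →ₗ[ℂ] sec E n) a)).map (sec E n).subtype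
  dec := fun a => decQ E n (epsE _ a)
  hdec := DMap.genL n (DMap.pi fun j => dmap_clinear ((sec E n).subtype ∘ₗ
    (epsE (sec E n →ₗ[ℂ] sec E n)).flip (finBasis ℂ (sec E n) j)))
  hS := by
    set e := epsE (sec E n →ₗ[ℂ] sec E n)
    set b := finBasis ℂ (sec E n)
    have hd : DMap fun a => decQ E n (e a) := DMap.genL n (DMap.pi fun j => dmap_clinear
      ((sec E n).subtype ∘ₗ e.flip (b j)))
    have h1 : ∀ j, DMap fun a => (e a (e a (b j)) : Fin N → K) := fun j =>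
      (dmap_cbilin ((e.compl₂ (e.flip (b j))).compr₂ (sec E n).subtype)).comp
        (f := fun a => (a, a)) (by fun_prop)
    have h2 : ∀ j, DMap fun a => (e a (b j) : Fin N → K) := fun j =>
      dmap_clinear ((sec E n).subtype ∘ₗ e.flip (b j))
    have h3 := dmap_cbilin ((e.compl₂ b.equivFun.symm.toLinearMap).compr₂ (sec E n).subtype)
    have h4 := dmap_clinear ((sec E n).subtype ∘ₗ b.equivFun.symm.toLinearMap)
    refine ((Del.forall_finite fun j => Del.eq (h1 j) (h2 j)).and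
      ((Del.qr (DMap.const E) hd r c).and (Del.forall'
        (P := fun a t => (b.equivFun.symm t : Fin N → K) ∈ sec (decQ E n (e a)) n →
          (e a (b.equivFun.symm t) : Fin N → K) = b.equivFun.symm t)
        ((Del.mem_sec (h4.comp (f := Prod.snd) (by fun_prop))
          (hd.comp (f := Prod.fst) (by fun_prop)) n).imp
          (Del.eq h3 (h4.comp (f := Prod.snd) (by fun_prop))))))).congr fun a => ?_
    constructor
    · rintro ⟨h5, h6, h7⟩
      refine ⟨b.ext fun j => Subtype.ext (h5 j), _, h6, le_antisymm (fun w hw => ?_)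
        (range_le_sec_decQ _)⟩
      obtain ⟨t, ht⟩ := b.equivFun.symm.surjective ⟨w, sec_mono h6.1 n hw⟩
      have := h7 t (by rw [ht]; exact hw)
      rw [ht] at this
      exact ⟨_, ⟨_, rfl⟩, this⟩
    · rintro ⟨h5, G, h6, h7⟩
      rw [decQ_eq (hn G h6) h7]
      refine ⟨fun j => congrArg Subtype.val (LinearMap.congr_fun h5 (b j)), h6, fun t ht => ?_⟩
      rw [h7] at ht
      obtain ⟨_, ⟨v, rfl⟩, hv⟩ := ht
      rw [← Subtype.ext hv]
      exact congrArg Subtype.val (LinearMap.congr_fun h5 v)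
  fib := by
    rintro a₀ ⟨h₀, G₀, h1, h2⟩
    set e := epsE (sec E n →ₗ[ℂ] sec E n)
    let T : Submodule ℂ (Fin (finrank ℂ (sec E n →ₗ[ℂ] sec E n)) → ℂ) :=
      { carrier := {a | e a₀ ∘ₗ e a = e a ∧ e a ∘ₗ e a₀ = 0}
        add_mem' := fun ha hb => by
          simp only [mem_ofPred_eq, map_add, LinearMap.comp_add, LinearMap.add_comp] at ha hb ⊢
          rw [ha.1, hb.1, ha.2, hb.2]; simp
        zero_mem' := by simp
        smul_mem' := fun c a ha => by
          simp only [mem_ofPred_eq, map_smul, LinearMap.comp_smul, LinearMap.smul_comp] at ha ⊢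
          rw [ha.1, ha.2]; simp }
    rw [← chiN_affine _ a₀ T]
    congr 1
    funext a
    refine ind_congr ?_
    change _ ↔ e a₀ ∘ₗ e (a - a₀) = e (a - a₀) ∧ e (a - a₀) ∘ₗ e a₀ = 0
    rw [map_sub, ← idem_range_iff h₀, decQ_eq (hn G₀ h1) h2, and_assoc]
    refine and_congr_right fun h3 => ⟨?_, fun h4 => ?_⟩
    · rintro ⟨⟨G, h4, h5⟩, h6⟩
      rw [decQ_eq (hn G h4) h5] at h6
      rw [h6, h2] at h5
      exact (Submodule.map_injective_of_injective (sec E n).injective_subtype h5).symm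
    · rw [← h4] at h2
      exact ⟨⟨G₀, h1, h2⟩, decQ_eq (hn G₀ h1) h2⟩

lemma quotChart_R {E : Lat K N} {r : ℕ} {c n : ℤ} (hn : ∀ G, QR E r c G → Reg G n)
    {G : Lat K N} : (quotChart E r c n hn).R G ↔ QR E r c G := by
  constructor
  · rintro ⟨a, ⟨-, G', h1, h2⟩, rfl⟩
    change QR E r c (decQ E n _)
    rwa [decQ_eq (hn G' h1) h2]
  · intro h
    obtain ⟨P, h1, h2⟩ := exists_idem ((sec G n).comap (sec E n).subtype)
    obtain ⟨a, rfl⟩ := (epsE_bij (sec E n →ₗ[ℂ] sec E n)).2 P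
    have h3 : sec G n = (LinearMap.range (epsE (sec E n →ₗ[ℂ] sec E n) a)).map
        (sec E n).subtype := by
      rw [h2, Submodule.map_comap_subtype, inf_eq_right.2 (sec_mono h.1 n)]
    exact ⟨a, ⟨h1, G, h, h3⟩, decQ_eq (hn G h) h3⟩

lemma exists_QC (E : Lat K N) (r : ℕ) (c : ℤ) :
    ∃ C : Chart (Lat K N), ∀ G, C.R G ↔ QR E r c G := by
  obtain ⟨n, hn⟩ := exists_uniform_reg E c
  exact ⟨quotChart E r c n fun G hG => hn G hG.1 hG.2.2, fun G => quotChart_R _⟩

/-- A chart of the Quot scheme. -/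
def QC (E : Lat K N) (r : ℕ) (c : ℤ) : Chart (Lat K N) := (exists_QC E r c).choose

lemma QC_R {E : Lat K N} {r : ℕ} {c : ℤ} {G : Lat K N} : (QC E r c).R G ↔ QR E r c G :=
  (exists_QC E r c).choose_spec G

lemma chiSub_eq {E : Lat K N} {r : ℕ} {c n : ℤ} (hn : ∀ G, QR E r c G → Reg G n)
    {φ : Lat K N → ℂ} (hs : ∀ G, φ G ≠ 0 → QR E r c G) :
    chiSub (sec E n) (fun S => ∑ᶠ G : Lat K N, ind (sec G n = S) * φ G) =
      (quotChart E r c n hn).int φ := by
  rw [chiSub_def]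
  refine congrArg (chiN _) (funext fun a => ?_)
  split_ifs with h
  · by_cases h1 : (quotChart E r c n hn).S a
    · obtain ⟨G, h2, h3⟩ := h1.2
      rw [ind_true h1, one_mul, finsum_eq_single _ G, ind_true h3, one_mul]
      · exact congrArg φ (decQ_eq (hn G h2) h3).symm
      · intro G' hG'
        by_contra h4
        have h5 := hs G' (right_ne_zero_of_mul h4)
        refine left_ne_zero_of_mul h4 (ind_false fun h6 => hG' ?_)
        exact (hn G' h5).eq_of_sec_eq (hn G h2) (h6.trans h3.symm)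
    · rw [ind_false h1, zero_mul]
      refine finsum_eq_zero_of_forall_eq_zero fun G => by_contra fun h4 => ?_
      exact left_ne_zero_of_mul h4 (ind_false fun h6 =>
        h1 ⟨h, G, hs G (right_ne_zero_of_mul h4), h6⟩)
  · rw [ind_false fun h1 => h h1.1, zero_mul]

lemma lim_eq {E : Lat K N} {r : ℕ} {c : ℤ} {φ : Lat K N → ℂ} (hφ : DFun φ)
    (hs : ∀ G, φ G ≠ 0 → QR E r c G) :
    limUnder atTop (fun n : ℤ => chiSub (sec E n) fun S =>
      ∑ᶠ G : Lat K N, ind (sec G n = S) * φ G) = (QC E r c).int φ := by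
  obtain ⟨n₀, hn⟩ := exists_uniform_reg E c
  refine Tendsto.limUnder_eq (tendsto_const_nhds.congr' ((eventually_ge_atTop n₀).mono
    fun n h => ?_))
  beta_reduce
  rw [chiSub_eq (fun G hG => (hn G hG.1 hG.2.2).mono h) hs]
  exact Chart.int_indep _ _ hφ fun G _ => by rw [QC_R, quotChart_R]

lemma lim_eq_zero (E : Lat K N) : limUnder atTop (fun n : ℤ => chiSub (sec E n) fun S =>
    ∑ᶠ G : Lat K N, ind (sec G n = S) * 0) = 0 := by
  rw [lim_eq (r := 0) (c := 0) (DFun.const 0) fun _ h => absurd rfl h, Chart.int_zero]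

lemma line_eq_line {s s' : Fin N → K} (hs : s ≠ 0) (hs' : s' ≠ 0) {D : Place K →₀ ℤ}
    (h : line s' D = line s D) : ∃ a : ℂ, s' = a • s := by
  have h1 : s' ∈ K ∙ s := by
    rw [← gen_line s D, ← h, gen_line]; exact Submodule.mem_span_singleton_self _
  obtain ⟨z, rfl⟩ := Submodule.mem_span_singleton.1 h1
  have hz : z ≠ 0 := left_ne_zero_of_smul hs'
  rw [line_smul _ hz] at h
  have h2 := line_inj hs h
  rw [sub_eq_self] at h2
  obtain ⟨c, rfl⟩ := exists_const (z := z) fun x => (x.mem_iff_ord hz).2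
    (by rw [← divF_apply, h2]; rfl)
  exact ⟨c, algebraMap_smul _ _ _⟩

lemma line_csmul (s : Fin N → K) {a : ℂ} (ha : a ≠ 0) (D : Place K →₀ ℤ) :
    line (a • s) D = line s D := by
  rw [← algebraMap_smul K, line_smul _ (by simpa using ha)]
  congr 1
  ext x
  simp [Place.ord, x.val_const ha]

/-- The projective space of sections as a chart. -/
def lineChart (H : Submodule ℂ (Fin N → K)) [Module.Finite ℂ H] (D : Place K →₀ ℤ) :
    Chart (Lat K N) where
  n := finrank ℂ H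
  S := Normalized _
  hS := del_normalized _
  dec := fun a => line (epsE H a : Fin N → K) D
  hdec := (dmap_clinear (H.subtype ∘ₗ epsE H)).line D
  fib := fun a ha => by
    rw [← chiN_point _ a]
    congr 1
    funext a'
    refine ind_congr ⟨fun h => ?_, by rintro rfl; exact ⟨ha, rfl⟩⟩
    have h0 : ∀ {a}, Normalized _ a → (epsE H a : Fin N → K) ≠ 0 := fun ha h0 =>
      ha.ne_zero ((epsE_bij H).1 (by rw [map_zero]; exact Subtype.ext h0))
    obtain ⟨c, hc⟩ := line_eq_line (h0 ha) (h0 h.1) h.2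
    have h1 : a' = c • a := (epsE_bij H).1 (by rw [map_smul]; exact Subtype.ext hc)
    rw [h1, ha.eq_one (a := c) (h1 ▸ h.1), one_smul]

lemma lineChart_R {H : Submodule ℂ (Fin N → K)} [Module.Finite ℂ H] {D : Place K →₀ ℤ}
    {G : Lat K N} : (lineChart H D).R G ↔ ∃ s ∈ H, s ≠ 0 ∧ G = line s D := by
  constructor
  · rintro ⟨a, ha, rfl⟩
    exact ⟨_, (epsE H a).2, fun h0 => Normalized.ne_zero ha
      ((epsE_bij H).1 (by rw [map_zero]; exact Subtype.ext h0)), rfl⟩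
  · rintro ⟨s, hs, h0, rfl⟩
    obtain ⟨a, ha⟩ := (epsE_bij H).2 ⟨s, hs⟩
    obtain ⟨c, hc, h1⟩ := exists_normalized (c := a) (by
      rintro rfl
      rw [map_zero] at ha
      exact h0 (congrArg Subtype.val ha).symm)
    refine ⟨c • a, h1, ?_⟩
    change line (epsE H (c • a) : Fin N → K) D = _
    rw [map_smul, ha]
    exact line_csmul s hc D

lemma hdim_ne_zero_iff {L : Lat K N} {n : ℤ} : hdim L n ≠ 0 ↔ ∃ s ∈ sec L n, s ≠ 0 := by
  rw [hdim, Int.natCast_ne_zero, Ne, Submodule.finrank_eq_zero, ← Ne, Submodule.ne_bot_iff]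

lemma iso_iff {G : Lat K N} {D : Place K →₀ ℤ} (h1 : rk G = 1) (h2 : chiL G = chiO K + degree D) :
    hdim (G.twist (-D)) 0 ≠ 0 ↔ ∃ s, s ≠ 0 ∧ G = line s D := by
  rw [hdim_ne_zero_iff]
  constructor
  · rintro ⟨s, hs, h0⟩
    exact ⟨s, h0, (eq_of_chiL (line_le_iff_sec.2 hs) (by rw [rk_line h0, h1])
      (by rw [chiL_line h0, h2])).symm⟩
  · rintro ⟨s, h0, rfl⟩
    exact ⟨s, line_le_iff_sec.1 le_rfl, h0⟩

/-- Counting the embeddings of a fixed line bundle. -/
lemma proj_count (F : Lat K N) (D : Place K →₀ ℤ) :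
    (QC F 1 (chiO K + degree D)).int (fun G => ind (hdim (G.twist (-D)) 0 ≠ 0)) =
      hdim (F.twist (-D)) 0 := by
  have h1 : ∀ G, (lineChart (sec (F.twist (-D)) 0) D).R G ↔
      QR F 1 (chiO K + degree D) G ∧ hdim (G.twist (-D)) 0 ≠ 0 := fun G => by
    rw [lineChart_R]
    constructor
    · rintro ⟨s, hs, h0, rfl⟩
      exact ⟨⟨line_le_iff_sec.2 hs, rk_line h0 _, chiL_line h0 _⟩,
        (iso_iff (rk_line h0 _) (chiL_line h0 _)).2 ⟨s, h0, rfl⟩⟩
    · rintro ⟨h1, h2⟩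
      obtain ⟨s, h0, rfl⟩ := (iso_iff h1.2.1 h1.2.2).1 h2
      exact ⟨s, line_le_iff_sec.1 h1.1, h0, rfl⟩
  rw [Chart.int_congr _ (G := fun G => ind (QR F 1 (chiO K + degree D) G ∧
      hdim (G.twist (-D)) 0 ≠ 0)) fun G hG => ind_congr (and_iff_right (QC_R.1 hG)).symm,
    Chart.int_indep _ (lineChart (sec (F.twist (-D)) 0) D),
    Chart.int_congr _ (G := fun _ => 1) fun G hG => ind_true ((h1 G).1 hG)]
  · simpa [Chart.int, lineChart, hdim] using chiN_normalized _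
  · exact ((Del.qr (DMap.const F) DMap.id' _ _).and
      (((dfun_hdim 0).comp (DMap.id'.twist (-D))).del (· ≠ 0))).ind
  · intro G hG
    have h2 : QR F 1 (chiO K + degree D) G ∧ hdim (G.twist (-D)) 0 ≠ 0 :=
      by_contra fun h => hG (ind_false h)
    rw [QC_R, h1]
    exact ⟨fun _ => h2, fun h => h.1⟩

end Pool.Agent.Lib.MP_cc3443_ag
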