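import Pool.Agent.Lib.MP_cc3443_ag.Zeta

open Filter Set WithZero Module Finsupp

noncomputable section

namespace Pool.Agent.Lib.MP_cc3443_ag

variable {K : Type} [Field K]

/-- The linear map sending one frame to a rescaling of another one. -/
def trF (s y s' y' : Fin 2 → K) (α β : K) : (Fin 2 → K) →ₗ[K] (Fin 2 → K) :=
  α • (dt.flip y).smulRight s' + β • (dt s).smulRight y'

lemma trF_apply (s y s' y' : Fin 2 → K) (α β : K) (w : Fin 2 → K) :
    trF s y s' y' α β w = (α * dt w y) • s' + (β * dt s w) • y' := by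
  simp [trF, mul_smul]

lemma dt_trF_snd {s y s' y' : Fin 2 → K} (h : dt s' y' = 1) (α β : K) (w : Fin 2 → K) :
    dt (trF s y s' y' α β w) y' = α * dt w y := by simp [trF_apply, h]

lemma dt_fst_trF {s y s' y' : Fin 2 → K} (h : dt s' y' = 1) (α β : K) (w : Fin 2 → K) :
    dt s' (trF s y s' y' α β w) = β * dt s w := by simp [trF_apply, h]

lemma trF_trF {s y s' y' : Fin 2 → K} (h : dt s y = 1) (h' : dt s' y' = 1) {α β : K} (hα : α ≠ 0)
    (hβ : β ≠ 0) (w : Fin 2 → K) : trF s' y' s y α⁻¹ β⁻¹ (trF s y s' y' α β w) = w := by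
  rw [trF_apply, dt_trF_snd h', dt_fst_trF h', inv_mul_cancel_left₀ hα, inv_mul_cancel_left₀ hβ,
    ← dt_decomp h]

lemma dt_trF_trF {s y s' y' : Fin 2 → K} (h : dt s y = 1) (h' : dt s' y' = 1) (α β : K)
    (v w : Fin 2 → K) : dt (trF s y s' y' α β v) (trF s y s' y' α β w) = α * β * dt v w := by
  conv_rhs => rw [dt_decomp h v, dt_decomp h w]
  simp only [trF_apply, map_add, map_smul, LinearMap.add_apply, LinearMap.smul_apply, dt_self, h,
    h', dt_swap y s, dt_swap y' s', smul_eq_mul]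
  ring

variable [Algebra ℂ K]

variable (K) in
/-- An adelic transformation preserving a flag and the degrees. -/
structure Tr where
  s : Fin 2 → K
  y : Place K → Fin 2 → K
  y₀ : Fin 2 → K
  s' : Fin 2 → K
  y' : Place K → Fin 2 → K
  y₀' : Fin 2 → K
  a : Place K →₀ ℤ
  b : Place K →₀ ℤ
  det : ∀ x, dt s (y x) = 1
  det' : ∀ x, dt s' (y' x) = 1
  ev : ∀ᶠ x in cofinite, y x = y₀
  ev' : ∀ᶠ x in cofinite, y' x = y₀'
  dega : degree a = 0
  degb : degree b = 0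

variable [Algebra (RatFunc ℂ) K] [IsScalarTower ℂ (RatFunc ℂ) K]
  [FiniteDimensional (RatFunc ℂ) K]

lemma mem_line_frame {s y : Fin 2 → K} (h : dt s y = 1) {D : Place K →₀ ℤ} {x : Place K}
    {w : Fin 2 → K} : w ∈ (line s D).S x ↔ x.val (dt w y) ≤ exp (D x) ∧ dt s w = 0 := by
  rw [mem_line]
  constructor
  · rintro ⟨z, hz, rfl⟩
    simpa [h] using hz
  · rintro ⟨h1, h2⟩
    exact ⟨_, h1, by conv_lhs => rw [dt_decomp h w, h2, zero_smul, add_zero]⟩

namespace Tr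
variable (T : Tr K)

/-- The local components. -/
def g (x : Place K) : (Fin 2 → K) →ₗ[K] (Fin 2 → K) :=
  trF T.s (T.y x) T.s' (T.y' x) (x.unif ^ T.a x) (x.unif ^ T.b x)

/-- The inverse transformation. -/
def symm : Tr K :=
  ⟨T.s', T.y', T.y₀', T.s, T.y, T.y₀, -T.a, -T.b, T.det', T.det, T.ev', T.ev,
    by simp [T.dega], by simp [T.degb]⟩

lemma symm_g (x : Place K) (w : Fin 2 → K) : T.symm.g x (T.g x w) = w := by
  simp only [g, symm, Finsupp.neg_apply, zpow_neg]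
  exact trF_trF (T.det x) (T.det' x) (zpow_ne_zero _ x.unif_ne_zero)
    (zpow_ne_zero _ x.unif_ne_zero) w

lemma symm_symm : T.symm.symm = T := by simp [symm]

lemma g_symm (x : Place K) (w : Fin 2 → K) : T.g x (T.symm.g x w) = w := by
  simpa [symm_symm] using T.symm.symm_g x w

lemma ev_g : ∀ᶠ x in cofinite, T.g x = trF T.s T.y₀ T.s' T.y₀' 1 1 := by
  have h1 : ∀ᶠ x in cofinite, T.a x = 0 := T.a.hasFiniteSupport.subset fun x hx => hx
  have h2 : ∀ᶠ x in cofinite, T.b x = 0 := T.b.hasFiniteSupport.subset fun x hx => hx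
  exact ((T.ev.and T.ev').and (h1.and h2)).mono fun x hx => by
    rw [g, hx.1.1, hx.1.2, hx.2.1, hx.2.2, zpow_zero]

/-- The induced correspondence on lattices. -/
def Γ (p : Lat K 2 × Lat K 2) : Prop := ∀ x w, w ∈ p.1.S x ↔ T.g x w ∈ p.2.S x

variable {T} in
lemma Γ.symm {G G' : Lat K 2} (h : T.Γ (G, G')) : T.symm.Γ (G', G) := fun x w => by
  rw [h, T.g_symm]

lemma del_Γ : Del T.Γ := by
  have key : ∀ T : Tr K, DMap fun p : ((Lat K 2 × Lat K 2) × Place K) × (Fin 2 → K) =>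
      T.g p.1.2 p.2 := fun T =>
    (dmap_of_cofinite (f := fun x w => T.g x w) (T.ev_g.mono fun x hx => by rw [hx])
      (fun x => dmap_linear _) (dmap_linear _)).comp
      (f := fun p : ((Lat K 2 × Lat K 2) × Place K) × (Fin 2 → K) => (p.1.2, p.2)) (by fun_prop)
  refine (Del.forall' (P := fun (p : Lat K 2 × Lat K 2) x =>
    (∀ w ∈ p.1.S x, T.g x w ∈ p.2.S x) ∧ ∀ w ∈ p.2.S x, T.symm.g x w ∈ p.1.S x)
    ((Del.map_le (by fun_prop) (by fun_prop) (by fun_prop) (key T)).and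
      (Del.map_le (by fun_prop) (by fun_prop) (by fun_prop) (key T.symm)))).congr fun p => ?_
  refine ⟨fun h x w => ⟨(h x).1 w, fun hw => ?_⟩,
    fun h x => ⟨fun w => (h x w).1, fun w => (Γ.symm h x w).1⟩⟩
  simpa [T.symm_g] using (h x).2 _ hw

variable {T} in
lemma le_iff {G₁ G₂ G₁' G₂' : Lat K 2} (h₁ : T.Γ (G₁, G₁')) (h₂ : T.Γ (G₂, G₂')) :
    G₁ ≤ G₂ ↔ G₁' ≤ G₂' :=
  ⟨fun h x w hw => (h₂.symm x w).2 (h x ((h₁.symm x w).1 hw)),
    fun h x w hw => (h₂ x w).2 (h x ((h₁ x w).1 hw))⟩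

lemma Γ_bot : T.Γ (⊥, ⊥) := fun x w => by
  simp only [Lat.bot_S, Submodule.mem_bot]
  exact ⟨by rintro rfl; simp, fun h => by rw [← T.symm_g x w, h, map_zero]⟩

lemma Γ_line (D : Place K →₀ ℤ) : T.Γ (line T.s D, line T.s' (D - T.a)) := fun x w => by
  simp [mem_line_frame (T.det x), mem_line_frame (T.det' x), g, dt_trF_snd (T.det' x),
    dt_fst_trF (T.det' x), x.val_zpow_mul_le, zpow_ne_zero _ x.unif_ne_zero, -map_mul, -exp_sub]

lemma ex {G : Lat K 2} (h : G.gen = ⊥ ∨ G.gen = K ∙ T.s ∨ G.gen = ⊤) :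
    ∃ G', T.Γ (G, G') ∧ rk G' = rk G ∧ chiL G' = chiL G := by
  obtain ⟨x₀⟩ : Nonempty (Place K) := inferInstance
  have hs := ne_zero_of_dt (T.det x₀)
  have hs' := ne_zero_of_dt (T.det' x₀)
  rcases h with h | h | h
  · rw [Lat.eq_bot_of_gen h]
    exact ⟨⊥, T.Γ_bot, rfl, rfl⟩
  · obtain ⟨D, rfl⟩ := exists_line hs h
    exact ⟨_, T.Γ_line D, by rw [rk_line hs, rk_line hs'],
      by rw [chiL_line hs, chiL_line hs', map_sub, T.dega, sub_zero]⟩
  · have h1 : ∀ x, G.gen.map (T.g x) = ⊤ := fun x => by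
      rw [h, Submodule.map_top, LinearMap.range_eq_top]
      exact fun w => ⟨_, T.g_symm x w⟩
    obtain ⟨x₁, hx₁⟩ := T.ev_g.exists
    let G' := G.mapF T.g _ T.ev_g fun x => by rw [h1, ← hx₁, h1]
    have h2 : T.Γ (G, G') := fun x w => by
      rw [Lat.mem_mapF]
      refine ⟨fun hw => ⟨w, hw, rfl⟩, ?_⟩
      rintro ⟨v, hv, e⟩
      rwa [← T.symm_g x w, ← e, T.symm_g]
    obtain ⟨y, y₀, D₁, D₂, hF⟩ := exists_flag h hs
    have hF' : Flag G' T.s' (fun x => x.unif ^ (-T.b x) • T.g x (y x))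
        (trF T.s T.y₀ T.s' T.y₀' 1 1 y₀) (D₁ - T.a) (D₂ - T.b) :=
      { det := fun x => by
          simp [g, dt_fst_trF (T.det' x), hF.det, zpow_ne_zero _ x.unif_ne_zero]
        ev := by
          have h3 : ∀ᶠ x in cofinite, T.b x = 0 := T.b.hasFiniteSupport.subset fun x hx => hx
          exact (T.ev_g.and (hF.ev.and h3)).mono fun x hx => by simp [hx.1, hx.2.1, hx.2.2]
        mem := fun x w => by
          rw [← T.g_symm x w]
          generalize T.symm.g x w = v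
          rw [← h2, hF.mem, map_smul, g, dt_trF_trF (T.det x) (T.det' x),
            dt_fst_trF (T.det' x), smul_eq_mul, mul_comm (x.unif ^ T.a x), mul_assoc, zpow_neg,
            inv_mul_cancel_left₀ (zpow_ne_zero _ x.unif_ne_zero), x.val_zpow_mul_le,
            x.val_zpow_mul_le]
          simp }
    refine ⟨G', h2, by rw [rk_eq_iff_gen.2 h, rk_eq_iff_gen.2 hF'.gen_eq], ?_⟩
    rw [hF.chiL_eq, hF'.chiL_eq, map_sub, map_sub, T.dega, T.degb, sub_zero, sub_zero]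

lemma iso {E F E' F' : Lat K 2} (hle : F ≤ E) (hE : T.Γ (E, E')) (hF : T.Γ (F, F'))
    (h : ∀ G, F ≤ G → G ≤ E → G.gen = ⊥ ∨ G.gen = K ∙ T.s ∨ G.gen = ⊤)
    (h' : ∀ G, F' ≤ G → G ≤ E' → G.gen = ⊥ ∨ G.gen = K ∙ T.s' ∨ G.gen = ⊤) :
    Iso T.Γ E F E' F' := by
  have h1 : ∀ G G', F ≤ G → G ≤ E → T.Γ (G, G') → rk G' = rk G ∧ chiL G' = chiL G := by
    intro G G' h1 h2 h3
    obtain ⟨G'', h4, h5⟩ := T.ex (h G h1 h2)
    rwa [le_antisymm ((le_iff h3 h4).1 le_rfl) ((le_iff h4 h3).1 le_rfl)]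
  refine ⟨hle, hE, hF, fun G h2 h3 => (T.ex (h G h2 h3)).imp fun _ h => h.1, fun G' h2 h3 => ?_,
    fun _ _ _ _ _ _ _ _ => le_iff, fun G G' h2 h3 h4 => ?_⟩
  · obtain ⟨G, h4, -⟩ := T.symm.ex (h' G' h2 h3)
    have h5 := h4.symm
    rw [symm_symm] at h5
    exact ⟨G, (le_iff hF h5).2 h2, (le_iff h5 hE).2 h3, h5⟩
  · have h5 := h1 G G' h2 h3 h4
    have h6 := h1 F F' le_rfl hle hF
    omega

end Tr

lemma gen_cases_le {s : Fin 2 → K} (hs : s ≠ 0) {W : Submodule K (Fin 2 → K)} (h : W ≤ K ∙ s) :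
    W = ⊥ ∨ W = K ∙ s ∨ W = ⊤ :=
  ((nonzero_span_atom s hs).le_iff.1 h).imp_right Or.inl

lemma gen_cases_ge {s : Fin 2 → K} (hs : s ≠ 0) {W : Submodule K (Fin 2 → K)} (h : K ∙ s ≤ W) :
    W = ⊥ ∨ W = K ∙ s ∨ W = ⊤ := by
  right
  have h1 := Submodule.finrank_mono h
  have h2 := W.finrank_le
  rw [finrank_span_singleton hs] at h1
  rw [finrank_fin_fun] at h2
  by_cases h3 : finrank K W = 1
  · exact Or.inl (Submodule.eq_of_le_of_finrank_eq h (by rw [finrank_span_singleton hs, h3])).symm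
  · exact Or.inr (Submodule.eq_top_of_finrank_eq (by rw [finrank_fin_fun]; omega))

variable (K) in
/-- A divisor of given degree. -/
def ptD (m : ℤ) : Place K →₀ ℤ := single (Classical.arbitrary _) m

@[simp] lemma degree_ptD (m : ℤ) : degree (ptD K m) = m := degree_single _ _

variable (K) in
/-- The split model. -/
def modE (m l : ℤ) : Lat K 2 := split (ptD K m) (ptD K l)

variable (K) in
/-- The first summand of the split model. -/
def modM (m : ℤ) : Lat K 2 := line ![1, 0] (ptD K m)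

lemma modM_le (m l : ℤ) : modM K m ≤ modE K m l := by
  rw [modM, ← (flag_split (ptD K m) (ptD K l)).restrict_eq]
  exact Lat.restrict_le _ _

lemma exists_std {V M : Lat K 2} (hV : V.gen = ⊤) (hM : M ≤ V) (hs : Sat V M) (hr : rk M = 1)
    {m l : ℤ} (hm : chiL M = chiO K + m) (hl : chiL V = 2 * chiO K + m + l) :
    ∃ Γ : Lat K 2 × Lat K 2 → Prop, Del Γ ∧ Iso Γ M ⊥ (modM K m) ⊥ ∧
      ∀ L L', L ≤ M → rk L = 1 → Γ (L, L') → Iso Γ V L (modE K m l) L' := by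
  obtain ⟨s, D, h0, rfl⟩ := exists_line_of_rk hr
  obtain ⟨y, y₀, D₁, D₂, hF⟩ := exists_flag hV h0
  have h1 := hs.eq_restrict hM
  rw [gen_line, hF.restrict_eq] at h1
  obtain rfl := line_inj h0 h1
  rw [chiL_line h0, add_right_inj] at hm
  rw [hF.chiL_eq, hm, add_right_inj] at hl
  have hF' := flag_split (ptD K m) (ptD K l)
  let T : Tr K := ⟨s, y, y₀, ![1, 0], fun _ => ![0, 1], ![0, 1], D - ptD K m, D₂ - ptD K l,
    hF.det, hF'.det, hF.ev, hF'.ev, by simp [hm], by simp [hl]⟩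
  have h2 : T.Γ (line s D, modM K m) := by simpa [T, modM] using T.Γ_line D
  have h3 : T.Γ (V, modE K m l) := fun x w => by
    rw [hF.mem, modE, hF'.mem, Tr.g, dt_trF_snd (T.det' x), dt_fst_trF (T.det' x),
      x.val_zpow_mul_le, x.val_zpow_mul_le]
    simp [T]
  have h4 : Iso T.Γ (line s D) ⊥ (modM K m) ⊥ := T.iso bot_le h2 T.Γ_bot
    (fun G _ h => gen_cases_le h0 (gen_line s D ▸ Lat.gen_mono h))
    fun G _ h => gen_cases_le hF'.ne_zero (gen_line _ (ptD K m) ▸ Lat.gen_mono h)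
  refine ⟨T.Γ, T.del_Γ, h4, fun L L' h5 h6 h7 => T.iso (h5.trans hM) h3 h7 (fun G h _ => ?_)
    fun G h _ => ?_⟩
  · refine gen_cases_ge h0 (le_trans (le_of_eq ?_) (Lat.gen_mono h))
    rw [gen_eq_of_rk h5 (h6.trans hr.symm), gen_line]
  · refine gen_cases_ge hF'.ne_zero (le_trans (le_of_eq ?_) (Lat.gen_mono h))
    have h8 := (h4.cls L L' bot_le h5 h7).1
    rw [gen_eq_of_rk (h4.mem bot_le h5 h7).2 (by rw [modM, rk_line hF'.ne_zero]; omega), modM,
      gen_line]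

end Pool.Agent.Lib.MP_cc3443_ag
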