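import Pool.Agent.Lib.MP_cc3443_ag.Hall

open Filter Set WithZero Module Finsupp

noncomputable section

namespace Pool.Agent.Lib.MP_cc3443_ag

variable {K : Type} [Field K] [Algebra ℂ K] [Algebra (RatFunc ℂ) K]
  [IsScalarTower ℂ (RatFunc ℂ) K] [FiniteDimensional (RatFunc ℂ) K] {N N' : ℕ}

/-- Euler characteristic of the Quot scheme of rank one subsheaves of degree `b`. -/
def qq (F : Lat K N) (b : ℤ) : ℂ := (QC F 1 (chiO K + b)).int fun _ => 1

variable (K) in
/-- Euler characteristic of the symmetric power of the curve. -/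
def SS (k : ℤ) : ℂ := qq (OO K) (-k)

lemma ell_ne_zero_iff {A : Place K →₀ ℤ} (h : degree A = 0) :
    ell K A ≠ 0 ↔ ∃ z : K, z ≠ 0 ∧ A = -divF z := by
  have := iso_iff (G := line (1 : Fin 1 → K) A) (D := 0) (rk_line one_ne_zero _)
    (by rw [chiL_line one_ne_zero, h, map_zero])
  rw [neg_zero, Lat.twist_zero] at this
  rw [ell, this]
  constructor
  · rintro ⟨s, hs, e⟩
    have h0 : s 0 ≠ 0 := fun h0 => hs (by rw [eq_smul_one s, h0, zero_smul])
    rw [eq_smul_one s, line_smul _ h0, zero_sub] at e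
    exact ⟨_, h0, line_inj one_ne_zero e⟩
  · rintro ⟨z, hz, rfl⟩
    exact ⟨z • 1, smul_ne_zero hz one_ne_zero, by rw [line_smul _ hz, zero_sub]⟩

lemma ell_neg_ne_zero {A : Place K →₀ ℤ} (h : degree A = 0) : ell K (-A) ≠ 0 ↔ ell K A ≠ 0 := by
  have key : ∀ A : Place K →₀ ℤ, degree A = 0 → ell K A ≠ 0 → ell K (-A) ≠ 0 := fun A h h1 => by
    obtain ⟨z, hz, rfl⟩ := (ell_ne_zero_iff h).1 h1
    exact (ell_ne_zero_iff (by simp [degree_divF])).2 ⟨z⁻¹, inv_ne_zero hz, by ext x; simp⟩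
  exact ⟨fun h1 => by simpa using key (-A) (by simp [h]) h1, key A h⟩

lemma QR.dv_spec {I : Lat K 1} {n : ℤ} (h : QR (OO K) 1 (chiO K + -n) I) :
    I = line 1 (-dv I) ∧ 0 ≤ dv I ∧ degree (dv I) = n := by
  have h1 := eq_line_dv h.2.1
  have h2 := h.1
  have h3 := h.2.2
  rw [h1] at h2 h3
  rw [chiL_line one_ne_zero, map_neg] at h3
  exact ⟨h1, neg_nonpos.1 ((line_le_line one_ne_zero).1 h2), by omega⟩

lemma dfun_h0 (F : Lat K N) (ε : ℤ) :
    DFun fun I : Lat K 1 => (hdim (F.twist (ε • dv I)) 0 : ℂ) :=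
  ((dfun_hdim 0).comp (DMap.twist_dv DMap.id' (DMap.const F) ε)).map _

/-- Integrating over the Picard variety through the Abel-Jacobi map. -/
lemma zeta (F : Lat K N) (D₀ : Place K →₀ ℤ) {ε : ℤ} (hε : ε = 1 ∨ ε = -1) {n : ℤ}
    (hn : -2 * chiO K < n) :
    (QC (OO K) 1 (chiO K + -n)).int (fun I => (hdim ((F.twist D₀).twist (ε • dv I)) 0 : ℂ)) =
      (chiO K + n : ℤ) * qq F (-degree D₀ - ε * n) := by
  have h1 := (QC (OO K) 1 (chiO K + -n)).double_count (QC F 1 (chiO K + (-degree D₀ - ε * n)))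
    (Γ := fun p => hdim ((p.2.twist D₀).twist (ε • dv p.1)) 0 ≠ 0)
    (((dfun_hdim 0).comp (DMap.twist_dv (by fun_prop) (DMap.twist (by fun_prop) D₀) ε)).del (· ≠ 0))
    (F := fun _ => 1) (F' := fun _ => 1) (DFun.const 1) fun _ _ _ _ _ => rfl
  rw [qq, ← Chart.int_const_mul _ (DFun.const 1)]
  refine Eq.trans (Chart.int_congr _ fun I hI => ?_) (h1.trans (Chart.int_congr _ fun G hG => ?_))
  · have h2 := (QC_R.1 hI).dv_spec.2.2
    have h3 := proj_count F (-(D₀ + ε • dv I))
    rw [neg_neg, map_neg, map_add, map_zsmul, h2, smul_eq_mul, neg_add'] at h3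
    simp only [Lat.twist_twist, one_mul, ← h3]
  · rw [QC_R] at hG
    obtain ⟨s, D, hs, rfl⟩ := exists_line_of_rk hG.2.1
    have h2 := hG.2.2
    rw [chiL_line hs, add_right_inj] at h2
    have h3 := proj_count (OO K) (ε • (D + D₀))
    have h4 : degree (ε • (D + D₀)) = -n := by
      rw [map_zsmul, map_add, h2]
      rcases hε with rfl | rfl <;> simp only [smul_eq_mul] <;> ring
    rw [h4, OO, twist_line, zero_add, ← ell, ell_eq (by rw [map_neg, h4]; omega), map_neg, h4,
      neg_neg] at h3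
    rw [one_mul, mul_one, ← h3]
    refine Chart.int_congr _ fun I hI => ind_congr ?_
    obtain ⟨h5, -, h6⟩ := (QC_R.1 hI).dv_spec
    conv_rhs => rw [h5]
    simp only [twist_line, hdim_line hs]
    rw [← ell, ← ell]
    rcases hε with rfl | rfl
    · rw [← ell_neg_ne_zero (by simp only [map_add, h2, map_zsmul, h6, smul_eq_mul]; ring)]
      congr! 2
      simp only [one_smul]; abel
    · congr! 2
      simp only [neg_smul, one_smul]; abel

lemma exists_big : ∃ n : ℤ, -2 * chiO K < n ∧ ((chiO K + n : ℤ) : ℂ) ≠ 0 :=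
  ⟨2 * |chiO K| + 1, by cases abs_cases (chiO K) <;> omega,
    Int.cast_ne_zero.2 (by cases abs_cases (chiO K) <;> omega)⟩

lemma qq_line {s : Fin N → K} (hs : s ≠ 0) (D : Place K →₀ ℤ) (b : ℤ) :
    qq (line s D) b = SS K (degree D - b) := by
  obtain ⟨n, hn, hn'⟩ := exists_big (K := K)
  obtain ⟨x⟩ : Nonempty (Place K) := inferInstance
  have h1 := zeta (line s D) (single x (-b - n)) (Or.inl rfl) hn
  have h2 := zeta (OO K) (D + single x (-b - n)) (Or.inl rfl) hn
  simp only [OO, twist_line, hdim_line hs, zero_add] at h1 h2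
  have h3 := mul_left_cancel₀ hn' (h1.symm.trans h2)
  simp only [degree_single, map_add] at h3
  rw [SS, OO]
  convert h3 using 2 <;> ring

lemma qq_split (D₁ D₂ : Place K →₀ ℤ) (b : ℤ) :
    qq (split D₁ D₂) b = SS K (degree D₁ - b) + SS K (degree D₂ - b) := by
  obtain ⟨n, hn, hn'⟩ := exists_big (K := K)
  obtain ⟨x⟩ : Nonempty (Place K) := inferInstance
  have h1 := zeta (split D₁ D₂) (single x (-b - n)) (Or.inl rfl) hn
  have h2 := zeta (line (1 : Fin 1 → K) D₁) (single x (-b - n)) (Or.inl rfl) hn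
  have h3 := zeta (line (1 : Fin 1 → K) D₂) (single x (-b - n)) (Or.inl rfl) hn
  have h4 := (QC (OO K) 1 (chiO K + -n)).int_add
    (dfun_h0 ((line (1 : Fin 1 → K) D₁).twist (single x (-b - n))) 1)
    (dfun_h0 ((line (1 : Fin 1 → K) D₂).twist (single x (-b - n))) 1)
  rw [h2, h3, ← mul_add, qq_line one_ne_zero, qq_line one_ne_zero] at h4
  simp only [twist_split, hdim_split, twist_line, Int.cast_add (hdim _ _)] at h1 h4
  have h5 := mul_left_cancel₀ hn' (h1.symm.trans h4)
  simp only [degree_single] at h5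
  convert h5 using 3 <;> ring

lemma SS_neg {k : ℤ} (hk : k < 0) : SS K k = 0 := by
  refine (QC (OO K) 1 (chiO K + -k)).int_eq_zero (F := fun _ => 1) fun I hI => ?_
  obtain ⟨-, h1, h2⟩ := (QC_R.1 hI).dv_spec
  have := degree_nonneg h1
  omega

lemma SS_zero : SS K 0 = 1 := by
  have h : rk (OO K) = 1 := rk_line one_ne_zero _
  refine (QC (OO K) 1 (chiO K + -0)).int_single (F := fun _ => 1) (y₀ := OO K)
    (QC_R.2 ⟨le_rfl, h, by simp [chiO]⟩)
    fun I hI hne => (hne ?_).elim
  rw [QC_R] at hI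
  exact eq_of_chiL hI.1 (hI.2.1.trans h.symm) (by simpa [chiO] using hI.2.2)

lemma int_le_eq_qq {E F : Lat K N} (h : F ≤ E) (b : ℤ) :
    (QC E 1 (chiO K + b)).int (fun G => ind (G ≤ F)) = qq F b := by
  rw [Chart.int_congr _ (G := fun G => ind (QR F 1 (chiO K + b) G))
    fun G hG => ind_congr ⟨fun h => ⟨h, (QC_R.1 hG).2⟩, fun h => h.1⟩,
    Chart.int_indep _ (QC F 1 (chiO K + b)) (Del.qr (DMap.const F) DMap.id' _ _).ind
      fun G hG => ?_]
  · exact Chart.int_congr _ fun G hG => ind_true (QC_R.1 hG)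
  · have := of_ind_ne_zero hG
    rw [QC_R, QC_R]
    exact ⟨fun _ => this, fun _ => ⟨this.1.trans h, this.2⟩⟩

lemma eq_single_of_degree {α : Type*} {D : α →₀ ℤ} (h : 0 ≤ D) (h1 : degree D = 1) :
    ∃ x, D = single x 1 := by
  classical
  obtain ⟨x, hx⟩ : ∃ x, D x ≠ 0 := by
    by_contra h2
    push Not at h2
    rw [show D = 0 from Finsupp.ext h2] at h1
    simp at h1
  have h2 : 0 ≤ D - single x 1 := fun y => by
    have h3 : 0 ≤ D y := h y
    by_cases hy : x = y
    · subst hy; simp; omega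
    · simpa [single_apply, hy] using h3
  refine ⟨x, sub_eq_zero.1 (Finsupp.ext fun y => le_antisymm ?_ (h2 y))⟩
  simpa [h1] using le_degree_of_nonneg h2 y

lemma newton (m : ℕ) : (m : ℂ) * SS K m = SS K 1 * ∑ i ∈ Finset.range m, SS K i := by
  classical
  have hΓ : ∀ j : ℕ, Del fun p : Lat K 1 × Lat K 1 =>
      p.1 ≤ (OO K).twist ((-(j + 1) : ℤ) • dv p.2) := fun j =>
    Del.le (by fun_prop) (DMap.twist_dv (by fun_prop) (by fun_prop) _)
  have h1 : ∀ j : ℕ, (QC (OO K) 1 (chiO K + -m)).int (fun I => (QC (OO K) 1 (chiO K + -1)).int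
      fun P => ind (I ≤ (OO K).twist ((-(j + 1) : ℤ) • dv P))) = SS K 1 * SS K (m - (j + 1)) := by
    intro j
    rw [Chart.int_swap _ _ (hΓ j).ind, SS, qq, ← Chart.int_mul_const _ (DFun.const 1)]
    refine Chart.int_congr _ fun P hP => ?_
    obtain ⟨-, h2, h3⟩ := (QC_R.1 hP).dv_spec
    dsimp only
    rw [int_le_eq_qq, OO, twist_line, qq_line one_ne_zero, one_mul]
    · congr 1
      simp only [zero_add, map_zsmul, h3]
      simp; ring
    · rw [OO, twist_line, line_le_line one_ne_zero, zero_add]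
      exact smul_nonpos_of_nonpos_of_nonneg (by omega) h2
  have h2 : ∑ i ∈ Finset.range m, SS K i = ∑ j ∈ Finset.range m, SS K (m - (j + 1)) := by
    rw [← Finset.sum_range_reflect]
    refine Finset.sum_congr rfl fun j hj => ?_
    rw [Finset.mem_range] at hj
    congr 1
    omega
  rw [h2, Finset.mul_sum, ← Finset.sum_congr rfl fun j _ => h1 j, ← Chart.int_sum, SS, qq,
    ← Chart.int_const_mul _ (DFun.const 1)]
  swap
  · exact fun j _ => Chart.dfun_int _ (hΓ j).ind
  refine Chart.int_congr _ fun I hI => ?_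
  obtain ⟨h3, h4, h5⟩ := (QC_R.1 hI).dv_spec
  have h6 : ∀ (j : ℕ) (x : Place K), I ≤ (OO K).twist ((-(j + 1) : ℤ) •
      dv (line (1 : Fin 1 → K) (-single x 1))) ↔ (j : ℤ) + 1 ≤ dv I x := fun j x => by
    conv_lhs => rw [h3]
    rw [dv_line, OO, twist_line, line_le_line one_ne_zero, zero_add, neg_smul, neg_le_neg_iff]
    refine ⟨fun h => by simpa using h x, fun h y => ?_⟩
    by_cases hy : x = y
    · subst hy; simpa using h
    · simpa [single_apply, hy] using h4 y
  have h7 : ∀ j : ℕ, (QC (OO K) 1 (chiO K + -1)).int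
      (fun P => ind (I ≤ (OO K).twist ((-(j + 1) : ℤ) • dv P))) =
      ∑ x ∈ (dv I).support, ind ((j : ℤ) + 1 ≤ dv I x) := by
    intro j
    rw [Chart.int_finite _ ((dv I).support.image fun x => line (1 : Fin 1 → K) (-single x 1)),
      Finset.sum_image]
    · simp only [h6]
    · intro x _ y _ hxy
      exact single_left_injective one_ne_zero (neg_injective (line_inj one_ne_zero hxy))
    · intro P hP
      obtain ⟨x, -, rfl⟩ := Finset.mem_image.1 hP
      refine QC_R.2 ⟨(line_le_line one_ne_zero).2 ?_, rk_line one_ne_zero _, ?_⟩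
      · exact neg_nonpos.2 (single_nonneg.2 zero_le_one)
      · simp [chiL_line one_ne_zero]
    · intro P hP hP'
      obtain ⟨h8, h9, h10⟩ := (QC_R.1 hP).dv_spec
      obtain ⟨x, hx⟩ := eq_single_of_degree h9 h10
      rw [hx] at h8
      rw [h8, h6]
      refine ind_false fun h => hP' (Finset.mem_image.2 ⟨x, mem_support_iff.2 ?_, h8.symm⟩)
      omega
  simp only [h7]
  rw [Finset.sum_comm, mul_one, ← Int.cast_natCast, ← h5, degree_apply, Int.cast_sum]
  refine Finset.sum_congr rfl fun x _ => ?_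
  have h8 : 0 ≤ dv I x := h4 x
  have h9 := le_degree_of_nonneg h4 x
  obtain ⟨k, hk⟩ := Int.eq_ofNat_of_zero_le h8
  rw [hk, ← Finset.sum_subset (s₁ := Finset.range k) (Finset.range_mono (by omega))
    fun j _ hj => ind_false (by rw [Finset.mem_range] at hj; omega),
    Finset.sum_congr rfl fun j hj => ind_true (by rw [Finset.mem_range] at hj; omega)]
  simp

lemma SS_rec (m : ℕ) : ((m : ℂ) + 1) * SS K (m + 1) = (m + SS K 1) * SS K m := by
  have h1 := newton (K := K) (m + 1)
  rw [Finset.sum_range_succ, mul_add, ← newton] at h1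
  push_cast at h1
  linear_combination h1

lemma zeta_dual {V : Lat K N} {κ : Place K →₀ ℤ} {c r : ℤ}
    (h : ∀ D : Place K →₀ ℤ, hdim (V.twist D) 0 - hdim (V.twist (κ - D)) 0 = c + r * degree D)
    {n : ℤ} (hn : -2 * chiO K < n) (b : ℤ) :
    (chiO K + n : ℤ) * (qq V b - qq V (-degree κ - b)) = (c - r * b : ℤ) * SS K n := by
  obtain ⟨x⟩ : Nonempty (Place K) := inferInstance
  have h1 := zeta V (single x (-b - n)) (Or.inl rfl) hn
  have h2 := zeta V (κ - single x (-b - n)) (Or.inr rfl) hn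
  simp only [degree_single, map_sub] at h1 h2
  rw [show -(-b - n) - 1 * n = b by ring] at h1
  rw [show -(degree κ - (-b - n)) - -1 * n = -degree κ - b by ring] at h2
  rw [mul_sub, ← h1, ← h2, sub_eq_iff_eq_add, SS, qq, ← Chart.int_const_mul _ (DFun.const 1),
    ← Chart.int_add _ ((DFun.const _).mul (DFun.const 1)) (dfun_h0 _ _)]
  refine Chart.int_congr _ fun I hI => ?_
  have h3 := h (single x (-b - n) + dv I)
  rw [map_add, degree_single, (QC_R.1 hI).dv_spec.2.2] at h3
  simp only [Lat.twist_twist, one_smul, neg_smul, mul_one, ← sub_eq_add_neg, sub_sub]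
  rw [← Int.cast_add]
  congr 1
  linear_combination h3

lemma SS_fun {n : ℤ} (hn : -2 * chiO K < n) (k : ℤ) :
    (chiO K + n : ℤ) * (SS K k - SS K (-2 * chiO K - k)) = (chiO K + k : ℤ) * SS K n := by
  have := zeta_dual (V := OO K) (κ := canon K) (c := chiO K) (r := 1) (fun D => by
    simpa [OO, twist_line, ell] using ell_sub D) hn (-k)
  rw [degree_canon, show -(-2 * chiO K) - -k = -(-2 * chiO K - k) by ring,
    show chiO K - 1 * -k = chiO K + k by ring] at this
  exact this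

lemma SS_big (hχ : chiO K ≤ 0) {n : ℤ} (hn : -2 * chiO K < n) : SS K n = 0 := by
  by_contra h0
  have h1 : ∀ m : ℤ, -2 * chiO K < m → (chiO K + n) * SS K m = (chiO K + m) * SS K n := by
    intro m hm
    have := SS_fun hn (-2 * chiO K - m)
    rw [SS_neg (k := -2 * chiO K - m) (by omega), sub_sub_cancel] at this
    push_cast at this
    linear_combination -this
  obtain ⟨m, rfl⟩ := Int.eq_ofNat_of_zero_le (show 0 ≤ n by omega)
  have h2 : ((chiO K : ℂ) + m) ≠ 0 := by
    have : ((chiO K + m : ℤ) : ℂ) ≠ 0 := Int.cast_ne_zero.2 (by omega)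
    exact_mod_cast this
  have h3 := h1 (m + 1) (by omega)
  have h4 := h1 (m + 1 + 1) (by omega)
  have h5 := SS_rec (K := K) m
  have h6 := SS_rec (K := K) (m + 1)
  push_cast at h3 h4 h5 h6
  have h7 : ((m : ℂ) + 1) * (chiO K + (m + 1)) = (m + SS K 1) * (chiO K + m) :=
    mul_right_cancel₀ h0 (by linear_combination (chiO K + m) * h5 - (m + 1) * h3)
  have h8 : ((m : ℂ) + 1 + 1) * (chiO K + (m + 1 + 1)) = (m + 1 + SS K 1) * (chiO K + (m + 1)) :=
    mul_right_cancel₀ h0 (by
      linear_combination (chiO K + m) * h6 - (m + 1 + 1) * h4 + (m + 1 + SS K 1) * h3)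
  have h9 : SS K 1 = 2 := by linear_combination h7 - h8
  rw [h9] at h7
  have h10 : (chiO K : ℂ) = 1 := by linear_combination -h7
  have : chiO K = 1 := by exact_mod_cast h10
  omega

lemma SS_symm (hχ : chiO K ≤ 0) (k : ℤ) : SS K (-2 * chiO K - k) = SS K k := by
  obtain ⟨n, hn, hn'⟩ := exists_big (K := K)
  have := SS_fun hn k
  rw [SS_big hχ hn, mul_zero, mul_eq_zero, or_iff_right hn', sub_eq_zero] at this
  exact this.symm

lemma qq_symm (hχ : chiO K ≤ 0) {V : Lat K 2} (hV : V.gen = ⊤) (b : ℤ) :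
    qq V (chiL V - b) = qq V b := by
  obtain ⟨n, hn, hn'⟩ := exists_big (K := K)
  obtain ⟨κ, h1, h2⟩ := exists_dual_two hV
  have := zeta_dual h2 hn b
  rw [SS_big hχ hn, mul_zero, mul_eq_zero, or_iff_right hn', sub_eq_zero, h1, neg_neg] at this
  exact this.symm

end Pool.Agent.Lib.MP_cc3443_ag
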